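import Pool.Agent.MP_88bd62_nt.B.Defs

/-! The records of a block of 64 points, and the spacing of the cells. -/

namespace Pool.Agent.MP_88bd62_nt.B

open Finset Real Pool.Agent.MP_90395b_gt.Bn

set_option exponentiation.threshold 1000

noncomputable def xBlk_t (m : ℕ) : ℝ := 1961400 * 2 ^ 40 * logb 2 (m / 65536)

theorem xBlk_split {m : ℕ} (hm : m ≠ 0) : m = 2 ^ vv m * nn m ∧ Odd (nn m) := by
  unfold nn vv
  have h1 : 2 ^ padicValNat 2 m ∣ m := pow_padicValNat_dvd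
  refine ⟨(Nat.mul_div_cancel' h1).symm, ?_⟩
  rw [← Nat.not_even_iff_odd, even_iff_two_dvd]
  intro h2
  have : 2 ^ (padicValNat 2 m + 1) ∣ m := by
    obtain ⟨c, hc⟩ := h2
    refine ⟨c, ?_⟩
    rw [pow_succ, mul_assoc, ← hc, Nat.mul_div_cancel' h1]
  exact pow_succ_padicValNat_not_dvd hm this

theorem xBlk_vv (v n : ℕ) (hn : Odd n) : vv (2 ^ v * n) = v := by
  unfold vv
  rw [padicValNat.mul (by positivity) hn.pos.ne', padicValNat.prime_pow,
    padicValNat.eq_zero_of_not_dvd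
      (by rw [← even_iff_two_dvd]; exact Nat.not_even_iff_odd.2 hn), add_zero]

theorem xBlk_xor (v n : ℕ) (hn : Odd n) : (2 ^ v * n) ^^^ (2 ^ v * n - 1) = 2 ^ (v + 1) - 1 := by
  obtain ⟨k, rfl⟩ := hn
  have hp : 0 < 2 ^ v := by positivity
  have h1 : 2 ^ v * (2 * k + 1) = 2 ^ (v + 1) * k + 2 ^ v := by ring
  have h2 : 2 ^ (v + 1) * k + 2 ^ v - 1 = 2 ^ (v + 1) * k + (2 ^ v - 1) := by omega
  have h3 : 2 ^ v < 2 ^ (v + 1) := by rw [pow_succ]; omega
  have h4 : 2 ^ v - 1 < 2 ^ (v + 1) := by omega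
  rw [h1, h2]
  refine Nat.eq_of_testBit_eq fun j => ?_
  rw [Nat.testBit_xor, Nat.testBit_two_pow_mul_add _ h3, Nat.testBit_two_pow_mul_add _ h4,
    Nat.testBit_two_pow_sub_one, Nat.testBit_two_pow_sub_one, Nat.testBit_two_pow]
  by_cases hj : j < v + 1
  · rw [if_pos hj, if_pos hj]
    by_cases hv : v = j
    · subst hv; simp
    · have : j < v := by omega
      simp [hv, this, hj]
  · rw [if_neg hj, if_neg hj]
    simp [hj]

theorem xBlk_log2 {m : ℕ} (hm : m ≠ 0) : Nat.log2 (m ^^^ (m - 1)) = vv m := by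
  obtain ⟨h1, h2⟩ := xBlk_split hm
  have h3 := xBlk_xor (vv m) (nn m) h2
  rw [← h1] at h3
  have hp : 0 < 2 ^ vv m := by positivity
  rw [h3, Nat.log2_eq_log_two]
  refine Nat.log_eq_of_pow_le_of_lt_pow ?_ ?_
  · rw [pow_succ]; omega
  · rw [pow_succ]; omega

theorem xBlk_gap {m m' : ℕ} (hm : 0 < m) (h : m < m') (h' : m' ≤ 131072) :
    xBlk_t m + 13 * 2 ^ 40 ≤ xBlk_t m' := by
  unfold xBlk_t
  have hm0 : (0 : ℝ) < m := by exact_mod_cast hm
  have hmm : (m : ℝ) + 1 ≤ m' := by exact_mod_cast h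
  have hm' : (m' : ℝ) ≤ 131072 := by exact_mod_cast h'
  have hm1 : (0 : ℝ) < m' := by linarith
  have e : logb 2 ((m' : ℝ) / 65536) = logb 2 ((m : ℝ) / 65536) + log (m' / m) / log 2 := by
    rw [← logb, ← logb_mul (by positivity) (by positivity)]
    congr 1
    field_simp
  have l2 : 0 < log 2 := log_pos (by norm_num)
  have l3 := log_two_lt_d9
  have h1 : 1 - ((m' : ℝ) / m)⁻¹ ≤ log (m' / m) := one_sub_inv_le_log_of_pos (by positivity)
  have h2 : (1 : ℝ) / 131072 ≤ 1 - ((m' : ℝ) / m)⁻¹ := by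
    rw [inv_div, le_sub_iff_add_le, ← le_sub_iff_add_le', div_le_iff₀ hm1]
    nlinarith
  have h3 : (13 : ℝ) / 1961400 ≤ log (m' / m) / log 2 := by
    rw [le_div_iff₀ l2]
    nlinarith
  rw [e]
  nlinarith

theorem xBlk_top : xBlk_t 131072 = 1961400 * 2 ^ 40 := by
  unfold xBlk_t
  have : ((131072 : ℕ) : ℝ) / 65536 = 2 := by norm_num
  rw [this, logb_self_eq_one (by norm_num), mul_one]

theorem xBlk_bot : xBlk_t 65536 = 0 := by
  unfold xBlk_t
  have : ((65536 : ℕ) : ℝ) / 65536 = 1 := by norm_num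
  rw [this, logb_one, mul_zero]

theorem xBlk_add {m d : ℕ} (hm : 0 < m) :
    xBlk_t (m + d) = xBlk_t m + 1961400 * 2 ^ 40 * logb 2 (((m : ℝ) + d) / m) := by
  unfold xBlk_t
  have hm0 : (0 : ℝ) < m := by exact_mod_cast hm
  rw [← mul_add, ← logb_mul (by positivity) (by positivity)]
  congr 2
  push_cast
  field_simp

def xBlk_Good (f : ℕ → ℕ → ℕ → ℕ) (d : ℕ) (e : ℝ) : Prop :=
  ∀ m Y : ℕ, d ∣ m → 65536 ≤ m → m + d ≤ 131072 → |(Y : ℝ) - xBlk_t m| ≤ e →
    ∃ g : ℕ → ℕ, f (vv m) m Y = pk 640 d g ∧ ∀ r < d, Rec (m + r) (g r)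

theorem xBlk_item (hI : StItem) (hF : StFlg) :
    xBlk_Good (item 5178085 86873951174656 7845600) 1 64 := by
  intro m Y _ h1 h2 hY
  obtain ⟨e1, e2⟩ := xBlk_split (m := m) (by omega)
  have hp : 0 < 2 ^ vv m := by positivity
  have hn : nn m < 2 ^ 17 := by
    have : nn m ≤ m := Nat.div_le_self _ _
    omega
  obtain ⟨T, hT1, hT2⟩ := hI (vv m) (nn m) Y e2.pos hn
  rw [← e1] at hT1
  refine ⟨fun _ => item 5178085 86873951174656 7845600 (vv m) m Y, ?_, ?_⟩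
  · unfold pk
    rw [sum_range_one, mul_zero, pow_zero, mul_one]
  · intro r hr
    obtain rfl : r = 0 := by omega
    refine ⟨Y, T, ?_, ?_, hY, hT2⟩
    · have e3 : m >>> vv m = nn m := Nat.shiftRight_eq_div_pow _ _
      beta_reduce
      rw [item_eq, e3, hF _ e2, Nat.shiftRight_eq_div_pow, hT1, Nat.shiftLeft_eq,
        Nat.shiftLeft_eq, add_zero]
    · have g1 := xBlk_gap (m := m) (m' := 131072) (by omega) (by omega) le_rfl
      rw [xBlk_top] at g1
      have g2 := (abs_le.1 hY).2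
      have : (Y : ℝ) < 2 ^ 63 := by
        have : (1961400 : ℝ) * 2 ^ 40 + 64 < 2 ^ 63 := by norm_num
        have : (0 : ℝ) < 13 * 2 ^ 40 := by norm_num
        linarith
      exact_mod_cast this

theorem xBlk_step (hL : StLog) {f : ℕ → ℕ → ℕ → ℕ} {i d d' : ℕ} {e e' : ℝ} (hd : d = 2 ^ i)
    (hd' : d' = d + d) (h32 : d ≤ 32) (he : e' + 6 ≤ e) (hf : xBlk_Good f d e) :
    xBlk_Good (nd 6222580621269191297 f i d) d' e' := by
  intro m Y h0 h1 h2 hY
  subst hd'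
  have hp : 0 < d := by rw [hd]; positivity
  obtain ⟨c, hc⟩ := h0
  have hdm : d ∣ m := ⟨2 * c, by rw [hc]; ring⟩
  have hv : vv (m + d) = i := by
    have : m + d = 2 ^ i * (2 * c + 1) := by rw [hc, ← hd]; ring
    rw [this]
    exact xBlk_vv _ _ ⟨c, rfl⟩
  obtain ⟨g1, a1, b1⟩ := hf m Y hdm h1 (by omega) (by linarith)
  have hl := hL.2 m d h1 hp h32
  obtain ⟨g2, a2, b2⟩ := hf (m + d) (Y + at1 (6222580621269191297 * d)
      (6222580621269191297 * d ^ 3 / 3) (m + (m + d))) (Dvd.dvd.add hdm dvd_rfl) (by omega)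
      (by omega) (by
    rw [xBlk_add (by omega), Nat.cast_add]
    have h3 := abs_le.1 hY
    have h4 := abs_le.1 hl
    rw [abs_le]
    constructor <;> linarith [h3.1, h3.2, h4.1, h4.2])
  rw [hv] at a2
  refine ⟨fun r => if r < d then g1 r else g2 (r - d), ?_, ?_⟩
  · rw [nd_eq, nda_eq, a1, a2, pk_append, Nat.shiftLeft_eq]
    congr 1
    · exact pk_congr fun r hr => by rw [if_pos hr]
    · congr 1
      exact pk_congr fun r _ => by rw [if_neg (by omega), Nat.add_sub_cancel_left]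
  · intro r hr
    by_cases h : r < d
    · simp only [if_pos h]
      exact b1 r h
    · simp only [if_neg h]
      have := b2 (r - d) (by omega)
      rwa [show m + d + (r - d) = m + r by omega] at this

theorem stBlk (hI : StItem) (hF : StFlg) (hL : StLog) : StBlk := by
  intro m h0 h1 h2
  have s0 := xBlk_item hI hF
  have s1 := xBlk_step hL (i := 0) (d := 1) (d' := 2) (e' := 58) rfl rfl (by norm_num)
    (by norm_num) s0
  have s2 := xBlk_step hL (i := 1) (d := 2) (d' := 4) (e' := 52) rfl rfl (by norm_num)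
    (by norm_num) s1
  have s3 := xBlk_step hL (i := 2) (d := 4) (d' := 8) (e' := 46) rfl rfl (by norm_num)
    (by norm_num) s2
  have s4 := xBlk_step hL (i := 3) (d := 8) (d' := 16) (e' := 40) rfl rfl (by norm_num)
    (by norm_num) s3
  have s5 := xBlk_step hL (i := 4) (d := 16) (d' := 32) (e' := 34) rfl rfl (by norm_num)
    (by norm_num) s4
  have s6 := xBlk_step hL (i := 5) (d := 32) (d' := 64) (e' := 28) rfl rfl (by norm_num)
    (by norm_num) s5
  rw [blkD_eq, xBlk_log2 (by omega)]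
  refine s6 m _ h0 h1 h2 ?_
  have := hL.1 m h1 (by omega)
  unfold xBlk_t
  linarith

theorem xBlk_rec {m D : ℕ} (h : Rec m D) :
    D < 2 ^ 640 ∧ ∃ Y : ℕ, pos D = Y / 2 ^ 40 ∧ |(Y : ℝ) - xBlk_t m| ≤ 64 := by
  obtain ⟨Y, T, hD, hY, hl, hT⟩ := h
  have h1 : pk 48 12 T < 2 ^ 576 := pk_lt (hT.1.mono (by norm_num))
  obtain ⟨b, hb, hb'⟩ : ∃ b : ℕ, b ≤ 1 ∧ D = Y + b * 2 ^ 63 + pk 48 12 T * 2 ^ 64 :=
    ⟨_, by split_ifs <;> norm_num, hD⟩
  generalize pk 48 12 T = P at h1 hb'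
  refine ⟨?_, Y, ?_, hl⟩
  · have h2 : (P + 1) * 2 ^ 64 ≤ 2 ^ 576 * 2 ^ 64 := Nat.mul_le_mul_right _ h1
    have h3 : (2 : ℕ) ^ 640 = 2 ^ 576 * 2 ^ 64 := by rw [← pow_add]
    rw [h3]
    refine lt_of_lt_of_le ?_ h2
    omega
  · unfold pos
    congr 1
    omega

theorem stPos : StPos := by
  intro m D h1 h2 hR
  obtain ⟨a, Y, b, c⟩ := xBlk_rec hR
  have c' := abs_le.1 c
  refine ⟨a, ?_, ?_, ?_⟩
  · have g1 := xBlk_gap (m := m) (m' := 131072) (by omega) (by omega) le_rfl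
    rw [xBlk_top] at g1
    have : (Y : ℝ) + 12 * 2 ^ 40 ≤ 1961400 * 2 ^ 40 := by
      have : (64 : ℝ) ≤ 2 ^ 40 := by norm_num
      linarith [c'.2]
    have : Y + 12 * 2 ^ 40 ≤ 1961400 * 2 ^ 40 := by exact_mod_cast this
    omega
  · rintro rfl
    rw [xBlk_bot] at c'
    have : (Y : ℝ) ≤ 64 := by linarith [c'.2]
    have : Y ≤ 64 := by exact_mod_cast this
    omega
  · intro m' D' h3 hR' h4
    obtain ⟨_, Y', b', d⟩ := xBlk_rec hR'
    have d' := abs_le.1 d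
    have g1 := xBlk_gap (m := m) (m' := m') (by omega) h3 h4.le
    have : (Y : ℝ) + 12 * 2 ^ 40 ≤ Y' := by
      have : (128 : ℝ) ≤ 2 ^ 40 := by norm_num
      linarith [c'.2, d'.1]
    have : Y + 12 * 2 ^ 40 ≤ Y' := by exact_mod_cast this
    omega

end Pool.Agent.MP_88bd62_nt.B
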