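import Pool.Agent.MP_88bd62_nt.B.Defs

/-! The exact form of the result of the convolution. -/

namespace Pool.Agent.MP_88bd62_nt.B

open Finset Real Pool.Agent.MP_90395b_gt.Bn Pool.Agent.MP_88bd62_nt.U

theorem xCnv_ev_add (Q : ℕ) (a b : GaussianInt) : ev Q (a + b) = ev Q a + ev Q b := by
  unfold ev
  rw [Zsqrtd.re_add, Zsqrtd.im_add]
  ring

theorem xCnv_ev_zero (Q : ℕ) : ev Q 0 = 0 := by
  unfold ev
  rw [Zsqrtd.re_zero, Zsqrtd.im_zero, zero_mul, add_zero]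

theorem xCnv_ev_sum (Q : ℕ) (s : Finset ℕ) (f : ℕ → GaussianInt) :
    ev Q (∑ i ∈ s, f i) = ∑ i ∈ s, ev Q (f i) := by
  induction s using Finset.induction_on with
  | empty => rw [sum_empty, sum_empty, xCnv_ev_zero]
  | insert a s ha ih => rw [sum_insert ha, sum_insert ha, xCnv_ev_add, ih]

theorem xCnv_coll {M : Type} [AddCommMonoid M] (Q : ℕ) (S : Finset ℕ) (p : ℕ → ℕ)
    (hp : ∀ a ∈ S, p a + 12 ≤ Q) (F : ℕ → ℕ → ℕ → M) :
    ∑ j ∈ range Q, ∑ a ∈ S, ∑ i ∈ range 6, (if p a + i = j then F a i j else 0) =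
      ∑ a ∈ S, ∑ i ∈ range 6, F a i (p a + i) := by
  rw [sum_comm]
  refine sum_congr rfl fun a ha => ?_
  rw [sum_comm]
  refine sum_congr rfl fun i hi => ?_
  have h1 := hp a ha
  have h2 := mem_range.1 hi
  rw [sum_ite_eq, if_pos (mem_range.2 (by omega))]

theorem xCnv_gz (a b h : ℕ) : ((gz a b h : GaussianInt) : ℂ) = cz a b h := by
  rw [GaussianInt.toComplex_def]
  unfold gz cz
  push_cast
  ring

theorem xCnv_ex_norm (x : ℝ) : ‖ex x‖ = 1 := by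
  unfold ex
  exact Complex.norm_exp_ofReal_mul_I _

theorem xCnv_ex_add (x y : ℝ) : ex (x + y) = ex x * ex y := by
  unfold ex
  rw [← Complex.exp_add]
  congr 1
  push_cast
  ring

theorem xCnv_ex_int (n : ℤ) : ex n = 1 := by
  unfold ex
  rw [← Complex.exp_int_mul_two_pi_mul_I n]
  congr 1
  push_cast
  ring

theorem xCnv_ex_quarter : ex (1 / 4) = Complex.I := by
  unfold ex
  refine Eq.trans (congrArg Complex.exp ?_) Complex.exp_pi_div_two_mul_I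
  push_cast
  ring

theorem xCnv_Dk (Q r : ℕ) (hQ : Q = 2 * r) (hr : 0 < r) (m : ℤ) :
    Dk Q (m - Q) = Complex.I * Dk Q m := by
  unfold Dk
  have hr' : (r : ℝ) ≠ 0 := by exact_mod_cast hr.ne'
  have e : (2 * ((m - Q : ℤ) : ℝ) ^ 2 - ((m - Q : ℤ) : ℝ)) / (4 * Q) =
      1 / 4 + (2 * (m : ℝ) ^ 2 - m) / (4 * Q) + ((r - m : ℤ) : ℝ) := by
    subst hQ
    push_cast
    field_simp
    ring
  rw [e, xCnv_ex_add, xCnv_ex_add, xCnv_ex_int, xCnv_ex_quarter, mul_one]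

theorem xCnv_tw (Q r : ℕ) (hQ : Q = 2 * r) (d : ℕ → GaussianInt)
    (hd : ∀ l < Q, ‖(d l : ℂ) / 2 ^ 14 - Dk Q l‖ ≤ 0.000106) {l j : ℕ} (hl : l < Q) (hj : j < Q) :
    ‖(tw Q d l j : ℂ) / 2 ^ 14 - Dk Q ((l : ℤ) - j)‖ ≤ 0.000106 := by
  unfold tw
  split_ifs with h
  · have := hd (l - j) (by omega)
    rwa [Nat.cast_sub h] at this
  · have h1 := hd (l + Q - j) (by omega)
    have e : (l : ℤ) - j = ((l + Q - j : ℕ) : ℤ) - Q := by omega
    have eI : (((⟨0, 1⟩ : GaussianInt)) : ℂ) = Complex.I := by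
      rw [GaussianInt.toComplex_def]; simp
    rw [e, xCnv_Dk Q r hQ (by omega), GaussianInt.toComplex_mul, eI, mul_div_assoc, ← mul_sub,
      norm_mul, Complex.norm_I, one_mul]
    exact h1

theorem xCnv_sum (s : Finset ℕ) (f : ℕ → GaussianInt) :
    ((∑ i ∈ s, f i : GaussianInt) : ℂ) = ∑ i ∈ s, (f i : ℂ) :=
  map_sum GaussianInt.toComplex f s

theorem stCnv (hS : StSep) (hV : StConv) (hR : StRed) (hK : StKern) : StCnv := by
  intro q Q S p V hq1 hq2 hQ hp hsp hsum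
  obtain ⟨r, hr⟩ : ∃ r, Q = 2 * r := by
    obtain ⟨r, hr⟩ := Nat.even_mul_succ_self q
    exact ⟨r, by omega⟩
  obtain ⟨hK1, d, hK2, hd⟩ := hK q Q hq1 hq2 hQ
  obtain ⟨hS1, hS2⟩ := hS Q S p V hp hsp _ rfl _ rfl
  have hp' : ∀ a ∈ S, p a + 12 ≤ Q := fun a ha => (hp a ha).1
  set g : ℕ → ℕ → GaussianInt := fun a i => gz (V a i) (V a (6 + i)) (2 ^ 28) with hg
  set x : ℕ → GaussianInt :=
    fun j => ∑ a ∈ S, ∑ i ∈ range 6, (if p a + i = j then g a i else 0) with hx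
  have hcv : cv Q x = ∑ a ∈ S, ∑ i ∈ range 6, ev Q (g a i) * 2 ^ (48 * (p a + i)) := by
    rw [← xCnv_coll Q S p hp' (fun a i j => ev Q (g a i) * 2 ^ (48 * j))]
    refine sum_congr rfl fun j _ => ?_
    rw [hx]
    beta_reduce
    rw [xCnv_ev_sum, sum_mul]
    refine sum_congr rfl fun a _ => ?_
    rw [xCnv_ev_sum, sum_mul]
    refine sum_congr rfl fun i _ => ?_
    split_ifs
    · rfl
    · rw [xCnv_ev_zero, zero_mul]
  set y : ℕ → GaussianInt := fun l => ∑ j ∈ range Q, x j * tw Q d l j with hy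
  have hyl : ∀ l, (y l : ℂ) = ∑ a ∈ S, ∑ i ∈ range 6,
      cz (V a i) (V a (6 + i)) (2 ^ 28) * (tw Q d l (p a + i) : ℂ) := by
    intro l
    have : y l = ∑ a ∈ S, ∑ i ∈ range 6, g a i * tw Q d l (p a + i) := by
      rw [← xCnv_coll Q S p hp' (fun a i j => g a i * tw Q d l j)]
      refine sum_congr rfl fun j _ => ?_
      rw [hx]
      beta_reduce
      rw [sum_mul]
      refine sum_congr rfl fun a _ => ?_
      rw [sum_mul]
      refine sum_congr rfl fun i _ => ?_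
      split_ifs
      · rfl
      · rw [zero_mul]
    rw [this, xCnv_sum]
    refine sum_congr rfl fun a _ => ?_
    rw [xCnv_sum]
    refine sum_congr rfl fun i _ => ?_
    rw [GaussianInt.toComplex_mul, hg]
    beta_reduce
    rw [xCnv_gz]
  have herr : ∀ l < Q, ‖(y l : ℂ) / 2 ^ 14 - ∑ a ∈ S, ∑ i ∈ range 6,
        cz (V a i) (V a (6 + i)) (2 ^ 28) * Dk Q ((l : ℤ) - (p a + i : ℕ))‖ ≤
      0.000106 * ∑ a ∈ S, ∑ i ∈ range 6, ‖cz (V a i) (V a (6 + i)) (2 ^ 28)‖ := by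
    intro l hl
    rw [hyl, sum_div, ← sum_sub_distrib, mul_sum]
    refine (norm_sum_le _ _).trans (sum_le_sum fun a ha => ?_)
    rw [sum_div, ← sum_sub_distrib, mul_sum]
    refine (norm_sum_le _ _).trans (sum_le_sum fun i hi => ?_)
    have h1 := hp' a ha
    have h2 := mem_range.1 hi
    rw [mul_div_assoc, ← mul_sub, norm_mul, mul_comm]
    exact mul_le_mul_of_nonneg_right (xCnv_tw Q r hr d hd hl (by omega)) (norm_nonneg _)
  have hbd : ∀ l < Q, ‖(y l : ℂ)‖ ≤ 6.6 * 2 ^ 42 := by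
    intro l hl
    have h1 := herr l hl
    have h2 : ‖∑ a ∈ S, ∑ i ∈ range 6,
        cz (V a i) (V a (6 + i)) (2 ^ 28) * Dk Q ((l : ℤ) - (p a + i : ℕ))‖ ≤
        ∑ a ∈ S, ∑ i ∈ range 6, ‖cz (V a i) (V a (6 + i)) (2 ^ 28)‖ := by
      refine (norm_sum_le _ _).trans (sum_le_sum fun a _ => ?_)
      refine (norm_sum_le _ _).trans (sum_le_sum fun i _ => ?_)
      rw [norm_mul, Dk, xCnv_ex_norm, mul_one]
    have h3 := (norm_le_norm_add_norm_sub' ((y l : ℂ) / 2 ^ 14) _).trans (add_le_add h2 h1)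
    rw [norm_div, norm_pow, Complex.norm_ofNat, div_le_iff₀ (by positivity)] at h3
    generalize ∑ a ∈ S, ∑ i ∈ range 6, ‖cz (V a i) (V a (6 + i)) (2 ^ 28)‖ = T at h3 hsum
    norm_num at h3 hsum ⊢
    linarith
  refine ⟨y, ⟨?_, hbd⟩, herr⟩
  have e1 : ones (48 * Q + 48 * Q) / (2 ^ 48 - 1) = pk 48 (2 * Q) fun _ => 1 := by
    rw [show 48 * Q + 48 * Q = 48 * (2 * Q) by ring, ones_div (by norm_num)]
  rw [cnv0_eq, cnv1_eq, cnv_eq, e1, Nat.shiftLeft_eq _ 45]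
  refine hR Q (2 ^ 45) 432 _ y ?_ ?_ ?_ (by norm_num)
  · rw [Nat.cast_mul]
    rw [← hcv] at hS2
    exact (hS2.mul hK2).trans (hV Q x d)
  · refine (Nat.mul_lt_mul'' hS1 hK1).trans_le ?_
    rw [← pow_add]
    exact Nat.pow_le_pow_right (by norm_num) (by omega)
  · intro l hl
    have h1 := hbd l hl
    have h2 := (Complex.abs_re_le_norm (y l : ℂ)).trans h1
    have h3 := (Complex.abs_im_le_norm (y l : ℂ)).trans h1
    rw [← GaussianInt.intCast_re, ← Int.cast_abs] at h2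
    rw [← GaussianInt.intCast_im, ← Int.cast_abs] at h3
    constructor
    · have : ((|(y l).re| : ℤ) : ℝ) ≤ (((2 ^ 45 : ℕ) : ℤ) : ℝ) := h2.trans (by norm_num)
      exact_mod_cast this
    · have : ((|(y l).im| : ℤ) : ℝ) ≤ (((2 ^ 45 : ℕ) : ℤ) : ℝ) := h3.trans (by norm_num)
      exact_mod_cast this

end Pool.Agent.MP_88bd62_nt.B
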