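import Pool.Agent.MP_88bd62_nt.B.Defs

/-! The comb of roots of unity. -/

namespace Pool.Agent.MP_88bd62_nt.B

open Finset Pool.Agent.MP_90395b_gt.Bn

set_option exponentiation.threshold 1000

theorem xComb_cut {w a N : ℕ} {f : ℕ → ℕ} (h : a ≤ N) (hf : ∀ i, a ≤ i → f i = 0) :
    pk w N f = pk w a f :=
  (sum_subset (range_subset_range.2 h) fun i _ hi => by
    rw [hf i (not_lt.1 fun h => hi (mem_range.2 h)), zero_mul]).symm

theorem xComb_ind (w a : ℕ) {b : ℕ} (hb : 0 < b) (c : ℕ) :
    pk (w * b) a (fun _ => 1) * c = pk w (a * b) fun m => if b ∣ m then c else 0 := by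
  have h := pk_mul_pk w b a (fun _ => 1) fun i => if i = 0 then c else 0
  rw [xComb_cut hb fun i hi => if_neg (by omega)] at h
  simpa [pk, Nat.dvd_iff_mod_eq_zero] using h

theorem xComb_lane {a b : ℕ} (hb : 0 < b) (h : a ≤ 2048) {u : ℕ → ℕ}
    (hu : ∀ i, u i < 2 ^ 48) :
    (cat (fun i => cnd (Nat.ble a i) 0 (u i)) 48 11 0 * pk (48 * a) b fun _ => 1) &&&
      (pk (48 * b) a (fun _ => 1) * (2 ^ 48 - 1)) =
      pk 48 (a * b) fun m => if b ∣ m then u (m % a) else 0 := by
  rw [cat_pk, xComb_cut (N := 2 ^ 11) h fun i hi => by rw [zero_add, Nat.ble_eq_true_of_le hi]; rfl,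
    pk_congr (g := u) fun i hi => by
      rw [zero_add, cnd_eq, if_neg fun h => hi.not_ge (Nat.le_of_ble_eq_true h)],
    mul_comm, pk_mul_pk, xComb_ind 48 a hb, mul_comm b a,
    pk_land (fun i _ => by simpa using hu _) fun i _ => by split_ifs <;> omega]
  refine pk_congr fun i _ => ?_
  split_ifs
  · rw [one_mul, and_full (hu _)]
  · exact Nat.and_zero _

theorem stComb (hSc : StSc) : StComb := by
  intro a b ph ha hb h K hK
  choose x y hx hy e hn using fun i => (hSc (ph i)).1
  have e1 : vre a ph = fun i => cnd (Nat.ble a i) 0 (x i) := funext fun i => by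
    have := hx i
    rw [vre_eq, e, Nat.and_two_pow_sub_one_eq_mod]
    exact congrArg _ (by omega)
  have e2 : vim a ph = fun i => cnd (Nat.ble a i) 0 (y i) := funext fun i => by
    have := hx i
    have := hy i
    rw [vim_eq, e, Nat.and_two_pow_sub_one_eq_mod, Nat.shiftRight_eq_div_pow]
    exact congrArg _ (by omega)
  have b1 : ∀ u : ℕ → ℕ, (∀ i, u i ≤ 3 * 2 ^ 16) →
      pk 48 (a * b) (fun m => if b ∣ m then u m else 0) * 2 < 2 ^ (48 * (a * b)) := fun u hu => by
    rw [pk_mul']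
    refine pk_lt fun i _ => ?_
    have := hu i
    split_ifs <;> omega
  have b2 := b1 _ fun m => hx (m % a)
  have b3 := b1 _ fun m => hy (m % a)
  have b4 := b1 (fun _ => 2 ^ 17) fun _ => by norm_num
  have b5 : 1 < 2 ^ (48 * (a * b)) := Nat.one_lt_two_pow (by positivity)
  have e3 : cv (a * b) (fun m => if b ∣ m then gz (x (m % a)) (y (m % a)) (2 ^ 17) else 0) =
      (pk 48 (a * b) (fun m => if b ∣ m then x (m % a) else 0) -
        pk 48 (a * b) (fun m => if b ∣ m then 2 ^ 17 else 0) : ℤ) +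
      (pk 48 (a * b) (fun m => if b ∣ m then y (m % a) else 0) -
        pk 48 (a * b) (fun m => if b ∣ m then 2 ^ 17 else 0) : ℤ) * (2 ^ (48 * (a * b)) : ℕ) := by
    simp only [cv, pk, Nat.cast_sum, ← sum_sub_distrib, sum_mul, ← sum_add_distrib]
    refine sum_congr rfl fun m _ => ?_
    split_ifs
    · simp only [ev, gz]
      push_cast
      ring
    · simp [ev]
  have e4 : 96 * (a * b) = 48 * (a * b) * 2 := by ring
  rw [comb_eq, comb2_eq, e1, e2, xComb_lane hb h fun i => by have := hx i; omega,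
    xComb_lane hb h fun i => by have := hy i; omega, Nat.shiftLeft_eq, Nat.shiftLeft_eq,
    xComb_ind 48 a hb, ones_eq'] at hK
  refine ⟨?_, fun i => gz (x i) (y i) (2 ^ 17), ?_, fun i _ => ?_⟩
  · rw [pow_succ, e4, pow_mul]
    generalize 2 ^ (48 * (a * b)) = T at *
    generalize pk 48 (a * b) (fun m => if b ∣ m then x (m % a) else 0) = X at *
    generalize pk 48 (a * b) (fun m => if b ∣ m then y (m % a) else 0) = Y at *
    generalize pk 48 (a * b) (fun m => if b ∣ m then 2 ^ 17 else 0) = H at *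
    have h1 : (Y + (T - 1 - H)) * 2 + 3 ≤ 3 * T := by omega
    have h2 : (X + (T - 1 + 2 - H)) * 2 ≤ 3 * T + 1 := by omega
    nlinarith [Nat.mul_le_mul_right T h1]
  · rw [e3, MM, e4, pow_mul, hK, ← Nat.cast_ofNat, ← Nat.cast_pow]
    generalize 2 ^ (48 * (a * b)) = T at *
    generalize pk 48 (a * b) (fun m => if b ∣ m then 2 ^ 17 else 0) = H at *
    refine Int.modEq_iff_dvd.2 ⟨-1, ?_⟩
    push_cast [show H ≤ T - 1 + 2 by omega, show H ≤ T - 1 by omega, b5.le]
    ring
  · convert hn i using 3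
    simp [gz, cz, GaussianInt.toComplex_def']

end Pool.Agent.MP_88bd62_nt.B
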