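import Pool.Agent.MP_88bd62_nt.B.Defs

/-! The twisted convolution as a product of integers, and the reduction. -/

namespace Pool.Agent.MP_88bd62_nt.B

open Finset Pool.Agent.MP_90395b_gt.Bn

theorem xConv_MM (Q : ℕ) : MM Q = 2 ^ (48 * Q) * 2 ^ (48 * Q) + 1 := by
  rw [MM, ← pow_add, show 48 * Q + 48 * Q = 96 * Q by ring]

theorem xConv_mul (Q : ℕ) (z w : GaussianInt) :
    ev Q z * ev Q w ≡ ev Q (z * w) [ZMOD MM Q] := by
  rw [Int.modEq_iff_dvd, xConv_MM]
  refine ⟨-(z.im * w.im), ?_⟩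
  simp only [ev, Zsqrtd.re_mul, Zsqrtd.im_mul]
  generalize (2 : ℤ) ^ (48 * Q) = W
  ring

theorem xConv_sum (Q : ℕ) (s : Finset ℕ) (f : ℕ → GaussianInt) :
    ev Q (∑ j ∈ s, f j) = ∑ j ∈ s, ev Q (f j) := by
  induction s using Finset.induction_on with
  | empty => simp [ev]
  | insert a s ha ih =>
    rw [sum_insert ha, sum_insert ha, ← ih]
    simp only [ev, Zsqrtd.re_add, Zsqrtd.im_add]
    ring

theorem xConv_I (Q : ℕ) : ev Q ⟨0, 1⟩ = 2 ^ (48 * Q) := by
  simp only [ev, zero_add, one_mul]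

theorem xConv_row (j k : ℕ) (z : GaussianInt) (d : ℕ → GaussianInt) :
    ∑ m ∈ range (j + k), ev (j + k) z * 2 ^ (48 * j) * (ev (j + k) (d m) * 2 ^ (48 * m)) ≡
      ∑ l ∈ range (j + k), ev (j + k) (z * tw (j + k) d l j) * 2 ^ (48 * l) [ZMOD MM (j + k)] := by
  have e : range (j + k) = range (k + j) := by rw [add_comm]
  conv_lhs => rw [e, sum_range_add]
  rw [sum_range_add, add_comm (∑ x ∈ range j, ev (j + k) (z * tw (j + k) d x j) * 2 ^ (48 * x))]
  refine Int.ModEq.add (Int.ModEq.sum fun i _ => ?_) (Int.ModEq.sum fun i hi => ?_)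
  · rw [tw, if_pos (Nat.le_add_right j i), Nat.add_sub_cancel_left, mul_add, pow_add]
    have h := (xConv_mul (j + k) z (d i)).mul_right (2 ^ (48 * j) * 2 ^ (48 * i))
    refine Int.ModEq.trans ?_ h
    rw [show ev (j + k) z * 2 ^ (48 * j) * (ev (j + k) (d i) * 2 ^ (48 * i)) =
      ev (j + k) z * ev (j + k) (d i) * (2 ^ (48 * j) * 2 ^ (48 * i)) by ring]
  · have hi := mem_range.1 hi
    rw [tw, if_neg (by omega), show i + (j + k) - j = k + i by omega]
    have h1 := (xConv_mul (j + k) ⟨0, 1⟩ (d (k + i))).mul_left (ev (j + k) z)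
    have h2 := (h1.trans (xConv_mul (j + k) z _)).mul_right (2 ^ (48 * i))
    refine Int.ModEq.trans ?_ h2
    rw [xConv_I, mul_add 48 k i, mul_add 48 j k, pow_add, pow_add,
      show ev (j + k) z * 2 ^ (48 * j) * (ev (j + k) (d (k + i)) * (2 ^ (48 * k) * 2 ^ (48 * i))) =
      ev (j + k) z * (2 ^ (48 * j) * 2 ^ (48 * k) * ev (j + k) (d (k + i))) * 2 ^ (48 * i) by ring]

theorem stConv : StConv := by
  intro Q x d
  have e : cv Q (fun l => ∑ j ∈ range Q, x j * tw Q d l j) =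
      ∑ j ∈ range Q, ∑ l ∈ range Q, ev Q (x j * tw Q d l j) * 2 ^ (48 * l) := by
    rw [cv, sum_comm]
    refine sum_congr rfl fun l _ => ?_
    rw [xConv_sum, sum_mul]
  rw [e, cv, cv, sum_mul_sum]
  refine Int.ModEq.sum fun j hj => ?_
  obtain ⟨k, rfl⟩ := Nat.exists_eq_add_of_le (mem_range.1 hj).le
  exact xConv_row j k (x j) d

theorem xConv_lanes (Q b : ℕ) (y : ℕ → GaussianInt)
    (hy : ∀ l < Q, |(y l).re| ≤ b ∧ |(y l).im| ≤ b) :
    (pk 48 (2 * Q) (lanes Q b y) : ℤ) = cv Q y + (pk 48 (2 * Q) (fun _ => 1) * b : ℕ) := by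
  rw [two_mul, pk_append, pk_append]
  simp only [pk, cv]
  push_cast
  rw [add_mul, sum_mul, sum_mul, sum_mul, sum_mul, ← sum_add_distrib, ← sum_add_distrib,
    ← sum_add_distrib]
  refine sum_congr rfl fun l hl => ?_
  have hl := mem_range.1 hl
  obtain ⟨h1, h2⟩ := hy l hl
  have e1 : (lanes Q b y l : ℤ) = (y l).re + b := by
    rw [lanes, if_pos hl, Int.toNat_of_nonneg]
    linarith [(abs_le.1 h1).1]
  have e2 : (lanes Q b y (Q + l) : ℤ) = (y l).im + b := by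
    rw [lanes, if_neg (by omega), Nat.add_sub_cancel_left, Int.toNat_of_nonneg]
    linarith [(abs_le.1 h2).1]
  rw [e1, e2, ev]
  ring

theorem xConv_bd (Q b : ℕ) (y : ℕ → GaussianInt)
    (hy : ∀ l < Q, |(y l).re| ≤ b ∧ |(y l).im| ≤ b) (hb : b ≤ 2 ^ 46) :
    Bd (2 * Q) (2 ^ 48) (lanes Q b y) := by
  intro l hl
  rw [lanes]
  split_ifs with h
  · have := (abs_le.1 (hy l h).1).2
    omega
  · have := (abs_le.1 (hy (l - Q) (by omega)).2).2
    omega

theorem xConv_red (W C P R T : ℕ) (v : ℤ) (hP : (P : ℤ) ≡ v [ZMOD (W : ℤ) + 1])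
    (hlt : P < W * (W * C)) (hT : (T : ℤ) = v + R) (hTW : T < W) :
    (P % W + (R + (W + 1) * C) - P / W) % (W + 1) = T := by
  have h1 : P / W < W * C := Nat.div_lt_of_lt_mul hlt
  have h2 : P / W ≤ P % W + (R + (W + 1) * C) := by
    have : W * C ≤ (W + 1) * C := Nat.mul_le_mul_right C (Nat.le_succ W)
    omega
  have h3 : ((P % W : ℕ) : ℤ) + W * ((P / W : ℕ) : ℤ) = P := by
    exact_mod_cast Nat.mod_add_div P W
  have h4 : (P % W + (R + (W + 1) * C) - P / W) ≡ T [MOD W + 1] := by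
    rw [← Int.natCast_modEq_iff, Nat.cast_sub h2, Nat.cast_add (P % W), Nat.cast_add R,
      Nat.cast_mul, Nat.cast_add W, Nat.cast_one, hT]
    refine Int.ModEq.trans ?_ (hP.add_right (R : ℤ))
    rw [Int.modEq_iff_dvd, ← h3]
    exact ⟨((P / W : ℕ) : ℤ) - C, by ring⟩
  rw [h4, Nat.mod_eq_of_lt (by omega)]

theorem stRed : StRed := by
  intro Q b c P y hP hlt hy hb
  have hW : 0 < 2 ^ (48 * Q + 48 * Q) := by positivity
  rw [red_eq, ones_eq', Nat.and_two_pow_sub_one_eq_mod, Nat.shiftRight_eq_div_pow,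
    Nat.shiftLeft_eq, show 2 ^ (48 * Q + 48 * Q) - 1 + 2 = 2 ^ (48 * Q + 48 * Q) + 1 by omega]
  refine xConv_red _ _ P _ _ (cv Q y) ?_ ?_ (xConv_lanes Q b y hy) ?_
  · rw [MM, show 96 * Q = 48 * Q + 48 * Q by ring] at hP
    exact_mod_cast hP
  · rw [← pow_add, ← pow_add]
    convert hlt using 2
    ring
  · have := pk_lt (xConv_bd Q b y hy hb)
    rwa [show 48 * (2 * Q) = 48 * Q + 48 * Q by ring] at this

end Pool.Agent.MP_88bd62_nt.B
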