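import Pool.Agent.MP_88bd62_nt.B.Defs

/-! The result of the convolution carries the values of the Dirichlet polynomial. -/

namespace Pool.Agent.MP_88bd62_nt.B

open Finset Real Pool.Agent.MP_90395b_gt.Bn Pool.Agent.MP_88bd62_nt.U

theorem xCore_norm (x : ℝ) : ‖ex x‖ = 1 := Complex.norm_exp_ofReal_mul_I _

theorem xCore_add (x y : ℝ) : ex (x + y) = ex x * ex y := by
  rw [ex, ex, ex, ← Complex.exp_add]
  congr 1
  push_cast
  ring

theorem xCore_sub (x : ℝ) : ‖ex x - 1‖ ≤ 2 * π * |x| := by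
  have h := Real.norm_exp_I_mul_ofReal_sub_one_le (x := 2 * π * x)
  rw [mul_comm Complex.I, Real.norm_eq_abs, abs_mul, abs_of_pos (by positivity : 0 < 2 * π)] at h
  exact h

theorem xCore_KK (ρ : ℝ) : 0 ≤ KK ρ := Even.pow_nonneg (by decide) _

theorem xCore_al (ρ : ℝ) : 0 ≤ al ρ :=
  add_nonneg (Even.pow_nonneg (by decide) _)
    (mul_nonneg (by norm_num) (Even.pow_nonneg (by decide) _))

/-- The unimodular factor. -/
noncomputable def xCoreW (l : ℕ) : ℂ :=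
  ex ((2 * (l : ℝ) ^ 2 - l) / (4 * 1961400) - 2 * rho l + rho l / 2 ^ 13)

theorem xCore_pt (hB : StSplB) (k l j : ℕ) (x τ w : ℝ) (hρ : |rho l| ≤ 0.35) (h0 : 0 ≤ τ)
    (h1 : τ ≤ 1) (hδ : |j + τ + 1 / 2 ^ 13 - 1961400 * x| ≤ 0.0001221) :
    ‖∑ i ∈ range 6, ex (-(k * x / 2)) * ((w * spl i τ : ℝ) : ℂ) * pre (j + i) *
        Dk 1961400 ((l : ℤ) - (j + i : ℕ)) - xCoreW l * KK (rho l) *
        ((w : ℂ) * ex (-(((k + 2 * ((l : ℤ) - 666880) : ℤ) : ℝ) * x / 2)))‖ ≤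
      |w| * (KK (rho l) * (al (rho l) + 0.00027)) := by
  set δ := j + τ + 1 / 2 ^ 13 - 1961400 * x with hδe
  set A := ex (-(k * x / 2) + (2 * (l : ℝ) ^ 2 - l) / (4 * 1961400) - rho l * (j + τ - 1))
  have e1 : ∀ i : ℕ, ex (-(k * x / 2)) * ((w * spl i τ : ℝ) : ℂ) * pre (j + i) *
      Dk 1961400 ((l : ℤ) - (j + i : ℕ)) =
      w * A * ((spl i τ : ℂ) * ex (-(rho l * (i + 1 - τ)))) := fun i => by
    have : ex (-(k * x / 2)) * pre (j + i) * Dk 1961400 ((l : ℤ) - (j + i : ℕ)) =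
        A * ex (-(rho l * (i + 1 - τ))) := by
      rw [pre, Dk, ← xCore_add, ← xCore_add, ← xCore_add, rho]
      congr 1
      push_cast
      ring
    push_cast at this ⊢
    linear_combination (w * spl i τ : ℂ) * this
  have e2 : xCoreW l * ex (-(((k + 2 * ((l : ℤ) - 666880) : ℤ) : ℝ) * x / 2)) =
      A * ex (-(3 * rho l)) * ex (rho l * δ) := by
    rw [xCoreW, ← xCore_add, ← xCore_add, ← xCore_add, hδe, rho]
    congr 1
    push_cast
    ring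
  have h2 : ‖ex (rho l * δ) - 1‖ ≤ 0.00027 := by
    refine (xCore_sub _).trans ?_
    rw [abs_mul]
    have h3 : |rho l| * |δ| ≤ 0.35 * 0.0001221 := mul_le_mul hρ hδ (abs_nonneg _) (by norm_num)
    have h4 := pi_lt_d2
    have h5 : 0 ≤ |rho l| * |δ| := by positivity
    nlinarith
  have h3 := hB τ (rho l) h0 h1 hρ
  have e3 : ∑ i ∈ range 6, ex (-(k * x / 2)) * ((w * spl i τ : ℝ) : ℂ) * pre (j + i) *
        Dk 1961400 ((l : ℤ) - (j + i : ℕ)) - xCoreW l * KK (rho l) *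
        ((w : ℂ) * ex (-(((k + 2 * ((l : ℤ) - 666880) : ℤ) : ℝ) * x / 2))) =
      w * A * ((∑ i ∈ range 6, (spl i τ : ℂ) * ex (-(rho l * (i + 1 - τ))) -
        (KK (rho l) : ℂ) * ex (-(3 * rho l))) -
        (KK (rho l) : ℂ) * ex (-(3 * rho l)) * (ex (rho l * δ) - 1)) := by
    rw [sum_congr rfl fun i _ => e1 i, ← mul_sum]
    linear_combination (-(KK (rho l) : ℂ) * w) * e2
  rw [e3, norm_mul, norm_mul, xCore_norm, mul_one, Complex.norm_real, Real.norm_eq_abs]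
  refine mul_le_mul_of_nonneg_left ((norm_sub_le _ _).trans ?_) (abs_nonneg _)
  rw [norm_mul, norm_mul, xCore_norm, mul_one, Complex.norm_real, Real.norm_eq_abs,
    abs_of_nonneg (xCore_KK _), mul_add]
  exact add_le_add h3 (mul_le_mul_of_nonneg_left h2 (xCore_KK _))

theorem xCore_w (v n : ℕ) : |((-1) ^ v / n : ℝ)| = 1 / n := by
  rw [abs_div, abs_pow, abs_neg, abs_one, one_pow, Nat.abs_cast]

theorem xCore_size (hA : StSplA) (c : ℕ → ℂ) (v n j : ℕ) (x τ e : ℝ) (h0 : 0 ≤ τ) (h1 : τ ≤ 1)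
    (h : ∑ i ∈ range 6, ‖c i / 2 ^ 28 - ex x * (((-1) ^ v / n * spl i τ : ℝ) : ℂ) * pre (j + i)‖
      ≤ e) : ∑ i ∈ range 6, ‖c i‖ ≤ (1 / n + e) * 2 ^ 28 := by
  obtain ⟨h2, h3, -⟩ := hA τ h0 h1
  have h4 : ∀ i ∈ range 6, ‖c i‖ ≤ (1 / n * spl i τ +
      ‖c i / 2 ^ 28 - ex x * (((-1) ^ v / n * spl i τ : ℝ) : ℂ) * pre (j + i)‖) * 2 ^ 28 := by
    intro i hi
    have h5 := norm_le_norm_add_norm_sub' (c i / 2 ^ 28)
      (ex x * (((-1) ^ v / n * spl i τ : ℝ) : ℂ) * pre (j + i))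
    rw [norm_mul, norm_mul, xCore_norm, one_mul, Complex.norm_real, Real.norm_eq_abs, abs_mul,
      xCore_w, abs_of_nonneg (h2 i (mem_range.1 hi)).1, norm_div, norm_pow, Complex.norm_two,
      show ‖pre (j + i)‖ = 1 from xCore_norm _, mul_one] at h5
    exact (div_le_iff₀ (by positivity)).1 h5
  refine (sum_le_sum h4).trans ?_
  rw [← sum_mul, sum_add_distrib, ← mul_sum, h3, mul_one]
  exact mul_le_mul_of_nonneg_right (add_le_add le_rfl h) (by positivity)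

theorem stCore (hPt : StPoint) (hP : StPos) (hC : StCnv) (hB : StSplB) (hF : StFold)
    (hA : StSplA) : StCore := by
  intro S γ k d hS hγ hγ' hk hk' hd X hX
  obtain ⟨hF1, hF2⟩ := hF S hS
  set T := (Ico 65536 131072).filter fun m => nn m ∈ S with hT
  have hm : ∀ m ∈ T, 65536 ≤ m ∧ m < 131072 ∧ Rec m (d m) := fun m h =>
    ⟨(mem_Ico.1 (mem_filter.1 h).1).1, (mem_Ico.1 (mem_filter.1 h).1).2, hd m (mem_filter.1 h).1⟩
  have hcard : (T.card : ℝ) ≤ 65536 := by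
    have := card_filter_le (Ico 65536 131072) fun m => nn m ∈ S
    rw [Nat.card_Ico] at this
    exact_mod_cast this
  have hn : ∑ m ∈ T, (1 / (nn m : ℝ)) ≤ γ := (hF1 fun n => 1 / (n : ℝ)).trans_le hγ
  choose! V τ hV hl h0 h1 hδ hc using fun m (h : m ∈ T) =>
    (hPt k m (d m) hk' (hm m h).1 (hm m h).2.1 (hm m h).2.2).2
  have he : ∑ m ∈ T, (0.000103 / (nn m : ℝ) + 6.9 / 2 ^ 28) ≤ 0.000103 * γ + 0.0016846 := by
    rw [sum_add_distrib, sum_const, nsmul_eq_mul,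
      sum_congr rfl fun m _ => div_eq_mul_one_div (0.000103 : ℝ) (nn m), ← mul_sum]
    nlinarith
  have hs : ∑ m ∈ T, ∑ i ∈ range 6, ‖cz (V m i) (V m (6 + i)) (2 ^ 28)‖ ≤
      (1.000103 * γ + 0.0016846) * 2 ^ 28 := by
    refine (sum_le_sum fun m h => xCore_size hA (fun i => cz (V m i) (V m (6 + i)) (2 ^ 28)) _ _ _
      _ _ _ (h0 m h) (h1 m h) (hc m h)).trans ?_
    rw [← sum_mul, sum_add_distrib]
    exact mul_le_mul_of_nonneg_right (by linarith) (by positivity)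
  obtain ⟨y, hy1, hy2⟩ := hC 1400 1961400 T (fun m => pos (d m)) V (by norm_num) (by norm_num)
    (by norm_num) (fun m h => ⟨(hP m (d m) (hm m h).1 (hm m h).2.1 (hm m h).2.2).2.1, hV m h⟩)
    (fun a ha b hb hab => (hP a (d a) (hm a ha).1 (hm a ha).2.1 (hm a ha).2.2).2.2.2 b (d b) hab
      (hm b hb).2.2 (hm b hb).2.1)
    (hs.trans (mul_le_mul_of_nonneg_right (by linarith) (by positivity)))
  refine ⟨y, ?_, fun l hl' hρ => ?_⟩
  · have e : 94147200 = 48 * 1961400 := by norm_num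
    rw [hX, sum_congr rfl fun m h => by rw [hl m h], e]
    exact hy1
  have h2 := hy2 l hl'
  clear hy1 hy2
  have hodd : Odd ((k : ℤ) + 2 * ((l : ℤ) - 666880)) := (hk.natCast (R := ℤ)).add_even (by simp)
  rw [← hF2 _ hodd]
  set Z := ∑ m ∈ T, (((-1) ^ vv m / nn m : ℝ) : ℂ) *
    ex (-(((k + 2 * ((l : ℤ) - 666880) : ℤ) : ℝ) * logb 2 (m / 65536) / 2)) with hZ
  set B := ∑ m ∈ T, ∑ i ∈ range 6, cz (V m i) (V m (6 + i)) (2 ^ 28) *
    Dk 1961400 ((l : ℤ) - (pos (d m) + i : ℕ)) with hBe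
  set C := ∑ m ∈ T, ∑ i ∈ range 6, ex (-(k * logb 2 (m / 65536) / 2)) *
    (((-1) ^ vv m / nn m * spl i (τ m) : ℝ) : ℂ) * pre (pos (d m) + i) *
    Dk 1961400 ((l : ℤ) - (pos (d m) + i : ℕ)) with hCe
  have h3 : ‖B / 2 ^ 28 - C‖ ≤ 0.000103 * γ + 0.0016846 := by
    rw [hBe, hCe, sum_div, ← sum_sub_distrib]
    refine (norm_sum_le_of_le _ fun m h => le_trans ?_ (hc m h)).trans he
    rw [sum_div, ← sum_sub_distrib]
    refine norm_sum_le_of_le _ fun i _ => le_of_eq ?_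
    rw [mul_div_right_comm, ← sub_mul, norm_mul,
      show ‖Dk 1961400 ((l : ℤ) - (pos (d m) + i : ℕ))‖ = 1 from xCore_norm _, mul_one]
  have h4 : ‖C - xCoreW l * KK (rho l) * Z‖ ≤ KK (rho l) * γ * (al (rho l) + 0.00027) := by
    rw [hCe, hZ, mul_sum, ← sum_sub_distrib]
    refine (norm_sum_le_of_le _ fun m h => xCore_pt hB k l (pos (d m)) _ (τ m) _ hρ (h0 m h)
      (h1 m h) (hδ m h)).trans ?_
    rw [← sum_mul, sum_congr rfl fun m _ => xCore_w (vv m) (nn m)]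
    have h5 : 0 ≤ KK (rho l) * (al (rho l) + 0.00027) :=
      mul_nonneg (xCore_KK _) (add_nonneg (xCore_al _) (by norm_num))
    exact (mul_le_mul_of_nonneg_right hn h5).trans_eq (by ring)
  have h5 : ‖(y l : ℂ) / 2 ^ 42 - B / 2 ^ 28‖ ≤ 0.000106 * (1.000103 * γ + 0.0016846) := by
    rw [show (y l : ℂ) / 2 ^ 42 - B / 2 ^ 28 = ((y l : ℂ) / 2 ^ 14 - B) / 2 ^ 28 by ring, norm_div,
      norm_pow, Complex.norm_two, div_le_iff₀ (by positivity), mul_assoc]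
    exact h2.trans (mul_le_mul_of_nonneg_left hs (by norm_num))
  have h6 := abs_norm_sub_norm_le ((y l : ℂ) / 2 ^ 42) (xCoreW l * KK (rho l) * Z)
  rw [norm_div, norm_pow, Complex.norm_two, norm_mul, norm_mul,
    show ‖xCoreW l‖ = 1 from xCore_norm _, one_mul, Complex.norm_real, Real.norm_eq_abs,
    abs_of_nonneg (xCore_KK _)] at h6
  have h7 := norm_sub_le_norm_sub_add_norm_sub ((y l : ℂ) / 2 ^ 42) (B / 2 ^ 28)
    (xCoreW l * KK (rho l) * Z)
  have h8 := norm_sub_le_norm_sub_add_norm_sub (B / 2 ^ 28) C (xCoreW l * KK (rho l) * Z)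
  have h9 : 0 ≤ γ := (sum_nonneg fun n _ => by positivity).trans hγ
  linarith

end Pool.Agent.MP_88bd62_nt.B
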