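import Pool.Agent.MP_88bd62_nt.B.Defs

/-! From the windows to the bounds on ranges of heights. -/

namespace Pool.Agent.MP_88bd62_nt.B

open Finset Real Pool.Agent.MP_88bd62_nt.U

theorem chk_nd {l r : Tr} {m s m' s' : ℕ} (h1 : chkT l m s = true) (h2 : chkT r m' s = true)
    (hm : m' = m + s) (hs : s' = 2 * s) : chkT (.nd l r) m s' = true := by
  subst hm hs
  rw [chkT_nd, both_iff, both_iff, show 2 * s / 2 = s by omega]
  exact ⟨Nat.beq_eq ▸ (by omega), h1, h2⟩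

def CovB (z : ℝ) (lo hi : ℕ) : Prop :=
  ∀ j : ℤ, Odd j → (lo : ℤ) ≤ j → j < hi → z ≤ ‖riemannZeta (sk j)‖

def CovC (V : ℝ) (lo hi : ℕ) : Prop :=
  ∀ j : ℤ, Odd j → (lo : ℤ) ≤ j → j < hi → ‖ZN (Pr 16) j‖ ≤ V

theorem CovB.trans {z : ℝ} {a b c : ℕ} (h1 : CovB z a b) (h2 : CovB z b c) : CovB z a c :=
  fun j hj ha hc => (lt_or_ge j b).elim (h1 j hj ha) fun h => h2 j hj h hc

theorem CovC.trans {z : ℝ} {a b c : ℕ} (h1 : CovC z a b) (h2 : CovC z b c) : CovC z a c :=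
  fun j hj ha hc => (lt_or_ge j b).elim (h1 j hj ha) fun h => h2 j hj h hc

theorem CovB.mono {z z' : ℝ} {a b : ℕ} (h : CovB z a b) (hz : z' ≤ z) : CovB z' a b :=
  fun j hj ha hb => hz.trans (h j hj ha hb)

theorem xCov_idx {k bw lo hi : ℕ} (hk : Odd k) (h1 : lo + 256 * bw = k) (h2 : k + 256 * bw = hi)
    {j : ℤ} (hj : Odd j) (ha : (lo : ℤ) ≤ j) (hb : j < hi) :
    ∃ l < 256 * bw, (k : ℤ) + 2 * ((l : ℤ) - 128 * bw) = j := by
  obtain ⟨a, ha'⟩ := hk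
  obtain ⟨b, hb'⟩ := hj
  refine ⟨(b - a + 128 * bw).toNat, by omega, by omega⟩

theorem covB (hW : StWinB) (hT : StTailB) {t : Tr} {d : ℕ → ℕ} (hd : Data t d)
    {bw k α : ℕ} (h : winB t bw k α 82597459 175653686877 = true) (z : ℝ) (s lo hi : ℕ)
    (hn : 1 ≤ bw ∧ bw ≤ 5210 ∧ k % 2 = 1 ∧ α ≤ 2 ^ 34 ∧ lo + 256 * bw = k ∧ k + 256 * bw = hi ∧
      555 ≤ lo ∧ hi ≤ s ^ 2 ∧ s ^ 2 ≤ 2 ^ 27)
    (hα : (3 / 2 * z + (0.0000153 * s + 0.000000000046 * s ^ 2 + 0.0059) + 0.00177) * 2 ^ 42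
      ≤ 164 * α) : CovB z lo hi := by
  obtain ⟨h1, h2, h3, h4, h5, h6, h7, h8, h9⟩ := hn
  intro j hj ha hb
  obtain ⟨l, hl, rfl⟩ := xCov_idx (Nat.odd_iff.2 h3) h5 h6 hj ha hb
  have a1 := hW t d bw k α _ _ _ hd h1 h2 (Nat.odd_iff.2 h3) (by omega) h4 (by norm_num)
    (by norm_num) hα (by norm_num) (by norm_num) h l hl
  generalize (k : ℤ) + 2 * ((l : ℤ) - 128 * bw) = j at *
  have hj0 : 0 ≤ j := by omega
  have hs : (hi : ℤ) ≤ (s : ℤ) ^ 2 := by exact_mod_cast h8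
  have hs' : (s : ℤ) ^ 2 ≤ 2 ^ 27 := by exact_mod_cast h9
  have a2 := (hT j hj).1 (by rw [abs_of_nonneg hj0]; omega) (by rw [abs_of_nonneg hj0]; omega)
  have b1 : |(j : ℝ)| ≤ (s : ℝ) ^ 2 := by
    rw [abs_of_nonneg (by exact_mod_cast hj0)]
    exact_mod_cast (by omega : j ≤ (s : ℤ) ^ 2)
  have b2 : √|(j : ℝ)| ≤ s := by
    rw [sqrt_le_left (by positivity)]
    exact b1
  have a3 := norm_sub_norm_le (ZN OS j) (3 / 2 * riemannZeta (sk j))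
  rw [norm_sub_rev, norm_mul, show ‖(3 / 2 : ℂ)‖ = 3 / 2 by norm_num] at a3
  unfold tl at a2
  linarith

theorem covC (hW : StWinC) {t : Tr} {d : ℕ → ℕ} (hd : Data t d)
    {bw k : ℕ} (h : winC t bw k 32070002142 56345080 56605936709 = true) (lo hi : ℕ)
    (hn : 1 ≤ bw ∧ bw ≤ 5210 ∧ k % 2 = 1 ∧ lo + 256 * bw = k ∧ k + 256 * bw = hi ∧ k ≤ 2 ^ 27) :
    CovC 1.23 lo hi := by
  obtain ⟨h1, h2, h3, h5, h6, h7⟩ := hn
  intro j hj ha hb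
  obtain ⟨l, hl, rfl⟩ := xCov_idx (Nat.odd_iff.2 h3) h5 h6 hj ha hb
  exact hW t d bw k _ _ _ _ hd h1 h2 (Nat.odd_iff.2 h3) h7 (by norm_num) (by norm_num)
    (by norm_num) (by norm_num) h l hl

theorem xCov_zeta (k : ℤ) : ‖riemannZeta (sk (-k))‖ = ‖riemannZeta (sk k)‖ := by
  have : sk (-k) = (starRingEnd ℂ) (sk k) := by
    simp only [sk, tk, map_add, map_one, map_mul, Complex.conj_ofReal, Complex.conj_I]
    push_cast
    ring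
  rw [this, riemannZeta_conj, Complex.norm_conj]

theorem xCov_ZN (S : Finset ℕ) (k : ℤ) : ‖ZN S (-k)‖ = ‖ZN S k‖ := by
  rw [← Complex.norm_conj (ZN S k)]
  unfold ZN
  rw [map_sum]
  refine congrArg _ (sum_congr rfl fun n _ => ?_)
  rw [map_mul, Complex.conj_ofReal, ee, ee, ← Complex.exp_conj, map_mul, Complex.conj_ofReal,
    Complex.conj_I]
  push_cast
  ring_nf

theorem xCov_mem {N : ℕ} {k : ℤ} (hk : k ∈ Kset N) :
    ∃ j : ℤ, Odd j ∧ 1 ≤ j ∧ j < 2 * N ∧ (k = j ∨ k = -j) := by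
  rw [Kset, mem_filter, mem_Ioo] at hk
  obtain ⟨⟨h1, h2⟩, h3⟩ := hk
  rcases le_or_gt 0 k with h | h
  · exact ⟨k, h3, by obtain ⟨a, ha⟩ := h3; omega, h2, Or.inl rfl⟩
  · exact ⟨-k, h3.neg, by omega, by omega, Or.inr (neg_neg k).symm⟩

theorem CovB.num {z : ℝ} {N hi : ℕ} (h : CovB z 1 hi) (hN : 2 * N ≤ hi) : NumB N z := by
  intro k hk
  obtain ⟨j, h1, h2, h3, h4⟩ := xCov_mem hk
  have := h j h1 (by exact_mod_cast h2) (by omega)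
  rcases h4 with rfl | rfl
  · exact this
  · rwa [xCov_zeta]

theorem CovC.num {V : ℝ} {N hi : ℕ} (h : CovC V 1 hi) (hN : 2 * N ≤ hi) : NumC 16 N V := by
  intro k hk
  obtain ⟨j, h1, h2, h3, h4⟩ := xCov_mem hk
  have := h j h1 (by exact_mod_cast h2) (by omega)
  change ‖ZN (Pr 16) k‖ ≤ V
  rcases h4 with rfl | rfl
  · exact this
  · rwa [xCov_ZN]

theorem covW (h : NumW) : CovB (1 / 5) 1 2097153 := by
  intro j hj ha hb
  refine h.1 j ?_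
  rw [Kset, mem_filter, mem_Ioo]
  obtain ⟨a, ha'⟩ := hj
  refine ⟨⟨?_, ?_⟩, a, ha'⟩ <;> push_cast at * <;> omega

end Pool.Agent.MP_88bd62_nt.B
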