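import Pool.Agent.MP_88bd62_nt.B.D0
import Pool.Agent.MP_88bd62_nt.B.D1
import Pool.Agent.MP_88bd62_nt.B.D2
import Pool.Agent.MP_88bd62_nt.B.D3
import Pool.Agent.MP_88bd62_nt.B.D4
import Pool.Agent.MP_88bd62_nt.B.D5
import Pool.Agent.MP_88bd62_nt.B.D6
import Pool.Agent.MP_88bd62_nt.B.D7

namespace Pool.Agent.MP_88bd62_nt.B

noncomputable def tr : Tr :=
  .nd (.nd (.nd tr0 tr1) (.nd tr2 tr3)) (.nd (.nd tr4 tr5) (.nd tr6 tr7))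

end Pool.Agent.MP_88bd62_nt.B
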