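import Pool.Agent.MP_88bd62_nt.B.Pk
import Pool.Agent.MP_88bd62_nt.U.Stmts3

/-! What the programs of `Prog` compute: definitions and the statements of the steps. -/

namespace Pool.Agent.MP_88bd62_nt.B

open Finset Real Pool.Agent.MP_90395b_gt.Bn Pool.Agent.MP_88bd62_nt.U

noncomputable section

/-- The complex number with real part `a - h` and imaginary part `b - h`. -/
def cz (a b h : ℕ) : ℂ := ((a : ℂ) - h) + ((b : ℂ) - h) * Complex.I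

/-- The Gaussian integer with real part `a - h` and imaginary part `b - h`. -/
def gz (a b h : ℕ) : GaussianInt := ⟨(a : ℤ) - h, (b : ℤ) - h⟩

/-- The pieces of the quintic spline. -/
def spl (i : ℕ) (τ : ℝ) : ℝ :=
  match i with
  | 0 => (1 - 5 * τ + 10 * τ ^ 2 - 10 * τ ^ 3 + 5 * τ ^ 4 - τ ^ 5) / 120
  | 1 => (26 - 50 * τ + 20 * τ ^ 2 + 20 * τ ^ 3 - 20 * τ ^ 4 + 5 * τ ^ 5) / 120
  | 2 => (66 - 60 * τ ^ 2 + 30 * τ ^ 4 - 10 * τ ^ 5) / 120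
  | 3 => (26 + 50 * τ + 20 * τ ^ 2 - 20 * τ ^ 3 - 20 * τ ^ 4 + 10 * τ ^ 5) / 120
  | 4 => (1 + 5 * τ + 10 * τ ^ 2 + 10 * τ ^ 3 + 5 * τ ^ 4 - 5 * τ ^ 5) / 120
  | 5 => τ ^ 5 / 120
  | _ => 0

def eps (i : ℕ) : ℝ :=
  if i = 2 ∨ i = 3 then 0.00003 else if i = 1 ∨ i = 4 then 0.00015 else 0.0004

/-- The first chirp, with the shift of the band. -/
def pre (j : ℕ) : ℂ := ex (-(2 * (j : ℝ) ^ 2 + j - 4 * 666880 * j) / (4 * 1961400))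

/-- The chirp of the convolution. -/
def Dk (Q : ℕ) (m : ℤ) : ℂ := ex ((2 * (m : ℝ) ^ 2 - m) / (4 * Q))

def vv (m : ℕ) : ℕ := padicValNat 2 m

/-- The odd part. -/
def nn (m : ℕ) : ℕ := m / 2 ^ vv m

def TapOK (n v j t : ℕ) (T : ℕ → ℕ) : Prop :=
  Bd 12 (2 ^ 31) T ∧ (∀ i < 6, ‖cz (T i) (T (6 + i)) (2 ^ 30)‖ ≤ 0.57 * 2 ^ 30) ∧
    ∑ i ∈ range 6, ‖cz (T i) (T (6 + i)) (2 ^ 30) / 2 ^ 30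
      - (((-1) ^ v / n * spl i (t / 4096) : ℝ) : ℂ) * pre (j + i)‖ ≤ 0.000072 / n + 10.5 / 2 ^ 30

/-- `D` is a correct record of the point `m`. -/
def Rec (m D : ℕ) : Prop := ∃ (Y : ℕ) (T : ℕ → ℕ),
  D = Y + (if nn m ∈ Pr 16 then 1 else 0) * 2 ^ 63 + pk 48 12 T * 2 ^ 64 ∧ Y < 2 ^ 63 ∧
    |(Y : ℝ) - 1961400 * 2 ^ 40 * logb 2 (m / 65536)| ≤ 64 ∧
    TapOK (nn m) (vv m) (Y / 2 ^ 40) (Y / 2 ^ 28 % 4096) T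

/-- The cell of a record. -/
def pos (D : ℕ) : ℕ := D % 2 ^ 63 / 2 ^ 40

/-- A Gaussian integer as an integer, with `2 ^ (48 Q)` in the place of `i`. -/
def ev (Q : ℕ) (z : GaussianInt) : ℤ := z.re + z.im * 2 ^ (48 * Q)

def cv (Q : ℕ) (y : ℕ → GaussianInt) : ℤ := ∑ l ∈ range Q, ev Q (y l) * 2 ^ (48 * l)

def MM (Q : ℕ) : ℤ := 2 ^ (96 * Q) + 1

/-- The twisted extension to negative arguments. -/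
def tw (Q : ℕ) (d : ℕ → GaussianInt) (l j : ℕ) : GaussianInt :=
  if j ≤ l then d (l - j) else ⟨0, 1⟩ * d (l + Q - j)

/-- The lanes of a vector with the offset `b`. -/
def lanes (Q b : ℕ) (y : ℕ → GaussianInt) (l : ℕ) : ℕ :=
  if l < Q then ((y l).re + b).toNat else ((y (l - Q)).im + b).toNat

def Out (Q N : ℕ) (y : ℕ → GaussianInt) : Prop :=
  N = pk 48 (2 * Q) (lanes Q (2 ^ 45) y) ∧ ∀ l < Q, ‖(y l : ℂ)‖ ≤ 6.6 * 2 ^ 42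

def KernOK (Q K : ℕ) : Prop := K < 2 ^ (96 * Q + 2) ∧ ∃ d : ℕ → GaussianInt,
  (K : ℤ) ≡ cv Q d [ZMOD MM Q] ∧ ∀ l < Q, ‖(d l : ℂ) / 2 ^ 14 - Dk Q l‖ ≤ 0.000106

/-- The Dirichlet polynomial over `S` at the pole number `k`. -/
def ZN (S : Finset ℕ) (k : ℤ) : ℂ := ∑ n ∈ S, ((1 / n : ℝ) : ℂ) * ee k (-th n)

def OS : Finset ℕ := (range 131072).filter Odd

def KK (ρ : ℝ) : ℝ := sinc (π * ρ) ^ 6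

def al (ρ : ℝ) : ℝ := (|ρ| / (1 - |ρ|)) ^ 6 + 1.12 * ρ ^ 6

def rho (l : ℕ) : ℝ := ((l : ℝ) - 666880) / 1961400

/-- The vector `y` carries the values of the Dirichlet polynomial over `S` around `k`. -/
def Carry (S : Finset ℕ) (γ : ℝ) (k : ℕ) (y : ℕ → GaussianInt) : Prop :=
  ∀ l < 1961400, |rho l| ≤ 0.35 →
    |‖(y l : ℂ)‖ / 2 ^ 42 - KK (rho l) * ‖ZN S (k + 2 * ((l : ℤ) - 666880))‖| ≤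
      KK (rho l) * γ * (al (rho l) + 0.00027) + (0.00021 * γ + 0.0017)

/-- The data are correct. -/
def Data (t : Tr) (d : ℕ → ℕ) : Prop := (∀ m ∈ Ico 65536 131072, Rec m (d m)) ∧
  ∀ f : ℕ → ℕ → ℕ, grid f t = ∑ m ∈ Ico 65536 131072, f (d m) (d m % 2 ^ 63) * 2 ^ (48 * pos (d m))

def tl (x : ℝ) : ℝ := 0.0000153 * √x + 0.000000000046 * x + 0.0059

/-! The steps -/

def StTab : Prop := ∀ k ≤ 1025, 2 ^ 20 ≤ tre k ∧ tre k ≤ 3 * 2 ^ 20 ∧ 2 ^ 20 ≤ tim k ∧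
  tim k ≤ 3 * 2 ^ 20 ∧ ‖cz (tre k) (tim k) (2 ^ 21) / 2 ^ 20 - ex (-(k : ℝ) / 1024)‖ ≤ 0.72 / 2 ^ 20

def StSc : Prop := ∀ ν : ℕ,
  (∃ a b : ℕ, a ≤ 3 * 2 ^ 16 ∧ b ≤ 3 * 2 ^ 16 ∧ sc ν = a + b * 2 ^ 288 + 2 ^ 17 * 2 ^ 576 ∧
    ‖cz a b (2 ^ 17) / 2 ^ 16 - ex (-(ν : ℝ) / 2 ^ 24)‖ ≤ 0.00003) ∧
  (cc ν ≤ 2 ^ 18 ∧ |(cc ν : ℝ) / 2 ^ 16 - 2 - 2 * cos (2 * π * (ν / 2 ^ 24))| ≤ 0.000031) ∧
  ‖cz ((sp ν >>> 18) &&& (2 ^ 18 - 1)) (sp ν >>> 58) (2 ^ 17) / 2 ^ 16 - ex (-(ν : ℝ) / 2 ^ 24)‖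
    ≤ 0.00003

def StLf1 : Prop := ∀ X ν θ : ℕ, (∀ i < 6, (bt X (71 + 104 * i) : ℝ) ≤ 0.56 * 2 ^ 30) →
  ∃ T : ℕ → ℕ, Bd 12 (2 ^ 31) T ∧ lf1 X ν θ = pk 48 12 T ∧ ∀ i < 6,
    ‖cz (T i) (T (6 + i)) (2 ^ 30)
      - (bt X (71 + 104 * i) : ℂ) * ex (-((ν : ℝ) + ((i : ℝ) - 2) * θ) / 2 ^ 24)‖ ≤
      bt X (71 + 104 * i) * eps i + 0.71

def StSplA : Prop := ∀ τ : ℝ, 0 ≤ τ → τ ≤ 1 → (∀ i < 6, 0 ≤ spl i τ ∧ spl i τ ≤ 0.55) ∧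
  ∑ i ∈ range 6, spl i τ = 1 ∧ spl 0 τ + spl 5 τ ≤ 1 / 120 ∧ spl 1 τ + spl 4 τ ≤ 27 / 120

def StHor : Prop := ∀ t W : ℕ, t < 4096 → 120 * W ≤ 2 ^ 41 → ∀ i < 6,
  (bt (hor t * W) (71 + 104 * i) : ℝ) ≤ 120 * W * spl i (t / 4096) / 2 ^ 11 ∧
    120 * W * spl i (t / 4096) / 2 ^ 11 - 1 ≤ bt (hor t * W) (71 + 104 * i)

def StItem : Prop := ∀ v n Y : ℕ, 0 < n → n < 2 ^ 17 → ∃ T : ℕ → ℕ,
  lf0 5178085 86873951174656 7845600 v (2 ^ v * n) Y (Y / 2 ^ 40) = pk 48 12 T ∧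
    TapOK n v (Y / 2 ^ 40) (Y / 2 ^ 28 % 4096) T

def StFlg : Prop := ∀ n : ℕ, Odd n → flg n = if n ∈ Pr 16 then 1 else 0

def StLog : Prop :=
  (∀ m : ℕ, 65536 ≤ m → m ≤ 131072 →
    |(ats 6222580621269191297 (m - 2 ^ 16) (m + 2 ^ 16) 21 : ℝ)
      - 1961400 * 2 ^ 40 * logb 2 (m / 65536)| ≤ 24) ∧
  ∀ m d : ℕ, 65536 ≤ m → 1 ≤ d → d ≤ 32 →
    |(at1 (6222580621269191297 * d) (6222580621269191297 * d ^ 3 / 3) (m + (m + d)) : ℝ)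
      - 1961400 * 2 ^ 40 * logb 2 ((m + d) / m)| ≤ 6

def StBlk : Prop := ∀ m : ℕ, 64 ∣ m → 65536 ≤ m → m + 64 ≤ 131072 →
  ∃ d : ℕ → ℕ, blkD m = pk 640 64 d ∧ ∀ r < 64, Rec (m + r) (d r)

/-- The cells of the records are well spaced. -/
def StPos : Prop := ∀ m D : ℕ, 65536 ≤ m → m < 131072 → Rec m D →
  D < 2 ^ 640 ∧ pos D + 12 ≤ 1961400 ∧ (m = 65536 → pos D = 0) ∧
    ∀ m' D' : ℕ, m < m' → Rec m' D' → m' < 131072 → pos D + 12 ≤ pos D'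

def StTree : Prop := ∀ t : Tr, chkT t 65536 65536 = true → ∃ d, Data t d

def StRot : Prop := ∀ (k Y e : ℕ) (T : ℕ → ℕ), Y < 2 ^ 63 → e ≤ 1 → Bd 12 (2 ^ 31) T →
  (∀ i < 6, ‖cz (T i) (T (6 + i)) (2 ^ 30)‖ ≤ 0.57 * 2 ^ 30) →
  ∃ V : ℕ → ℕ, Bd 12 (2 ^ 29) V ∧
    leafB k (Y + e * 2 ^ 63 + pk 48 12 T * 2 ^ 64) Y = pk 48 12 V + 2 ^ 29 ∧ ∀ i < 6,
      ‖cz (V i) (V (6 + i)) (2 ^ 28) - ex (-((k * Y / 257084620800 : ℕ) : ℝ) / 2 ^ 24)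
        * cz (T i) (T (6 + i)) (2 ^ 30) / 4‖ ≤ 0.00003 * ‖cz (T i) (T (6 + i)) (2 ^ 30)‖ / 4 + 0.71

/-- The turned lanes of a point. -/
def StPoint : Prop := ∀ k m D : ℕ, k ≤ 2 ^ 27 → 65536 ≤ m → m < 131072 → Rec m D →
  leafC k D (D % 2 ^ 63) = (if nn m ∈ Pr 16 then leafB k D (D % 2 ^ 63) else 0) ∧
  ∃ (V : ℕ → ℕ) (τ : ℝ), Bd 12 (2 ^ 29) V ∧ leafB k D (D % 2 ^ 63) = pk 48 12 V + 2 ^ 29 ∧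
    0 ≤ τ ∧ τ ≤ 1 ∧ |pos D + τ + 1 / 2 ^ 13 - 1961400 * logb 2 (m / 65536)| ≤ 0.0001221 ∧
    ∑ i ∈ range 6, ‖cz (V i) (V (6 + i)) (2 ^ 28) / 2 ^ 28
      - ex (-(k * logb 2 (m / 65536) / 2)) * (((-1) ^ vv m / nn m * spl i τ : ℝ) : ℂ)
        * pre (pos D + i)‖ ≤ 0.000103 / nn m + 6.9 / 2 ^ 28

def StSep : Prop := ∀ (Q : ℕ) (S : Finset ℕ) (p : ℕ → ℕ) (V : ℕ → ℕ → ℕ),
  (∀ a ∈ S, p a + 12 ≤ Q ∧ Bd 12 (2 ^ 29) (V a)) → (∀ a ∈ S, ∀ b ∈ S, a < b → p a + 12 ≤ p b) →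
  ∀ X, X = ∑ a ∈ S, (pk 48 12 (V a) + 2 ^ 29) * 2 ^ (48 * p a) →
  ∀ x, x = sep (48 * Q) (ones (48 * Q + 48 * Q)) (pk 48 (2 * Q) fun _ => 1) X →
    x < 2 ^ (96 * Q + 338) ∧ (x : ℤ) ≡ ∑ a ∈ S, ∑ i ∈ range 6,
      ev Q (gz (V a i) (V a (6 + i)) (2 ^ 28)) * 2 ^ (48 * (p a + i)) [ZMOD MM Q]

def StConv : Prop := ∀ (Q : ℕ) (x d : ℕ → GaussianInt),
  cv Q x * cv Q d ≡ cv Q (fun l => ∑ j ∈ range Q, x j * tw Q d l j) [ZMOD MM Q]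

def StRed : Prop := ∀ (Q b c P : ℕ) (y : ℕ → GaussianInt), (P : ℤ) ≡ cv Q y [ZMOD MM Q] →
  P < 2 ^ (192 * Q + c) → (∀ l < Q, |(y l).re| ≤ b ∧ |(y l).im| ≤ b) → b ≤ 2 ^ 46 →
  red (48 * Q + 48 * Q) (ones (48 * Q + 48 * Q))
    (pk 48 (2 * Q) (fun _ => 1) * b + (ones (48 * Q + 48 * Q) + 2) <<< c) P
    = pk 48 (2 * Q) (lanes Q b y)

def StComb : Prop := ∀ (a b : ℕ) (ph : ℕ → ℕ), 0 < a → 0 < b → a ≤ 2048 → ∀ K,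
  K = comb (48 * (a * b)) (ones (48 * (a * b))) a ph (pk (48 * a) b fun _ => 1)
    (pk (48 * b) a fun _ => 1) →
  K < 2 ^ (96 * (a * b) + 1) ∧ ∃ g : ℕ → GaussianInt,
    (K : ℤ) ≡ cv (a * b) (fun m => if b ∣ m then g (m % a) else 0) [ZMOD MM (a * b)] ∧
    ∀ i < a, ‖(g i : ℂ) / 2 ^ 16 - ex (-(ph i : ℝ) / 2 ^ 24)‖ ≤ 0.00003

def StKern : Prop := ∀ q Q : ℕ, 1 ≤ q → q + 1 ≤ 2048 → Q = q * (q + 1) →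
  KernOK Q (kern (48 * Q) (ones (48 * Q)) (ones (48 * Q + 48 * Q)) (pk 48 (2 * Q) fun _ => 1) q)

/-- The exact form of the result of the convolution. -/
def StCnv : Prop := ∀ (q Q : ℕ) (S : Finset ℕ) (p : ℕ → ℕ) (V : ℕ → ℕ → ℕ), 1 ≤ q → q + 1 ≤ 2048 →
  Q = q * (q + 1) →
  (∀ a ∈ S, p a + 12 ≤ Q ∧ Bd 12 (2 ^ 29) (V a)) → (∀ a ∈ S, ∀ b ∈ S, a < b → p a + 12 ≤ p b) →
  ∑ a ∈ S, ∑ i ∈ range 6, ‖cz (V a i) (V a (6 + i)) (2 ^ 28)‖ ≤ 6.59 * 2 ^ 28 →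
  ∃ y : ℕ → GaussianInt,
    Out Q (cnv0 (48 * Q) q (∑ a ∈ S, (pk 48 12 (V a) + 2 ^ 29) * 2 ^ (48 * p a))) y ∧ ∀ l < Q,
      ‖(y l : ℂ) / 2 ^ 14 - ∑ a ∈ S, ∑ i ∈ range 6,
        cz (V a i) (V a (6 + i)) (2 ^ 28) * Dk Q ((l : ℤ) - (p a + i : ℕ))‖ ≤
      0.000106 * ∑ a ∈ S, ∑ i ∈ range 6, ‖cz (V a i) (V a (6 + i)) (2 ^ 28)‖

/-- The aliasing error of the spline. -/
def StSplB : Prop := ∀ τ ρ : ℝ, 0 ≤ τ → τ ≤ 1 → |ρ| ≤ 0.35 →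
  ‖∑ i ∈ range 6, (spl i τ : ℂ) * ex (-(ρ * (i + 1 - τ))) - (KK ρ : ℂ) * ex (-(3 * ρ))‖ ≤
    KK ρ * al ρ

/-- Folding of the odd numbers into one octave. -/
def StFold : Prop := ∀ S : Finset ℕ, S ⊆ OS →
  (∀ F : ℕ → ℝ, ∑ m ∈ (Ico 65536 131072).filter (fun m => nn m ∈ S), F (nn m) = ∑ n ∈ S, F n) ∧
  ∀ k : ℤ, Odd k → ∑ m ∈ (Ico 65536 131072).filter (fun m => nn m ∈ S),
    (((-1) ^ vv m / nn m : ℝ) : ℂ) * ex (-(k * logb 2 (m / 65536) / 2)) = ZN S k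

def StCore : Prop := ∀ (S : Finset ℕ) (γ : ℝ) (k : ℕ) (d : ℕ → ℕ), S ⊆ OS →
  ∑ n ∈ S, (1 / n : ℝ) ≤ γ → γ ≤ 6.55 → Odd k → k ≤ 2 ^ 27 →
  (∀ m ∈ Ico 65536 131072, Rec m (d m)) → ∀ X,
  X = ∑ m ∈ (Ico 65536 131072).filter (fun m => nn m ∈ S),
    leafB k (d m) (d m % 2 ^ 63) * 2 ^ (48 * pos (d m)) →
  ∃ y, Out 1961400 (cnv0 94147200 1400 X) y ∧ Carry S γ k y

def StGam : Prop := ∑ n ∈ OS, (1 / n : ℝ) ≤ 6.55 ∧ ∑ n ∈ Pr 16, (1 / n : ℝ) ≤ 2.17 ∧ Pr 16 ⊆ OS ∧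
  ∀ m ∈ Ico 65536 131072, nn m ∈ OS

def StThr : Prop := ∀ (x : ℕ) (ρ : ℝ), |ρ| ≤ 0.35 → 0.8 ≤ sinc (π * ρ) ∧
  ((x : ℝ) / 1961400 ≤ |ρ| → sinc (π * ρ) ≤ snU x / 2 ^ 32 ∧ snU x ≤ 2 ^ 32 + 1) ∧
  (|ρ| ≤ (x : ℝ) / 1961400 → x ≤ 686490 → (snL x : ℝ) / 2 ^ 32 ≤ sinc (π * ρ) ∧
    ∀ γ : ℕ, γ * al ρ ≤ ali γ x ∧ ali γ x ≤ γ / 32 + 3)

/-- The lanes of a band. -/
def StXlo : Prop := ∀ bw l : ℕ, 1 ≤ bw → bw ≤ 5210 → l < 256 * bw →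
  (xlo bw (l / bw) : ℝ) / 1961400 ≤ |rho (666880 - 128 * bw + l)| ∧
    |rho (666880 - 128 * bw + l)| ≤ ((xlo bw (l / bw) + bw : ℕ) : ℝ) / 1961400 ∧
    xlo bw (l / bw) + bw ≤ 666880

def StDirs : Prop := ∀ (Q o L N : ℕ) (y : ℕ → GaussianInt) (T : ℕ → ℕ), o + L ≤ Q → Out Q N y →
  Bd L (2 ^ 36) T → ∀ c,
  c = chk2 (48 * Q) (48 * o) (ones (48 * L)) (pk 48 L fun _ => 1) (pk 48 L T) N →
    (c = pk 48 L (fun _ => 1) <<< 47 → ∀ l < L, 164 * (T l : ℝ) ≤ ‖(y (o + l) : ℂ)‖) ∧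
    (c = 0 → ∀ l < L, 0 < T l ∧ ‖(y (o + l) : ℂ)‖ ≤ 168.6 * T l)

def StWinB : Prop := ∀ (t : Tr) (d : ℕ → ℕ) (bw k α β γ : ℕ) (z : ℝ), Data t d → 1 ≤ bw →
  bw ≤ 5210 → Odd k → k ≤ 2 ^ 27 → α ≤ 2 ^ 34 → β ≤ 2 ^ 34 → γ ≤ 2 ^ 38 →
  (z + 0.00177) * 2 ^ 42 ≤ 164 * α → 6.55 * 2 ^ 42 ≤ 164 * (γ : ℝ) →
  0.00308 * 2 ^ 42 ≤ 164 * (β : ℝ) → winB t bw k α β γ = true →
  ∀ l < 256 * bw, z ≤ ‖ZN OS (k + 2 * ((l : ℤ) - 128 * bw))‖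

def StWinC : Prop := ∀ (t : Tr) (d : ℕ → ℕ) (bw k α β γ : ℕ) (V : ℝ), Data t d → 1 ≤ bw →
  bw ≤ 5210 → Odd k → k ≤ 2 ^ 27 → α ≤ 2 ^ 35 →
  168.6 * α ≤ (V - 0.00059) * 2 ^ 42 → 2.17 * 2 ^ 42 ≤ 168.6 * (γ : ℝ) →
  0.00216 * 2 ^ 42 ≤ 168.6 * (β : ℝ) → winC t bw k α β γ = true →
  ∀ l < 256 * bw, ‖ZN (Pr 16) (k + 2 * ((l : ℤ) - 128 * bw))‖ ≤ V

/-- The modulus in each lane. -/
def StMd : Prop := ∀ (Q o L N : ℕ) (y : ℕ → GaussianInt), o + L ≤ Q → Out Q N y →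
  ∃ μ : ℕ → ℕ, md (pk 48 L fun _ => 1) ((N >>> (48 * o)) &&& ones (48 * L))
      ((N >>> (48 * (o + Q))) &&& ones (48 * L)) = pk 48 L μ ∧
    ∀ l < L, (μ l : ℝ) ≤ ‖(y (o + l) : ℂ)‖

/-- The classes. -/
def StCls : Prop := ∀ (n α : ℕ) (L : List (ℕ × ℕ)) (μ A K : ℕ → ℕ), Bd n (2 ^ 46) μ →
  Bd n (2 ^ 45) A → Bd n (2 ^ 21) K → α ≤ 2 ^ 24 → (∀ p ∈ L, p.1 ≤ 2 ^ 24) →
  ∀ R G, R = pk 48 n (fun _ => 1) → G = pk 48 n μ + R <<< 47 - pk 48 n A →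
  (bits R G (pk 48 n K) α = R → ∀ l < n, A l + K l * α ≤ μ l) ∧
    accu R G (pk 48 n K) L =
      pk 48 n fun l => ((L.filter fun p => A l + K l * p.1 ≤ μ l).map Prod.snd).sum

def StFinW : Prop := ∀ (n : ℕ) (u : ℕ → ℕ), n = 2 ^ 20 → (∀ l < n, u l ≤ 640000) →
  finW (pk 48 n u) = true →
  ∑ m ∈ range (2 ^ 20), (640000 - u m : ℝ) / (2 * m + 1) ≤ 215040 ∧
    ∀ i < 16, ∑ m ∈ Ico (2 ^ 16 * i) (2 ^ 16 * (i + 1)), (640000 - u m : ℝ) ≤ 1409286144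

/-- The Dirichlet polynomial is close to the zeta function. -/
def StTailB : Prop := ∀ k : ℤ, Odd k →
  (555 ≤ |k| → |k| ≤ 2 ^ 27 → ‖3 / 2 * riemannZeta (sk k) - ZN OS k‖ ≤ tl |(k : ℝ)|) ∧
  (|k| ≤ 555 → ‖3 / 2 * riemannZeta (sk k) - ZN OS k‖ ≤ 0.1104 / |(k : ℝ)| + 0.00003)

/-- The thresholds and the steps of the table of fourth powers. -/
def LW : List (ℕ × ℕ) :=
  [(1698569, 377855), (1918770, 106933), (2138971, 57554), (2390629, 36690), (2673744, 22906),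
    (2988317, 14168), (3334347, 8756), (3743292, 5769), (4215151, 3631), (4781382, 2322),
    (5473442, 1453), (6417161, 938)]

def StW : Prop := ∀ (t : Tr) (d : ℕ → ℕ), Data t d →
  winW t 1383996 13545983256 28807204647732 10770078341894409261646296 LW = true → NumW

end

end Pool.Agent.MP_88bd62_nt.B
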