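import Pool.Agent.MP_88bd62_nt.B.Defs

/-! The comparison of the modulus with a threshold in sixteen directions. -/

namespace Pool.Agent.MP_88bd62_nt.B

open Finset Pool.Agent.MP_90395b_gt.Bn

theorem xDirs_add {L : ℕ} {f g : ℕ → ℕ} : pk 48 L f + pk 48 L g = pk 48 L (fun i => f i + g i) :=
  pk_add' 48 L f g

theorem xDirs_or {L : ℕ} {f g : ℕ → ℕ} (hf : Bd L (2 ^ 48) f) (hg : Bd L (2 ^ 48) g) :
    Bd L (2 ^ 48) (fun i => f i ||| g i) := fun i hi => Nat.or_lt_two_pow (hf i hi) (hg i hi)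

theorem xDirs_d2 {L : ℕ} {a x y : ℕ → ℕ} (h1 : Bd L (2 ^ 48) fun i => a i + x i)
    (h2 : Bd L (2 ^ 48) fun i => a i + y i) :
    d2 (pk 48 L a) (pk 48 L x) (pk 48 L y) = pk 48 L (fun i => d2 (a i) (x i) (y i)) ∧
      Bd L (2 ^ 48) (fun i => d2 (a i) (x i) (y i)) := by
  simp only [d2_eq]
  rw [xDirs_add, xDirs_add, pk_lor h1 h2]
  exact ⟨rfl, xDirs_or h1 h2⟩

theorem xDirs_or4 {L : ℕ} {a b c d : ℕ → ℕ} (ha : Bd L (2 ^ 48) a) (hb : Bd L (2 ^ 48) b)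
    (hc : Bd L (2 ^ 48) c) (hd : Bd L (2 ^ 48) d) :
    or4 (pk 48 L a) (pk 48 L b) (pk 48 L c) (pk 48 L d) =
      pk 48 L (fun i => or4 (a i) (b i) (c i) (d i)) ∧
      Bd L (2 ^ 48) (fun i => or4 (a i) (b i) (c i) (d i)) := by
  simp only [or4_eq]
  rw [pk_lor ha hb, pk_lor hc hd, pk_lor (xDirs_or ha hb) (xDirs_or hc hd)]
  exact ⟨rfl, xDirs_or (xDirs_or ha hb) (xDirs_or hc hd)⟩

theorem xDirs_dirs {L : ℕ} {a b c d C1 C2 C3 : ℕ → ℕ} (ha : Bd L (2 ^ 46) a) (hb : Bd L (2 ^ 46) b)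
    (hc : Bd L (2 ^ 46) c) (hd : Bd L (2 ^ 46) d) (h1 : Bd L (2 ^ 47) C1)
    (h2 : Bd L (2 ^ 47) C2) (h3 : Bd L (2 ^ 46) C3) :
    dirs (pk 48 L a) (pk 48 L b) (pk 48 L c) (pk 48 L d) (pk 48 L C1) (pk 48 L C2) (pk 48 L C3) =
      pk 48 L (fun i => dirs (a i) (b i) (c i) (d i) (C1 i) (C2 i) (C3 i)) ∧
      Bd L (2 ^ 48) (fun i => dirs (a i) (b i) (c i) (d i) (C1 i) (C2 i) (C3 i)) := by
  have k1 : ∀ {u : ℕ → ℕ}, Bd L (2 ^ 46) u → Bd L (2 ^ 48) fun i => u i + C1 i := by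
    intro u hu i hi
    have := hu i hi
    have := h1 i hi
    beta_reduce
    omega
  have k2 : ∀ {u v : ℕ → ℕ}, Bd L (2 ^ 46) u → Bd L (2 ^ 46) v →
      Bd L (2 ^ 48) fun i => (u i + C2 i) + v i := by
    intro u v hu hv i hi
    have := hu i hi
    have := hv i hi
    have := h2 i hi
    beta_reduce
    omega
  have k3 : ∀ {u v : ℕ → ℕ}, Bd L (2 ^ 46) u → Bd L (2 ^ 46) v →
      Bd L (2 ^ 48) fun i => (u i + u i + C3 i) + v i := by
    intro u v hu hv i hi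
    have := hu i hi
    have := hv i hi
    have := h3 i hi
    beta_reduce
    omega
  obtain ⟨e0, b0⟩ := xDirs_or4 (k1 ha) (k1 hb) (k1 hc) (k1 hd)
  obtain ⟨e1, b1⟩ := xDirs_d2 (k2 ha hc) (k2 ha hd)
  obtain ⟨e2, b2⟩ := xDirs_d2 (k2 hb hc) (k2 hb hd)
  obtain ⟨e3, b3⟩ := xDirs_d2 (k3 ha hc) (k3 ha hd)
  obtain ⟨e4, b4⟩ := xDirs_d2 (k3 hb hc) (k3 hb hd)
  obtain ⟨e5, b5⟩ := xDirs_d2 (k3 hc ha) (k3 hc hb)
  obtain ⟨e6, b6⟩ := xDirs_d2 (k3 hd ha) (k3 hd hb)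
  obtain ⟨e7, b7⟩ := xDirs_or4 b3 b4 b5 b6
  simp only [dirs_eq, xDirs_add]
  rw [e0, e1, e2, e3, e4, e5, e6, e7, pk_lor b1 b2, pk_lor b0 (xDirs_or b1 b2),
    pk_lor (xDirs_or b0 (xDirs_or b1 b2)) b7]
  exact ⟨rfl, xDirs_or (xDirs_or b0 (xDirs_or b1 b2)) b7⟩

/-- The value in one lane before the mask. -/
def xDirs_val (t a c : ℕ) : ℕ := dirs a (2 ^ 46 - a) c (2 ^ 46 - c) (105553116266496 - t * 164)
  (2 ^ 46 - t * 232) (2 ^ 45 - t * 367)

theorem xDirs_chk3 {L : ℕ} {T a c : ℕ → ℕ} (hT : Bd L (2 ^ 36) T)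
    (ha : ∀ i < L, 0 < a i ∧ a i < 2 ^ 46) (hc : ∀ i < L, 0 < c i ∧ c i < 2 ^ 46) :
    chk3 (pk 48 L fun _ => 1) (pk 48 L T) (pk 48 L a) (pk 48 L c) =
      pk 48 L (fun i => xDirs_val (T i) (a i) (c i) &&& 2 ^ 47) ∧
      Bd L (2 ^ 48) (fun i => xDirs_val (T i) (a i) (c i)) := by
  obtain ⟨e, b⟩ := xDirs_dirs (L := L) (a := a) (b := fun i => 2 ^ 46 - a i) (c := c)
    (d := fun i => 2 ^ 46 - c i) (C1 := fun i => 105553116266496 - T i * 164)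
    (C2 := fun i => 2 ^ 46 - T i * 232) (C3 := fun i => 2 ^ 45 - T i * 367)
    (fun i hi => (ha i hi).2) (fun i hi => by have := ha i hi; beta_reduce; omega)
    (fun i hi => (hc i hi).2) (fun i hi => by have := hc i hi; beta_reduce; omega)
    (fun i _ => by beta_reduce; omega) (fun i _ => by beta_reduce; omega)
    (fun i _ => by beta_reduce; omega)
  refine ⟨?_, b⟩
  rw [chk3_eq]
  simp only [pk_shl, pk_mul', one_mul]
  rw [pk_sub (fun i hi => (ha i hi).2.le), pk_sub (fun i hi => (hc i hi).2.le),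
    pk_sub (fun i hi => by have := hT i hi; omega),
    pk_sub (fun i hi => by have := hT i hi; omega),
    pk_sub (fun i hi => by have := hT i hi; omega), e,
    pk_land b (fun i _ => by norm_num)]
  rfl

theorem xDirs_lt {W : ℕ} (hW : W < 2 ^ 48) (h : W &&& 2 ^ 47 = 0) : W < 2 ^ 47 := by
  by_contra hn
  have h1 := Nat.testBit_of_two_pow_le_and_two_pow_add_one_gt (not_lt.1 hn) hW
  rw [Nat.and_two_pow, h1] at h
  norm_num at h

theorem xDirs_or_lt {x y n : ℕ} : x ||| y < 2 ^ n ↔ x < 2 ^ n ∧ y < 2 ^ n :=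
  ⟨fun h => ⟨lt_of_le_of_lt Nat.left_le_or h, lt_of_le_of_lt Nat.right_le_or h⟩,
    fun h => Nat.or_lt_two_pow h.1 h.2⟩

theorem xDirs_iff {t a c : ℕ} {x y : ℤ} (ht : t < 2 ^ 36) (ha : a < 2 ^ 46) (hc : c < 2 ^ 46)
    (hx : (a : ℤ) = x + 2 ^ 45) (hy : (c : ℤ) = y + 2 ^ 45) :
    xDirs_val t a c < 2 ^ 47 ↔ |x| < 164 * t ∧ |y| < 164 * t ∧ |x| + |y| < 232 * t ∧
      2 * |x| + |y| < 367 * t ∧ |x| + 2 * |y| < 367 * t := by
  unfold xDirs_val
  simp only [dirs_eq, or4_eq, d2_eq, xDirs_or_lt]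
  rcases abs_cases x with h1 | h1 <;> rcases abs_cases y with h2 | h2 <;> omega

theorem xDirs_B {X Y t : ℝ} (hX : 0 ≤ X) (hY : 0 ≤ Y) (ht : 0 ≤ t)
    (h : ¬ (X < 164 * t ∧ Y < 164 * t ∧ X + Y < 232 * t ∧ 2 * X + Y < 367 * t ∧
      X + 2 * Y < 367 * t)) : (164 * t) ^ 2 ≤ X ^ 2 + Y ^ 2 := by
  simp only [not_and_or, not_lt] at h
  rcases h with h | h | h | h | h
  · nlinarith
  · nlinarith
  · nlinarith [sq_nonneg (X - Y), mul_self_le_mul_self (by positivity) h]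
  · nlinarith [sq_nonneg (X - 2 * Y), mul_self_le_mul_self (by positivity) h]
  · nlinarith [sq_nonneg (2 * X - Y), mul_self_le_mul_self (by positivity) h]

theorem xDirs_C1 {X Y t : ℝ} (hX : 0 ≤ X) (hY : 0 ≤ Y) (hXY : Y ≤ X) (h1 : X < 164 * t)
    (h2 : X + Y < 232 * t) (h3 : 2 * X + Y < 367 * t) : X ^ 2 + Y ^ 2 ≤ 28417 * t ^ 2 := by
  have ht : 0 ≤ t := by linarith
  rcases le_total Y (39 * t) with h4 | h4
  · nlinarith [mul_self_le_mul_self hX h1.le, mul_self_le_mul_self hY h4]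
  · rcases le_total Y (97 * t) with h5 | h5
    · have h6 : 2 * X ≤ 367 * t - Y := by linarith
      nlinarith [mul_self_le_mul_self (by positivity) h6,
        mul_nonneg (sub_nonneg.2 h4) (sub_nonneg.2 h5), mul_nonneg ht (sub_nonneg.2 h4)]
    · have h6 : X ≤ 232 * t - Y := by linarith
      have h7 : Y ≤ 135 * t := by linarith
      nlinarith [mul_self_le_mul_self hX h6, mul_nonneg (sub_nonneg.2 h5) (sub_nonneg.2 h7),
        sq_nonneg t]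

theorem xDirs_C {X Y t : ℝ} (hX : 0 ≤ X) (hY : 0 ≤ Y)
    (h : X < 164 * t ∧ Y < 164 * t ∧ X + Y < 232 * t ∧ 2 * X + Y < 367 * t ∧
      X + 2 * Y < 367 * t) : X ^ 2 + Y ^ 2 ≤ (168.6 * t) ^ 2 := by
  obtain ⟨h1, h2, h3, h4, h5⟩ := h
  rcases le_total Y X with h | h
  · nlinarith [xDirs_C1 hX hY h h1 h3 h4, sq_nonneg t]
  · nlinarith [xDirs_C1 hY hX h h2 (by linarith) (by linarith), sq_nonneg t]

theorem xDirs_norm (z : GaussianInt) :
    ‖(z : ℂ)‖ ^ 2 = |((z.re : ℤ) : ℝ)| ^ 2 + |((z.im : ℤ) : ℝ)| ^ 2 := by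
  rw [Complex.sq_norm, Complex.normSq_apply, sq_abs, sq_abs, GaussianInt.intCast_re,
    GaussianInt.intCast_im]
  ring

theorem xDirs_bd {z : GaussianInt} (h : ‖(z : ℂ)‖ ≤ 6.6 * 2 ^ 42) :
    |z.re| < 2 ^ 45 ∧ |z.im| < 2 ^ 45 := by
  have h1 := Complex.abs_re_le_norm (z : ℂ)
  have h2 := Complex.abs_im_le_norm (z : ℂ)
  rw [← GaussianInt.intCast_re] at h1
  rw [← GaussianInt.intCast_im] at h2
  constructor
  · have : |((z.re : ℤ) : ℝ)| < 2 ^ 45 := by linarith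
    exact_mod_cast this
  · have : |((z.im : ℤ) : ℝ)| < 2 ^ 45 := by linarith
    exact_mod_cast this

theorem stDirs : StDirs := by
  intro Q o L N y T hoL hOut hT c hc
  obtain ⟨hN, hy⟩ := hOut
  have hb : Bd (2 * Q) (2 ^ 48) (lanes Q (2 ^ 45) y) := by
    intro l hl
    unfold lanes
    split_ifs with h
    · have := abs_lt.1 (xDirs_bd (hy l h)).1
      push_cast
      omega
    · have := abs_lt.1 (xDirs_bd (hy (l - Q) (by omega))).2
      push_cast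
      omega
  have hA : ∀ l < L, ((lanes Q (2 ^ 45) y (o + l) : ℕ) : ℤ) = (y (o + l)).re + 2 ^ 45 := by
    intro l hl
    have := abs_lt.1 (xDirs_bd (hy (o + l) (by omega))).1
    unfold lanes
    rw [if_pos (by omega)]
    push_cast
    omega
  have hC : ∀ l < L, ((lanes Q (2 ^ 45) y (Q + o + l) : ℕ) : ℤ) = (y (o + l)).im + 2 ^ 45 := by
    intro l hl
    have := abs_lt.1 (xDirs_bd (hy (o + l) (by omega))).2
    unfold lanes
    rw [if_neg (by omega), show Q + o + l - Q = o + l by omega]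
    push_cast
    omega
  have hA' : ∀ l < L, 0 < lanes Q (2 ^ 45) y (o + l) ∧ lanes Q (2 ^ 45) y (o + l) < 2 ^ 46 := by
    intro l hl
    have := abs_lt.1 (xDirs_bd (hy (o + l) (by omega))).1
    have := hA l hl
    omega
  have hC' : ∀ l < L, 0 < lanes Q (2 ^ 45) y (Q + o + l) ∧
      lanes Q (2 ^ 45) y (Q + o + l) < 2 ^ 46 := by
    intro l hl
    have := abs_lt.1 (xDirs_bd (hy (o + l) (by omega))).2
    have := hC l hl
    omega
  obtain ⟨e, b⟩ := xDirs_chk3 hT hA' hC'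
  rw [chk2_eq, hN, ← mul_add, pk_seg hb (by omega), pk_seg hb (by omega), e] at hc
  have b' : Bd L (2 ^ 48) (fun i => xDirs_val (T i) (lanes Q (2 ^ 45) y (o + i))
      (lanes Q (2 ^ 45) y (Q + o + i)) &&& 2 ^ 47) :=
    fun i hi => lt_of_le_of_lt Nat.and_le_left (b i hi)
  have key : ∀ l < L, xDirs_val (T l) (lanes Q (2 ^ 45) y (o + l))
      (lanes Q (2 ^ 45) y (Q + o + l)) < 2 ^ 47 ↔
      |(((y (o + l)).re : ℤ) : ℝ)| < 164 * T l ∧ |(((y (o + l)).im : ℤ) : ℝ)| < 164 * T l ∧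
      |(((y (o + l)).re : ℤ) : ℝ)| + |(((y (o + l)).im : ℤ) : ℝ)| < 232 * T l ∧
      2 * |(((y (o + l)).re : ℤ) : ℝ)| + |(((y (o + l)).im : ℤ) : ℝ)| < 367 * T l ∧
      |(((y (o + l)).re : ℤ) : ℝ)| + 2 * |(((y (o + l)).im : ℤ) : ℝ)| < 367 * T l := by
    intro l hl
    rw [xDirs_iff (hT l hl) (hA' l hl).2 (hC' l hl).2 (hA l hl) (hC l hl)]
    norm_cast
  constructor
  · intro h l hl
    rw [hc, pk_shl] at h
    have h1 := pk_inj b' (fun i _ => by norm_num) h hl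
    have h2 : ¬ xDirs_val (T l) (lanes Q (2 ^ 45) y (o + l))
        (lanes Q (2 ^ 45) y (Q + o + l)) < 2 ^ 47 := by
      rw [not_lt]
      rw [one_mul] at h1
      exact h1.symm.le.trans Nat.and_le_left
    rw [key l hl] at h2
    have h3 := xDirs_B (abs_nonneg _) (abs_nonneg _) (Nat.cast_nonneg _) h2
    rw [← xDirs_norm] at h3
    exact (pow_le_pow_iff_left₀ (by positivity) (norm_nonneg _) two_ne_zero).1 h3
  · intro h l hl
    rw [hc, show (0 : ℕ) = pk 48 L (fun _ => 0) by simp [pk]] at h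
    have h1 := pk_inj b' (fun i _ => by norm_num) h hl
    have h2 := (key l hl).1 (xDirs_lt (b l hl) h1)
    have h3 := xDirs_C (abs_nonneg _) (abs_nonneg _) h2
    rw [← xDirs_norm] at h3
    refine ⟨?_, (pow_le_pow_iff_left₀ (norm_nonneg _) (by positivity) two_ne_zero).1 h3⟩
    have h4 : (0 : ℝ) < T l := by linarith [h2.1, abs_nonneg (((y (o + l)).re : ℤ) : ℝ)]
    exact_mod_cast h4

end Pool.Agent.MP_88bd62_nt.B
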