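import Mathlib
import Pool.Agent.MP_88bd62_nt.B.Prog

/-! The programs in the usual way of writing. -/

namespace Pool.Agent.MP_88bd62_nt.B

set_option exponentiation.threshold 1000

theorem tre_eq (k : ℕ) : tre k = (TAB >>> (44 * k)) &&& (2 ^ 22 - 1) := rfl

theorem tim_eq (k : ℕ) : tim k = (TAB >>> ((44 * k) + 22)) &&& (2 ^ 22 - 1) := rfl

theorem t3_eq (k : ℕ) : t3 k = ((tre k) + ((tim k) <<< 288)) + (2 ^ 597) := rfl

theorem sc3_eq (e k : ℕ) : sc3 e k = ((((t3 (k + 1)) * ((2 ^ 14) - e)) + ((t3 ((k + 1) + 1)) * e))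
    >>> 18) &&&
    0xfffff0000000000000000000000000000000000000000000000000000000000000000000fffff0000000000000000000000000000000000000000000000000000000000000000000fffff
    := rfl

theorem sc_eq (ν : ℕ) : sc ν = sc3a (ν &&& (2 ^ 14 - 1)) ((ν >>> 14) &&& (2 ^ 10 - 1)) := rfl

theorem cc1_eq (e k : ℕ) : cc1 e k = ((((tre (k + 1)) * ((2 ^ 14) - e)) + ((tre ((k + 1) + 1)) * e))
    >>> 17) - (2 ^ 17) := rfl

theorem cc_eq (ν : ℕ) : cc ν = cc1a (ν &&& (2 ^ 14 - 1)) ((ν >>> 14) &&& (2 ^ 10 - 1)) := rfl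

theorem stp_eq (c E x z : ℕ) : stp c E x z = ((((x * c) >>> 16) &&&
    0xffffffff0000ffffffff0000000000000000000000000000000000000000000000000000ffffffff0000ffffffff0000000000000000000000000000000000000000000000000000ffffffff0000ffffffff)
    + E) - ((x + x) + z) := rfl

theorem bt_eq (X s : ℕ) : bt X s = (X >>> s) &&& (2 ^ 33 - 1) := rfl

theorem fin2_eq (p : ℕ) : fin2 p = (((p +
    0x400000008000400000008000400000008000400000008000400000008000400000008000400000008000400000008000400000008000400000008000400000008000400000008000)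
    - ((p >>> 576) *
    0x1000000000000000000000000000000000000000000000000000000000000000000000001000000000000000000000000000000000000000000000000000000000000000000000001))
    >>> 16) &&&
    0x7fffffff00007fffffff00007fffffff00007fffffff00007fffffff00007fffffff00007fffffff00007fffffff00007fffffff00007fffffff00007fffffff00007fffffff
    := rfl

theorem taps_eq (X a b P14 P05 : ℕ) : taps X a b P14 P05 = fin2 (((bt X 71) * (P05 &&&
    0xffffffffffff000000000000000000000000000000000000000000000000000000000000ffffffffffff000000000000000000000000000000000000000000000000000000000000ffffffffffff))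
    + ((((bt X 175) * (P14 &&&
    0xffffffffffff000000000000000000000000000000000000000000000000000000000000ffffffffffff000000000000000000000000000000000000000000000000000000000000ffffffffffff))
    + ((((bt X 279) * a) + (((((bt X 383) * b) + ((bt X 487) * (P14 &&&
    0xffffffffffff000000000000000000000000000000000000000000000000000000000000ffffffffffff000000000000000000000000000000000000000000000000000000000000ffffffffffff000000000000)))
    + (((bt X 591) * (P05 &&&
    0xffffffffffff000000000000000000000000000000000000000000000000000000000000ffffffffffff000000000000000000000000000000000000000000000000000000000000ffffffffffff000000000000))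
    <<< 48)) <<< 48)) <<< 48)) <<< 48)) := rfl

theorem lf4_eq (X a b c E P23 P14 : ℕ) : lf4 X a b c E P23 P14 = taps X a b P14 (stp c E P14 P23) :=
    rfl

theorem lf3_eq (X a b c E P23 : ℕ) : lf3 X a b c E P23 = lf4 X a b c E P23 (stp c E P23 (b + (a <<<
    48))) := rfl

theorem lf2_eq (X a b c : ℕ) : lf2 X a b c = lf3 X a b c
    (0x80000000000080000000000000000000000000000000000000000000000000000000000080000000000080000000000000000000000000000000000000000000000000000000000080000000000080000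
    - (c *
    0x2000000000002000000000000000000000000000000000000000000000000000000000002000000000002000000000000000000000000000000000000000000000000000000000002000000000002))
    (a + (b <<< 48)) := rfl

theorem hor_eq (t : ℕ) : hor t =
    (((((((((0x100000000000000000000000000fffffffffffffffffffffffffb00000000000000000000000009fffffffffffffffffffffffff600000000000000000000000004ffffffffffffffffffffffffff
    * t) +
    0x10000000000000000000000000000000000000000000000004ffffffffffffffffffffffffec0000000000000000000000001dffffffffffffffffffffffffec00000000000000000000000005000)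
    * t) +
    0x10000000000000000000000000000000000000000000009ffffffffffffffffffffffffec0000000000000000000000000000000000000000000000000013fffffffffffffffffffffffff6000000)
    * t) +
    0x1000000000000000000000000000000000000000000a00000000000000000000000013ffffffffffffffffffffffffc4000000000000000000000000140000000000000000000000000a000000000)
    * t) +
    0x1000000000000000000000000000000000000000500000000000000000000000031ffffffffffffffffffffffffffffffffffffffffffffffffffcdfffffffffffffffffffffffffb000000000000)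
    * t) +
    0x100000000000000000000000000000000000010000000000000000000000001a000000000000000000000000420000000000000000000000001a00000000000000000000000001000000000000000
    := rfl

theorem lf1_eq (X ν θ : ℕ) : lf1 X ν θ = lf2 X (sc ν) (sc (ν + θ)) (cc θ) := rfl

theorem lf0_eq (g4 gt q4 v m Y j : ℕ) : lf0 g4 gt q4 v m Y j = lf1 ((hor ((Y >>> 28) &&& (2 ^ 12 -
    1))) * (((2 ^ 41) <<< v) / (120 * m))) ((((((j + j) + g4) * (j + 2)) <<< 24) / q4) + (v <<< 23))
    (((j <<< 26) + gt) / q4) := rfl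

theorem PP_eq  : PP  =
    0x3ac3b5459636981cd8668351d558e81bdeafef9755800ebdb6ca9109c4f14a14ead9e54a652a2e811f03 := rfl

theorem PM_eq  : PM  = 0x8028228800800a28028208820a00a08800228a20208828828208a20a08a28a8 := rfl

theorem flg_eq (n : ℕ) : flg n = cnd (Nat.ble n (2 ^ 8 - 1)) ((PM >>> n) &&& 1) (cnd (Nat.ble n (2 ^
    16 - 1)) (cnd (Nat.beq (Nat.gcd n PP) 1) 1 0) 0) := rfl

theorem item_eq (g4 gt q4 v m Y : ℕ) : item g4 gt q4 v m Y = (Y + ((flg (m >>> v)) <<< 63)) + ((lf0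
    g4 gt q4 v m Y (Y >>> 40)) <<< 64) := rfl

theorem at2_eq (a b u s : ℕ) : at2 a b u s = ((a * s) + b) / (s * u) := rfl

theorem at1_eq (a b u : ℕ) : at1 a b u = at2 a b u (u * u) := rfl

theorem nda_eq (f g : ℕ → ℕ → ℕ) (C d m Y m' : ℕ) : nda f g C d m Y m' = (f m Y) + ((g m' (Y + (at1
    (C * d) ((C * (d ^ 3)) / 3) (m + m')))) <<< (640 * d)) := rfl

theorem nd_eq (C : ℕ) (f : ℕ → ℕ → ℕ → ℕ) (i d v m Y : ℕ) : nd C f i d v m Y = nda (f v) (f i) C d m
    Y (m + d) := rfl

theorem blkD_eq (m : ℕ) : blkD m = nd 6222580621269191297 (nd 6222580621269191297 (nd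
    6222580621269191297 (nd 6222580621269191297 (nd 6222580621269191297 (nd 6222580621269191297
    (item 5178085 86873951174656 7845600) 0 1) 1 2) 2 4) 3 8) 4 16) 5 32 (Nat.log2 (m ^^^ (m - 1)))
    m (ats 6222580621269191297 (m - (2 ^ 16)) (m + (2 ^ 16)) 21) := rfl

theorem t2_eq (k : ℕ) : t2 k = (tre k) + ((tim k) <<< 40) := rfl

theorem sp3_eq (e k : ℕ) : sp3 e k = ((t2 (k + 1)) * ((2 ^ 14) - e)) + ((t2 ((k + 1) + 1)) * e) :=
    rfl

theorem sp_eq (ν : ℕ) : sp ν = sp3a (ν &&& (2 ^ 14 - 1)) ((ν >>> 14) &&& (2 ^ 10 - 1)) := rfl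

theorem rot2_eq (x T J : ℕ) : rot2 x T J = (((((((x >>> 18) &&& (2 ^ 18 - 1)) * T) + ((x >>> 58) *
    J)) +
    0x40000400000020000400000020000400000020000400000020000400000020000400000020000400000020000400000020000400000020000400000020000400000020000c00000020000)
    - ((T + J) <<< 17)) >>> 18) &&&
    0x3fffffff00003fffffff00003fffffff00003fffffff00003fffffff00003fffffff00003fffffff00003fffffff00003fffffff00003fffffff00003fffffff00003fffffff
    := rfl

theorem rot1_eq (x T : ℕ) : rot1 x T = rot2 x (T +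
    0xffffbfffffffffffbfffffffffffbfffffffffffbfffffffffffbfffffffffffbfffffffffffbfffffffffffbfffffffffffbfffffffffffbfffffffffffbfffffffffffc0000000)
    ((((T &&& (2 ^ 288 - 1)) <<< 288) +
    0xffffbfffffffffffbfffffffffffbfffffffffffbfffffffffffbfffffffffffc0000000000040000000000040000000000040000000000040000000000040000000000040000000)
    - (T >>> 288)) := rfl

theorem leafB_eq (k D Y : ℕ) : leafB k D Y = rot1 (sp ((k * Y) / 257084620800)) (D >>> 64) := rfl

theorem leafC_eq (k D Y : ℕ) : leafC k D Y = cnd (Nat.beq (D &&& (2 ^ 63)) 0) 0 (leafB k D Y) := rfl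

theorem jn_eq (x y Y Z : ℕ) : jn x y Y Z = x + (y <<< (48 * ((Z >>> 40) - (Y >>> 40)))) := rfl

theorem nwb_eq (f : ℕ → ℕ → ℕ) (x Y y Z : ℕ) : nwb f x Y y Z = jn (f x Y) (f y Z) Y Z := rfl

theorem nwa_eq (f : ℕ → ℕ → ℕ) (x Y y : ℕ) : nwa f x Y y = nwb f x Y y (y &&& (2 ^ 63 - 1)) := rfl

theorem nw_eq (f : ℕ → ℕ → ℕ) (s o D Y : ℕ) : nw f s o D Y = nwa f (D &&& o) Y (D >>> s) := rfl

theorem ones_eq (s : ℕ) : ones s = (1 <<< s) - 1 := rfl

theorem blkW_eq (f : ℕ → ℕ → ℕ) (D : ℕ) : blkW f D = nw (nw (nw (nw (nw (nw f 640 (ones 640)) 1280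
    (ones 1280)) 2560 (ones 2560)) 5120 (ones 5120)) 10240 (ones 10240)) 20480 (ones 20480) D (D &&&
    (2 ^ 63 - 1)) := rfl

theorem vre_eq (q : ℕ) (ph : ℕ → ℕ) (i : ℕ) : vre q ph i = cnd (Nat.ble q i) 0 ((sc (ph i)) &&& (2 ^
    48 - 1)) := rfl

theorem vim_eq (q : ℕ) (ph : ℕ → ℕ) (i : ℕ) : vim q ph i = cnd (Nat.ble q i) 0 (((sc (ph i)) >>>
    288) &&& (2 ^ 48 - 1)) := rfl

theorem ph1_eq (q i : ℕ) : ph1 q i = ((i + (((q + q) - 2) * (i * i))) <<< 22) / q := rfl

theorem ph2a_eq (q j : ℕ) : ph2a q j = ((j + (((q + q) + 2) * (j * j))) <<< 22) / q := rfl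

theorem ph2_eq (q a : ℕ) : ph2 q a = ph2a q ((q - a) % q) := rfl

theorem comb2_eq (s O x y H : ℕ) : comb2 s O x y H = (x + ((O + 2) - H)) + ((y + (O - H)) <<< s) :=
    rfl

theorem comb_eq (s O q : ℕ) (ph : ℕ → ℕ) (R R' : ℕ) : comb s O q ph R R' = comb2 s O (((cat (vre q
    ph) 48 11 0) * R) &&& (R' * (2 ^ 48 - 1))) (((cat (vim q ph) 48 11 0) * R) &&& (R' * (2 ^ 48 -
    1))) (R' <<< 17) := rfl

theorem red_eq (s2 O2 b P : ℕ) : red s2 O2 b P = (((P &&& O2) + b) - (P >>> s2)) % (O2 + 2) := rfl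

theorem kern2_eq (s O O2 R2 q R R' : ℕ) : kern2 s O O2 R2 q R R' = (((red (s + s) O2 ((R2 *
    8590065664) + ((O2 + 2) <<< 3)) ((comb s O q (ph1 q) R R') * (comb s O (q + 1) (ph2 (q + 1)) R'
    R))) >>> 18) &&& (R2 * (2 ^ 30 - 1))) + ((O2 + 2) - (R2 <<< 15)) := rfl

theorem kern_eq (s O O2 R2 q : ℕ) : kern s O O2 R2 q = kern2 s O O2 R2 q (O / (ones (48 * q))) (O /
    (ones (48 * (q + 1)))) := rfl

theorem sep3_eq (s O2 I29 x y b : ℕ) : sep3 s O2 I29 x y b = ((x + (y <<< s)) + ((O2 + 2) <<< 336))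
    - ((b + I29) + (b <<< s)) := rfl

theorem sep2_eq (s O2 X I29 I x : ℕ) : sep2 s O2 X I29 I x = sep3 s O2 I29 x ((X - x) >>> 288) (I *
    0x10000000000010000000000010000000000010000000000010000000000010000000) := rfl

theorem sep1_eq (s O2 X I29 I : ℕ) : sep1 s O2 X I29 I = sep2 s O2 X I29 I (X &&& (I * (2 ^ 288 -
    1))) := rfl

theorem sep0_eq (s O2 X I29 : ℕ) : sep0 s O2 X I29 = sep1 s O2 X I29 (I29 >>> 29) := rfl

theorem sep_eq (s O2 R2 X : ℕ) : sep s O2 R2 X = sep0 s O2 X (X &&& (R2 <<< 29)) := rfl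

theorem or4_eq (a b c d : ℕ) : or4 a b c d = (a ||| b) ||| (c ||| d) := rfl

theorem d2_eq (a x y : ℕ) : d2 a x y = (a + x) ||| (a + y) := rfl

theorem dirs_eq (a b c d C1 C2 C3 : ℕ) : dirs a b c d C1 C2 C3 = ((or4 (a + C1) (b + C1) (c + C1) (d
    + C1)) ||| ((d2 (a + C2) c d) ||| (d2 (b + C2) c d))) ||| (or4 (d2 ((a + a) + C3) c d) (d2 ((b +
    b) + C3) c d) (d2 ((c + c) + C3) a b) (d2 ((d + d) + C3) a b)) := rfl

theorem chk3_eq (R T a c : ℕ) : chk3 R T a c = (dirs a ((R <<< 46) - a) c ((R <<< 46) - c) ((R *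
    105553116266496) - (T * 164)) ((R <<< 46) - (T * 232)) ((R <<< 45) - (T * 367))) &&& (R <<< 47)
    := rfl

theorem chk2_eq (s o OL R T N : ℕ) : chk2 s o OL R T N = chk3 R T ((N >>> o) &&& OL) ((N >>> (s +
    o)) &&& OL) := rfl

theorem cnv_eq (s O O2 R2 q X : ℕ) : cnv s O O2 R2 q X = red (s + s) O2 ((R2 <<< 45) + ((O2 + 2) <<<
    432)) ((sep s O2 R2 X) * (kern s O O2 R2 q)) := rfl

theorem cnv1_eq (s O O2 q X : ℕ) : cnv1 s O O2 q X = cnv s O O2 (O2 / (2 ^ 48 - 1)) q X := rfl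

theorem cnv0_eq (s q X : ℕ) : cnv0 s q X = cnv1 s (ones s) (ones (s + s)) q X := rfl

theorem snU2_eq (y : ℕ) : snU2 y = (4294967297 + (((y * y) >>> 32) / 120)) - (y / 6) := rfl

theorem snU_eq (x : ℕ) : snU x = snU2 ((42389628127 * (x * x)) / 3847089960000) := rfl

theorem snL2_eq (y : ℕ) : snL2 y = (4294967294 + (((y * y) >>> 32) / 120)) - ((y / 6) + (((y ^ 3)
    >>> 64) / 5040)) := rfl

theorem snL_eq (x : ℕ) : snL x = snL2 (((42389628128 * (x * x)) / 3847089960000) + 1) := rfl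

theorem ali_eq (γ x : ℕ) : ali γ x = (((γ * (x ^ 6)) / ((1961400 - x) ^ 6)) + (((γ * 28) * (x ^ 6))
    / 0x42edf3a05b92a2b8fb922cc71e0240000)) + 2 := rfl

theorem xlo_eq (bw b : ℕ) : xlo bw b = bw * ((b - (2 ^ 7)) + (127 - b)) := rfl

theorem thB_eq (bw α β γ b : ℕ) : thB bw α β γ b = (((α + (ali γ ((xlo bw b) + bw))) * ((snU (xlo bw
    b)) ^ 6)) >>> 192) + β := rfl

theorem thC_eq (bw α β γ b : ℕ) : thC bw α β γ b = (((α - (ali γ ((xlo bw b) + bw))) * ((snL ((xlo
    bw b) + bw)) ^ 6)) >>> 192) - β := rfl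

theorem band_eq (th : ℕ → ℕ) (bw : ℕ) : band th bw = (cat th (48 * bw) 8 0) * ((ones (48 * bw)) / (2
    ^ 48 - 1)) := rfl

theorem win2_eq (th : ℕ → ℕ) (bw X OL R : ℕ) : win2 th bw X OL R = chk2 94147200 (48 * (666880 - ((2
    ^ 7) * bw))) OL R (band th bw) (cnv0 94147200 1400 X) := rfl

theorem winB2_eq (t : Tr) (bw k α β γ OL R : ℕ) : winB2 t bw k α β γ OL R = Nat.beq (win2 (thB bw α
    β γ) bw (grid (leafB k) t) OL R) (R <<< 47) := rfl

theorem winB1_eq (t : Tr) (bw k α β γ OL : ℕ) : winB1 t bw k α β γ OL = winB2 t bw k α β γ OL (OL /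
    (2 ^ 48 - 1)) := rfl

theorem winB_eq (t : Tr) (bw k α β γ : ℕ) : winB t bw k α β γ = winB1 t bw k α β γ (ones (12288 *
    bw)) := rfl

theorem winC1_eq (t : Tr) (bw k α β γ OL : ℕ) : winC1 t bw k α β γ OL = Nat.beq (win2 (thC bw α β γ)
    bw (grid (leafC k) t) OL (OL / (2 ^ 48 - 1))) 0 := rfl

theorem winC_eq (t : Tr) (bw k α β γ : ℕ) : winC t bw k α β γ = winC1 t bw k α β γ (ones (12288 *
    bw)) := rfl

theorem mx2_eq (R v d : ℕ) : mx2 R v d = v + (d &&& (((d >>> 47) &&& R) * (2 ^ 47 - 1))) := rfl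

theorem mx_eq (R u v : ℕ) : mx R u v = mx2 R v ((u + (R <<< 47)) - v) := rfl

theorem dn_eq (R x : ℕ) : dn R x = (x >>> 10) &&& (R * (2 ^ 35 - 1)) := rfl

theorem md4_eq (R u s : ℕ) : md4 R u s = mx R (mx R (u <<< 10) (s * 724)) ((s + u) * 457) := rfl

theorem md3_eq (R u w : ℕ) : md3 R u w = md4 R u (u + w) := rfl

theorem md2_eq (R x y u : ℕ) : md2 R x y u = md3 R (dn R u) (dn R ((x + y) - u)) := rfl

theorem md1_eq (R x y : ℕ) : md1 R x y = md2 R x y (mx R x y) := rfl

theorem md_eq (R a c : ℕ) : md R a c = md1 R (mx R a ((R <<< 46) - a)) (mx R c ((R <<< 46) - c)) :=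
    rfl

theorem bits_eq (R G K α : ℕ) : bits R G K α = ((G - (K * α)) >>> 47) &&& R := rfl

theorem segv_eq (U lo len : ℕ) : segv U lo len = (640000 * len) - (((U >>> (48 * lo)) &&& (ones (48
    * len))) % (2 ^ 48 - 1)) := rfl

theorem finW_eq (U : ℕ) : finW U = both (allS U 16) (Nat.ble ((sum1 U 15) + (sum2 (U &&& (ones
    3145728)) 16)) 215040) := rfl

theorem kW_eq (b : ℕ) : kW b = (((snU (xlo (2 ^ 12) b)) ^ 6) >>> 172) + 1 := rfl

theorem winW3_eq (α : ℕ) (L : List (ℕ × ℕ)) (R G K : ℕ) : winW3 α L R G K = both (Nat.beq (bits R G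
    K α) R) (finW (accu R G K L)) := rfl

theorem winW2_eq (α β γ e : ℕ) (L : List (ℕ × ℕ)) (OL R N : ℕ) : winW2 α β γ e L OL R N = winW3 α L
    R (((md R ((N >>> 6844416) &&& OL) ((N >>> 100991616) &&& OL)) + (R <<< 47)) - ((band (thB (2 ^
    12) 0 β γ) (2 ^ 12)) + e)) (band kW (2 ^ 12)) := rfl

theorem winW_eq (t : Tr) (α β γ e : ℕ) (L : List (ℕ × ℕ)) : winW t α β γ e L = winW2 α β γ e L (ones
    50331648) ((ones 50331648) / (2 ^ 48 - 1)) (cnv0 94147200 1400 (grid (leafB 1048577) t)) := rfl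

theorem cnd_eq (c : Bool) (x y : ℕ) : cnd c x y = if c = true then x else y := by cases c <;> rfl

theorem both_iff (a b : Bool) : both a b = true ↔ a = true ∧ b = true := by
  cases a <;> simp [both]

theorem sc3a_zero (e : ℕ) : sc3a e 0 = sc3 e 1023 := rfl
theorem sc3a_succ (e k : ℕ) : sc3a e (k + 1) = sc3 e k := rfl
theorem cc1a_zero (e : ℕ) : cc1a e 0 = cc1 e 1023 := rfl
theorem cc1a_succ (e k : ℕ) : cc1a e (k + 1) = cc1 e k := rfl
theorem sp3a_zero (e : ℕ) : sp3a e 0 = sp3 e 1023 := rfl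
theorem sp3a_succ (e k : ℕ) : sp3a e (k + 1) = sp3 e k := rfl
theorem ats_zero (C d u : ℕ) : ats C d u 0 = 0 := rfl
theorem ats_succ (C d u k : ℕ) : ats C d u (k + 1) =
    ats C d u k + C * d ^ (2 * k + 1) / ((2 * k + 1) * u ^ (2 * k + 1)) := rfl
theorem chkT_lf (D m s : ℕ) : chkT (.lf D) m s = both (Nat.beq s 64) (Nat.beq D (blkD m)) := rfl
theorem chkT_nd (l r : Tr) (m s : ℕ) : chkT (.nd l r) m s = both (Nat.beq (s % 2) 0)
    (both (chkT l m (s / 2)) (chkT r (m + s / 2) (s / 2))) := rfl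
theorem fstY_lf (D : ℕ) : fstY (.lf D) = D &&& (2 ^ 63 - 1) := rfl
theorem fstY_nd (l r : Tr) : fstY (.nd l r) = fstY l := rfl
theorem grid_lf (f : ℕ → ℕ → ℕ) (D : ℕ) : grid f (.lf D) = blkW f D := rfl
theorem grid_nd (f : ℕ → ℕ → ℕ) (l r : Tr) :
    grid f (.nd l r) = jn (grid f l) (grid f r) (fstY l) (fstY r) := rfl
theorem cat_zero (f : ℕ → ℕ) (s lo : ℕ) : cat f s 0 lo = f lo := rfl
theorem cat_succ (f : ℕ → ℕ) (s k lo : ℕ) : cat f s (k + 1) lo =
    cat f s k lo + cat f s k (lo + 1 <<< k) <<< (s <<< k) := rfl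
theorem accu_nil (R G K : ℕ) : accu R G K [] = 0 := rfl
theorem accu_cons (R G K : ℕ) (p : ℕ × ℕ) (L : List (ℕ × ℕ)) :
    accu R G K (p :: L) = accu R G K L + bits R G K p.1 * p.2 := rfl
theorem allS_zero (U : ℕ) : allS U 0 = true := rfl
theorem allS_succ (U i : ℕ) :
    allS U (i + 1) = both (allS U i) (Nat.ble (segv U (65536 * i) 65536) 1409286144) := rfl
theorem sum1_zero (U : ℕ) : sum1 U 0 = 0 := rfl
theorem sum1_succ (U i : ℕ) : sum1 U (i + 1) =
    sum1 U i + (segv U (65536 * (i + 1)) 65536 / (131072 * (i + 1) + 1) + 1) := rfl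
theorem sum2_zero (U : ℕ) : sum2 U 0 = segv U 0 1 := rfl
theorem sum2_succ (U j : ℕ) : sum2 U (j + 1) =
    sum2 U j + (segv U (1 <<< j) (1 <<< j) / (2 <<< j + 1) + 1) := rfl

end Pool.Agent.MP_88bd62_nt.B
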