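import Pool.Agent.MP_88bd62_nt.B.Defs

namespace Pool.Agent.MP_88bd62_nt.B

open Finset Pool.Agent.MP_90395b_gt.Bn

lemma xFinW_bd {n : ℕ} {u : ℕ → ℕ} (hu : ∀ l < n, u l ≤ 640000) : Bd n (2 ^ 48) u :=
  fun i hi => lt_of_le_of_lt (hu i hi) (by norm_num)

lemma xFinW_segv {n : ℕ} {u : ℕ → ℕ} (hu : ∀ l < n, u l ≤ 640000) {lo len : ℕ}
    (h : lo + len ≤ n) (hl : len ≤ 65536) :
    (segv (pk 48 n u) lo len : ℝ) = ∑ m ∈ Ico lo (lo + len), (640000 - u m : ℝ) := by
  have h1 : ∑ i ∈ range len, u (lo + i) ≤ 640000 * len := by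
    have := sum_le_card_nsmul (range len) (fun i => u (lo + i)) 640000 fun i hi =>
      hu _ (by have := mem_range.1 hi; omega)
    rwa [card_range, smul_eq_mul, mul_comm] at this
  have h2 : ∑ i ∈ range len, u (lo + i) < 2 ^ 48 - 1 := by
    refine lt_of_le_of_lt h1 ?_
    omega
  rw [segv_eq, pk_seg (xFinW_bd hu) h, pk_mod _ h2, Nat.cast_sub h1, sum_Ico_eq_sum_range,
    Nat.add_sub_cancel_left, sum_sub_distrib, sum_const, card_range, nsmul_eq_mul]
  push_cast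
  ring

lemma xFinW_piece {n : ℕ} {u : ℕ → ℕ} (hu : ∀ l < n, u l ≤ 640000) {lo len : ℕ}
    (h : lo + len ≤ n) (hl : len ≤ 65536) :
    ∑ m ∈ Ico lo (lo + len), (640000 - u m : ℝ) / (2 * m + 1) ≤
      (segv (pk 48 n u) lo len / (2 * lo + 1) + 1 : ℕ) := by
  have hD : (0 : ℝ) < 2 * lo + 1 := by positivity
  have h1 : ∑ m ∈ Ico lo (lo + len), (640000 - u m : ℝ) / (2 * m + 1) ≤
      (segv (pk 48 n u) lo len : ℝ) / (2 * lo + 1) := by
    rw [xFinW_segv hu h hl, sum_div]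
    refine sum_le_sum fun m hm => ?_
    obtain ⟨m1, m2⟩ := mem_Ico.1 hm
    have a1 : (u m : ℝ) ≤ 640000 := by exact_mod_cast hu m (by omega)
    have a2 : (lo : ℝ) ≤ m := by exact_mod_cast m1
    exact div_le_div_of_nonneg_left (by linarith) hD (by linarith)
  refine h1.trans ?_
  generalize segv (pk 48 n u) lo len = x
  rw [div_le_iff₀ hD]
  have h2 : x ≤ (x / (2 * lo + 1) + 1) * (2 * lo + 1) := by
    rw [mul_comm]
    exact (Nat.lt_mul_div_succ x (Nat.succ_pos _)).le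
  exact_mod_cast h2

lemma xFinW_allS {U : ℕ} : ∀ k, allS U k = true → ∀ i < k,
    segv U (65536 * i) 65536 ≤ 1409286144 := by
  intro k
  induction k with
  | zero => intro _ i hi; omega
  | succ k ih =>
    intro h i hi
    rw [allS_succ, both_iff] at h
    rcases Nat.lt_succ_iff_lt_or_eq.1 hi with h1 | rfl
    · exact ih h.1 i h1
    · exact Nat.le_of_ble_eq_true h.2

lemma xFinW_sum1 {n : ℕ} {u : ℕ → ℕ} (hu : ∀ l < n, u l ≤ 640000) : ∀ k, 65536 * (k + 1) ≤ n →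
    ∑ m ∈ Ico 65536 (65536 * (k + 1)), (640000 - u m : ℝ) / (2 * m + 1) ≤ sum1 (pk 48 n u) k := by
  intro k
  induction k with
  | zero =>
    intro _
    rw [zero_add, mul_one, Ico_self, sum_empty]
    exact Nat.cast_nonneg _
  | succ k ih =>
    intro h
    have h1 := xFinW_piece hu (lo := 65536 * (k + 1)) (len := 65536) (by omega) le_rfl
    rw [show 2 * (65536 * (k + 1)) = 131072 * (k + 1) by omega] at h1
    rw [sum1_succ, Nat.cast_add, show 65536 * (k + 1 + 1) = 65536 * (k + 1) + 65536 by omega,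
      ← sum_Ico_consecutive _ (show 65536 ≤ 65536 * (k + 1) by omega) (Nat.le_add_right _ _)]
    exact add_le_add (ih (by omega)) h1

lemma xFinW_sum2 {n : ℕ} {u : ℕ → ℕ} (hu : ∀ l < n, u l ≤ 640000) (hn : n ≤ 65536) :
    ∀ k, 2 ^ k ≤ n →
      ∑ m ∈ Ico 0 (2 ^ k), (640000 - u m : ℝ) / (2 * m + 1) ≤ sum2 (pk 48 n u) k := by
  intro k
  induction k with
  | zero =>
    intro h
    rw [sum2_zero, xFinW_segv hu (lo := 0) (len := 1) h (by norm_num)]
    simp
  | succ k ih =>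
    intro h
    rw [pow_succ, mul_two] at h
    have h1 := xFinW_piece hu (lo := 2 ^ k) (len := 2 ^ k) h (by omega)
    rw [sum2_succ, Nat.cast_add, pow_succ, mul_two, Nat.one_shiftLeft, Nat.shiftLeft_eq,
      ← sum_Ico_consecutive _ (Nat.zero_le (2 ^ k)) (Nat.le_add_right _ _)]
    exact add_le_add (ih (by omega)) h1

lemma xFinW_land {n Q s : ℕ} {u : ℕ → ℕ} (hu : ∀ l < n, u l ≤ 640000) (hQ : Q ≤ n)
    (hs : s = 48 * Q) : pk 48 n u &&& ones s = pk 48 Q u := by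
  have := pk_seg (o := 0) (L := Q) (xFinW_bd hu) (by omega)
  rw [mul_zero, Nat.shiftRight_zero] at this
  rw [hs, this]
  exact pk_congr fun i _ => by rw [zero_add]

lemma xFinW_main {n Q s : ℕ} {u : ℕ → ℕ} (hu : ∀ l < n, u l ≤ 640000) (hQ : Q = 65536)
    (hn : n = 65536 * (15 + 1)) (hs : s = 48 * Q) {k : ℕ} (hk : 2 ^ k = Q)
    (h : sum1 (pk 48 n u) 15 + sum2 (pk 48 n u &&& ones s) k ≤ 215040) :
    ∑ m ∈ range n, (640000 - u m : ℝ) / (2 * m + 1) ≤ 215040 := by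
  have hQn : Q ≤ n := by omega
  rw [xFinW_land hu hQn hs] at h
  have h1 := xFinW_sum1 hu 15 hn.ge
  have h2 := xFinW_sum2 (n := Q) (fun l hl => hu l (by omega)) hQ.le k hk.le
  rw [← hn, ← hQ] at h1
  rw [hk] at h2
  have h3 : (sum1 (pk 48 n u) 15 : ℝ) + sum2 (pk 48 Q u) k ≤ 215040 := by exact_mod_cast h
  rw [range_eq_Ico, ← sum_Ico_consecutive _ (Nat.zero_le Q) hQn]
  linarith

theorem stFinW : StFinW := by
  intro n u hn hu h
  rw [finW_eq, both_iff] at h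
  have hn' : n = 65536 * (15 + 1) := by rw [hn]; norm_num
  refine ⟨?_, fun i hi => ?_⟩
  · rw [← hn]
    exact xFinW_main (Q := 65536) (s := 3145728) (k := 16) hu rfl hn' (by norm_num) (by norm_num)
      (Nat.le_of_ble_eq_true h.2)
  · have h1 := xFinW_allS 16 h.1 i hi
    have h2 := xFinW_segv hu (lo := 65536 * i) (len := 65536) (by omega) le_rfl
    have e : (2 : ℕ) ^ 16 = 65536 := by norm_num
    rw [e, mul_add, mul_one, ← h2]
    exact_mod_cast h1

end Pool.Agent.MP_88bd62_nt.B
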