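import Pool.Agent.MP_88bd62_nt.B.Defs

/-! The flag of the primes and the sums of reciprocals. -/

namespace Pool.Agent.MP_88bd62_nt.B

open Finset Pool.Agent.MP_88bd62_nt.U

theorem xFlg_mem {n : ℕ} : n ∈ Pr 16 ↔ (3 ≤ n ∧ n ≤ 65536) ∧ n.Prime := by
  rw [Pr, mem_filter, mem_Icc]
  rfl

theorem xFlg_small : ∀ n < 256, (PM >>> n) &&& 1 = if 3 ≤ n ∧ n.Prime then 1 else 0 := by
  decide +kernel

theorem xFlg_dvd : ∀ p < 256, 3 ≤ p → p.Prime → p ∣ PP := by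
  decide +kernel

theorem xFlg_fac : PP ∣ Nat.factorial 255 := by
  decide +kernel

theorem xFlg_gcd {n : ℕ} (ho : Odd n) (h1 : 255 < n) (h2 : n ≤ 65535) :
    Nat.gcd n PP = 1 ↔ n.Prime := by
  refine ⟨fun h => ?_, fun h => h.coprime_iff_not_dvd.2 fun e => ?_⟩
  · by_contra hn
    have h3 := Nat.minFac_prime (show n ≠ 1 by omega)
    have h4 := Nat.minFac_sq_le_self (by omega) hn
    have h5 : n.minFac ≠ 2 := fun e => ho.not_two_dvd_nat (e ▸ Nat.minFac_dvd n)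
    have h6 := h3.two_le
    exact h3.one_lt.ne' (Nat.dvd_one.1 (h ▸ Nat.dvd_gcd (Nat.minFac_dvd n)
      (xFlg_dvd _ (by nlinarith) (by omega) h3)))
  · have := h.dvd_factorial.1 (e.trans xFlg_fac)
    omega

theorem stFlg : StFlg := by
  intro n ho
  have h0 := Nat.odd_iff.1 ho
  simp only [flg_eq, cnd_eq, Nat.ble_eq, Nat.beq_eq, xFlg_mem]
  by_cases h1 : n ≤ 255
  · rw [if_pos (show n ≤ 2 ^ 8 - 1 from h1), xFlg_small n (by omega)]
    exact if_congr (and_congr_left' ⟨fun h => ⟨h, by omega⟩, fun h => h.1⟩) rfl rfl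
  rw [if_neg (show ¬ n ≤ 2 ^ 8 - 1 from h1)]
  by_cases h2 : n ≤ 65535
  · rw [if_pos (show n ≤ 2 ^ 16 - 1 from h2)]
    exact if_congr ((xFlg_gcd ho (by omega) h2).trans
      ⟨fun h => ⟨⟨by omega, by omega⟩, h⟩, fun h => h.2⟩) rfl rfl
  · rw [if_neg (show ¬ n ≤ 2 ^ 16 - 1 from h2), if_neg fun h => h2 (by omega)]

/-- The sum of `f` over `2 ^ d` consecutive numbers. -/
def xFlg_S (f : ℕ → ℕ) (d : ℕ) : ℕ → ℕ :=
  Nat.rec f (fun d g a => Nat.add (g a) (g (Nat.add a (Nat.pow 2 d)))) d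

theorem xFlg_S_eq (f : ℕ → ℕ) (d a : ℕ) : xFlg_S f d a = ∑ i ∈ range (2 ^ d), f (a + i) := by
  induction d generalizing a with
  | zero => simp [xFlg_S]
  | succ d ih =>
    change xFlg_S f d a + xFlg_S f d (a + 2 ^ d) = _
    simp only [ih, pow_succ, mul_two, sum_range_add, add_assoc]

theorem xFlg_le (S : Finset ℕ) (f : ℕ → ℕ) (d N : ℕ) (h : xFlg_S f d 0 ≤ N)
    (hS : ∀ n ∈ S, n < 2 ^ d ∧ 0 < n ∧ f n = 2 ^ 40 / n + 1) :
    ∑ n ∈ S, (1 / n : ℝ) ≤ N / 2 ^ 40 := by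
  have h1 : ∑ n ∈ S, f n ≤ N := by
    refine le_trans (sum_le_sum_of_subset fun n hn => mem_range.2 (hS n hn).1) (h.trans' ?_)
    simp only [xFlg_S_eq, zero_add, le_refl]
  rw [le_div_iff₀ (by positivity), sum_mul]
  refine le_trans (sum_le_sum fun n hn => ?_) ((Nat.cast_sum S f).ge.trans (Nat.cast_le.2 h1))
  obtain ⟨-, h2, h3⟩ := hS n hn
  rw [one_div, inv_mul_le_iff₀ (Nat.cast_pos.2 h2), h3]
  exact_mod_cast (Nat.lt_mul_div_succ (2 ^ 40) h2).le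

/-- An upper bound for `2 ^ 40 / n` if `n` is odd. -/
def xFlg_o (n : ℕ) : ℕ := Nat.mul (Nat.mod n 2) (Nat.add (Nat.div 1099511627776 n) 1)

theorem xFlg_odd {n : ℕ} (h : Odd n) : xFlg_o n = 2 ^ 40 / n + 1 := by
  change n % 2 * (2 ^ 40 / n + 1) = _
  rw [Nat.odd_iff.1 h, one_mul]

theorem xFlg_sum1 : xFlg_S xFlg_o 17 0 ≤ 7190000000000 := by
  decide +kernel

theorem xFlg_sum2 : xFlg_S (fun n => Nat.mul (flg n) (xFlg_o n)) 16 0 ≤ 2385000000000 := by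
  decide +kernel

theorem stGam : StGam := by
  have key : ∀ n ∈ Pr 16, Odd n ∧ n ≤ 65536 := fun n hn => by
    obtain ⟨h1, h2⟩ := xFlg_mem.1 hn
    exact ⟨h2.odd_of_ne_two (by omega), h1.2⟩
  refine ⟨(xFlg_le _ _ _ _ xFlg_sum1 fun n hn => ?_).trans (by norm_num),
    (xFlg_le _ _ _ _ xFlg_sum2 fun n hn => ?_).trans (by norm_num), fun n hn => ?_, fun m hm => ?_⟩
  · obtain ⟨h1, h2⟩ := mem_filter.1 hn
    exact ⟨mem_range.1 h1, h2.pos, xFlg_odd h2⟩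
  · obtain ⟨h1, h2⟩ := key n hn
    have h3 := Nat.odd_iff.1 h1
    refine ⟨by omega, h1.pos, ?_⟩
    change flg n * xFlg_o n = _
    rw [stFlg n h1, if_pos hn, one_mul, xFlg_odd h1]
  · obtain ⟨h1, h2⟩ := key n hn
    exact mem_filter.2 ⟨mem_range.2 (by omega), h1⟩
  · obtain ⟨h1, h2⟩ := mem_Ico.1 hm
    refine mem_filter.2 ⟨mem_range.2 ((Nat.div_le_self _ _).trans_lt h2), ?_⟩
    rw [nn, vv, ← Nat.factorization_def m Nat.prime_two, ← Nat.not_even_iff_odd, even_iff_two_dvd]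
    exact Nat.not_dvd_ordCompl Nat.prime_two (by omega)

end Pool.Agent.MP_88bd62_nt.B
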