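import Pool.Agent.MP_88bd62_nt.B.Defs

/-! Folding of the odd numbers into one octave. -/

namespace Pool.Agent.MP_88bd62_nt.B

open Finset Real Pool.Agent.MP_88bd62_nt.U

lemma xFold_mul (m : ℕ) : 2 ^ vv m * nn m = m :=
  Nat.mul_div_cancel' pow_padicValNat_dvd

lemma xFold_nn {n : ℕ} (hn : Odd n) (e : ℕ) : nn (2 ^ e * n) = n := by
  have h0 : n ≠ 0 := by
    rintro rfl
    exact absurd hn (by decide)
  have h1 : padicValNat 2 n = 0 :=
    padicValNat.eq_zero_of_not_dvd fun h => (Nat.not_even_iff_odd.2 hn) (even_iff_two_dvd.2 h)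
  have h2 : vv (2 ^ e * n) = e := by
    rw [vv, padicValNat.mul (by positivity) h0, padicValNat.prime_pow, h1, add_zero]
  rw [nn, h2, Nat.mul_div_cancel_left _ (by positivity)]

lemma xFold_inj {a b n : ℕ} (h1 : 65536 ≤ 2 ^ a * n) (h2 : 2 ^ b * n < 131072) : b ≤ a := by
  by_contra h
  have h3 : 2 ^ (a + 1) ≤ 2 ^ b := Nat.pow_le_pow_right (by norm_num) (by omega)
  have h4 := Nat.mul_le_mul_right n h3
  rw [pow_succ, mul_right_comm] at h4
  omega

lemma xFold_sur {n : ℕ} (h0 : n ≠ 0) (h1 : n < 131072) :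
    ∃ e, 65536 ≤ 2 ^ e * n ∧ 2 ^ e * n < 131072 := by
  have h2 : Nat.log 2 n < 17 := Nat.log_lt_of_lt_pow h0 (by norm_num; exact h1)
  have h3 := Nat.pow_log_le_self 2 h0
  have h4 := Nat.lt_pow_succ_log_self (b := 2) (by norm_num) n
  obtain ⟨e, he⟩ : ∃ e, e + Nat.log 2 n = 16 := ⟨16 - Nat.log 2 n, by omega⟩
  have h5 : 2 ^ e * 2 ^ Nat.log 2 n = 65536 := by rw [← pow_add, he]; norm_num
  refine ⟨e, ?_, ?_⟩
  · rw [← h5]
    exact Nat.mul_le_mul_left _ h3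
  · have h6 := Nat.mul_lt_mul_of_pos_left h4 (show 0 < 2 ^ e by positivity)
    rw [Nat.succ_eq_add_one, pow_succ, ← mul_assoc, h5] at h6
    exact h6

lemma xFold_sum {M : Type} [AddCommMonoid M] {S : Finset ℕ} (hS : S ⊆ OS) (F : ℕ → M) :
    ∑ m ∈ (Ico 65536 131072).filter (fun m => nn m ∈ S), F (nn m) = ∑ n ∈ S, F n := by
  refine Finset.sum_nbij nn (fun m hm => (mem_filter.1 hm).2) ?_ ?_ fun _ _ => rfl
  · intro a ha b hb e
    have ha' := mem_Ico.1 (mem_filter.1 (mem_coe.1 ha)).1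
    have hb' := mem_Ico.1 (mem_filter.1 (mem_coe.1 hb)).1
    have ea := xFold_mul a
    have eb := xFold_mul b
    rw [e] at ea
    have h1 : vv a ≤ vv b := xFold_inj (n := nn b) (by rw [eb]; exact hb'.1) (by rw [ea]; exact ha'.2)
    have h2 : vv b ≤ vv a := xFold_inj (n := nn b) (by rw [ea]; exact ha'.1) (by rw [eb]; exact hb'.2)
    rw [← ea, le_antisymm h1 h2, eb]
  · intro n hn
    obtain ⟨h1, h2⟩ := mem_filter.1 (hS (mem_coe.1 hn))
    have h0 : n ≠ 0 := by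
      rintro rfl
      exact absurd h2 (by decide)
    obtain ⟨e, h3, h4⟩ := xFold_sur h0 (mem_range.1 h1)
    refine ⟨2 ^ e * n, mem_coe.2 (mem_filter.2 ⟨mem_Ico.2 ⟨h3, h4⟩, ?_⟩), xFold_nn h2 e⟩
    rw [xFold_nn h2 e]
    exact mem_coe.1 hn

lemma xFold_log {m : ℕ} (hm : m ≠ 0) : logb 2 ((m : ℝ) / 65536) = vv m + th (nn m) - 16 := by
  have e := xFold_mul m
  have h0 : nn m ≠ 0 := fun h => hm (by rw [← e, h, mul_zero])
  have h1 : (m : ℝ) = 2 ^ vv m * (nn m : ℝ) := by exact_mod_cast e.symm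
  have h2 : (65536 : ℝ) = 2 ^ 16 := by norm_num
  have h3 : (nn m : ℝ) ≠ 0 := by exact_mod_cast h0
  rw [th, logb_div (by exact_mod_cast hm) (by norm_num), h2, logb_pow, h1,
    logb_mul (by positivity) h3, logb_pow, logb_self_eq_one (by norm_num)]
  push_cast
  ring

lemma xFold_ex (v : ℕ) (x : ℝ) {k : ℤ} (hk : Odd k) :
    ex (-(k * (v + x - 16) / 2)) = (-1) ^ v * ee k (-x) := by
  obtain ⟨j, rfl⟩ := hk
  rw [ex, ee, ← Complex.exp_pi_mul_I, ← Complex.exp_nat_mul, ← Complex.exp_add,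
    Complex.exp_eq_exp_iff_exists_int]
  refine ⟨8 - v - j * (v - 16), ?_⟩
  push_cast
  ring

theorem stFold : StFold := by
  intro S hS
  refine ⟨fun F => xFold_sum hS F, fun k hk => ?_⟩
  rw [ZN, ← xFold_sum hS fun n => ((1 / n : ℝ) : ℂ) * ee k (-th n)]
  refine Finset.sum_congr rfl fun m hm => ?_
  have h1 := (mem_Ico.1 (mem_filter.1 hm).1).1
  rw [xFold_log (by omega), xFold_ex _ _ hk]
  have h2 : ((-1 : ℂ)) ^ vv m * (-1) ^ vv m = 1 := by
    rw [← mul_pow]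
    simp
  push_cast
  linear_combination (1 / (nn m : ℂ) * ee k (-th (nn m))) * h2

end Pool.Agent.MP_88bd62_nt.B
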