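import Pool.Agent.MP_88bd62_nt.B.Defs

/-! The taps of one point. -/

namespace Pool.Agent.MP_88bd62_nt.B

open Finset Real Pool.Agent.MP_90395b_gt.Bn Pool.Agent.MP_88bd62_nt.U

theorem xItem_add (x y : ℝ) : ex (x + y) = ex x * ex y := by
  unfold ex
  rw [← Complex.exp_add]
  congr 1
  push_cast
  ring

theorem xItem_norm (x : ℝ) : ‖ex x‖ = 1 := Complex.norm_exp_ofReal_mul_I _

theorem xItem_lip (x y : ℝ) : ‖ex x - ex y‖ ≤ 2 * π * |x - y| := by
  have e : ex x - ex y = ex y * (ex (x - y) - 1) := by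
    rw [mul_sub, ← xItem_add, mul_one]
    congr 2
    ring
  rw [e, norm_mul, xItem_norm, one_mul]
  unfold ex
  rw [mul_comm _ Complex.I]
  refine Real.norm_exp_I_mul_ofReal_sub_one_le.trans ?_
  rw [Real.norm_eq_abs, abs_mul, abs_of_pos (by positivity : (0 : ℝ) < 2 * π)]

theorem xItem_half (v : ℕ) : ex (-((v : ℝ) / 2)) = (-1) ^ v := by
  induction v with
  | zero => simp [ex]
  | succ v ih =>
    have e : -(((v + 1 : ℕ) : ℝ) / 2) = -((v : ℝ) / 2) + -(1 / 2) := by push_cast; ring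
    rw [e, xItem_add, ih, pow_succ]
    congr 1
    unfold ex
    have : ((2 * π * -(1 / 2) : ℝ) : ℂ) * Complex.I = -(π * Complex.I) := by push_cast; ring
    rw [this, Complex.exp_neg, Complex.exp_pi_mul_I]
    norm_num

theorem xItem_nat (k : ℕ) : ex (-(k : ℝ)) = 1 := by
  have := xItem_half (2 * k)
  rw [pow_mul, neg_one_sq, one_pow] at this
  rw [← this]
  congr 1
  push_cast
  ring

theorem xItem_lane (c : ℂ) (β S e d φ ψ : ℝ) (h : ‖c - (β : ℂ) * ex φ‖ ≤ β * e + 0.71)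
    (h0 : 0 ≤ β) (h1 : β ≤ S) (h2 : S - 1.033 ≤ β) (he : 0 ≤ e) (hd : 2 * π * |φ - ψ| ≤ d) :
    ‖c - (S : ℂ) * ex ψ‖ ≤ S * (e + d) + 1.743 := by
  have e1 : c - (S : ℂ) * ex ψ = (c - (β : ℂ) * ex φ) + ((β : ℂ) * (ex φ - ex ψ)
      + ((β - S : ℝ) : ℂ) * ex ψ) := by push_cast; ring
  have n1 : ‖(β : ℂ) * (ex φ - ex ψ)‖ ≤ β * d := by
    rw [norm_mul, Complex.norm_real, Real.norm_eq_abs, abs_of_nonneg h0]
    exact mul_le_mul_of_nonneg_left ((xItem_lip _ _).trans hd) h0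
  have n2 : ‖((β - S : ℝ) : ℂ) * ex ψ‖ ≤ 1.033 := by
    rw [norm_mul, xItem_norm, mul_one, Complex.norm_real, Real.norm_eq_abs, abs_le]
    constructor <;> linarith
  have hd0 : 0 ≤ d := le_trans (by positivity) hd
  have n3 : β * (e + d) ≤ S * (e + d) := mul_le_mul_of_nonneg_right h1 (by linarith)
  rw [e1]
  refine (norm_add_le _ _).trans ?_
  have := norm_add_le ((β : ℂ) * (ex φ - ex ψ)) (((β - S : ℝ) : ℂ) * ex ψ)
  linarith

theorem xItem_div (a b : ℕ) (hb : 0 < b) :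
    ((a / b : ℕ) : ℝ) ≤ (a : ℝ) / b ∧ (a : ℝ) / b - 1 ≤ ((a / b : ℕ) : ℝ) := by
  refine ⟨Nat.cast_div_le, ?_⟩
  have h := Nat.lt_div_mul_add (a := a) hb
  have hb' : (0 : ℝ) < b := by exact_mod_cast hb
  have h' : (a : ℝ) ≤ ((a / b : ℕ) : ℝ) * b + b := by exact_mod_cast h.le
  rw [sub_le_iff_le_add, div_le_iff₀ hb']
  linarith

/-- The bound of the phase error in lane `i`. -/
noncomputable def xItem_del (i : ℕ) : ℝ :=
  if i = 2 ∨ i = 3 then 0.00000075 else if i = 1 ∨ i = 4 then 0.0000044 else 0.0000112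

theorem xItem_ph (i : ℕ) (hi : i < 6) (a b : ℝ) (ha : 0 ≤ a) (ha' : a ≤ 1) (hb : 0 ≤ b)
    (hb' : b ≤ 1) : 2 * π * |((i : ℝ) - 2) * ((i : ℝ) - 3) / (2 * 1961400)
      + (a + ((i : ℝ) - 2) * b) / 2 ^ 24| ≤ xItem_del i := by
  have hp : 2 * π ≤ 6.2832 := by have := Real.pi_lt_d4; linarith
  have key : ∀ x d : ℝ, |x| ≤ d / 6.2832 → 2 * π * |x| ≤ d := fun x d hx => by
    have := mul_le_mul hp hx (abs_nonneg x) (by norm_num)
    rwa [mul_div_cancel₀ _ (by norm_num)] at this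
  refine key _ _ (abs_le.2 ?_)
  interval_cases i <;> simp only [xItem_del] <;> norm_num <;> constructor <;> linarith

theorem stItem (hL : StLf1) (hH : StHor) (hA : StSplA) : StItem := by
  intro v n Y hn _
  rw [lf0_eq]
  generalize Y / 2 ^ 40 = j
  have et : (Y >>> 28) &&& (2 ^ 12 - 1) = Y / 2 ^ 28 % 4096 := by
    rw [Nat.and_two_pow_sub_one_eq_mod, Nat.shiftRight_eq_div_pow]
  have eW : (2 ^ 41) <<< v / (120 * (2 ^ v * n)) = 2 ^ 41 / (120 * n) := by
    rw [Nat.shiftLeft_eq, mul_left_comm, mul_comm (2 ^ 41) (2 ^ v)]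
    exact Nat.mul_div_mul_left _ _ (by positivity)
  rw [et, eW]
  have ht : Y / 2 ^ 28 % 4096 < 4096 := Nat.mod_lt _ (by norm_num)
  generalize Y / 2 ^ 28 % 4096 = t at ht ⊢
  have hn' : (1 : ℝ) ≤ n := by exact_mod_cast hn
  have hn0 : (0 : ℝ) < n := by linarith
  obtain ⟨w1, w2⟩ := xItem_div (2 ^ 41) (120 * n) (by positivity)
  have hW : 120 * (2 ^ 41 / (120 * n)) ≤ 2 ^ 41 :=
    (Nat.mul_le_mul_right _ (Nat.le_mul_of_pos_right 120 hn)).trans (Nat.mul_div_le _ _)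
  generalize 2 ^ 41 / (120 * n) = W at w1 w2 hW ⊢
  have τ0 : (0 : ℝ) ≤ t / 4096 := by positivity
  have τ1 : (t : ℝ) / 4096 ≤ 1 := by
    rw [div_le_one (by norm_num)]
    exact_mod_cast ht.le
  obtain ⟨a1, a2, a3, a4⟩ := hA _ τ0 τ1
  have hb : ∀ i < 6, (bt (hor t * W) (71 + 104 * i) : ℝ) ≤ 2 ^ 30 * (spl i (t / 4096) / n) ∧
      2 ^ 30 * (spl i (t / 4096) / n) - 1.033 ≤ bt (hor t * W) (71 + 104 * i) ∧
      spl i (t / 4096) / n ≤ 0.55 := by
    intro i hi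
    obtain ⟨b1, b2⟩ := hH t W ht hW i hi
    obtain ⟨s0, s1⟩ := a1 i hi
    push_cast at w1 w2
    have e : (2 : ℝ) ^ 30 * (spl i (t / 4096) / n)
        = 120 * (2 ^ 41 / (120 * n)) * spl i (t / 4096) / 2 ^ 11 := by field_simp
    have m1 := mul_le_mul_of_nonneg_right w1 s0
    have m2 := mul_le_mul_of_nonneg_right w2 s0
    refine ⟨?_, ?_, (div_le_self s0 hn').trans s1⟩
    · rw [e]; linarith
    · rw [e]; linarith
  obtain ⟨n1, n2⟩ := xItem_div (((j + j + 5178085) * (j + 2)) <<< 24) 7845600 (by norm_num)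
  obtain ⟨t1, t2⟩ := xItem_div (j <<< 26 + 86873951174656) 7845600 (by norm_num)
  generalize ((j + j + 5178085) * (j + 2)) <<< 24 / 7845600 = N at n1 n2 ⊢
  generalize (j <<< 26 + 86873951174656) / 7845600 = θ at t1 t2 ⊢
  rw [Nat.shiftLeft_eq] at n1 n2 t1 t2
  rw [Nat.shiftLeft_eq]
  push_cast at n1 n2 t1 t2
  obtain ⟨T, T1, T2, T3⟩ := hL (hor t * W) (N + v * 2 ^ 23) θ fun i hi => by
    obtain ⟨b1, -, b3⟩ := hb i hi
    linarith
  have he : ∀ i, 0 ≤ eps i ∧ eps i ≤ 0.0004 := fun i => by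
    unfold eps
    split_ifs <;> norm_num
  refine ⟨T, T2, T1, fun i hi => ?_, ?_⟩
  · obtain ⟨b1, -, b3⟩ := hb i hi
    have h3 := T3 i hi
    have h4 := norm_le_norm_sub_add (cz (T i) (T (6 + i)) (2 ^ 30))
      ((bt (hor t * W) (71 + 104 * i) : ℂ) *
        ex (-(((N + v * 2 ^ 23 : ℕ) : ℝ) + ((i : ℝ) - 2) * θ) / 2 ^ 24))
    rw [norm_mul, xItem_norm, mul_one, Complex.norm_natCast] at h4
    have h5 := mul_le_mul_of_nonneg_left (he i).2
      (Nat.cast_nonneg (α := ℝ) (bt (hor t * W) (71 + 104 * i)))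
    linarith
  · have lane : ∀ i ∈ range 6, ‖cz (T i) (T (6 + i)) (2 ^ 30) / 2 ^ 30
        - (((-1) ^ v / n * spl i (t / 4096) : ℝ) : ℂ) * pre (j + i)‖ ≤
        spl i (t / 4096) * (eps i + xItem_del i) / n + 1.743 / 2 ^ 30 := by
      intro i hi
      rw [mem_range] at hi
      obtain ⟨b1, b2, -⟩ := hb i hi
      have hp := xItem_ph i hi
        (((j : ℝ) + j + 5178085) * (j + 2) * 2 ^ 24 / 7845600 - N)
        (((j : ℝ) * 2 ^ 26 + 86873951174656) / 7845600 - θ)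
        (by linarith) (by linarith) (by linarith) (by linarith)
      have key := xItem_lane (cz (T i) (T (6 + i)) (2 ^ 30)) (bt (hor t * W) (71 + 104 * i))
        (2 ^ 30 * (spl i (t / 4096) / n)) (eps i) (xItem_del i)
        (-(((N + v * 2 ^ 23 : ℕ) : ℝ) + ((i : ℝ) - 2) * θ) / 2 ^ 24)
        (-(2 * ((j + i : ℕ) : ℝ) ^ 2 + (j + i : ℕ) - 4 * 666880 * (j + i : ℕ)) / (4 * 1961400)
          + (-((j + i : ℕ) : ℝ) + -((v : ℝ) / 2)))
        (by exact_mod_cast T3 i hi) (Nat.cast_nonneg _) b1 b2 (he i).1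
        (by
          refine le_trans (le_of_eq ?_) hp
          congr 2
          push_cast
          ring)
      rw [xItem_add, xItem_add, xItem_nat, xItem_half] at key
      have e : cz (T i) (T (6 + i)) (2 ^ 30) / 2 ^ 30
          - (((-1) ^ v / n * spl i (t / 4096) : ℝ) : ℂ) * pre (j + i) =
          (cz (T i) (T (6 + i)) (2 ^ 30) - ((2 ^ 30 * (spl i (t / 4096) / n) : ℝ) : ℂ) *
            (pre (j + i) * (1 * (-1) ^ v))) / 2 ^ 30 := by
        push_cast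
        ring
      rw [e, norm_div, norm_pow, Complex.norm_ofNat, div_le_iff₀ (by positivity)]
      refine le_trans key (le_of_eq ?_)
      ring
    refine (sum_le_sum lane).trans ?_
    rw [sum_add_distrib, ← sum_div]
    have s : ∑ i ∈ range 6, spl i (t / 4096) * (eps i + xItem_del i) ≤ 0.000072 := by
      simp only [sum_range_succ, range_zero, sum_empty, eps, xItem_del] at a2 ⊢
      norm_num
      linarith
    refine add_le_add (div_le_div_of_nonneg_right s hn0.le) ?_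
    rw [sum_const, card_range]
    norm_num

end Pool.Agent.MP_88bd62_nt.B
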