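import Pool.Agent.MP_88bd62_nt.B.Defs

/-! The kernel of the convolution. -/

namespace Pool.Agent.MP_88bd62_nt.B

open Finset Real Pool.Agent.MP_90395b_gt.Bn Pool.Agent.MP_88bd62_nt.U

theorem xKern_add (x y : ℝ) : ex (x + y) = ex x * ex y := by
  unfold ex
  rw [← Complex.exp_add]
  congr 1
  push_cast
  ring

theorem xKern_int (n : ℤ) : ex n = 1 := by
  unfold ex
  rw [← Complex.exp_int_mul_two_pi_mul_I n]
  congr 1
  push_cast
  ring

theorem xKern_norm (x : ℝ) : ‖ex x‖ = 1 := Complex.norm_exp_ofReal_mul_I _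

theorem xKern_quarter : ex (1 / 4) = Complex.I := by
  unfold ex
  refine Eq.trans ?_ Complex.exp_pi_div_two_mul_I
  congr 1
  push_cast
  ring

theorem xKern_lip (x y : ℝ) : ‖ex x - ex y‖ ≤ 2 * π * |x - y| := by
  have h : ex x - ex y = ex y * (ex (x - y) - 1) := by
    rw [mul_sub, ← xKern_add, mul_one, add_sub_cancel]
  rw [h, norm_mul, xKern_norm, one_mul]
  have h2 := Real.norm_exp_I_mul_ofReal_sub_one_le (x := 2 * π * (x - y))
  rw [mul_comm Complex.I, Real.norm_eq_abs, abs_mul, abs_of_pos Real.two_pi_pos] at h2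
  exact h2

theorem xKern_floor {N q : ℕ} (hq : 0 < q) {z : ℂ} {x : ℝ} (n : ℤ)
    (hz : ‖z - ex (-((N <<< 22 / q : ℕ) : ℝ) / 2 ^ 24)‖ ≤ 0.00003)
    (hx : (N : ℝ) / (4 * q) = -x + n) : ‖z - ex x‖ ≤ 0.0000304 := by
  have hq' : (0 : ℝ) < q := by exact_mod_cast hq
  have e : ex x = ex (-((N : ℝ) / (4 * q))) := by
    rw [hx, show -(-x + (n : ℝ)) = x + ((-n : ℤ) : ℝ) by push_cast; ring, xKern_add, xKern_int,
      mul_one]
  have h1 : ((N <<< 22 / q : ℕ) : ℝ) ≤ (N : ℝ) * 2 ^ 22 / q := by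
    refine Nat.cast_div_le.trans (le_of_eq ?_)
    rw [Nat.shiftLeft_eq]; push_cast; ring
  have h2 : (N : ℝ) * 2 ^ 22 / q ≤ ((N <<< 22 / q : ℕ) : ℝ) + 1 := by
    rw [div_le_iff₀ hq']
    have h := Nat.lt_div_mul_add (a := N <<< 22) hq
    have h' : ((N <<< 22 : ℕ) : ℝ) ≤ ((N <<< 22 / q * q + q : ℕ) : ℝ) := by exact_mod_cast h.le
    rw [Nat.cast_add, Nat.cast_mul] at h'
    conv_lhs at h' => rw [Nat.shiftLeft_eq, Nat.cast_mul]
    push_cast at h' ⊢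
    linarith
  have h3 := xKern_lip (-((N <<< 22 / q : ℕ) : ℝ) / 2 ^ 24) (-((N : ℝ) / (4 * q)))
  have h4 : |-((N <<< 22 / q : ℕ) : ℝ) / 2 ^ 24 - -((N : ℝ) / (4 * q))| ≤ 1 / 2 ^ 24 := by
    have e2 : (N : ℝ) / (4 * q) = (N : ℝ) * 2 ^ 22 / q / 2 ^ 24 := by field_simp; norm_num
    rw [e2, abs_le]
    constructor <;> linarith
  have h5 : 2 * π * |-((N <<< 22 / q : ℕ) : ℝ) / 2 ^ 24 - -((N : ℝ) / (4 * q))| ≤
      2 * 3.15 * (1 / 2 ^ 24) :=
    mul_le_mul (by linarith [Real.pi_lt_d2]) h4 (abs_nonneg _) (by norm_num)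
  rw [e]
  refine ((norm_sub_le_norm_sub_add_norm_sub _ _ _).trans (add_le_add hz (h3.trans h5))).trans ?_
  norm_num

theorem xKern_ph1 {q a : ℕ} (hq : 0 < q) {z : ℂ}
    (hz : ‖z - ex (-(ph1 q a : ℝ) / 2 ^ 24)‖ ≤ 0.00003) :
    ‖z - Dk (q * (q + 1)) ((a * (q + 1) : ℕ) : ℤ)‖ ≤ 0.0000304 := by
  have hq' : (0 : ℝ) < q := by exact_mod_cast hq
  rw [ph1_eq] at hz
  refine xKern_floor hq (a ^ 2) hz ?_
  rw [Nat.cast_add, Nat.cast_mul, Nat.cast_sub (by omega)]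
  push_cast
  field_simp
  ring

theorem xKern_ph2 {q j : ℕ} (hq : 0 < q) (hj : j ≤ q) {z : ℂ}
    (hz : ‖z - ex (-(ph2 (q + 1) (j * q % (q + 1)) : ℝ) / 2 ^ 24)‖ ≤ 0.00003) :
    ‖z - Dk (q * (q + 1)) ((j * q : ℕ) : ℤ)‖ ≤ 0.0000304 := by
  have hq' : (0 : ℝ) < q := by exact_mod_cast hq
  have e : (q + 1 - j * q % (q + 1)) % (q + 1) = j := by
    rcases j with _ | i
    · simp
    · obtain ⟨r, rfl⟩ := Nat.exists_eq_add_of_le hj
      rw [show (i + 1) * (i + 1 + r) = r + 1 + i * (i + 1 + r + 1) by ring,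
        Nat.add_mul_mod_self_right, Nat.mod_eq_of_lt (a := r + 1) (by omega),
        Nat.mod_eq_of_lt (by omega)]
      omega
  rw [ph2_eq, e, ph2a_eq] at hz
  refine xKern_floor (Nat.succ_pos q) (j ^ 2) hz ?_
  push_cast
  field_simp
  ring

theorem xKern_mul {q : ℕ} (hq : 0 < q) (a j : ℕ) :
    Dk (q * (q + 1)) ((a * (q + 1) : ℕ) : ℤ) * Dk (q * (q + 1)) ((j * q : ℕ) : ℤ) =
      Dk (q * (q + 1)) ((a * (q + 1) + j * q : ℕ) : ℤ) := by
  have hq' : (0 : ℝ) < q := by exact_mod_cast hq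
  unfold Dk
  rw [← xKern_add, ← mul_one (ex _), ← xKern_int (a * j), ← xKern_add]
  congr 1
  push_cast
  field_simp
  ring

theorem xKern_wrap {q : ℕ} (hq : 0 < q) (l : ℕ) :
    Complex.I * Dk (q * (q + 1)) ((l + q * (q + 1) : ℕ) : ℤ) = Dk (q * (q + 1)) l := by
  have hq' : (0 : ℝ) < q := by exact_mod_cast hq
  obtain ⟨c, hc⟩ := Nat.even_mul_succ_self q
  have hc' : (q : ℝ) * (q + 1) = c + c := by exact_mod_cast hc
  have hc0 : (0 : ℝ) < c := by nlinarith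
  unfold Dk
  rw [← xKern_quarter, ← xKern_add, ← mul_one (ex (_ / (4 * _))), ← xKern_int (l + c),
    ← xKern_add]
  congr 1
  push_cast
  rw [hc']
  field_simp
  ring

theorem xKern_prod {u v D E : ℂ} (hD : ‖D‖ = 1) (hE : ‖E‖ = 1)
    (hu : ‖u / 2 ^ 16 - D‖ ≤ 0.0000304) (hv : ‖v / 2 ^ 16 - E‖ ≤ 0.0000304) :
    ‖u * v / 2 ^ 32 - D * E‖ ≤ 0.0000609 := by
  have e : u * v / 2 ^ 32 - D * E =
      (u / 2 ^ 16 - D) * (v / 2 ^ 16 - E) + (u / 2 ^ 16 - D) * E + D * (v / 2 ^ 16 - E) := by ring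
  rw [e]
  refine (norm_add₃_le).trans ?_
  rw [norm_mul, norm_mul, norm_mul, hD, hE]
  have := mul_le_mul hu hv (norm_nonneg _) (by norm_num)
  linarith

theorem xKern_conv {q : ℕ} (hq : 0 < q) (g₁ g₂ : ℕ → GaussianInt)
    (h₁ : ∀ i < q, ‖(g₁ i : ℂ) / 2 ^ 16 - ex (-(ph1 q i : ℝ) / 2 ^ 24)‖ ≤ 0.00003)
    (h₂ : ∀ i < q + 1, ‖(g₂ i : ℂ) / 2 ^ 16 - ex (-(ph2 (q + 1) i : ℝ) / 2 ^ 24)‖ ≤ 0.00003)
    {l : ℕ} (hl : l < q * (q + 1)) :
    ‖((∑ j ∈ range (q * (q + 1)), (if q + 1 ∣ j then g₁ (j % q) else 0) *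
        tw (q * (q + 1)) (fun m => if q ∣ m then g₂ (m % (q + 1)) else 0) l j : GaussianInt) : ℂ)
      / 2 ^ 32 - Dk (q * (q + 1)) l‖ ≤ 0.0000609 := by
  obtain ⟨a, b, ha, rfl⟩ : ∃ a b, a < q ∧ l = a + q * b :=
    ⟨l % q, l / q, Nat.mod_lt _ hq, (Nat.mod_add_div l q).symm⟩
  have hb : b ≤ q := by
    by_contra h
    have := Nat.mul_le_mul_left q (show q + 1 ≤ b by omega)
    omega
  have hJ : a * (q + 1) < q * (q + 1) := Nat.mul_lt_mul_of_pos_right ha (Nat.succ_pos q)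
  have hm : a * (q + 1) % q = a := by
    rw [mul_add, mul_one, add_comm, Nat.add_mul_mod_self_right, Nat.mod_eq_of_lt ha]
  have hn : ∀ m : ℤ, ‖Dk (q * (q + 1)) m‖ = 1 := fun m => xKern_norm _
  rw [sum_eq_single_of_mem (a * (q + 1)) (mem_range.2 hJ), if_pos (dvd_mul_left _ _), hm]
  · have h3 := xKern_ph1 hq (h₁ a ha)
    unfold tw
    split_ifs with h
    · have hab : a ≤ b := by
        by_contra h'
        have := Nat.mul_le_mul_left q (show b + 1 ≤ a by omega)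
        nlinarith
      obtain ⟨j, rfl⟩ := Nat.exists_eq_add_of_le hab
      have e : a + q * (a + j) = a * (q + 1) + j * q := by ring
      have h4 := xKern_ph2 hq (show j ≤ q by omega) (h₂ _ (Nat.mod_lt _ (Nat.succ_pos q)))
      have h5 := xKern_prod (hn _) (hn _) h3 h4
      rw [xKern_mul hq] at h5
      simp only [e, Nat.add_sub_cancel_left, dvd_mul_left, if_true, map_mul]
      exact h5
    · have hab : b < a := by
        by_contra h'
        have := Nat.mul_le_mul_left q (show a ≤ b by omega)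
        nlinarith
      obtain ⟨j, hj⟩ : ∃ j, a + j = b + q + 1 := ⟨b + q + 1 - a, by omega⟩
      have e : a + q * b + q * (q + 1) = a * (q + 1) + j * q := by
        have : q * (a + j) = q * (b + q + 1) := by rw [hj]
        nlinarith
      have h4 := xKern_ph2 hq (show j ≤ q by omega) (h₂ _ (Nat.mod_lt _ (Nat.succ_pos q)))
      have h5 := xKern_prod (hn _) (hn _) h3 h4
      rw [xKern_mul hq, ← e] at h5
      have hI : ((⟨0, 1⟩ : GaussianInt) : ℂ) = Complex.I := by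
        rw [GaussianInt.toComplex_def']; simp
      simp only [e, Nat.add_sub_cancel_left, dvd_mul_left, if_true, map_mul, hI]
      rw [← xKern_wrap hq, mul_left_comm, mul_div_assoc, ← mul_sub, norm_mul, Complex.norm_I,
        one_mul]
      exact h5
  · intro j hj hne
    split_ifs with h
    · obtain ⟨c, rfl⟩ := h
      have hc : c < q := by
        by_contra h'
        have := Nat.mul_le_mul_left (q + 1) (show q ≤ c by omega)
        have := mem_range.1 hj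
        nlinarith
      have key : ∀ t s, (q + 1) * c + q * t = a + q * s → False := fun t s h => by
        have h1 := congrArg (· % q) h
        simp only [show (q + 1) * c + q * t = c + q * (c + t) by ring, Nat.add_mul_mod_self_left,
          Nat.mod_eq_of_lt hc, Nat.mod_eq_of_lt ha] at h1
        exact hne (by rw [h1, mul_comm])
      have hj' := mem_range.1 hj
      unfold tw
      split_ifs with h
      · beta_reduce
        rw [if_neg, mul_zero]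
        rintro ⟨t, ht⟩
        exact key t b (by omega)
      · beta_reduce
        rw [if_neg, mul_zero, mul_zero]
        rintro ⟨t, ht⟩
        exact key t (b + (q + 1)) (by rw [mul_add q b]; omega)
    · exact zero_mul _

theorem xKern_round {x : ℤ} : |((((x + 8590065664) / 2 ^ 18 - 2 ^ 15 : ℤ) : ℝ)) - x / 2 ^ 18| ≤
    1 / 2 := by
  have h1 : (x + 8590065664) / 2 ^ 18 * 2 ^ 18 ≤ x + 8590065664 := by omega
  have h2 : x + 8590065664 ≤ (x + 8590065664) / 2 ^ 18 * 2 ^ 18 + 2 ^ 18 := by omega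
  generalize (x + 8590065664) / 2 ^ 18 = t at h1 h2
  have h1' : (t : ℝ) * 2 ^ 18 ≤ x + 8590065664 := by exact_mod_cast h1
  have h2' : (x : ℝ) + 8590065664 ≤ t * 2 ^ 18 + 2 ^ 18 := by exact_mod_cast h2
  push_cast
  rw [abs_le]
  constructor <;> linarith

theorem xKern_fin {y : GaussianInt} {D : ℂ} (h : ‖(y : ℂ) / 2 ^ 32 - D‖ ≤ 0.0000609) :
    ‖((⟨(y.re + 8590065664) / 2 ^ 18 - 2 ^ 15, (y.im + 8590065664) / 2 ^ 18 - 2 ^ 15⟩ :
      GaussianInt) : ℂ) / 2 ^ 14 - D‖ ≤ 0.000106 := by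
  have h1 := xKern_round (x := y.re)
  have h2 := xKern_round (x := y.im)
  generalize (y.re + 8590065664) / 2 ^ 18 - 2 ^ 15 = s at h1
  generalize (y.im + 8590065664) / 2 ^ 18 - 2 ^ 15 = t at h2
  have h3 : ‖((⟨s, t⟩ : GaussianInt) : ℂ) - (y : ℂ) / 2 ^ 18‖ ≤ 0.71 := by
    have e : ((⟨s, t⟩ : GaussianInt) : ℂ) - (y : ℂ) / 2 ^ 18 =
        (((s : ℝ) - y.re / 2 ^ 18 : ℝ) : ℂ) + (((t : ℝ) - y.im / 2 ^ 18 : ℝ) : ℂ) * Complex.I := by
      rw [GaussianInt.toComplex_def', GaussianInt.toComplex_def]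
      push_cast
      ring
    rw [e, Complex.norm_add_mul_I]
    refine Real.sqrt_le_iff.2 ⟨by norm_num, ?_⟩
    have h4 := sq_le_sq' (abs_le.1 h1).1 (abs_le.1 h1).2
    have h5 := sq_le_sq' (abs_le.1 h2).1 (abs_le.1 h2).2
    linarith
  have e : ((⟨s, t⟩ : GaussianInt) : ℂ) / 2 ^ 14 - D =
      (((⟨s, t⟩ : GaussianInt) : ℂ) - (y : ℂ) / 2 ^ 18) / 2 ^ 14 + ((y : ℂ) / 2 ^ 32 - D) := by
    ring
  rw [e]
  refine (norm_add_le _ _).trans ?_
  rw [norm_div, norm_pow, Complex.norm_ofNat]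
  linarith

theorem xKern_bd {y : GaussianInt} {D : ℂ} (hD : ‖D‖ = 1)
    (h : ‖(y : ℂ) / 2 ^ 32 - D‖ ≤ 0.0000609) :
    |y.re| ≤ (8590065664 : ℕ) ∧ |y.im| ≤ (8590065664 : ℕ) := by
  have h1 : ‖(y : ℂ)‖ ≤ 8590065664 := by
    have h2 := norm_le_insert' ((y : ℂ) / 2 ^ 32) D
    rw [norm_div, norm_pow, Complex.norm_ofNat] at h2
    linarith
  have h2 := (Complex.abs_re_le_norm (y : ℂ)).trans h1
  have h3 := (Complex.abs_im_le_norm (y : ℂ)).trans h1
  rw [← GaussianInt.intCast_re] at h2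
  rw [← GaussianInt.intCast_im] at h3
  exact ⟨by exact_mod_cast h2, by exact_mod_cast h3⟩

theorem xKern_cv (Q : ℕ) (f : ℕ → ℕ) (c : ℕ) :
    (pk 48 (2 * Q) f : ℤ) - pk 48 (2 * Q) (fun _ => c) =
      cv Q fun l => ⟨(f l : ℤ) - c, (f (Q + l) : ℤ) - c⟩ := by
  rw [two_mul, pk_append, pk_append]
  unfold Pool.Agent.MP_90395b_gt.Bn.pk cv ev
  push_cast
  rw [sum_mul, sum_mul, ← sum_add_distrib, ← sum_add_distrib, ← sum_sub_distrib]
  exact sum_congr rfl fun l _ => by ring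

theorem stKern (hC : StComb) (hV : StConv) (hR : StRed) : StKern := by
  intro q Q hq hq2 hQ
  have r1 : ones (48 * Q) / ones (48 * q) = pk (48 * q) (q + 1) fun _ => 1 := by
    rw [← ones_div (by omega), ones_eq' (48 * q), hQ, mul_assoc]
  have r2 : ones (48 * Q) / ones (48 * (q + 1)) = pk (48 * (q + 1)) q fun _ => 1 := by
    rw [← ones_div (by omega), ones_eq' (48 * (q + 1)), hQ, mul_assoc, mul_comm q]
  obtain ⟨b1, g₁, c1, h₁⟩ := hC q (q + 1) (ph1 q) hq (Nat.succ_pos q) (by omega) _ rfl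
  obtain ⟨b2, g₂, c2, h₂⟩ := hC (q + 1) q (ph2 (q + 1)) (Nat.succ_pos q) hq hq2 _ rfl
  rw [mul_comm (q + 1) q] at b2 c2
  rw [← hQ] at b1 b2 c1 c2
  rw [kern_eq, kern2_eq, r1, r2]
  generalize comb (48 * Q) (ones (48 * Q)) q (ph1 q) _ _ = K₁ at b1 c1
  generalize comb (48 * Q) (ones (48 * Q)) (q + 1) (ph2 (q + 1)) _ _ = K₂ at b2 c2
  obtain ⟨y, hy, hy2⟩ : ∃ y : ℕ → GaussianInt, ((K₁ * K₂ : ℕ) : ℤ) ≡ cv Q y [ZMOD MM Q] ∧
      ∀ l < Q, ‖(y l : ℂ) / 2 ^ 32 - Dk Q l‖ ≤ 0.0000609 := by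
    rw [Nat.cast_mul]
    refine ⟨_, (c1.mul c2).trans (hV Q _ _), fun l hl => ?_⟩
    subst hQ
    exact xKern_conv hq g₁ g₂ h₁ h₂ hl
  have hb := fun l hl => xKern_bd (xKern_norm _) (hy2 l hl)
  have hP : K₁ * K₂ < 2 ^ (192 * Q + 3) := by
    refine (Nat.mul_lt_mul'' b1 b2).trans_le ?_
    rw [← pow_add]
    exact Nat.pow_le_pow_right (by norm_num) (by omega)
  have hl : ∀ i < 2 * Q, lanes Q 8590065664 y i < 2 ^ 35 := fun i hi => by
    unfold lanes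
    split_ifs with h
    · have := abs_le.1 (hb i h).1
      omega
    · have := abs_le.1 (hb (i - Q) (by omega)).2
      omega
  rw [hR Q 8590065664 3 _ y hy hP hb (by norm_num), pk_mul', pk_shl]
  simp only [one_mul]
  rw [pk_flo (by norm_num) (fun i hi => (hl i hi).trans (by norm_num)) (by norm_num),
    ones_eq', show 48 * Q + 48 * Q = 96 * Q by ring]
  have p1 : pk 48 (2 * Q) (fun i => lanes Q 8590065664 y i / 2 ^ 18 % 2 ^ 30) < 2 ^ (96 * Q) := by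
    rw [show 96 * Q = 48 * (2 * Q) by ring]
    exact pk_lt fun i _ => (Nat.mod_lt _ (by norm_num)).trans (by norm_num)
  have p2 : pk 48 (2 * Q) (fun _ => 2 ^ 15) < 2 ^ (96 * Q) := by
    rw [show 96 * Q = 48 * (2 * Q) by ring]
    exact pk_lt fun i _ => by norm_num
  have p3 := xKern_cv Q (fun i => lanes Q 8590065664 y i / 2 ^ 18 % 2 ^ 30) (2 ^ 15)
  have p4 : MM Q = ((2 ^ (96 * Q) : ℕ) : ℤ) + 1 := by rw [MM, Nat.cast_pow, Nat.cast_ofNat]
  refine ⟨?_, _, Int.modEq_iff_dvd.2 ⟨-1, (congrArg (· - _) p3).symm.trans ?_⟩, fun l hl' => ?_⟩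
  · rw [pow_add]
    omega
  · rw [p4]
    omega
  · have h := xKern_fin (hy2 l hl')
    have e1 := abs_le.1 (hb l hl').1
    have e2 := abs_le.1 (hb l hl').2
    have e3 : ((lanes Q 8590065664 y l / 2 ^ 18 % 2 ^ 30 : ℕ) : ℤ) - (2 ^ 15 : ℕ) =
        ((y l).re + 8590065664) / 2 ^ 18 - 2 ^ 15 := by
      unfold lanes
      rw [if_pos hl']
      omega
    have e4 : ((lanes Q 8590065664 y (Q + l) / 2 ^ 18 % 2 ^ 30 : ℕ) : ℤ) - (2 ^ 15 : ℕ) =
        ((y l).im + 8590065664) / 2 ^ 18 - 2 ^ 15 := by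
      unfold lanes
      rw [if_neg (by omega), Nat.add_sub_cancel_left]
      omega
    rw [e3, e4]
    exact h

end Pool.Agent.MP_88bd62_nt.B
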