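import Pool.Agent.MP_88bd62_nt.B.Defs

/-! The six turned taps of one point. -/

namespace Pool.Agent.MP_88bd62_nt.B

open Finset Real Pool.Agent.MP_90395b_gt.Bn Pool.Agent.MP_88bd62_nt.U

set_option exponentiation.threshold 1000

noncomputable section

def xLf1_v (a b c d e f : ℕ) (i : ℕ) : ℕ :=
  if i = 0 then a else if i = 1 then b else if i = 6 then c else if i = 7 then d else
    if i = 12 then e else if i = 13 then f else 0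

def xLf1_P (a b c d e f : ℕ) : ℕ :=
  a + b * 2 ^ 48 + c * 2 ^ 288 + d * 2 ^ 336 + e * 2 ^ 576 + f * 2 ^ 624

theorem xLf1_P_pk (a b c d e f : ℕ) : xLf1_P a b c d e f = pk 48 14 (xLf1_v a b c d e f) := by
  simp [Pool.Agent.MP_90395b_gt.Bn.pk, sum_range_succ, xLf1_v, xLf1_P]

theorem xLf1_bd {a b c d e f M : ℕ} (h0 : 0 < M) (ha : a < M) (hb : b < M) (hc : c < M)
    (hd : d < M) (he : e < M) (hf : f < M) : Bd 14 M (xLf1_v a b c d e f) := by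
  intro i _
  unfold xLf1_v
  split_ifs <;> assumption

theorem xLf1_land {a b c d e f a' b' c' d' e' f' : ℕ} (ha : a < 2 ^ 48) (hb : b < 2 ^ 48)
    (hc : c < 2 ^ 48) (hd : d < 2 ^ 48) (he : e < 2 ^ 48) (hf : f < 2 ^ 48)
    (ha' : a' < 2 ^ 48) (hb' : b' < 2 ^ 48)
    (hc' : c' < 2 ^ 48) (hd' : d' < 2 ^ 48) (he' : e' < 2 ^ 48) (hf' : f' < 2 ^ 48) :
    xLf1_P a b c d e f &&& xLf1_P a' b' c' d' e' f' =
      xLf1_P (a &&& a') (b &&& b') (c &&& c') (d &&& d') (e &&& e') (f &&& f') := by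
  rw [xLf1_P_pk, xLf1_P_pk, xLf1_P_pk, pk_land (xLf1_bd (by norm_num) ha hb hc hd he hf)
    (xLf1_bd (by norm_num) ha' hb' hc' hd' he' hf')]
  refine pk_congr fun i _ => ?_
  unfold xLf1_v
  split_ifs <;> simp

theorem xLf1_flo {a b c d e f : ℕ} (ha : a < 2 ^ 48) (hb : b < 2 ^ 48)
    (hc : c < 2 ^ 48) (hd : d < 2 ^ 48) (he : e < 2 ^ 48) (hf : f < 2 ^ 48) :
    (xLf1_P a b c d e f >>> 16) &&& xLf1_P (2 ^ 32 - 1) (2 ^ 32 - 1) (2 ^ 32 - 1) (2 ^ 32 - 1)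
      (2 ^ 32 - 1) (2 ^ 32 - 1) =
      xLf1_P (a / 2 ^ 16) (b / 2 ^ 16) (c / 2 ^ 16) (d / 2 ^ 16) (e / 2 ^ 16) (f / 2 ^ 16) := by
  have hm : Bd 14 (2 ^ 48) (xLf1_v (2 ^ 32 - 1) (2 ^ 32 - 1) (2 ^ 32 - 1) (2 ^ 32 - 1)
      (2 ^ 32 - 1) (2 ^ 32 - 1)) := xLf1_bd (by norm_num) (by norm_num) (by norm_num)
        (by norm_num) (by norm_num) (by norm_num) (by norm_num)
  have hfull : Bd 14 (2 ^ 48) (fun _ => 2 ^ 32 - 1) := fun _ _ => by norm_num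
  have e1 : pk 48 14 (xLf1_v (2 ^ 32 - 1) (2 ^ 32 - 1) (2 ^ 32 - 1) (2 ^ 32 - 1)
      (2 ^ 32 - 1) (2 ^ 32 - 1)) = pk 48 14 (fun _ => 2 ^ 32 - 1) &&&
      pk 48 14 (xLf1_v (2 ^ 32 - 1) (2 ^ 32 - 1) (2 ^ 32 - 1) (2 ^ 32 - 1)
      (2 ^ 32 - 1) (2 ^ 32 - 1)) := by
    rw [pk_land hfull hm]
    refine pk_congr fun i _ => ?_
    unfold xLf1_v
    split_ifs <;> simp
  have hb' := xLf1_bd (by norm_num) ha hb hc hd he hf
  rw [xLf1_P_pk, xLf1_P_pk, xLf1_P_pk, e1, ← Nat.and_assoc,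
    pk_flo (by norm_num) hb' (by norm_num : 16 + 32 ≤ 48),
    pk_land (fun i _ => lt_of_lt_of_le (Nat.mod_lt _ (by norm_num)) (by norm_num)) hm]
  refine pk_congr fun i _ => ?_
  have key : ∀ x : ℕ, x < 2 ^ 48 → x / 2 ^ 16 % 2 ^ 32 &&& (2 ^ 32 - 1) = x / 2 ^ 16 := by
    intro x hx
    rw [Nat.and_two_pow_sub_one_eq_mod, Nat.mod_mod, Nat.mod_eq_of_lt (by omega)]
  unfold xLf1_v
  split_ifs
  · exact key _ ha
  · exact key _ hb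
  · exact key _ hc
  · exact key _ hd
  · exact key _ he
  · exact key _ hf
  · simp

theorem xLf1_stp {c x0 x1 y0 y1 z0 z1 w0 w1 s0 s1 u0 u1 : ℕ} (hc : c ≤ 2 ^ 18)
    (hx0 : x0 ≤ 2 ^ 18) (hx1 : x1 ≤ 2 ^ 18) (hy0 : y0 ≤ 2 ^ 18) (hy1 : y1 ≤ 2 ^ 18)
    (h0 : x0 * c / 2 ^ 16 + (2 ^ 19 - 2 * c) = s0 + (x0 + x0 + z0))
    (h1 : x1 * c / 2 ^ 16 + (2 ^ 19 - 2 * c) = s1 + (x1 + x1 + z1))
    (h2 : y0 * c / 2 ^ 16 + (2 ^ 19 - 2 * c) = u0 + (y0 + y0 + w0))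
    (h3 : y1 * c / 2 ^ 16 + (2 ^ 19 - 2 * c) = u1 + (y1 + y1 + w1)) :
    stp c (xLf1_P (2 ^ 19 - 2 * c) (2 ^ 19 - 2 * c) (2 ^ 19 - 2 * c) (2 ^ 19 - 2 * c)
      (2 ^ 19 - 2 * c) (2 ^ 19 - 2 * c)) (xLf1_P x0 x1 y0 y1 (2 ^ 17) (2 ^ 17))
      (xLf1_P z0 z1 w0 w1 (2 ^ 17) (2 ^ 17)) = xLf1_P s0 s1 u0 u1 (2 ^ 17) (2 ^ 17) := by
  have hm : (0xffffffff0000ffffffff0000000000000000000000000000000000000000000000000000ffffffff0000ffffffff0000000000000000000000000000000000000000000000000000ffffffff0000ffffffff : ℕ) =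
      xLf1_P (2 ^ 32 - 1) (2 ^ 32 - 1) (2 ^ 32 - 1) (2 ^ 32 - 1) (2 ^ 32 - 1) (2 ^ 32 - 1) := by
    norm_num [xLf1_P]
  have hmul : xLf1_P x0 x1 y0 y1 (2 ^ 17) (2 ^ 17) * c =
      xLf1_P (x0 * c) (x1 * c) (y0 * c) (y1 * c) (2 ^ 17 * c) (2 ^ 17 * c) := by
    unfold xLf1_P; ring
  have lt : ∀ x : ℕ, x ≤ 2 ^ 18 → x * c < 2 ^ 48 := fun x hx =>
    lt_of_le_of_lt (Nat.mul_le_mul hx hc) (by norm_num)
  have h4 : 2 ^ 17 * c / 2 ^ 16 + (2 ^ 19 - 2 * c) = 2 ^ 17 + (2 ^ 17 + 2 ^ 17 + 2 ^ 17) := by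
    omega
  rw [stp_eq, hm, hmul, xLf1_flo (lt _ hx0) (lt _ hx1) (lt _ hy0) (lt _ hy1)
    (lt _ (by norm_num)) (lt _ (by norm_num))]
  refine Nat.sub_eq_of_eq_add ?_
  unfold xLf1_P
  generalize x0 * c / 2 ^ 16 = a0 at *
  generalize x1 * c / 2 ^ 16 = a1 at *
  generalize y0 * c / 2 ^ 16 = a2 at *
  generalize y1 * c / 2 ^ 16 = a3 at *
  generalize 2 ^ 17 * c / 2 ^ 16 = a4 at *
  generalize 2 ^ 19 - 2 * c = e at *
  generalize (2 : ℕ) ^ 17 = H at *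
  generalize (2 : ℕ) ^ 48 = B1
  generalize (2 : ℕ) ^ 288 = B2
  generalize (2 : ℕ) ^ 336 = B3
  generalize (2 : ℕ) ^ 576 = B4
  generalize (2 : ℕ) ^ 624 = B5
  zify at h0 h1 h2 h3 h4 ⊢
  linear_combination h0 + B1 * h1 + B2 * h2 + B3 * h3 + (B4 + B5) * h4

def xLf1_Ap (x y : ℕ) (p d : ℝ) : Prop := ‖cz x y (2 ^ 17) / 2 ^ 16 - ex p‖ ≤ d

theorem xLf1_nex (p : ℝ) : ‖ex p‖ = 1 := by
  unfold ex; exact Complex.norm_exp_ofReal_mul_I _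

theorem xLf1_exrec (p φ : ℝ) :
    ex (p - φ) = ((2 * cos (2 * π * φ) : ℝ) : ℂ) * ex p - ex (p + φ) := by
  unfold ex
  have h := Complex.two_cos ((2 * π * φ : ℝ) : ℂ)
  have e1 : Complex.exp (((2 * π * (p - φ) : ℝ) : ℂ) * Complex.I) =
      Complex.exp (-((2 * π * φ : ℝ) : ℂ) * Complex.I) *
        Complex.exp (((2 * π * p : ℝ) : ℂ) * Complex.I) := by
    rw [← Complex.exp_add]; congr 1; push_cast; ring
  have e2 : Complex.exp (((2 * π * (p + φ) : ℝ) : ℂ) * Complex.I) =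
      Complex.exp (((2 * π * φ : ℝ) : ℂ) * Complex.I) *
        Complex.exp (((2 * π * p : ℝ) : ℂ) * Complex.I) := by
    rw [← Complex.exp_add]; congr 1; push_cast; ring
  rw [e1, e2, Complex.ofReal_mul 2, Complex.ofReal_cos, Complex.ofReal_ofNat, h]
  ring

theorem xLf1_nle (a b r : ℝ) (hr : 0 ≤ r) (h : a ^ 2 + b ^ 2 ≤ r ^ 2) :
    ‖(a : ℂ) + (b : ℂ) * Complex.I‖ ≤ r := by
  rw [Complex.norm_add_mul_I]
  exact Real.sqrt_le_iff.2 ⟨hr, h⟩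

theorem xLf1_comp {a b d : ℝ} {p : ℝ} (h : ‖((a : ℂ) + (b : ℂ) * Complex.I) / 2 ^ 16 - ex p‖ ≤ d) :
    |a| ≤ 2 ^ 16 * (1 + d) ∧ |b| ≤ 2 ^ 16 * (1 + d) := by
  have h1 : ‖((a : ℂ) + (b : ℂ) * Complex.I) / 2 ^ 16‖ ≤ 1 + d := by
    have := norm_add_le (((a : ℂ) + (b : ℂ) * Complex.I) / 2 ^ 16 - ex p) (ex p)
    rw [sub_add_cancel, xLf1_nex] at this
    linarith
  rw [norm_div, div_le_iff₀ (by norm_num)] at h1
  have h2 : ‖(2 : ℂ) ^ 16‖ = 2 ^ 16 := by simp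
  rw [h2] at h1
  have r1 := Complex.abs_re_le_norm ((a : ℂ) + (b : ℂ) * Complex.I)
  have r2 := Complex.abs_im_le_norm ((a : ℂ) + (b : ℂ) * Complex.I)
  simp only [Complex.add_re, Complex.ofReal_re, Complex.mul_re, Complex.I_re, mul_zero,
    Complex.ofReal_im, Complex.I_im, mul_one, sub_self, add_zero, Complex.add_im,
    Complex.mul_im, zero_add] at r1 r2
  constructor <;> linarith

theorem xLf1_cz (x y h : ℕ) :
    cz x y h = (((x : ℝ) - h : ℝ) : ℂ) + (((y : ℝ) - h : ℝ) : ℂ) * Complex.I := by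
  unfold cz; push_cast; ring

theorem xLf1_Ap_bd {x y : ℕ} {p d : ℝ} (h : xLf1_Ap x y p d) :
    |(x : ℝ) - 2 ^ 17| ≤ 2 ^ 16 * (1 + d) ∧ |(y : ℝ) - 2 ^ 17| ≤ 2 ^ 16 * (1 + d) := by
  unfold xLf1_Ap at h
  rw [xLf1_cz] at h
  have := xLf1_comp h
  rwa [show (((2 ^ 17 : ℕ) : ℝ)) = 2 ^ 17 by norm_num] at this

theorem xLf1_div (n : ℕ) : ∃ f : ℝ, 0 ≤ f ∧ f ≤ 1 ∧ ((n / 2 ^ 16 : ℕ) : ℝ) = n / 2 ^ 16 - f := by
  refine ⟨((n % 2 ^ 16 : ℕ) : ℝ) / 2 ^ 16, by positivity, ?_, ?_⟩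
  · rw [div_le_one (by norm_num)]
    have : n % 2 ^ 16 ≤ 2 ^ 16 := (Nat.mod_lt _ (by norm_num)).le
    exact_mod_cast this
  · have h : ((2 ^ 16 * (n / 2 ^ 16) + n % 2 ^ 16 : ℕ) : ℝ) = n := by rw [Nat.div_add_mod]
    push_cast at h ⊢
    rw [← h]; field_simp; ring

theorem xLf1_step {x y z w c : ℕ} {p φ d1 d2 d3 : ℝ} (hx : xLf1_Ap x y p d1)
    (hz : xLf1_Ap z w (p + φ) d2) (hc : c ≤ 2 ^ 18)
    (hcos : |(c : ℝ) / 2 ^ 16 - 2 - 2 * cos (2 * π * φ)| ≤ 0.000031)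
    (hd : 2 * d1 + d2 + 0.0000526 ≤ d3) (hd3 : d3 ≤ 1) :
    ∃ s u : ℕ, x * c / 2 ^ 16 + (2 ^ 19 - 2 * c) = s + (x + x + z) ∧
      y * c / 2 ^ 16 + (2 ^ 19 - 2 * c) = u + (y + y + w) ∧ xLf1_Ap s u (p - φ) d3 := by
  obtain ⟨f1, f10, f11, e1⟩ := xLf1_div (x * c)
  obtain ⟨f2, f20, f21, e2⟩ := xLf1_div (y * c)
  set γ : ℝ := (c : ℝ) / 2 ^ 16 - 2 with hγ
  have hcR : (c : ℝ) ≤ 2 ^ 18 := by exact_mod_cast hc
  have hc0 : (0 : ℝ) ≤ c := Nat.cast_nonneg c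
  have hγ2 : |γ| ≤ 2 := by
    rw [abs_le, hγ]; constructor
    · have : (0 : ℝ) ≤ (c : ℝ) / 2 ^ 16 := by positivity
      linarith
    · have : (c : ℝ) / 2 ^ 16 ≤ 4 := by rw [div_le_iff₀ (by norm_num)]; linarith
      linarith
  set A : ℝ := γ * ((x : ℝ) - 2 ^ 17) - ((z : ℝ) - 2 ^ 17) - f1 with hA
  set Bv : ℝ := γ * ((y : ℝ) - 2 ^ 17) - ((w : ℝ) - 2 ^ 17) - f2 with hB
  have hest : ‖((A : ℂ) + (Bv : ℂ) * Complex.I) / 2 ^ 16 - ex (p - φ)‖ ≤ d3 := by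
    have eq : ((A : ℂ) + (Bv : ℂ) * Complex.I) / 2 ^ 16 - ex (p - φ) =
        (γ : ℂ) * (cz x y (2 ^ 17) / 2 ^ 16 - ex p) - (cz z w (2 ^ 17) / 2 ^ 16 - ex (p + φ))
          + ((γ - 2 * cos (2 * π * φ) : ℝ) : ℂ) * ex p
          - (((f1 / 2 ^ 16 : ℝ) : ℂ) + ((f2 / 2 ^ 16 : ℝ) : ℂ) * Complex.I) := by
      rw [xLf1_exrec, hA, hB]
      unfold cz
      generalize cos (2 * π * φ) = co
      push_cast
      ring
    rw [eq]
    have n1 : ‖(γ : ℂ) * (cz x y (2 ^ 17) / 2 ^ 16 - ex p)‖ ≤ 2 * d1 := by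
      rw [norm_mul, Complex.norm_real, Real.norm_eq_abs]
      exact mul_le_mul hγ2 hx (norm_nonneg _) (by norm_num)
    have n3 : ‖((γ - 2 * cos (2 * π * φ) : ℝ) : ℂ) * ex p‖ ≤ 0.000031 := by
      rw [norm_mul, xLf1_nex, mul_one, Complex.norm_real, Real.norm_eq_abs]
      exact hcos
    have n4 : ‖((f1 / 2 ^ 16 : ℝ) : ℂ) + ((f2 / 2 ^ 16 : ℝ) : ℂ) * Complex.I‖ ≤ 0.0000216 := by
      refine xLf1_nle _ _ _ (by norm_num) ?_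
      have g1 : f1 ^ 2 ≤ 1 := by nlinarith
      have g2 : f2 ^ 2 ≤ 1 := by nlinarith
      rw [div_pow, div_pow, ← add_div, div_le_iff₀ (by norm_num)]
      norm_num
      linarith
    have hz' : ‖cz z w (2 ^ 17) / 2 ^ 16 - ex (p + φ)‖ ≤ d2 := hz
    refine le_trans (norm_sub_le _ _) ?_
    refine le_trans (add_le_add (norm_add_le _ _) n4) ?_
    refine le_trans (add_le_add (add_le_add (norm_sub_le _ _) n3) le_rfl) ?_
    linarith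
  obtain ⟨bA, bB⟩ := xLf1_comp hest
  have h2c : 2 * c ≤ 2 ^ 19 := by omega
  have r1 : ((x * c / 2 ^ 16 + (2 ^ 19 - 2 * c) : ℕ) : ℝ) = A + 2 ^ 17 + (x + x + z : ℕ) := by
    rw [Nat.cast_add, e1, Nat.cast_sub h2c, hA, hγ]; push_cast; ring
  have r2 : ((y * c / 2 ^ 16 + (2 ^ 19 - 2 * c) : ℕ) : ℝ) = Bv + 2 ^ 17 + (y + y + w : ℕ) := by
    rw [Nat.cast_add, e2, Nat.cast_sub h2c, hB, hγ]; push_cast; ring
  have l1 : x + x + z ≤ x * c / 2 ^ 16 + (2 ^ 19 - 2 * c) := by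
    have : ((x + x + z : ℕ) : ℝ) ≤ ((x * c / 2 ^ 16 + (2 ^ 19 - 2 * c) : ℕ) : ℝ) := by
      rw [r1]; have := (abs_le.1 bA).1; linarith
    exact_mod_cast this
  have l2 : y + y + w ≤ y * c / 2 ^ 16 + (2 ^ 19 - 2 * c) := by
    have : ((y + y + w : ℕ) : ℝ) ≤ ((y * c / 2 ^ 16 + (2 ^ 19 - 2 * c) : ℕ) : ℝ) := by
      rw [r2]; have := (abs_le.1 bB).1; linarith
    exact_mod_cast this
  obtain ⟨s, hs⟩ := Nat.exists_eq_add_of_le' l1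
  obtain ⟨u, hu⟩ := Nat.exists_eq_add_of_le' l2
  refine ⟨s, u, hs, hu, ?_⟩
  rw [hs, Nat.cast_add] at r1
  rw [hu, Nat.cast_add] at r2
  have s1 : (s : ℝ) - ((2 ^ 17 : ℕ) : ℝ) = A := by push_cast; linarith
  have s2 : (u : ℝ) - ((2 ^ 17 : ℕ) : ℝ) = Bv := by push_cast; linarith
  unfold xLf1_Ap
  rw [xLf1_cz, s1, s2]
  exact hest

theorem xLf1_fin2 (u v w : ℕ → ℕ) (hu : Bd 6 (2 ^ 48) u) (hv : Bd 6 (2 ^ 48) v)
    (h1 : ∀ i < 6, w i ≤ u i + (2 ^ 46 + 2 ^ 15) ∧ u i + (2 ^ 46 + 2 ^ 15) - w i < 2 ^ 48)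
    (h2 : ∀ i < 6, w i ≤ v i + (2 ^ 46 + 2 ^ 15) ∧ v i + (2 ^ 46 + 2 ^ 15) - w i < 2 ^ 48) :
    fin2 (pk 48 6 u + pk 48 6 v * 2 ^ 288 + pk 48 6 w * 2 ^ 576) =
      pk 48 12 (fun i => (if i < 6 then u i + (2 ^ 46 + 2 ^ 15) - w i
        else v (i - 6) + (2 ^ 46 + 2 ^ 15) - w (i - 6)) / 2 ^ 16 % 2 ^ 31) := by
  have hB : (0x400000008000400000008000400000008000400000008000400000008000400000008000400000008000400000008000400000008000400000008000400000008000400000008000 : ℕ) =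
      pk 48 6 (fun _ => 2 ^ 46 + 2 ^ 15) + pk 48 6 (fun _ => 2 ^ 46 + 2 ^ 15) * 2 ^ 288 := by
    norm_num [Pool.Agent.MP_90395b_gt.Bn.pk, sum_range_succ]
  have hK : (0x1000000000000000000000000000000000000000000000000000000000000000000000001000000000000000000000000000000000000000000000000000000000000000000000001 : ℕ) =
      1 + 2 ^ 288 + 2 ^ 576 := by norm_num
  have hM : (0x7fffffff00007fffffff00007fffffff00007fffffff00007fffffff00007fffffff00007fffffff00007fffffff00007fffffff00007fffffff00007fffffff00007fffffff : ℕ) =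
      pk 48 12 (fun _ => 2 ^ 31 - 1) := by
    norm_num [Pool.Agent.MP_90395b_gt.Bn.pk, sum_range_succ]
  have lu : pk 48 6 u < 2 ^ 288 := pk_lt hu
  have lv : pk 48 6 v < 2 ^ 288 := pk_lt hv
  have hsh : (pk 48 6 u + pk 48 6 v * 2 ^ 288 + pk 48 6 w * 2 ^ 576) >>> 576 = pk 48 6 w := by
    rw [Nat.shiftRight_eq_div_pow, Nat.add_mul_div_right _ _ (by positivity), Nat.div_eq_of_lt,
      zero_add]
    have e : (2 : ℕ) ^ 576 = 2 ^ 288 * 2 ^ 288 := by rw [← pow_add]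
    rw [e]
    generalize (2 : ℕ) ^ 288 = Z at *
    nlinarith
  have e1 : pk 48 6 u + pk 48 6 (fun _ => 2 ^ 46 + 2 ^ 15) =
      pk 48 6 (fun i => u i + (2 ^ 46 + 2 ^ 15) - w i) + pk 48 6 w := by
    rw [pk_add', pk_add']
    exact pk_congr fun i hi => by have := (h1 i hi).1; omega
  have e2 : pk 48 6 v + pk 48 6 (fun _ => 2 ^ 46 + 2 ^ 15) =
      pk 48 6 (fun i => v i + (2 ^ 46 + 2 ^ 15) - w i) + pk 48 6 w := by
    rw [pk_add', pk_add']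
    exact pk_congr fun i hi => by have := (h2 i hi).1; omega
  have e3 : pk 48 12 (fun i => if i < 6 then u i + (2 ^ 46 + 2 ^ 15) - w i
        else v (i - 6) + (2 ^ 46 + 2 ^ 15) - w (i - 6)) =
      pk 48 6 (fun i => u i + (2 ^ 46 + 2 ^ 15) - w i) +
        pk 48 6 (fun i => v i + (2 ^ 46 + 2 ^ 15) - w i) * 2 ^ 288 := by
    rw [show (12 : ℕ) = 6 + 6 from rfl, pk_append]
    refine congrArg₂ (· + ·) ?_ ?_
    · exact pk_congr fun i hi => by rw [if_pos hi]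
    · refine congrArg₂ (· * ·) (pk_congr fun i _ => ?_) rfl
      rw [if_neg (by omega), Nat.add_sub_cancel_left]
  have hbd : Bd 12 (2 ^ 48) (fun i => if i < 6 then u i + (2 ^ 46 + 2 ^ 15) - w i
        else v (i - 6) + (2 ^ 46 + 2 ^ 15) - w (i - 6)) := by
    intro i hi
    beta_reduce
    split_ifs with h
    · exact (h1 i h).2
    · exact (h2 (i - 6) (by omega)).2
  rw [fin2_eq, hsh, hB, hK, hM, ← pk_flo (by norm_num) hbd (by norm_num : 16 + 31 ≤ 48), e3]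
  congr 2
  refine Nat.sub_eq_of_eq_add ?_
  generalize pk 48 6 (fun i => u i + (2 ^ 46 + 2 ^ 15) - w i) = g1 at *
  generalize pk 48 6 (fun i => v i + (2 ^ 46 + 2 ^ 15) - w i) = g2 at *
  generalize pk 48 6 (fun _ => 2 ^ 46 + 2 ^ 15) = b at *
  generalize pk 48 6 u = U at *
  generalize pk 48 6 v = V at *
  generalize pk 48 6 w = W at *
  generalize (2 : ℕ) ^ 288 = B2
  generalize (2 : ℕ) ^ 576 = B4
  zify at e1 e2 ⊢
  linear_combination e1 + B2 * e2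

theorem xLf1_lane {β x : ℕ} {d : ℝ} (hβ : (β : ℝ) ≤ 0.56 * 2 ^ 30) (hd : d ≤ 0.001)
    (hx : |(x : ℝ) - 2 ^ 17| ≤ 2 ^ 16 * (1 + d)) :
    β * x < 2 ^ 48 ∧ β * 2 ^ 17 ≤ β * x + (2 ^ 46 + 2 ^ 15) ∧
      β * x + (2 ^ 46 + 2 ^ 15) - β * 2 ^ 17 < 2 ^ 47 ∧ ∃ r : ℝ, |r| ≤ 1 / 2 ∧
        (((β * x + (2 ^ 46 + 2 ^ 15) - β * 2 ^ 17) / 2 ^ 16 % 2 ^ 31 : ℕ) : ℝ) - 2 ^ 30 =
          β * ((x : ℝ) - 2 ^ 17) / 2 ^ 16 + r := by
  have hβ0 : (0 : ℝ) ≤ β := Nat.cast_nonneg β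
  have hx' : |(x : ℝ) - 2 ^ 17| ≤ 2 ^ 16 * 1.001 :=
    hx.trans (mul_le_mul_of_nonneg_left (by norm_num at hd ⊢; linarith) (by norm_num))
  have hp : |(β : ℝ) * ((x : ℝ) - 2 ^ 17)| ≤ 0.56 * 2 ^ 30 * (2 ^ 16 * 1.001) := by
    rw [abs_mul, abs_of_nonneg hβ0]
    exact mul_le_mul hβ hx' (abs_nonneg _) (by norm_num)
  obtain ⟨p1, p2⟩ := abs_le.1 hp
  have q1 : β * x < 2 ^ 48 := by
    have : ((β * x : ℕ) : ℝ) < ((2 ^ 48 : ℕ) : ℝ) := by push_cast; nlinarith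
    exact_mod_cast this
  have q2 : β * 2 ^ 17 ≤ β * x + (2 ^ 46 + 2 ^ 15) := by
    have : ((β * 2 ^ 17 : ℕ) : ℝ) ≤ ((β * x + (2 ^ 46 + 2 ^ 15) : ℕ) : ℝ) := by
      push_cast; nlinarith
    exact_mod_cast this
  have q4 : ((β * x + (2 ^ 46 + 2 ^ 15) - β * 2 ^ 17 : ℕ) : ℝ) =
      β * ((x : ℝ) - 2 ^ 17) + (2 ^ 46 + 2 ^ 15) := by
    rw [Nat.cast_sub q2]; push_cast; ring
  have q3 : β * x + (2 ^ 46 + 2 ^ 15) - β * 2 ^ 17 < 2 ^ 47 := by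
    have : ((β * x + (2 ^ 46 + 2 ^ 15) - β * 2 ^ 17 : ℕ) : ℝ) < ((2 ^ 47 : ℕ) : ℝ) := by
      rw [q4]; push_cast; linarith
    exact_mod_cast this
  refine ⟨q1, q2, q3, ?_⟩
  obtain ⟨f, f0, f1, e⟩ := xLf1_div (β * x + (2 ^ 46 + 2 ^ 15) - β * 2 ^ 17)
  refine ⟨1 / 2 - f, abs_le.2 ⟨by linarith, by linarith⟩, ?_⟩
  rw [Nat.mod_eq_of_lt (by omega), e, q4]
  ring

theorem xLf1_round {β x y : ℕ} {p d : ℝ} (hβ : (β : ℝ) ≤ 0.56 * 2 ^ 30) (hd : d ≤ 0.001)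
    (h : xLf1_Ap x y p d) :
    ‖cz ((β * x + (2 ^ 46 + 2 ^ 15) - β * 2 ^ 17) / 2 ^ 16 % 2 ^ 31)
      ((β * y + (2 ^ 46 + 2 ^ 15) - β * 2 ^ 17) / 2 ^ 16 % 2 ^ 31) (2 ^ 30) - (β : ℂ) * ex p‖
      ≤ β * d + 0.71 := by
  obtain ⟨b1, b2⟩ := xLf1_Ap_bd h
  obtain ⟨-, -, -, r1, hr1, e1⟩ := xLf1_lane hβ hd b1
  obtain ⟨-, -, -, r2, hr2, e2⟩ := xLf1_lane hβ hd b2
  rw [xLf1_cz, show (((2 ^ 30 : ℕ) : ℝ)) = 2 ^ 30 by norm_num, e1, e2]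
  have eq : (((β * ((x : ℝ) - 2 ^ 17) / 2 ^ 16 + r1 : ℝ) : ℂ) +
      ((β * ((y : ℝ) - 2 ^ 17) / 2 ^ 16 + r2 : ℝ) : ℂ) * Complex.I) - (β : ℂ) * ex p =
      (β : ℂ) * (cz x y (2 ^ 17) / 2 ^ 16 - ex p) + ((r1 : ℂ) + (r2 : ℂ) * Complex.I) := by
    unfold cz; push_cast; ring
  rw [eq]
  refine le_trans (norm_add_le _ _) (add_le_add ?_ ?_)
  · rw [norm_mul, Complex.norm_natCast]
    exact mul_le_mul_of_nonneg_left h (Nat.cast_nonneg β)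
  · refine xLf1_nle _ _ _ (by norm_num) ?_
    have g1 := abs_le.1 hr1
    have g2 := abs_le.1 hr2
    nlinarith

theorem xLf1_le {x y : ℕ} {p d : ℝ} (h : xLf1_Ap x y p d) (hd : d ≤ 1) :
    x ≤ 2 ^ 18 ∧ y ≤ 2 ^ 18 := by
  obtain ⟨b1, b2⟩ := xLf1_Ap_bd h
  have c1 := (abs_le.1 b1).2
  have c2 := (abs_le.1 b2).2
  constructor
  · have : (x : ℝ) ≤ ((2 ^ 18 : ℕ) : ℝ) := by push_cast; linarith
    exact_mod_cast this
  · have : (y : ℝ) ≤ ((2 ^ 18 : ℕ) : ℝ) := by push_cast; linarith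
    exact_mod_cast this

theorem xLf1_m3 {a b c d : ℕ} (ha : a ≤ 2 ^ 18) (hb : b ≤ 2 ^ 18) (hc : c ≤ 2 ^ 18)
    (hd : d ≤ 2 ^ 18) :
    xLf1_P a b c d (2 ^ 17) (2 ^ 17) &&& 0xffffffffffff000000000000000000000000000000000000000000000000000000000000ffffffffffff000000000000000000000000000000000000000000000000000000000000ffffffffffff
      = a + c * 2 ^ 288 + 2 ^ 17 * 2 ^ 576 ∧
    xLf1_P a b c d (2 ^ 17) (2 ^ 17) &&& 0xffffffffffff000000000000000000000000000000000000000000000000000000000000ffffffffffff000000000000000000000000000000000000000000000000000000000000ffffffffffff000000000000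
      = (b + d * 2 ^ 288 + 2 ^ 17 * 2 ^ 576) * 2 ^ 48 := by
  have h1 : (0xffffffffffff000000000000000000000000000000000000000000000000000000000000ffffffffffff000000000000000000000000000000000000000000000000000000000000ffffffffffff : ℕ) =
      xLf1_P (2 ^ 48 - 1) 0 (2 ^ 48 - 1) 0 (2 ^ 48 - 1) 0 := by norm_num [xLf1_P]
  have h2 : (0xffffffffffff000000000000000000000000000000000000000000000000000000000000ffffffffffff000000000000000000000000000000000000000000000000000000000000ffffffffffff000000000000 : ℕ) =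
      xLf1_P 0 (2 ^ 48 - 1) 0 (2 ^ 48 - 1) 0 (2 ^ 48 - 1) := by norm_num [xLf1_P]
  have la : a < 2 ^ 48 := by omega
  have lb : b < 2 ^ 48 := by omega
  have lc : c < 2 ^ 48 := by omega
  have ld : d < 2 ^ 48 := by omega
  have lh : 2 ^ 17 < 2 ^ 48 := by norm_num
  have lm : 2 ^ 48 - 1 < 2 ^ 48 := by norm_num
  have l0 : 0 < 2 ^ 48 := by norm_num
  rw [h1, h2, xLf1_land la lb lc ld lh lh lm l0 lm l0 lm l0,
    xLf1_land la lb lc ld lh lh l0 lm l0 lm l0 lm]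
  simp only [Nat.and_zero, and_full la, and_full lb, and_full lc, and_full ld, and_full lh]
  unfold xLf1_P
  constructor <;> ring

def xLf1_six (a b c d e f : ℕ) (i : ℕ) : ℕ :=
  if i = 0 then a else if i = 1 then b else if i = 2 then c else if i = 3 then d else
    if i = 4 then e else f

theorem xLf1_sum (β x y : ℕ → ℕ) :
    β 0 * (x 0 + y 0 * 2 ^ 288 + 2 ^ 17 * 2 ^ 576) +
      (β 1 * (x 1 + y 1 * 2 ^ 288 + 2 ^ 17 * 2 ^ 576) +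
        (β 2 * (x 2 + y 2 * 2 ^ 288 + 2 ^ 17 * 2 ^ 576) +
          (β 3 * (x 3 + y 3 * 2 ^ 288 + 2 ^ 17 * 2 ^ 576) +
            β 4 * ((x 4 + y 4 * 2 ^ 288 + 2 ^ 17 * 2 ^ 576) * 2 ^ 48) +
            (β 5 * ((x 5 + y 5 * 2 ^ 288 + 2 ^ 17 * 2 ^ 576) * 2 ^ 48)) <<< 48) <<< 48) <<< 48)
        <<< 48 =
    pk 48 6 (fun i => β i * x i) + pk 48 6 (fun i => β i * y i) * 2 ^ 288 +
      pk 48 6 (fun i => β i * 2 ^ 17) * 2 ^ 576 := by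
  simp only [Nat.shiftLeft_eq, Pool.Agent.MP_90395b_gt.Bn.pk, sum_range_succ, sum_range_zero]
  ring

theorem stLf1 (hSc : StSc) : StLf1 := by
  intro X ν θ hβ
  obtain ⟨⟨x2, y2, -, -, e2, a2⟩, -, -⟩ := hSc ν
  obtain ⟨⟨x3, y3, -, -, e3, a3⟩, -, -⟩ := hSc (ν + θ)
  obtain ⟨-, ⟨hc, hcos⟩, -⟩ := hSc θ
  set c := cc θ with hcdef
  have hcos' : |(c : ℝ) / 2 ^ 16 - 2 - 2 * cos (2 * π * (-(θ / 2 ^ 24 : ℝ)))| ≤ 0.000031 := by
    rw [mul_neg, cos_neg]; exact hcos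
  have A2 : xLf1_Ap x2 y2 (-(ν : ℝ) / 2 ^ 24) 0.00003 := a2
  have A3 : xLf1_Ap x3 y3 (-((ν : ℝ) + θ) / 2 ^ 24) 0.00003 := by
    have := a3; push_cast at this; exact this
  obtain ⟨x1, y1, s1, u1, A1⟩ := xLf1_step (d3 := 0.00015) A2
    (show xLf1_Ap x3 y3 (-(ν : ℝ) / 2 ^ 24 + -(θ / 2 ^ 24 : ℝ)) 0.00003 by
      convert A3 using 1; ring) hc hcos' (by norm_num) (by norm_num)
  obtain ⟨x4, y4, s4, u4, A4⟩ := xLf1_step (d3 := 0.00015) A3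
    (show xLf1_Ap x2 y2 (-((ν : ℝ) + θ) / 2 ^ 24 + (θ / 2 ^ 24 : ℝ)) 0.00003 by
      convert A2 using 1; ring) hc hcos (by norm_num) (by norm_num)
  obtain ⟨x0, y0, s0, u0, A0⟩ := xLf1_step (d3 := 0.0004) A1
    (show xLf1_Ap x2 y2 (-(ν : ℝ) / 2 ^ 24 - -(θ / 2 ^ 24 : ℝ) + -(θ / 2 ^ 24 : ℝ)) 0.00003 by
      convert A2 using 1; ring) hc hcos' (by norm_num) (by norm_num)
  obtain ⟨x5, y5, s5, u5, A5⟩ := xLf1_step (d3 := 0.0004) A4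
    (show xLf1_Ap x3 y3 (-((ν : ℝ) + θ) / 2 ^ 24 - (θ / 2 ^ 24 : ℝ) + (θ / 2 ^ 24 : ℝ)) 0.00003 by
      convert A3 using 1; ring) hc hcos (by norm_num) (by norm_num)
  obtain ⟨l0, m0⟩ := xLf1_le A0 (by norm_num)
  obtain ⟨l1, m1⟩ := xLf1_le A1 (by norm_num)
  obtain ⟨l2, m2⟩ := xLf1_le A2 (by norm_num)
  obtain ⟨l3, m3⟩ := xLf1_le A3 (by norm_num)
  obtain ⟨l4, m4⟩ := xLf1_le A4 (by norm_num)
  obtain ⟨l5, m5⟩ := xLf1_le A5 (by norm_num)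
  set xs := xLf1_six x0 x1 x2 x3 x4 x5 with hxs
  set ys := xLf1_six y0 y1 y2 y3 y4 y5 with hys
  set β : ℕ → ℕ := fun i => bt X (71 + 104 * i) with hβdef
  have AA : ∀ i < 6, xLf1_Ap (xs i) (ys i) (-((ν : ℝ) + ((i : ℝ) - 2) * θ) / 2 ^ 24) (eps i) := by
    intro i hi
    have tr : ∀ {x y : ℕ} {p q d e : ℝ}, xLf1_Ap x y p d → p = q → d = e → xLf1_Ap x y q e :=
      fun h h1 h2 => h1 ▸ h2 ▸ h
    interval_cases i
    · exact tr A0 (by push_cast; ring) (by simp [eps])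
    · exact tr A1 (by push_cast; ring) (by simp [eps])
    · exact tr A2 (by push_cast; ring) (by simp [eps])
    · exact tr A3 (by push_cast; ring) (by simp [eps])
    · exact tr A4 (by push_cast; ring) (by simp [eps])
    · exact tr A5 (by push_cast; ring) (by simp [eps])
  have heps : ∀ i, eps i ≤ 0.001 := fun i => by unfold eps; split_ifs <;> norm_num
  have hE : (0x80000000000080000000000000000000000000000000000000000000000000000000000080000000000080000000000000000000000000000000000000000000000000000000000080000000000080000 : ℕ) - c *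
      0x2000000000002000000000000000000000000000000000000000000000000000000000002000000000002000000000000000000000000000000000000000000000000000000000002000000000002 =
      xLf1_P (2 ^ 19 - 2 * c) (2 ^ 19 - 2 * c) (2 ^ 19 - 2 * c) (2 ^ 19 - 2 * c)
        (2 ^ 19 - 2 * c) (2 ^ 19 - 2 * c) := by
    refine Nat.sub_eq_of_eq_add ?_
    obtain ⟨e, he⟩ : ∃ e, 2 ^ 18 = c + e := Nat.exists_eq_add_of_le hc
    have h1 : 2 ^ 19 - 2 * c = 2 * e := by omega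
    rw [h1]
    unfold xLf1_P
    zify at he ⊢
    linear_combination (2 * (1 + 2 ^ 48 + 2 ^ 288 + 2 ^ 336 + 2 ^ 576 + 2 ^ 624) : ℤ) * he
  have hP23 : sc ν + sc (ν + θ) <<< 48 = xLf1_P x2 x3 y2 y3 (2 ^ 17) (2 ^ 17) := by
    rw [e2, e3, Nat.shiftLeft_eq]; unfold xLf1_P; ring
  have hP32 : sc (ν + θ) + sc ν <<< 48 = xLf1_P x3 x2 y3 y2 (2 ^ 17) (2 ^ 17) := by
    rw [e2, e3, Nat.shiftLeft_eq]; unfold xLf1_P; ring
  have hl : ∀ i < 6, _ := fun i hi => xLf1_lane (hβ i hi) (heps i) (xLf1_Ap_bd (AA i hi)).1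
  have hm : ∀ i < 6, _ := fun i hi => xLf1_lane (hβ i hi) (heps i) (xLf1_Ap_bd (AA i hi)).2
  refine ⟨fun i => (if i < 6 then β i * xs i + (2 ^ 46 + 2 ^ 15) - β i * 2 ^ 17
    else β (i - 6) * ys (i - 6) + (2 ^ 46 + 2 ^ 15) - β (i - 6) * 2 ^ 17) / 2 ^ 16 % 2 ^ 31,
    fun i _ => Nat.mod_lt _ (by norm_num), ?_, fun i hi => ?_⟩
  · rw [← xLf1_fin2 (fun i => β i * xs i) (fun i => β i * ys i) (fun i => β i * 2 ^ 17)
      (fun i hi => (hl i hi).1) (fun i hi => (hm i hi).1)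
      (fun i hi => ⟨(hl i hi).2.1, lt_trans (hl i hi).2.2.1 (by norm_num)⟩)
      (fun i hi => ⟨(hm i hi).2.1, lt_trans (hm i hi).2.2.1 (by norm_num)⟩),
      lf1_eq, lf2_eq, lf3_eq, lf4_eq, ← hcdef, hE, hP23, hP32,
      xLf1_stp hc l2 l3 m2 m3 s1 s4 u1 u4, xLf1_stp hc l1 l4 m1 m4 s0 s5 u0 u5, taps_eq,
      (xLf1_m3 l0 l5 m0 m5).1, (xLf1_m3 l0 l5 m0 m5).2, (xLf1_m3 l1 l4 m1 m4).1,
      (xLf1_m3 l1 l4 m1 m4).2, e2, e3]
    exact congrArg fin2 (xLf1_sum β xs ys)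
  · beta_reduce
    rw [if_pos hi, if_neg (by omega), Nat.add_sub_cancel_left]
    exact xLf1_round (hβ i hi) (heps i) (AA i hi)

end

end Pool.Agent.MP_88bd62_nt.B
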