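import Pool.Agent.MP_88bd62_nt.B.Defs

/-! The integer programs for the positions approximate the logarithm. -/

namespace Pool.Agent.MP_88bd62_nt.B

open Finset Real

theorem xLog_two : (0.69314718055994530941 : ℝ) ≤ log 2 ∧ log 2 ≤ 0.69314718055994530942 := by
  have h := Real.sum_range_sub_log_div_le (x := (1 / 3 : ℝ)) (by rw [abs_of_pos] <;> norm_num) 24
  have e : ((1 : ℝ) + 1 / 3) / (1 - 1 / 3) = 2 := by norm_num
  rw [e, abs_of_pos (by norm_num : (0 : ℝ) < 1 / 3), abs_le] at h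
  obtain ⟨h1, h2⟩ := h
  simp only [Finset.sum_range_succ, Finset.sum_range_zero] at h1 h2
  norm_num at h1 h2
  constructor <;> linarith

theorem xLog_C : |(6222580621269191297 : ℝ) - 1961400 * 2 ^ 41 / log 2| ≤ 1 := by
  obtain ⟨h1, h2⟩ := xLog_two
  have hp : (0 : ℝ) < log 2 := by linarith
  have a : (6222580621269191297 : ℝ) ≤ 1961400 * 2 ^ 41 / log 2 := by
    rw [le_div_iff₀ hp]; norm_num at h2 ⊢; linarith
  have b : 1961400 * 2 ^ 41 / log 2 ≤ (6222580621269191298 : ℝ) := by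
    rw [div_le_iff₀ hp]; norm_num at h1 ⊢; linarith
  rw [abs_le]; constructor <;> linarith

theorem xLog_floor (a b : ℕ) (hb : 0 < b) :
    (a : ℝ) / b - 1 ≤ ((a / b : ℕ) : ℝ) ∧ ((a / b : ℕ) : ℝ) ≤ (a : ℝ) / b := by
  have hb' : (0 : ℝ) < b := by exact_mod_cast hb
  refine ⟨?_, Nat.cast_div_le⟩
  have h := Nat.lt_div_mul_add (a := a) hb
  have h' : (a : ℝ) < ((a / b : ℕ) : ℝ) * b + b := by exact_mod_cast h
  rw [sub_le_iff_le_add, div_le_iff₀ hb']
  linarith

theorem xLog_ats (C d u : ℕ) (hu : 0 < u) (n : ℕ) :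
    (C : ℝ) * ∑ i ∈ range n, ((d : ℝ) / u) ^ (2 * i + 1) / (2 * i + 1) - n ≤ ats C d u n ∧
    (ats C d u n : ℝ) ≤ C * ∑ i ∈ range n, ((d : ℝ) / u) ^ (2 * i + 1) / (2 * i + 1) := by
  induction n with
  | zero => simp [ats_zero]
  | succ k ih =>
    have hu' : (0 : ℝ) < u := by exact_mod_cast hu
    have h := xLog_floor (C * d ^ (2 * k + 1)) ((2 * k + 1) * u ^ (2 * k + 1)) (by positivity)
    have e : ((C * d ^ (2 * k + 1) : ℕ) : ℝ) / (((2 * k + 1) * u ^ (2 * k + 1) : ℕ) : ℝ)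
        = C * (((d : ℝ) / u) ^ (2 * k + 1) / (2 * k + 1)) := by
      push_cast
      rw [div_pow]
      field_simp
    rw [e] at h
    rw [ats_succ, Finset.sum_range_succ, Nat.cast_add (ats C d u k), mul_add]
    push_cast at h ih ⊢
    constructor <;> linarith [h.1, h.2, ih.1, ih.2]

/-- The target in terms of half the logarithm. -/
theorem xLog_tgt (x : ℝ) :
    1961400 * 2 ^ 40 * logb 2 x = 1961400 * 2 ^ 41 / log 2 * (1 / 2 * log x) := by
  rw [Real.logb]; ring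

theorem xLog_one (m : ℕ) (h1 : 65536 ≤ m) (h2 : m ≤ 131072) :
    |(ats 6222580621269191297 (m - 2 ^ 16) (m + 2 ^ 16) 21 : ℝ)
      - 1961400 * 2 ^ 40 * logb 2 (m / 65536)| ≤ 24 := by
  have h1' : (65536 : ℝ) ≤ m := by exact_mod_cast h1
  have h2' : (m : ℝ) ≤ 131072 := by exact_mod_cast h2
  have ha := xLog_ats 6222580621269191297 (m - 2 ^ 16) (m + 2 ^ 16) (by positivity) 21
  have e1 : ((m - 2 ^ 16 : ℕ) : ℝ) = m - 65536 := by
    rw [Nat.cast_sub (by norm_num; exact h1)]; norm_num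
  have e2 : ((m + 2 ^ 16 : ℕ) : ℝ) = m + 65536 := by push_cast; norm_num
  rw [e1, e2] at ha
  set z : ℝ := ((m : ℝ) - 65536) / (m + 65536) with hz
  have hz0 : 0 ≤ z := div_nonneg (by linarith) (by linarith)
  have hz1 : z ≤ 1 / 3 := by rw [hz, div_le_iff₀ (by linarith)]; linarith
  have h := Real.sum_range_sub_log_div_le (x := z) (by rw [abs_of_nonneg hz0]; linarith) 21
  have e : (1 + z) / (1 - z) = m / 65536 := by
    rw [hz]; field_simp; ring
  rw [e, abs_of_nonneg hz0] at h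
  have ht : z ^ (2 * 21 + 1) / (1 - z ^ 2) ≤ (1 / 3) ^ 43 / (8 / 9) := by
    apply div_le_div₀ (by positivity) (pow_le_pow_left₀ hz0 hz1 _) (by norm_num)
    nlinarith
  have hA0 : 0 ≤ log ((m : ℝ) / 65536) :=
    Real.log_nonneg (by rw [le_div_iff₀ (by norm_num)]; linarith)
  have hA1 : log ((m : ℝ) / 65536) ≤ 1 := by
    have := Real.log_le_sub_one_of_pos (x := (m : ℝ) / 65536) (by positivity)
    have h3 : (m : ℝ) / 65536 ≤ 2 := by rw [div_le_iff₀ (by norm_num)]; linarith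
    linarith
  rw [xLog_tgt]
  have hC := xLog_C
  generalize 1961400 * 2 ^ 41 / log 2 = K at hC ⊢
  generalize log ((m : ℝ) / 65536) = L at *
  generalize (∑ i ∈ range 21, z ^ (2 * i + 1) / (2 * (i : ℝ) + 1)) = S at *
  have h5 := le_trans h ht
  rw [abs_le] at h5 hC ⊢
  obtain ⟨h5, h6⟩ := h5
  obtain ⟨ha, hb⟩ := ha
  norm_num at h5 h6 ha hb ⊢
  have k1 : 0 ≤ (K - 6222580621269191296) * L := mul_nonneg (by linarith [hC.2]) hA0
  have k2 : 0 ≤ (6222580621269191298 - K) * L := mul_nonneg (by linarith [hC.1]) hA0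
  constructor <;> nlinarith

theorem xLog_two' (m d : ℕ) (h1 : 65536 ≤ m) (hd : 1 ≤ d) (hd' : d ≤ 32) :
    |(at1 (6222580621269191297 * d) (6222580621269191297 * d ^ 3 / 3) (m + (m + d)) : ℝ)
      - 1961400 * 2 ^ 40 * logb 2 ((m + d) / m)| ≤ 6 := by
  have h1' : (65536 : ℝ) ≤ m := by exact_mod_cast h1
  have h2' : (1 : ℝ) ≤ d := by exact_mod_cast hd
  have h3' : (d : ℝ) ≤ 32 := by exact_mod_cast hd'
  rw [at1_eq, at2_eq]
  generalize hC0 : 6222580621269191297 = C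
  have hCr : (C : ℝ) = 6222580621269191297 := by rw [← hC0]; norm_num
  have hu : 0 < m + (m + d) := by omega
  have f1 := xLog_floor (C * d ^ 3) 3 (by norm_num)
  generalize C * d ^ 3 / 3 = b at f1 ⊢
  have f2 := xLog_floor (C * d * ((m + (m + d)) * (m + (m + d))) + b)
    ((m + (m + d)) * (m + (m + d)) * (m + (m + d))) (by positivity)
  generalize (C * d * ((m + (m + d)) * (m + (m + d))) + b) /
    ((m + (m + d)) * (m + (m + d)) * (m + (m + d))) = Y at f2 ⊢
  push_cast at f1 f2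
  set u : ℝ := (m : ℝ) + (m + d) with hu'
  have hu1 : (1 : ℝ) ≤ u := by rw [hu']; linarith
  set z : ℝ := d / u with hz
  have hz0 : 0 ≤ z := by positivity
  have hz1 : z ≤ 1 / 4096 := by rw [hz, div_le_iff₀ (by linarith), hu']; linarith
  have h := Real.sum_range_sub_log_div_le (x := z) (by rw [abs_of_nonneg hz0]; linarith) 3
  have e : (1 + z) / (1 - z) = (m + d) / m := by
    have : u - d ≠ 0 := by rw [hu']; linarith
    rw [hz]; field_simp; rw [hu']; ring
  rw [e, abs_of_nonneg hz0] at h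
  have ht : z ^ (2 * 3 + 1) / (1 - z ^ 2) ≤ (1 / 4096) ^ 7 / (1 / 2) := by
    apply div_le_div₀ (by positivity) (pow_le_pow_left₀ hz0 hz1 _) (by norm_num)
    nlinarith
  have h5' : z ^ 5 ≤ (1 / 4096) ^ 5 := pow_le_pow_left₀ hz0 hz1 _
  have h50 : 0 ≤ z ^ 5 := by positivity
  have hA0 : 0 ≤ log (((m : ℝ) + d) / m) :=
    Real.log_nonneg (by rw [le_div_iff₀ (by linarith)]; linarith)
  have hA1 : log (((m : ℝ) + d) / m) ≤ 1 := by
    have := Real.log_le_sub_one_of_pos (x := ((m : ℝ) + d) / m) (by positivity)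
    have h3 : ((m : ℝ) + d) / m ≤ 2 := by rw [div_le_iff₀ (by linarith)]; linarith
    linarith
  have hu3 : (1 : ℝ) ≤ u * u * u := by nlinarith [mul_le_mul hu1 hu1 zero_le_one (by linarith)]
  have e3 : ((C : ℝ) * d * (u * u) + b) / (u * u * u)
      = C * z + C * z ^ 3 / 3 + (b - C * d ^ 3 / 3) / (u * u * u) := by
    rw [hz]; field_simp; ring
  have g1 : ((b : ℝ) - C * d ^ 3 / 3) / (u * u * u) ≤ 0 :=
    div_nonpos_of_nonpos_of_nonneg (by linarith [f1.2]) (by linarith)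
  have g2 : -1 ≤ ((b : ℝ) - C * d ^ 3 / 3) / (u * u * u) := by
    rw [le_div_iff₀ (by linarith)]; linarith [f1.1]
  rw [e3] at f2
  generalize ((b : ℝ) - C * d ^ 3 / 3) / (u * u * u) = r at *
  rw [xLog_tgt]
  have hC := xLog_C
  generalize 1961400 * 2 ^ 41 / log 2 = K at hC ⊢
  generalize log (((m : ℝ) + d) / m) = L at *
  have h5 := le_trans h ht
  simp only [Finset.sum_range_succ, Finset.sum_range_zero] at h5
  rw [abs_le] at h5 hC ⊢
  obtain ⟨h5, h6⟩ := h5
  obtain ⟨ha, hb⟩ := f2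
  rw [hCr] at ha hb
  norm_num at h5 h6 h5' ⊢
  have k1 : 0 ≤ (K - 6222580621269191296) * L := mul_nonneg (by linarith [hC.2]) hA0
  have k2 : 0 ≤ (6222580621269191298 - K) * L := mul_nonneg (by linarith [hC.1]) hA0
  generalize z ^ 5 = z5 at *
  generalize z ^ 3 = z3 at *
  constructor <;> nlinarith

theorem stLog : StLog := ⟨xLog_one, xLog_two'⟩

end Pool.Agent.MP_88bd62_nt.B
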