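import Pool.Agent.MP_88bd62_nt.B.Defs

/-! The lower bound for the modulus in each lane, and the classes. -/

namespace Pool.Agent.MP_88bd62_nt.B

open Finset Real Pool.Agent.MP_90395b_gt.Bn Pool.Agent.MP_88bd62_nt.U

theorem xMd_bit {L : ℕ} {d : ℕ → ℕ} (hd : Bd L (2 ^ 48) d) :
    (pk 48 L d >>> 47) &&& pk 48 L (fun _ => 1) = pk 48 L (fun i => d i / 2 ^ 47) := by
  have h := pk_flo (w := 48) (by norm_num) hd (e := 47) (t := 1) (by norm_num)
  have e : pk 48 L (fun _ => 2 ^ 1 - 1) = pk 48 L (fun _ => 1) := pk_congr fun _ _ => by norm_num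
  rw [e] at h
  rw [h]
  exact pk_congr fun i hi => by have := hd i hi; omega

theorem xMd_mx {L : ℕ} {u v : ℕ → ℕ} (hu : Bd L (2 ^ 47) u) (hv : Bd L (2 ^ 47) v) :
    mx (pk 48 L fun _ => 1) (pk 48 L u) (pk 48 L v) = pk 48 L (fun i => max (u i) (v i)) := by
  have h1 : ∀ i < L, v i ≤ u i + 1 * 2 ^ 47 := fun i hi => by have := hv i hi; omega
  have h2 : Bd L (2 ^ 48) (fun i => u i + 1 * 2 ^ 47 - v i) := fun i hi => by
    have := hu i hi
    show u i + 1 * 2 ^ 47 - v i < 2 ^ 48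
    omega
  have h3 : Bd L (2 ^ 48) (fun i => (u i + 1 * 2 ^ 47 - v i) / 2 ^ 47 * (2 ^ 47 - 1)) :=
    fun i hi => by
      have := hu i hi
      show (u i + 1 * 2 ^ 47 - v i) / 2 ^ 47 * (2 ^ 47 - 1) < 2 ^ 48
      omega
  rw [mx_eq, mx2_eq, pk_shl, pk_add', pk_sub h1, xMd_bit h2, pk_mul', pk_land h2 h3, pk_add']
  refine pk_congr fun i hi => ?_
  have a := hu i hi
  have b := hv i hi
  show v i + ((u i + 1 * 2 ^ 47 - v i) &&& ((u i + 1 * 2 ^ 47 - v i) / 2 ^ 47 * (2 ^ 47 - 1))) = _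
  rcases le_or_gt (v i) (u i) with h | h
  · rw [show (u i + 1 * 2 ^ 47 - v i) / 2 ^ 47 = 1 by omega, one_mul (2 ^ 47 - 1),
      Nat.and_two_pow_sub_one_eq_mod]
    omega
  · rw [show (u i + 1 * 2 ^ 47 - v i) / 2 ^ 47 = 0 by omega, zero_mul, Nat.and_zero]
    omega

theorem xMd_dn {L : ℕ} {x : ℕ → ℕ} (hx : Bd L (2 ^ 48) x) :
    dn (pk 48 L fun _ => 1) (pk 48 L x) = pk 48 L (fun i => x i / 2 ^ 10 % 2 ^ 35) := by
  have e : pk 48 L (fun _ => 1 * (2 ^ 35 - 1)) = pk 48 L (fun _ => 2 ^ 35 - 1) :=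
    pk_congr fun _ _ => one_mul _
  rw [dn_eq, pk_mul', e, pk_flo (by norm_num) hx (by norm_num)]

theorem xMd_md3 {L : ℕ} {u w : ℕ → ℕ} (hu : Bd L (2 ^ 35) u) (hw : Bd L (2 ^ 35) w) :
    md3 (pk 48 L fun _ => 1) (pk 48 L u) (pk 48 L w) = pk 48 L (fun i =>
      max (max (u i * 2 ^ 10) ((u i + w i) * 724)) ((u i + w i + u i) * 457)) := by
  have h1 : Bd L (2 ^ 47) (fun i => u i * 2 ^ 10) := fun i hi => by
    have := hu i hi
    show u i * 2 ^ 10 < 2 ^ 47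
    omega
  have h2 : Bd L (2 ^ 47) (fun i => (u i + w i) * 724) := fun i hi => by
    have := hu i hi
    have := hw i hi
    show (u i + w i) * 724 < 2 ^ 47
    omega
  have h3 : Bd L (2 ^ 47) (fun i => max (u i * 2 ^ 10) ((u i + w i) * 724)) := fun i hi =>
    max_lt (h1 i hi) (h2 i hi)
  have h4 : Bd L (2 ^ 47) (fun i => (u i + w i + u i) * 457) := fun i hi => by
    have := hu i hi
    have := hw i hi
    show (u i + w i + u i) * 457 < 2 ^ 47
    omega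
  rw [md3_eq, md4_eq, pk_shl, pk_add', pk_mul', pk_add', pk_mul', xMd_mx h1 h2, xMd_mx h3 h4]

theorem xMd_md1 {L : ℕ} {p q : ℕ → ℕ} (hp : Bd L (2 ^ 45) p) (hq : Bd L (2 ^ 45) q) :
    md1 (pk 48 L fun _ => 1) (pk 48 L fun i => 2 ^ 45 + p i) (pk 48 L fun i => 2 ^ 45 + q i) =
      md3 (pk 48 L fun _ => 1) (pk 48 L fun i => max (p i) (q i) / 1024)
        (pk 48 L fun i => min (p i) (q i) / 1024) := by
  have h1 : Bd L (2 ^ 47) (fun i => 2 ^ 45 + p i) := fun i hi => by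
    have := hp i hi
    show 2 ^ 45 + p i < 2 ^ 47
    omega
  have h2 : Bd L (2 ^ 47) (fun i => 2 ^ 45 + q i) := fun i hi => by
    have := hq i hi
    show 2 ^ 45 + q i < 2 ^ 47
    omega
  have h3 : ∀ i < L, max (2 ^ 45 + p i) (2 ^ 45 + q i) ≤ 2 ^ 45 + p i + (2 ^ 45 + q i) :=
    fun i _ => by omega
  have h4 : Bd L (2 ^ 48) (fun i => max (2 ^ 45 + p i) (2 ^ 45 + q i)) := fun i hi => by
    have := hp i hi
    have := hq i hi
    show max (2 ^ 45 + p i) (2 ^ 45 + q i) < 2 ^ 48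
    omega
  have h5 : Bd L (2 ^ 48) (fun i => 2 ^ 45 + p i + (2 ^ 45 + q i)
      - max (2 ^ 45 + p i) (2 ^ 45 + q i)) := fun i hi => by
    have := hp i hi
    have := hq i hi
    show 2 ^ 45 + p i + (2 ^ 45 + q i) - max (2 ^ 45 + p i) (2 ^ 45 + q i) < 2 ^ 48
    omega
  rw [md1_eq, md2_eq, xMd_mx h1 h2, pk_add', pk_sub h3, xMd_dn h4, xMd_dn h5]
  congr 1
  · refine pk_congr fun i hi => ?_
    have := hp i hi
    have := hq i hi
    show max (2 ^ 45 + p i) (2 ^ 45 + q i) / 2 ^ 10 % 2 ^ 35 = max (p i) (q i) / 1024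
    omega
  · refine pk_congr fun i hi => ?_
    have := hp i hi
    have := hq i hi
    show (2 ^ 45 + p i + (2 ^ 45 + q i) - max (2 ^ 45 + p i) (2 ^ 45 + q i)) / 2 ^ 10 % 2 ^ 35
      = min (p i) (q i) / 1024
    omega

theorem xMd_abs {L : ℕ} {r : ℕ → ℤ} (hr : Bd L (2 ^ 45) fun i => (r i).natAbs) :
    mx (pk 48 L fun _ => 1) (pk 48 L fun i => (r i + ((2 ^ 45 : ℕ) : ℤ)).toNat)
      (((pk 48 L fun _ => 1) <<< 46) - pk 48 L fun i => (r i + ((2 ^ 45 : ℕ) : ℤ)).toNat) =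
      pk 48 L fun i => 2 ^ 45 + (r i).natAbs := by
  have h1 : ∀ i < L, (r i + ((2 ^ 45 : ℕ) : ℤ)).toNat ≤ 1 * 2 ^ 46 := fun i hi => by
    have : (r i).natAbs < 2 ^ 45 := hr i hi
    omega
  have h2 : Bd L (2 ^ 47) (fun i => (r i + ((2 ^ 45 : ℕ) : ℤ)).toNat) := fun i hi => by
    have := h1 i hi
    show (r i + ((2 ^ 45 : ℕ) : ℤ)).toNat < 2 ^ 47
    omega
  have h3 : Bd L (2 ^ 47) (fun i => 1 * 2 ^ 46 - (r i + ((2 ^ 45 : ℕ) : ℤ)).toNat) :=
    fun i _ => by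
      show 1 * 2 ^ 46 - (r i + ((2 ^ 45 : ℕ) : ℤ)).toNat < 2 ^ 47
      omega
  rw [pk_shl, pk_sub h1, xMd_mx h2 h3]
  refine pk_congr fun i hi => ?_
  have : (r i).natAbs < 2 ^ 45 := hr i hi
  show max (r i + ((2 ^ 45 : ℕ) : ℤ)).toNat (1 * 2 ^ 46 - (r i + ((2 ^ 45 : ℕ) : ℤ)).toNat)
    = 2 ^ 45 + (r i).natAbs
  omega

theorem xMd_sq (u w : ℕ) : (max (max (u * 2 ^ 10) ((u + w) * 724)) ((u + w + u) * 457)) ^ 2 ≤
    (1024 * u) ^ 2 + (1024 * w) ^ 2 := by
  have h1 : (u * 2 ^ 10) ^ 2 ≤ (1024 * u) ^ 2 + (1024 * w) ^ 2 := by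
    rw [show u * 2 ^ 10 = 1024 * u by ring]; exact Nat.le_add_right _ _
  have h2 : ((u + w) * 724) ^ 2 ≤ (1024 * u) ^ 2 + (1024 * w) ^ 2 := by
    zify
    nlinarith [sq_nonneg ((u : ℤ) - w), sq_nonneg (u : ℤ), sq_nonneg (w : ℤ)]
  have h3 : ((u + w + u) * 457) ^ 2 ≤ (1024 * u) ^ 2 + (1024 * w) ^ 2 := by
    zify
    nlinarith [sq_nonneg ((u : ℤ) - 2 * w), sq_nonneg (u : ℤ), sq_nonneg (w : ℤ)]
  rcases max_choice (max (u * 2 ^ 10) ((u + w) * 724)) ((u + w + u) * 457) with h | h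
  · rw [h]
    rcases max_choice (u * 2 ^ 10) ((u + w) * 724) with h' | h'
    · rw [h']; exact h1
    · rw [h']; exact h2
  · rw [h]; exact h3

theorem xMd_sq2 (p q : ℕ) :
    (1024 * (max p q / 1024)) ^ 2 + (1024 * (min p q / 1024)) ^ 2 ≤ p ^ 2 + q ^ 2 := by
  have h1 := Nat.pow_le_pow_left (Nat.mul_div_le (max p q) 1024) 2
  have h2 := Nat.pow_le_pow_left (Nat.mul_div_le (min p q) 1024) 2
  rcases le_total p q with h | h
  · rw [max_eq_right h] at *
    rw [min_eq_left h] at *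
    omega
  · rw [max_eq_left h] at *
    rw [min_eq_right h] at *
    omega

theorem xMd_norm (z : GaussianInt) (m : ℕ) (h : m ^ 2 ≤ z.re.natAbs ^ 2 + z.im.natAbs ^ 2) :
    (m : ℝ) ≤ ‖(z : ℂ)‖ := by
  refine le_of_sq_le_sq ?_ (norm_nonneg _)
  rw [Complex.sq_norm, Complex.normSq_apply, ← GaussianInt.intCast_re, ← GaussianInt.intCast_im]
  have h2 : ((m : ℤ)) ^ 2 ≤ z.re * z.re + z.im * z.im := by
    have := (Nat.cast_le (α := ℤ)).2 h
    push_cast at this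
    rw [sq_abs, sq_abs] at this
    nlinarith
  exact_mod_cast h2

theorem xMd_small (z : GaussianInt) (h : ‖(z : ℂ)‖ ≤ 6.6 * 2 ^ 42) :
    z.re.natAbs < 2 ^ 45 ∧ z.im.natAbs < 2 ^ 45 := by
  have h1 := Complex.abs_re_le_norm (z : ℂ)
  have h2 := Complex.abs_im_le_norm (z : ℂ)
  rw [← GaussianInt.intCast_re] at h1
  rw [← GaussianInt.intCast_im] at h2
  have h3 : |(z.re : ℝ)| < 2 ^ 45 := by linarith [show (6.6 : ℝ) * 2 ^ 42 < 2 ^ 45 by norm_num]
  have h4 : |(z.im : ℝ)| < 2 ^ 45 := by linarith [show (6.6 : ℝ) * 2 ^ 42 < 2 ^ 45 by norm_num]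
  have h5 : |z.re| < 2 ^ 45 := by exact_mod_cast h3
  have h6 : |z.im| < 2 ^ 45 := by exact_mod_cast h4
  rw [abs_lt] at h5 h6
  omega

theorem stMd : StMd := by
  intro Q o L N y hQ hO
  obtain ⟨hN, hy⟩ := hO
  have hre : Bd L (2 ^ 45) fun i => (y (o + i)).re.natAbs := fun i hi =>
    (xMd_small _ (hy (o + i) (by omega))).1
  have him : Bd L (2 ^ 45) fun i => (y (o + i)).im.natAbs := fun i hi =>
    (xMd_small _ (hy (o + i) (by omega))).2
  have hb : Bd (2 * Q) (2 ^ 48) (lanes Q (2 ^ 45) y) := fun i hi => by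
    unfold lanes
    split_ifs with h
    · have := (xMd_small _ (hy i h)).1
      omega
    · have := (xMd_small _ (hy (i - Q) (by omega))).2
      omega
  have e1 : pk 48 L (fun i => lanes Q (2 ^ 45) y (o + i)) =
      pk 48 L fun i => ((y (o + i)).re + ((2 ^ 45 : ℕ) : ℤ)).toNat := pk_congr fun i hi => by
    unfold lanes
    rw [if_pos (by omega)]
  have e2 : pk 48 L (fun i => lanes Q (2 ^ 45) y (o + Q + i)) =
      pk 48 L fun i => ((y (o + i)).im + ((2 ^ 45 : ℕ) : ℤ)).toNat := pk_congr fun i hi => by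
    unfold lanes
    rw [if_neg (by omega), show o + Q + i - Q = o + i by omega]
  have hu : Bd L (2 ^ 35) fun i => max (y (o + i)).re.natAbs (y (o + i)).im.natAbs / 1024 :=
    fun i hi => by
      have a : (y (o + i)).re.natAbs < 2 ^ 45 := hre i hi
      have b : (y (o + i)).im.natAbs < 2 ^ 45 := him i hi
      show max (y (o + i)).re.natAbs (y (o + i)).im.natAbs / 1024 < 2 ^ 35
      omega
  have hw : Bd L (2 ^ 35) fun i => min (y (o + i)).re.natAbs (y (o + i)).im.natAbs / 1024 :=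
    fun i hi => by
      have a : (y (o + i)).re.natAbs < 2 ^ 45 := hre i hi
      have b : (y (o + i)).im.natAbs < 2 ^ 45 := him i hi
      show min (y (o + i)).re.natAbs (y (o + i)).im.natAbs / 1024 < 2 ^ 35
      omega
  have key := xMd_md3 hu hw
  refine ⟨_, Eq.trans ?_ key, ?_⟩
  · rw [hN, pk_seg hb (by omega), pk_seg hb (by omega), e1, e2, md_eq,
      xMd_abs (r := fun i => (y (o + i)).re) hre, xMd_abs (r := fun i => (y (o + i)).im) him,
      xMd_md1 hre him]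
  · intro l _
    exact xMd_norm _ _ ((xMd_sq _ _).trans (xMd_sq2 _ _))

theorem xMd_bits {n α : ℕ} {μ A K : ℕ → ℕ} (hμ : Bd n (2 ^ 46) μ) (hA : Bd n (2 ^ 45) A)
    (hK : Bd n (2 ^ 21) K) (hα : α ≤ 2 ^ 24) :
    bits (pk 48 n fun _ => 1) (pk 48 n μ + (pk 48 n fun _ => 1) <<< 47 - pk 48 n A) (pk 48 n K) α
      = pk 48 n fun l => if A l + K l * α ≤ μ l then 1 else 0 := by
  have h0 : ∀ i < n, K i * α ≤ 2 ^ 45 := fun i hi => by
    have := Nat.mul_le_mul (hK i hi).le hα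
    omega
  have h1 : ∀ i < n, A i ≤ μ i + 1 * 2 ^ 47 := fun i hi => by have := hA i hi; omega
  have h2 : ∀ i < n, K i * α ≤ μ i + 1 * 2 ^ 47 - A i := fun i hi => by
    have := hA i hi
    have := h0 i hi
    omega
  have h3 : Bd n (2 ^ 48) fun i => μ i + 1 * 2 ^ 47 - A i - K i * α := fun i hi => by
    have := hμ i hi
    show μ i + 1 * 2 ^ 47 - A i - K i * α < 2 ^ 48
    omega
  rw [bits_eq, pk_shl, pk_add', pk_sub h1, pk_mul', pk_sub h2, xMd_bit h3]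
  refine pk_congr fun i hi => ?_
  have := hμ i hi
  have := hA i hi
  have := h0 i hi
  show (μ i + 1 * 2 ^ 47 - A i - K i * α) / 2 ^ 47 = _
  split_ifs with h
  · omega
  · omega

theorem stCls : StCls := by
  intro n α L μ A K hμ hA hK hα hL R G hR hG
  subst hR
  subst hG
  constructor
  · intro h l hl
    rw [xMd_bits hμ hA hK hα] at h
    have := pk_inj (w := 48) (fun i _ => by
      show (if A i + K i * α ≤ μ i then 1 else 0) < 2 ^ 48
      split_ifs <;> norm_num) (fun i _ => by norm_num) h hl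
    by_contra hc
    rw [if_neg hc] at this
    omega
  · induction L with
    | nil =>
      rw [accu_nil]
      simp [MP_90395b_gt.Bn.pk]
    | cons p L ih =>
      rw [accu_cons, ih fun q hq => hL q (List.mem_cons_of_mem _ hq),
        xMd_bits hμ hA hK (hL p List.mem_cons_self), pk_mul', pk_add']
      refine pk_congr fun i _ => ?_
      by_cases h : A i + K i * p.1 ≤ μ i
      · simp [List.filter_cons, h, add_comm]
      · simp [List.filter_cons, h]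

end Pool.Agent.MP_88bd62_nt.B
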