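import Pool.Agent.MP_88bd62_nt.B.Defs

/-! The turned lanes of a point. -/

namespace Pool.Agent.MP_88bd62_nt.B

open Finset Real Pool.Agent.MP_90395b_gt.Bn Pool.Agent.MP_88bd62_nt.U

theorem xPoint_norm_ex (x : ℝ) : ‖ex x‖ = 1 := by
  unfold ex
  exact Complex.norm_exp_ofReal_mul_I _

theorem xPoint_ex_sub (a b : ℝ) : ‖ex a - ex b‖ ≤ 2 * π * |a - b| := by
  have h : ex a - ex b =
      ex b * (Complex.exp (Complex.I * ((2 * π * (a - b) : ℝ) : ℂ)) - 1) := by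
    unfold ex
    rw [mul_sub, ← Complex.exp_add, mul_one]
    congr 2
    push_cast
    ring
  rw [h, norm_mul, xPoint_norm_ex, one_mul]
  refine (Real.norm_exp_I_mul_ofReal_sub_one_le).trans (le_of_eq ?_)
  rw [Real.norm_eq_abs, abs_mul, abs_of_pos (by positivity : (0 : ℝ) < 2 * π)]

theorem xPoint_mod (Y e P : ℕ) (hY : Y < 2 ^ 63) :
    (Y + e * 2 ^ 63 + P * 2 ^ 64) % 2 ^ 63 = Y := by
  have : Y + e * 2 ^ 63 + P * 2 ^ 64 = Y + (e + 2 * P) * 2 ^ 63 := by ring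
  rw [this, Nat.add_mul_mod_self_right, Nat.mod_eq_of_lt hY]

theorem xPoint_and (Y e P : ℕ) (hY : Y < 2 ^ 63) (he : e ≤ 1) :
    (Y + e * 2 ^ 63 + P * 2 ^ 64) &&& 2 ^ 63 = e * 2 ^ 63 := by
  have h1 : Y + e * 2 ^ 63 + P * 2 ^ 64 = Y + (e + 2 * P) * 2 ^ 63 := by ring
  have h2 : (Y + (e + 2 * P) * 2 ^ 63) / 2 ^ 63 = e + 2 * P := by
    rw [Nat.add_mul_div_right _ _ (by positivity), Nat.div_eq_of_lt hY, zero_add]
  rw [h1, Nat.and_two_pow, Nat.testBit_eq_decide_div_mod_eq, h2]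
  have h3 : (e + 2 * P) % 2 = e := by omega
  rw [h3]
  interval_cases e <;> simp

theorem xPoint_phase (k Y : ℕ) (l : ℝ) (hk : k ≤ 2 ^ 27)
    (hY : |(Y : ℝ) - 1961400 * 2 ^ 40 * l| ≤ 64) :
    ‖ex (-((k * Y / 257084620800 : ℕ) : ℝ) / 2 ^ 24) - ex (-(k * l / 2))‖ ≤ 0.00000039 := by
  refine (xPoint_ex_sub _ _).trans ?_
  have hk' : (k : ℝ) ≤ 2 ^ 27 := by exact_mod_cast hk
  have hk0 : (0 : ℝ) ≤ k := Nat.cast_nonneg k
  generalize hν : k * Y / 257084620800 = ν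
  have h1 : 257084620800 * ν ≤ k * Y := by rw [← hν]; exact Nat.mul_div_le _ _
  have h2 : k * Y < 257084620800 * (ν + 1) := by
    rw [← hν]; exact Nat.lt_mul_div_succ _ (by norm_num)
  have h1' : (257084620800 : ℝ) * ν ≤ k * Y := by exact_mod_cast h1
  have h2' : (k : ℝ) * Y ≤ 257084620800 * (ν + 1) := by exact_mod_cast h2.le
  obtain ⟨hY1, hY2⟩ := abs_le.1 hY
  have h3 : |(k : ℝ) * (Y - 1961400 * 2 ^ 40 * l)| ≤ 2 ^ 27 * 64 := by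
    rw [abs_mul, abs_of_nonneg hk0]
    exact mul_le_mul hk' hY (abs_nonneg _) (by norm_num)
  obtain ⟨h4, h5⟩ := abs_le.1 h3
  have h6 : |-(ν : ℝ) / 2 ^ 24 - -(k * l / 2)| ≤ 0.0000000617 := by
    rw [abs_le]
    constructor <;> nlinarith
  have hπ := Real.pi_lt_d2
  calc 2 * π * |-(ν : ℝ) / 2 ^ 24 - -(k * l / 2)| ≤ 2 * 3.15 * 0.0000000617 := by
        gcongr
    _ ≤ 0.00000039 := by norm_num

theorem xPoint_pos (Y : ℕ) (l : ℝ) (hY : |(Y : ℝ) - 1961400 * 2 ^ 40 * l| ≤ 64) :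
    |((Y / 2 ^ 40 : ℕ) : ℝ) + ((Y / 2 ^ 28 % 4096 : ℕ) : ℝ) / 4096 + 1 / 2 ^ 13 - 1961400 * l|
      ≤ 0.0001221 := by
  have h1 : 2 ^ 28 * (4096 * (Y / 2 ^ 40) + Y / 2 ^ 28 % 4096) ≤ Y := by omega
  have h2 : Y ≤ 2 ^ 28 * (4096 * (Y / 2 ^ 40) + Y / 2 ^ 28 % 4096 + 1) := by omega
  generalize Y / 2 ^ 40 = j at h1 h2 ⊢
  generalize Y / 2 ^ 28 % 4096 = t at h1 h2 ⊢
  have h1' : (2 : ℝ) ^ 28 * (4096 * j + t) ≤ Y := by exact_mod_cast h1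
  have h2' : (Y : ℝ) ≤ 2 ^ 28 * (4096 * j + t + 1) := by exact_mod_cast h2
  obtain ⟨hY1, hY2⟩ := abs_le.1 hY
  rw [abs_le]
  constructor <;> linarith

theorem xPoint_term (v c s E E' : ℂ) (hE : ‖E‖ = 1) (hEE : ‖E - E'‖ ≤ 0.00000039)
    (h : ‖v - E * c / 4‖ ≤ 0.00003 * ‖c‖ / 4 + 0.71) :
    ‖v / 2 ^ 28 - E' * s‖ ≤
      1.00003 * ‖c / 2 ^ 30 - s‖ + 0.00003039 * ‖s‖ + 0.71 / 2 ^ 28 := by
  have h1 : v / 2 ^ 28 - E' * s =
      (v - E * c / 4) / 2 ^ 28 + E * (c / 2 ^ 30 - s) + (E - E') * s := by ring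
  have h2 : ‖(v - E * c / 4) / 2 ^ 28‖ = ‖v - E * c / 4‖ / 2 ^ 28 := by
    rw [norm_div]; simp
  have h3 : ‖E * (c / 2 ^ 30 - s)‖ = ‖c / 2 ^ 30 - s‖ := by rw [norm_mul, hE, one_mul]
  have h4 : ‖(E - E') * s‖ ≤ 0.00000039 * ‖s‖ := by
    rw [norm_mul]; gcongr
  have h5 : ‖c‖ / 2 ^ 30 ≤ ‖c / 2 ^ 30 - s‖ + ‖s‖ := by
    have : ‖c‖ / 2 ^ 30 = ‖c / 2 ^ 30‖ := by rw [norm_div]; simp
    have h := norm_add_le (c / 2 ^ 30 - s) s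
    rwa [sub_add_cancel, ← this] at h
  rw [h1]
  refine (norm_add₃_le).trans ?_
  rw [h2, h3]
  have h6 : ‖v - E * c / 4‖ / 2 ^ 28 ≤ (0.00003 * ‖c‖ / 4 + 0.71) / 2 ^ 28 := by gcongr
  linarith

theorem stPoint (hR : StRot) (hA : StSplA) : StPoint := by
  intro k m D hk hm1 _ hD
  obtain ⟨Y, T, hD, hY, hl, hT, hT1, hT2⟩ := hD
  rw [hD]
  clear hD
  have he : (if nn m ∈ Pr 16 then 1 else 0 : ℕ) ≤ 1 := by split_ifs <;> simp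
  have hpos : pos (Y + (if nn m ∈ Pr 16 then 1 else 0) * 2 ^ 63 + pk 48 12 T * 2 ^ 64)
      = Y / 2 ^ 40 := by
    unfold pos
    rw [xPoint_mod _ _ _ hY]
  rw [hpos, xPoint_mod _ _ _ hY]
  refine ⟨?_, ?_⟩
  · rw [leafC_eq, cnd_eq, xPoint_and _ _ _ hY he]
    by_cases h : nn m ∈ Pr 16
    · rw [if_pos h, if_pos h, if_neg]
      simp
    · rw [if_neg h, if_neg h, if_pos]
      simp
  obtain ⟨V, hV, hB, hVT⟩ := hR k Y _ T hY he hT hT1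
  have ht : Y / 2 ^ 28 % 4096 < 4096 := Nat.mod_lt _ (by norm_num)
  have hτ0 : (0 : ℝ) ≤ ((Y / 2 ^ 28 % 4096 : ℕ) : ℝ) / 4096 := by positivity
  have hτ1 : ((Y / 2 ^ 28 % 4096 : ℕ) : ℝ) / 4096 ≤ 1 := by
    rw [div_le_one (by norm_num)]
    exact_mod_cast ht.le
  refine ⟨V, _, hV, hB, hτ0, hτ1, xPoint_pos Y _ hl, ?_⟩
  obtain ⟨hs, hs1, -, -⟩ := hA _ hτ0 hτ1
  have hph := xPoint_phase k Y _ hk hl
  clear hB hτ0 hτ1 hpos he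
  generalize ((Y / 2 ^ 28 % 4096 : ℕ) : ℝ) / 4096 = τ at hs hs1 hT2 ⊢
  have hn0 : (0 : ℝ) ≤ 1 / nn m := one_div_nonneg.2 (Nat.cast_nonneg _)
  have hS : ∀ i ∈ range 6,
      ‖(((-1) ^ vv m / nn m * spl i τ : ℝ) : ℂ) * pre (Y / 2 ^ 40 + i)‖ = 1 / nn m * spl i τ := by
    intro i hi
    rw [norm_mul, pre, xPoint_norm_ex, mul_one, Complex.norm_real, Real.norm_eq_abs, abs_mul,
      abs_of_nonneg (hs i (mem_range.1 hi)).1, abs_div, abs_pow, abs_neg, abs_one, one_pow,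
      Nat.abs_cast]
  have hS1 : ∑ i ∈ range 6,
      ‖(((-1) ^ vv m / nn m * spl i τ : ℝ) : ℂ) * pre (Y / 2 ^ 40 + i)‖ = 1 / nn m := by
    rw [sum_congr rfl hS, ← mul_sum, hs1, mul_one]
  calc _ ≤ ∑ i ∈ range 6, (1.00003 * ‖cz (T i) (T (6 + i)) (2 ^ 30) / 2 ^ 30
        - (((-1) ^ vv m / nn m * spl i τ : ℝ) : ℂ) * pre (Y / 2 ^ 40 + i)‖ + 0.00003039 *
        ‖(((-1) ^ vv m / nn m * spl i τ : ℝ) : ℂ) * pre (Y / 2 ^ 40 + i)‖ + 0.71 / 2 ^ 28) := by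
        refine sum_le_sum fun i hi => ?_
        rw [mul_assoc (ex _)]
        exact xPoint_term _ _ _ _ _ (xPoint_norm_ex _) hph (hVT i (mem_range.1 hi))
    _ ≤ _ := by
        rw [sum_add_distrib, sum_add_distrib, ← mul_sum, ← mul_sum, hS1, sum_const, card_range,
          nsmul_eq_mul]
        have e1 : (0.000072 : ℝ) / nn m = 0.000072 * (1 / nn m) := by ring
        have e2 : (0.000103 : ℝ) / nn m = 0.000103 * (1 / nn m) := by ring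
        rw [e1] at hT2
        rw [e2]
        push_cast
        generalize (1 : ℝ) / nn m = u at hn0 hT2 ⊢
        norm_num at hT2 ⊢
        linarith

end Pool.Agent.MP_88bd62_nt.B
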