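import Pool.Agent.MP_88bd62_nt.B.Defs

/-! The rotation of the lanes of a record. -/

namespace Pool.Agent.MP_88bd62_nt.B

open Finset Real Pool.Agent.MP_90395b_gt.Bn Pool.Agent.MP_88bd62_nt.U

set_option exponentiation.threshold 1000

theorem xRot_flo {n n' : ℕ} (hn : n ≤ n') {f : ℕ → ℕ} (hf : Bd n' (2 ^ 48) f) :
    (pk 48 n' f >>> 18) &&& pk 48 n (fun _ => 2 ^ 30 - 1) =
      pk 48 n (fun i => f i / 2 ^ 18 % 2 ^ 30) := by
  rw [land_pk _ (fun _ _ => by norm_num)]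
  refine pk_congr fun i hi => ?_
  rw [← dig_pk' hf (lt_of_lt_of_le hi hn), Nat.and_two_pow_sub_one_eq_mod,
    Nat.shiftRight_eq_div_pow]
  unfold dig
  rw [Nat.div_div_eq_div_mul, mul_comm (2 ^ 18), ← Nat.div_div_eq_div_mul]
  generalize pk 48 n' f / 2 ^ (48 * i) = D
  omega

theorem xRot_rnd {g : ℕ} {r : ℤ} (h : (g : ℤ) = r + 2 ^ 46 + 2 ^ 17) :
    |((g / 2 ^ 18 : ℕ) : ℝ) - 2 ^ 28 - r / 2 ^ 18| ≤ 1 / 2 := by
  generalize hv : g / 2 ^ 18 = v
  have h1 : (2 : ℤ) ^ 18 * v ≤ r + 2 ^ 46 + 2 ^ 17 := by omega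
  have h2 : r + 2 ^ 46 + 2 ^ 17 ≤ (2 : ℤ) ^ 18 * v + 2 ^ 18 := by omega
  have h3 : (2 : ℝ) ^ 18 * v ≤ r + 2 ^ 46 + 2 ^ 17 := by exact_mod_cast h1
  have h4 : (r : ℝ) + 2 ^ 46 + 2 ^ 17 ≤ (2 : ℝ) ^ 18 * v + 2 ^ 18 := by exact_mod_cast h2
  rw [abs_le]
  constructor <;> linarith

theorem xRot_nat {r : ℤ} (h : |(r : ℝ)| ≤ 0.5701 * 2 ^ 46) :
    ∃ g : ℕ, (g : ℤ) = r + 2 ^ 46 + 2 ^ 17 ∧ g < 2 ^ 47 := by
  rw [abs_le] at h
  have h1 : -(2 : ℝ) ^ 46 ≤ r := by linarith [h.1]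
  have h2 : (r : ℝ) + 2 ^ 17 < 2 ^ 46 := by linarith [h.2]
  have h3 : -(2 : ℤ) ^ 46 ≤ r := by exact_mod_cast h1
  have h4 : r + 2 ^ 17 < 2 ^ 46 := by exact_mod_cast h2
  exact ⟨(r + 2 ^ 46 + 2 ^ 17).toNat, by omega, by omega⟩

theorem xRot_w {a b : ℕ} {E : ℂ} (hE : ‖E‖ = 1)
    (hw : ‖cz a b (2 ^ 17) / 2 ^ 16 - E‖ ≤ 0.00003) : ‖cz a b (2 ^ 17)‖ ≤ 1.00003 * 2 ^ 16 := by
  have h1 := norm_le_insert' (cz a b (2 ^ 17) / 2 ^ 16) E
  rw [norm_div, hE, norm_pow, Complex.norm_two] at h1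
  rw [← div_le_iff₀ (by positivity)]
  linarith

theorem xRot_pair {a b p q : ℕ} {E : ℂ} (hE : ‖E‖ = 1)
    (hw : ‖cz a b (2 ^ 17) / 2 ^ 16 - E‖ ≤ 0.00003) (hz : ‖cz p q (2 ^ 30)‖ ≤ 0.57 * 2 ^ 30) :
    ∃ g g' : ℕ,
      (g : ℤ) = (a - 2 ^ 17) * (p - 2 ^ 30) - (b - 2 ^ 17) * (q - 2 ^ 30) + 2 ^ 46 + 2 ^ 17 ∧
      (g' : ℤ) = (a - 2 ^ 17) * (q - 2 ^ 30) + (b - 2 ^ 17) * (p - 2 ^ 30) + 2 ^ 46 + 2 ^ 17 ∧
      g < 2 ^ 47 ∧ g' < 2 ^ 47 ∧
      ‖cz (g / 2 ^ 18) (g' / 2 ^ 18) (2 ^ 28) - E * cz p q (2 ^ 30) / 4‖ ≤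
        0.00003 * ‖cz p q (2 ^ 30)‖ / 4 + 0.71 := by
  have h1 : ‖cz a b (2 ^ 17) * cz p q (2 ^ 30)‖ ≤ 0.5701 * 2 ^ 46 := by
    rw [norm_mul]
    refine (mul_le_mul (xRot_w hE hw) hz (norm_nonneg _) (by positivity)).trans (by norm_num)
  have hr : (cz a b (2 ^ 17) * cz p q (2 ^ 30)).re =
      (((a - 2 ^ 17) * (p - 2 ^ 30) - (b - 2 ^ 17) * (q - 2 ^ 30) : ℤ) : ℝ) := by
    simp only [cz, Complex.mul_re, Complex.add_re, Complex.add_im, Complex.sub_re, Complex.sub_im,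
      Complex.mul_im, Complex.natCast_re, Complex.natCast_im, Complex.I_re, Complex.I_im]
    push_cast
    ring
  have hs : (cz a b (2 ^ 17) * cz p q (2 ^ 30)).im =
      (((a - 2 ^ 17) * (q - 2 ^ 30) + (b - 2 ^ 17) * (p - 2 ^ 30) : ℤ) : ℝ) := by
    simp only [cz, Complex.mul_re, Complex.add_re, Complex.add_im, Complex.sub_re, Complex.sub_im,
      Complex.mul_im, Complex.natCast_re, Complex.natCast_im, Complex.I_re, Complex.I_im]
    push_cast
    ring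
  obtain ⟨g, hg, hg'⟩ := xRot_nat (hr ▸ (Complex.abs_re_le_norm _).trans h1)
  obtain ⟨f, hf, hf'⟩ := xRot_nat (hs ▸ (Complex.abs_im_le_norm _).trans h1)
  refine ⟨g, f, hg, hf, hg', hf', ?_⟩
  have h2 := xRot_rnd hg
  have h3 := xRot_rnd hf
  rw [← hr] at h2
  rw [← hs] at h3
  generalize g / 2 ^ 18 = u at h2 ⊢
  generalize f / 2 ^ 18 = v at h3 ⊢
  generalize cz a b (2 ^ 17) = w at *
  generalize cz p q (2 ^ 30) = z at *
  have h4 : ‖cz u v (2 ^ 28) - w * z / ((2 ^ 18 : ℝ) : ℂ)‖ ≤ 0.71 := by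
    have e1 : (cz u v (2 ^ 28) - w * z / ((2 ^ 18 : ℝ) : ℂ)).re =
        u - 2 ^ 28 - (w * z).re / 2 ^ 18 := by
      rw [Complex.sub_re, Complex.div_ofReal_re]
      simp only [cz, Complex.mul_re _ Complex.I, Complex.add_re, Complex.sub_re, Complex.sub_im,
        Complex.natCast_re, Complex.natCast_im, Complex.I_re, Complex.I_im]
      push_cast
      ring
    have e2 : (cz u v (2 ^ 28) - w * z / ((2 ^ 18 : ℝ) : ℂ)).im =
        v - 2 ^ 28 - (w * z).im / 2 ^ 18 := by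
      rw [Complex.sub_im, Complex.div_ofReal_im]
      simp only [cz, Complex.mul_im _ Complex.I, Complex.add_im, Complex.sub_re, Complex.sub_im,
        Complex.natCast_re, Complex.natCast_im, Complex.I_re, Complex.I_im]
      push_cast
      ring
    rw [Complex.norm_def, Complex.normSq_apply, e1, e2]
    have h5 := abs_le.1 h2
    have h6 := abs_le.1 h3
    exact Real.sqrt_le_iff.2 ⟨by norm_num, by nlinarith [h5.1, h5.2, h6.1, h6.2]⟩
  have e : cz u v (2 ^ 28) - E * z / 4 =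
      (w / 2 ^ 16 - E) * z / 4 + (cz u v (2 ^ 28) - w * z / ((2 ^ 18 : ℝ) : ℂ)) := by
    push_cast
    ring
  rw [e]
  refine (norm_add_le _ _).trans (add_le_add ?_ h4)
  rw [norm_div, norm_mul, Complex.norm_ofNat]
  gcongr

theorem xRot_id (a b : ℕ) (T g f : ℕ → ℕ)
    (hg : ∀ i < 6, (g i : ℤ) = (a - 2 ^ 17) * (T i - 2 ^ 30) - (b - 2 ^ 17) * (T (6 + i) - 2 ^ 30)
      + 2 ^ 46 + 2 ^ 17)
    (hf : ∀ i < 6, (f i : ℤ) = (a - 2 ^ 17) * (T (6 + i) - 2 ^ 30) + (b - 2 ^ 17) * (T i - 2 ^ 30)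
      + 2 ^ 46 + 2 ^ 17) (X J : ℕ)
    (hX : X = pk 48 12 T + 0xffffbfffffffffffbfffffffffffbfffffffffffbfffffffffffbfffffffffffbfffffffffffbfffffffffffbfffffffffffbfffffffffffbfffffffffffbfffffffffffc0000000)
    (hJ : J + pk 48 6 (fun i => T (6 + i)) = pk 48 6 T * 2 ^ 288 +
      0xffffbfffffffffffbfffffffffffbfffffffffffbfffffffffffbfffffffffffc0000000000040000000000040000000000040000000000040000000000040000000000040000000) :
    a * X + b * J +
      0x40000400000020000400000020000400000020000400000020000400000020000400000020000400000020000400000020000400000020000400000020000400000020000c00000020000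
      = pk 48 13 (fun i => if i = 0 then g 0 + 2 ^ 47 else if i < 6 then g i else
        if i < 12 then f (i - 6) else a + b) + (X + J) * 2 ^ 17 := by
  have hJ' := congrArg (Nat.cast : ℕ → ℤ) hJ
  rw [Nat.cast_add, ← eq_sub_iff_add_eq] at hJ'
  refine Nat.cast_injective (R := ℤ) ?_
  simp only [MP_90395b_gt.Bn.pk, sum_range_succ, sum_range_zero] at hX hJ' ⊢
  norm_num only [if_true, if_false]
  push_cast at hJ' ⊢
  rw [hJ', hX, hg 0 (by norm_num), hg 1 (by norm_num), hg 2 (by norm_num), hg 3 (by norm_num),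
    hg 4 (by norm_num), hg 5 (by norm_num), hf 0 (by norm_num), hf 1 (by norm_num),
    hf 2 (by norm_num), hf 3 (by norm_num), hf 4 (by norm_num), hf 5 (by norm_num)]
  push_cast
  ring

theorem stRot (hSc : StSc) : StRot := by
  intro k Y e T hY he hT hz
  have hw := (hSc (k * Y / 257084620800)).2.2
  have hE : ‖ex (-((k * Y / 257084620800 : ℕ) : ℝ) / 2 ^ 24)‖ = 1 :=
    Complex.norm_exp_ofReal_mul_I _
  have hD : (Y + e * 2 ^ 63 + pk 48 12 T * 2 ^ 64) >>> 64 = pk 48 12 T := by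
    rw [Nat.shiftRight_eq_div_pow]
    omega
  rw [leafB_eq, hD, rot1_eq, rot2_eq]
  generalize ex (-((k * Y / 257084620800 : ℕ) : ℝ) / 2 ^ 24) = E at *
  have ha : (sp (k * Y / 257084620800) >>> 18) &&& (2 ^ 18 - 1) < 2 ^ 18 :=
    lt_of_le_of_lt Nat.and_le_right (by norm_num)
  generalize (sp (k * Y / 257084620800) >>> 18) &&& (2 ^ 18 - 1) = a at *
  generalize sp (k * Y / 257084620800) >>> 58 = b at *
  have hb : b < 2 ^ 18 := by
    have h1 := (Complex.im_le_norm _).trans (xRot_w hE hw)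
    simp only [cz, Complex.mul_im, Complex.add_im, Complex.sub_re, Complex.sub_im,
      Complex.natCast_re, Complex.natCast_im, Complex.I_re, Complex.I_im] at h1
    push_cast at h1
    have h2 : (b : ℝ) < 2 ^ 18 := by linarith
    exact_mod_cast h2
  choose! g f hg hf hg' hf' hn using fun i (hi : i < 6) => xRot_pair hE hw (hz i hi)
  have hs : pk 48 12 T = pk 48 6 T + pk 48 6 (fun i => T (6 + i)) * 2 ^ 288 := pk_append 48 6 6 T
  have h1 : pk 48 6 T < 2 ^ 288 :=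
    pk_lt (w := 48) (n := 6) fun i hi => (hT i (by omega)).trans (by norm_num)
  have h2 : pk 48 6 (fun i => T (6 + i)) < 2 ^ 288 :=
    pk_lt (w := 48) (n := 6) fun i hi => (hT _ (by omega)).trans (by norm_num)
  have h3 : pk 48 12 T &&& (2 ^ 288 - 1) = pk 48 6 T := by
    rw [Nat.and_two_pow_sub_one_eq_mod, hs, Nat.add_mul_mod_self_right, Nat.mod_eq_of_lt h1]
  have h4 : pk 48 12 T >>> 288 = pk 48 6 (fun i => T (6 + i)) := by
    rw [Nat.shiftRight_eq_div_pow, hs, Nat.add_mul_div_right _ _ (by positivity),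
      Nat.div_eq_of_lt h1, zero_add]
  have h5 : (0x3fffffff00003fffffff00003fffffff00003fffffff00003fffffff00003fffffff00003fffffff00003fffffff00003fffffff00003fffffff00003fffffff00003fffffff : ℕ)
      = pk 48 12 (fun _ => 2 ^ 30 - 1) := by
    simp only [MP_90395b_gt.Bn.pk, sum_range_succ, sum_range_zero]
    norm_num
  rw [h3, h4, Nat.shiftLeft_eq, Nat.shiftLeft_eq,
    xRot_id a b T g f hg hf _ _ rfl
      (Nat.sub_add_cancel (le_add_left (h2.le.trans (by norm_num)))),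
    Nat.add_sub_cancel, h5, xRot_flo (by norm_num)]
  · refine ⟨fun i => if i < 6 then g i / 2 ^ 18 else f (i - 6) / 2 ^ 18, fun i hi => ?_, ?_,
      fun i hi => ?_⟩
    · have := hg' i
      have := hf' (i - 6)
      simp only
      split_ifs <;> omega
    · have e1 : (2 : ℕ) ^ 29 = pk 48 12 (fun i => if i = 0 then 2 ^ 29 else 0) := by
        simp [MP_90395b_gt.Bn.pk]
      rw [e1, pk_add']
      refine pk_congr fun i hi => ?_
      have := hg' i
      have := hg' 0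
      have := hf' (i - 6)
      split_ifs <;> subst_vars <;> omega
    · simp only [if_pos hi, if_neg (show ¬ 6 + i < 6 by omega), Nat.add_sub_cancel_left]
      exact hn i hi
  · intro i hi
    have := hg' i
    have := hg' 0
    have := hf' (i - 6)
    simp only
    split_ifs <;> omega

end Pool.Agent.MP_88bd62_nt.B
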