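import Pool.Agent.MP_88bd62_nt.B.Defs

/-! Linear interpolation in the table of roots of unity. -/

namespace Pool.Agent.MP_88bd62_nt.B

open Finset Real Pool.Agent.MP_90395b_gt.Bn Pool.Agent.MP_88bd62_nt.U

set_option exponentiation.threshold 1000

theorem xSc_ex (x y : ℝ) : ex (x + y) = ex x * ex y := by
  rw [ex, ex, ex, ← Complex.exp_add]
  congr 1
  push_cast
  ring

theorem xSc_int (x : ℝ) (m : ℤ) : ex (x + m) = ex x := by
  rw [xSc_ex, ex, ex, show ((2 * π * m : ℝ) : ℂ) * Complex.I = m * (2 * π * Complex.I) by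
    push_cast; ring, Complex.exp_int_mul_two_pi_mul_I, mul_one]

theorem xSc_one {x : ℝ} (h : |x| ≤ 1) :
    ‖ex (x / 1024) - (1 + (2 * π * (x / 1024) : ℝ) * Complex.I)‖ ≤ 0.00002824 * x ^ 2 := by
  have h1 := pi_lt_d4
  have h2 := pi_pos
  have h3 : ‖((2 * π * (x / 1024) : ℝ) : ℂ) * Complex.I‖ = π / 512 * |x| := by
    rw [norm_mul, Complex.norm_I, mul_one, Complex.norm_real, norm_eq_abs,
      show 2 * π * (x / 1024) = π / 512 * x by ring, abs_mul, abs_of_pos (by positivity)]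
  have h4 := Complex.exp_bound (x := (2 * π * (x / 1024) : ℝ) * Complex.I)
    (by rw [h3]; nlinarith [abs_nonneg x]) two_pos
  rw [h3, mul_pow, sq_abs, show range 2 = range (1 + 1) from rfl, sum_range_succ,
    sum_range_one] at h4
  simp only [pow_zero, pow_one, Nat.factorial, Nat.succ_eq_add_one, Nat.cast_one, div_one,
    zero_add, mul_one] at h4
  refine h4.trans ?_
  have h5 : π ^ 2 ≤ 9.8697 := by nlinarith
  norm_num
  nlinarith [mul_le_mul_of_nonneg_right h5 (sq_nonneg x), sq_nonneg x]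

theorem xSc_chord (a : ℝ) {s : ℝ} (h0 : 0 ≤ s) (h1 : s ≤ 1) :
    ‖((1 - s : ℝ) : ℂ) * ex (-a / 1024) + s * ex (-(a + 1) / 1024) - ex (-(a + s) / 1024)‖ ≤
      0.00000706 := by
  have e1 := xSc_one (x := s) (abs_le.2 ⟨by linarith, h1⟩)
  have e2 := xSc_one (x := s - 1) (abs_le.2 ⟨by linarith, by linarith⟩)
  rw [show -a / 1024 = -(a + s) / 1024 + s / 1024 by ring,
    show -(a + 1) / 1024 = -(a + s) / 1024 + (s - 1) / 1024 by ring, xSc_ex, xSc_ex]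
  generalize ex (s / 1024) = u at e1 ⊢
  generalize ex ((s - 1) / 1024) = v at e2 ⊢
  have h2 : ‖ex (-(a + s) / 1024)‖ = 1 := Complex.norm_exp_ofReal_mul_I _
  generalize ex (-(a + s) / 1024) = w at h2 ⊢
  rw [show ((1 - s : ℝ) : ℂ) * (w * u) + s * (w * v) - w =
    w * (((1 - s : ℝ) : ℂ) * (u - (1 + (2 * π * (s / 1024) : ℝ) * Complex.I)) +
      s * (v - (1 + (2 * π * ((s - 1) / 1024) : ℝ) * Complex.I))) by push_cast; ring,
    norm_mul, h2, one_mul]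
  refine (norm_add_le _ _).trans ?_
  rw [norm_mul, norm_mul, Complex.norm_of_nonneg h0, Complex.norm_of_nonneg (sub_nonneg.2 h1)]
  nlinarith [mul_le_mul_of_nonneg_left e1 (sub_nonneg.2 h1), mul_le_mul_of_nonneg_left e2 h0,
    sq_nonneg (2 * s - 1)]

theorem xSc_lin {a b e : ℕ} (he : e < 2 ^ 14) (a0 : 2 ^ 20 ≤ a) (a1 : a ≤ 3 * 2 ^ 20)
    (b0 : 2 ^ 20 ≤ b) (b1 : b ≤ 3 * 2 ^ 20) :
    2 ^ 34 ≤ a * (2 ^ 14 - e) + b * e ∧ a * (2 ^ 14 - e) + b * e ≤ 3 * 2 ^ 34 := by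
  have h1 := Nat.mul_le_mul_right (2 ^ 14 - e) a0
  have h2 := Nat.mul_le_mul_right (2 ^ 14 - e) a1
  have h3 := Nat.mul_le_mul_right e b0
  have h4 := Nat.mul_le_mul_right e b1
  omega

theorem xSc_itp (hTab : StTab) {e k : ℕ} (he : e < 2 ^ 14) (hk : k ≤ 1023) :
    ‖cz (tre (k + 1) * (2 ^ 14 - e) + tre (k + 1 + 1) * e)
      (tim (k + 1) * (2 ^ 14 - e) + tim (k + 1 + 1) * e) (2 ^ 35) / 2 ^ 34 -
      ex (-((k + 1 : ℕ) + (e : ℝ) / 2 ^ 14) / 1024)‖ ≤ 0.00000775 := by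
  have h0 : 0 ≤ (e : ℝ) / 2 ^ 14 := by positivity
  have h1 : (e : ℝ) / 2 ^ 14 ≤ 1 := (div_le_one (by positivity)).2 (by exact_mod_cast he.le)
  have e0 := xSc_chord (k + 1 : ℕ) h0 h1
  have e1 := (hTab (k + 1) (by omega)).2.2.2.2
  have e2 := (hTab (k + 1 + 1) (by omega)).2.2.2.2
  rw [Nat.cast_succ (k + 1)] at e2
  generalize ex (-((k + 1 : ℕ) : ℝ) / 1024) = u at e0 e1
  generalize ex (-(((k + 1 : ℕ) : ℝ) + 1) / 1024) = v at e0 e2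
  generalize ex (-(((k + 1 : ℕ) : ℝ) + (e : ℝ) / 2 ^ 14) / 1024) = w at e0 ⊢
  rw [show cz (tre (k + 1) * (2 ^ 14 - e) + tre (k + 1 + 1) * e)
      (tim (k + 1) * (2 ^ 14 - e) + tim (k + 1 + 1) * e) (2 ^ 35) / 2 ^ 34 - w =
    ((1 - (e : ℝ) / 2 ^ 14 : ℝ) : ℂ) * (cz (tre (k + 1)) (tim (k + 1)) (2 ^ 21) / 2 ^ 20 - u) +
      ((e : ℝ) / 2 ^ 14 : ℝ) * (cz (tre (k + 1 + 1)) (tim (k + 1 + 1)) (2 ^ 21) / 2 ^ 20 - v) +
      (((1 - (e : ℝ) / 2 ^ 14 : ℝ) : ℂ) * u + ((e : ℝ) / 2 ^ 14 : ℝ) * v - w) by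
    simp only [cz, Nat.cast_add, Nat.cast_mul, Nat.cast_sub he.le]
    push_cast
    ring]
  refine norm_add₃_le.trans ?_
  rw [norm_mul, norm_mul, Complex.norm_of_nonneg h0, Complex.norm_of_nonneg (sub_nonneg.2 h1)]
  have := mul_le_mul_of_nonneg_left e1 (sub_nonneg.2 h1)
  have := mul_le_mul_of_nonneg_left e2 h0
  linarith

theorem xSc_div (A n : ℕ) :
    ((A / 2 ^ n : ℕ) : ℝ) ≤ A / 2 ^ n ∧ (A : ℝ) / 2 ^ n - 1 ≤ (A / 2 ^ n : ℕ) := by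
  refine ⟨by exact_mod_cast Nat.cast_div_le, ?_⟩
  rw [sub_le_iff_le_add, div_le_iff₀ (by positivity), mul_comm]
  exact_mod_cast (Nat.lt_mul_div_succ A (by positivity)).le

theorem xSc_flo (A B : ℕ) {w : ℂ} (h : ‖cz A B (2 ^ 35) / 2 ^ 34 - w‖ ≤ 0.00000775) :
    ‖cz (A / 2 ^ 18) (B / 2 ^ 18) (2 ^ 17) / 2 ^ 16 - w‖ ≤ 0.00003 := by
  obtain ⟨a1, a2⟩ := xSc_div A 18
  obtain ⟨b1, b2⟩ := xSc_div B 18
  generalize A / 2 ^ 18 = a at a1 a2 ⊢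
  generalize B / 2 ^ 18 = b at b1 b2 ⊢
  rw [show cz a b (2 ^ 17) / 2 ^ 16 - w = (((a - A / 2 ^ 18) / 2 ^ 16 : ℝ) +
      ((b - B / 2 ^ 18) / 2 ^ 16 : ℝ) * Complex.I) + (cz A B (2 ^ 35) / 2 ^ 34 - w) by
    simp only [cz]
    push_cast
    ring]
  refine (norm_add_le _ _).trans ?_
  rw [Complex.norm_add_mul_I]
  have : √(((a - A / 2 ^ 18) / 2 ^ 16 : ℝ) ^ 2 + ((b - B / 2 ^ 18) / 2 ^ 16 : ℝ) ^ 2) ≤
      0.000022 := sqrt_le_iff.2 ⟨by norm_num, by nlinarith⟩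
  linarith

theorem xSc_pk {A B : ℕ} (hA : A ≤ 3 * 2 ^ 34) (hB : B ≤ 3 * 2 ^ 34) :
    ((A + B * 2 ^ 288 + 2 ^ 35 * 2 ^ 576) >>> 18) &&&
      0xfffff0000000000000000000000000000000000000000000000000000000000000000000fffff0000000000000000000000000000000000000000000000000000000000000000000fffff
      = A / 2 ^ 18 + B / 2 ^ 18 * 2 ^ 288 + 2 ^ 17 * 2 ^ 576 := by
  have h := pk_flo (w := 288) (n := 3) (e := 18) (t := 20) (by norm_num)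
    (f := fun i => if i = 0 then A else if i = 1 then B else 2 ^ 35)
    (fun i _ => by dsimp only; split_ifs <;> omega) (by norm_num)
  simp only [MP_90395b_gt.Bn.pk, sum_range_succ, sum_range_zero, if_true, one_ne_zero, if_false, mul_zero,
    pow_zero, mul_one, zero_add, OfNat.ofNat_ne_zero, OfNat.ofNat_ne_one] at h
  rw [Nat.mod_eq_of_lt (by omega), Nat.mod_eq_of_lt (by omega), Nat.mod_eq_of_lt (by omega)] at h
  exact h

theorem xSc_red (ν : ℕ) : ∃ e < 2 ^ 14, ∃ k ≤ 1023, sc ν = sc3 e k ∧ cc ν = cc1 e k ∧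
    sp ν = sp3 e k ∧ ex (-(ν : ℝ) / 2 ^ 24) = ex (-((k + 1 : ℕ) + (e : ℝ) / 2 ^ 14) / 1024) := by
  refine ⟨ν % 2 ^ 14, Nat.mod_lt _ (by norm_num), ?_⟩
  rw [sc_eq, cc_eq, sp_eq, Nat.and_two_pow_sub_one_eq_mod, Nat.and_two_pow_sub_one_eq_mod,
    Nat.shiftRight_eq_div_pow]
  have h : ν = ν / 2 ^ 24 * 2 ^ 24 + ν / 2 ^ 14 % 2 ^ 10 * 2 ^ 14 + ν % 2 ^ 14 := by omega
  have h1 : ν / 2 ^ 14 % 2 ^ 10 < 1024 := by omega
  generalize ν / 2 ^ 24 = m at h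
  generalize ν % 2 ^ 14 = e at h ⊢
  generalize ν / 2 ^ 14 % 2 ^ 10 = i at h h1 ⊢
  subst h
  rcases i with _ | k
  · refine ⟨1023, le_rfl, rfl, rfl, rfl, ?_⟩
    rw [← xSc_int _ (m - 1)]
    congr 1
    push_cast
    ring
  · refine ⟨k, by omega, rfl, rfl, rfl, ?_⟩
    rw [← xSc_int _ m]
    congr 1
    push_cast
    ring

theorem stSc (hTab : StTab) : StSc := by
  intro ν
  obtain ⟨e, he, k, hk, h1, h2, h3, h4⟩ := xSc_red ν
  have h5 := xSc_itp hTab he hk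
  obtain ⟨a1, a2, a3, a4, -⟩ := hTab (k + 1) (by omega)
  obtain ⟨b1, b2, b3, b4, -⟩ := hTab (k + 1 + 1) (by omega)
  obtain ⟨A0, A1⟩ := xSc_lin he a1 a2 b1 b2
  obtain ⟨-, B1⟩ := xSc_lin he a3 a4 b3 b4
  rw [← h4] at h5
  rw [sc3_eq, t3_eq, t3_eq] at h1
  rw [cc1_eq] at h2
  rw [sp3_eq, t2_eq, t2_eq] at h3
  simp only [Nat.shiftLeft_eq] at h1 h3
  generalize hA : tre (k + 1) * (2 ^ 14 - e) + tre (k + 1 + 1) * e = A at A0 A1 h5 h2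
  generalize hB : tim (k + 1) * (2 ^ 14 - e) + tim (k + 1 + 1) * e = B at B1 h5
  obtain ⟨c, hc⟩ := Nat.exists_eq_add_of_le he.le
  rw [hc, Nat.add_sub_cancel_left] at h1 h3 hA hB
  have e1 : sc ν = A / 2 ^ 18 + B / 2 ^ 18 * 2 ^ 288 + 2 ^ 17 * 2 ^ 576 := by
    rw [h1, ← xSc_pk A1 B1, ← hA, ← hB, show 2 ^ 35 * 2 ^ 576 = 2 ^ 597 * 2 ^ 14 by norm_num, hc]
    congr 2
    ring
  have e3 : sp ν = A + B * 2 ^ 40 := by
    rw [h3, ← hA, ← hB]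
    ring
  refine ⟨⟨_, _, by omega, by omega, e1, xSc_flo A B h5⟩, ?_, ?_⟩
  · rw [h2, Nat.shiftRight_eq_div_pow]
    refine ⟨by omega, ?_⟩
    have h6 := (Complex.abs_re_le_norm _).trans h5
    have h7 : (cz A B (2 ^ 35) / 2 ^ 34).re = (A : ℝ) / 2 ^ 34 - 2 := by
      rw [show cz A B (2 ^ 35) / 2 ^ 34 = ((A / 2 ^ 34 - 2 : ℝ) : ℂ) +
        (B / 2 ^ 34 - 2 : ℝ) * Complex.I by simp only [cz]; push_cast; ring]
      simp only [Complex.add_re, Complex.ofReal_re, Complex.re_ofReal_mul, Complex.I_re, mul_zero,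
        add_zero]
    rw [Complex.sub_re, h7, ex, Complex.exp_ofReal_mul_I_re, neg_div, mul_neg, cos_neg,
      abs_le] at h6
    obtain ⟨d1, d2⟩ := xSc_div A 17
    rw [Nat.cast_sub (by omega), abs_le]
    push_cast
    constructor <;> linarith [h6.1, h6.2]
  · rw [e3, Nat.and_two_pow_sub_one_eq_mod, Nat.shiftRight_eq_div_pow, Nat.shiftRight_eq_div_pow,
      show (A + B * 2 ^ 40) / 2 ^ 18 % 2 ^ 18 = A / 2 ^ 18 by omega,
      show (A + B * 2 ^ 40) / 2 ^ 58 = B / 2 ^ 18 by omega]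
    exact xSc_flo A B h5

end Pool.Agent.MP_88bd62_nt.B
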