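import Pool.Agent.MP_88bd62_nt.B.Defs

/-! Separation of the real and the imaginary lanes of the gridded points. -/

namespace Pool.Agent.MP_88bd62_nt.B

open Finset Pool.Agent.MP_90395b_gt.Bn

/-- The lanes of a sum of blocks of 12 lanes. -/
def xSep_lane (S : Finset ℕ) (p : ℕ → ℕ) (F : ℕ → ℕ → ℕ) (l : ℕ) : ℕ :=
  ∑ a ∈ S, if p a ≤ l ∧ l < p a + 12 then F a (l - p a) else 0

theorem xSep_block {N c : ℕ} (h : c + 12 ≤ N) (f : ℕ → ℕ) :
    pk 48 12 f * 2 ^ (48 * c) = pk 48 N (fun l => if c ≤ l ∧ l < c + 12 then f (l - c) else 0) := by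
  obtain ⟨r, rfl⟩ := Nat.exists_eq_add_of_le h
  rw [pk_append, pk_append]
  have h1 : pk 48 c (fun l => if c ≤ l ∧ l < c + 12 then f (l - c) else 0) = 0 := by
    refine sum_eq_zero fun i hi => ?_
    have := mem_range.1 hi
    beta_reduce
    rw [if_neg (by omega), zero_mul]
  have h2 : pk 48 r (fun i => if c ≤ c + 12 + i ∧ c + 12 + i < c + 12 then f (c + 12 + i - c)
      else 0) = 0 := by
    refine sum_eq_zero fun i _ => ?_
    beta_reduce
    rw [if_neg (by omega), zero_mul]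
  have h3 : pk 48 12 (fun i => if c ≤ c + i ∧ c + i < c + 12 then f (c + i - c) else 0)
      = pk 48 12 f := pk_congr fun i hi => by
    rw [if_pos (by omega), Nat.add_sub_cancel_left]
  rw [h1, h2, h3, zero_add, zero_mul, add_zero]

theorem xSep_sum {N : ℕ} {S : Finset ℕ} {p : ℕ → ℕ} (h : ∀ a ∈ S, p a + 12 ≤ N)
    (F : ℕ → ℕ → ℕ) :
    ∑ a ∈ S, pk 48 12 (F a) * 2 ^ (48 * p a) = pk 48 N (xSep_lane S p F) := by
  rw [sum_congr rfl fun a ha => xSep_block (h a ha) (F a)]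
  unfold pk xSep_lane
  rw [sum_comm]
  exact sum_congr rfl fun l _ => by rw [sum_mul]

theorem xSep_case {S : Finset ℕ} {p : ℕ → ℕ} (hs : ∀ a ∈ S, ∀ b ∈ S, a < b → p a + 12 ≤ p b)
    (l : ℕ) : (∀ F, xSep_lane S p F l = 0) ∨
      ∃ a ∈ S, ∃ i < 12, ∀ F, xSep_lane S p F l = F a i := by
  by_cases h : ∃ a ∈ S, p a ≤ l ∧ l < p a + 12
  · obtain ⟨a, ha, h1, h2⟩ := h
    refine Or.inr ⟨a, ha, l - p a, by omega, fun F => ?_⟩
    unfold xSep_lane
    rw [sum_eq_single_of_mem a ha, if_pos ⟨h1, h2⟩]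
    intro b hb hne
    refine if_neg fun hb' => ?_
    rcases lt_or_gt_of_ne hne with hlt | hlt
    · have := hs b hb a ha hlt; omega
    · have := hs a ha b hb hlt; omega
  · refine Or.inl fun F => sum_eq_zero fun a ha => if_neg fun h' => h ⟨a, ha, h'⟩

theorem xSep_bd {S : Finset ℕ} {p : ℕ → ℕ} (hs : ∀ a ∈ S, ∀ b ∈ S, a < b → p a + 12 ≤ p b)
    {F : ℕ → ℕ → ℕ} (hF : ∀ a ∈ S, Bd 12 (2 ^ 48) (F a)) (N : ℕ) :
    Bd N (2 ^ 48) (xSep_lane S p F) := by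
  intro l _
  rcases xSep_case hs l with h | ⟨a, ha, i, hi, h⟩
  · rw [h]; positivity
  · rw [h]; exact hF a ha i hi

theorem xSep_lt {Q : ℕ} {S : Finset ℕ} {p : ℕ → ℕ} (h : ∀ a ∈ S, p a + 12 ≤ Q)
    (hs : ∀ a ∈ S, ∀ b ∈ S, a < b → p a + 12 ≤ p b)
    {F : ℕ → ℕ → ℕ} (hF : ∀ a ∈ S, Bd 12 (2 ^ 48) (F a)) :
    ∑ a ∈ S, pk 48 12 (F a) * 2 ^ (48 * p a) < 2 ^ (48 * Q) := by
  rw [xSep_sum h]; exact pk_lt (xSep_bd hs hF Q)

theorem xSep_land {Q : ℕ} {S : Finset ℕ} {p : ℕ → ℕ} (h : ∀ a ∈ S, p a + 12 ≤ Q)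
    (hs : ∀ a ∈ S, ∀ b ∈ S, a < b → p a + 12 ≤ p b)
    {F G : ℕ → ℕ → ℕ} (hF : ∀ a ∈ S, Bd 12 (2 ^ 48) (F a)) (hG : ∀ a ∈ S, Bd 12 (2 ^ 48) (G a)) :
    (∑ a ∈ S, pk 48 12 (F a) * 2 ^ (48 * p a)) &&& (∑ a ∈ S, pk 48 12 (G a) * 2 ^ (48 * p a)) =
      ∑ a ∈ S, pk 48 12 (fun i => F a i &&& G a i) * 2 ^ (48 * p a) := by
  rw [xSep_sum h, xSep_sum h, xSep_sum h (fun a i => F a i &&& G a i),
    pk_land (xSep_bd hs hF Q) (xSep_bd hs hG Q)]
  refine pk_congr fun l _ => ?_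
  rcases xSep_case hs l with h | ⟨a, _, i, _, h⟩
  · rw [h, h, h, Nat.and_self]
  · rw [h, h, h]

theorem xSep_landc {N c : ℕ} {S : Finset ℕ} {p : ℕ → ℕ} (h : ∀ a ∈ S, p a + 12 ≤ N)
    (hs : ∀ a ∈ S, ∀ b ∈ S, a < b → p a + 12 ≤ p b)
    {F : ℕ → ℕ → ℕ} (hF : ∀ a ∈ S, Bd 12 (2 ^ 48) (F a)) (hc : c < 2 ^ 48) :
    (∑ a ∈ S, pk 48 12 (F a) * 2 ^ (48 * p a)) &&& pk 48 N (fun _ => c) =
      ∑ a ∈ S, pk 48 12 (fun i => F a i &&& c) * 2 ^ (48 * p a) := by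
  rw [xSep_sum h, xSep_sum h (fun a i => F a i &&& c),
    pk_land (xSep_bd hs hF N) (fun _ _ => hc)]
  refine pk_congr fun l _ => ?_
  rcases xSep_case hs l with h | ⟨a, _, i, _, h⟩
  · rw [h, h, Nat.zero_and]
  · rw [h, h]

theorem xSep_and0 {v : ℕ} (hv : v < 2 ^ 29) : v &&& 2 ^ 29 = 0 := by
  rw [Nat.and_two_pow, Nat.testBit_lt_two_pow hv]; simp

theorem xSep_and1 {v : ℕ} (hv : v < 2 ^ 29) : (v + 2 ^ 29) &&& 2 ^ 29 = 2 ^ 29 := by
  rw [Nat.and_two_pow, add_comm, Nat.testBit_two_pow_add_eq, Nat.testBit_lt_two_pow hv]; simp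

theorem xSep_one (c : ℕ) : pk 48 12 (fun i => if i = 0 then c else 0) = c := by
  simp [pk]

theorem xSep_low (f : ℕ → ℕ) : pk 48 12 (fun i => if i < 6 then f i else 0) = pk 48 6 f := by
  rw [show (12 : ℕ) = 6 + 6 from rfl, pk_append]
  have h2 : pk 48 6 (fun i => if 6 + i < 6 then f (6 + i) else 0) = 0 := by
    refine sum_eq_zero fun i _ => ?_
    beta_reduce
    rw [if_neg (by omega), zero_mul]
  rw [h2, zero_mul, add_zero]
  exact pk_congr fun i hi => if_pos hi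

set_option exponentiation.threshold 1000 in
theorem xSep_ones : (2 : ℕ) ^ 288 - 1 = pk 48 6 (fun _ => 2 ^ 48 - 1) := by
  rw [← ones_pk (by norm_num), ones_eq']

theorem xSep_c : (0x10000000000010000000000010000000000010000000000010000000000010000000 : ℕ) =
    pk 48 6 (fun _ => 2 ^ 28) := by
  simp only [pk, sum_range_succ, range_zero, sum_empty]; norm_num

theorem xSep_arith (W x y b J : ℕ) (hx : x < W) (hy : y < W) (hb : b < W) (hJ : J < W) (T : ℕ)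
    (hT : 4 ≤ T) : x + y * W + (W * W + 1) * T - (b + J + b * W) < W * W * (T * 4) ∧
      b + J + b * W ≤ x + y * W + (W * W + 1) * T := by
  have h1 : y * W + W ≤ W * W := by nlinarith
  have h2 : b * W + W ≤ W * W := by nlinarith
  have h3 : W ≤ W * W := by nlinarith
  have h4 : W * W * 4 ≤ W * W * T := Nat.mul_le_mul_left _ hT
  have h5 : T ≤ W * W * T := Nat.le_mul_of_pos_left _ (by nlinarith)
  have e1 : (W * W + 1) * T = W * W * T + T := by ring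
  have e2 : W * W * (T * 4) = 4 * (W * W * T) := by ring
  rw [e1, e2]
  constructor <;> omega

set_option exponentiation.threshold 1000 in
theorem stSep : StSep := by
  intro Q S p V hV hs X hX x hx
  have hp : ∀ a ∈ S, p a + 12 ≤ Q := fun a ha => (hV a ha).1
  have hp2 : ∀ a ∈ S, p a + 12 ≤ 2 * Q := fun a ha => by have := hp a ha; omega
  have hb : ∀ a ∈ S, ∀ i < 12, V a i < 2 ^ 29 := fun a ha => (hV a ha).2
  have hF0 : ∀ a ∈ S, Bd 12 (2 ^ 48) (fun i => V a i + if i = 0 then 2 ^ 29 else 0) := by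
    intro a ha i hi
    have := hb a ha i hi
    beta_reduce
    split_ifs <;> omega
  have eX : X = ∑ a ∈ S, pk 48 12 (fun i => V a i + if i = 0 then 2 ^ 29 else 0) * 2 ^ (48 * p a) := by
    rw [hX]
    exact sum_congr rfl fun a _ => by rw [pk_add, xSep_one]
  obtain ⟨I, hI⟩ : ∃ I, I = ∑ a ∈ S, 2 ^ (48 * p a) := ⟨_, rfl⟩
  have e29 : X &&& (pk 48 (2 * Q) (fun _ => 1) <<< 29) = I * 2 ^ 29 := by
    rw [pk_shl, one_mul, eX, xSep_landc hp2 hs hF0 (by norm_num), hI, sum_mul]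
    refine sum_congr rfl fun a ha => ?_
    rw [mul_comm (2 ^ (48 * p a)), ← xSep_one (2 ^ 29)]
    refine congrArg (· * _) ?_
    rw [xSep_one (2 ^ 29)]
    refine (pk_congr fun i hi => ?_).trans (xSep_one (2 ^ 29))
    split_ifs
    · exact xSep_and1 (hb a ha i hi)
    · exact xSep_and0 (hb a ha i hi)
  have eI : (I * 2 ^ 29) >>> 29 = I := by
    rw [Nat.shiftRight_eq_div_pow, Nat.mul_div_cancel _ (by positivity)]
  have blk : ∀ c : ℕ, I * pk 48 6 (fun _ => c) =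
      ∑ a ∈ S, pk 48 12 (fun i => if i < 6 then c else 0) * 2 ^ (48 * p a) := by
    intro c
    rw [hI, sum_mul]
    exact sum_congr rfl fun a _ => by rw [xSep_low (fun _ => c), mul_comm]
  obtain ⟨u, hu⟩ : ∃ u, u = ∑ a ∈ S, pk 48 6 (V a) * 2 ^ (48 * p a) := ⟨_, rfl⟩
  obtain ⟨y, hy⟩ : ∃ y, y = ∑ a ∈ S, pk 48 6 (fun i => V a (6 + i)) * 2 ^ (48 * p a) := ⟨_, rfl⟩
  have ex1 : X &&& (I * (2 ^ 288 - 1)) = ∑ a ∈ S, pk 48 12
      (fun i => if i < 6 then V a i + (if i = 0 then 2 ^ 29 else 0) else 0) * 2 ^ (48 * p a) := by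
    rw [xSep_ones, blk, eX, xSep_land hp hs hF0 (fun a _ i _ => by beta_reduce; split_ifs <;> omega)]
    refine sum_congr rfl fun a ha => congrArg (· * _) (pk_congr fun i hi => ?_)
    by_cases h6 : i < 6
    · rw [if_pos h6, if_pos h6]; exact and_full (hF0 a ha i hi)
    · rw [if_neg h6, if_neg h6, Nat.and_zero]
  have ex2 : X &&& (I * (2 ^ 288 - 1)) = u + I * 2 ^ 29 := by
    rw [ex1, hu, hI, sum_mul, ← sum_add_distrib]
    refine sum_congr rfl fun a _ => ?_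
    rw [xSep_low (fun i => V a i + if i = 0 then 2 ^ 29 else 0), pk_add]
    have : pk 48 6 (fun i => if i = 0 then 2 ^ 29 else 0) = 2 ^ 29 := by simp [pk]
    rw [this]; ring
  have hxl : u + I * 2 ^ 29 < 2 ^ (48 * Q) := by
    rw [← ex2, ex1]
    refine xSep_lt hp hs fun a ha i hi => ?_
    have := hF0 a ha i hi
    beta_reduce at this ⊢
    by_cases h6 : i < 6
    · rwa [if_pos h6]
    · rw [if_neg h6]; positivity
  have eX2 : X = u + I * 2 ^ 29 + y * 2 ^ 288 := by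
    rw [hX, hu, hI, hy, sum_mul, sum_mul, ← sum_add_distrib, ← sum_add_distrib]
    refine sum_congr rfl fun a _ => ?_
    rw [show (12 : ℕ) = 6 + 6 from rfl, pk_append, show 48 * 6 = 288 from rfl]
    generalize (2 : ℕ) ^ 288 = T
    ring
  have ey : (X - (u + I * 2 ^ 29)) >>> 288 = y := by
    rw [eX2, Nat.add_sub_cancel_left, Nat.shiftRight_eq_div_pow,
      Nat.mul_div_cancel _ (by positivity)]
  have hyl : y < 2 ^ (48 * Q) := by
    have : y = ∑ a ∈ S, pk 48 12 (fun i => if i < 6 then V a (6 + i) else 0) * 2 ^ (48 * p a) := by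
      rw [hy]
      exact sum_congr rfl fun a _ => by rw [xSep_low (fun i => V a (6 + i))]
    rw [this]
    refine xSep_lt hp hs fun a ha i hi => ?_
    beta_reduce
    split_ifs with h6
    · have := hb a ha (6 + i) (by omega); omega
    · positivity
  obtain ⟨b, hbb⟩ : ∃ b, b = I * pk 48 6 (fun _ => 2 ^ 28) := ⟨_, rfl⟩
  have hbl : b < 2 ^ (48 * Q) := by
    rw [hbb, blk]
    refine xSep_lt hp hs fun a ha i hi => ?_
    beta_reduce
    split_ifs <;> omega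
  have eO : ones (48 * Q + 48 * Q) + 2 = 2 ^ (48 * Q) * 2 ^ (48 * Q) + 1 := by
    rw [ones_eq', pow_add]
    have : 0 < 2 ^ (48 * Q) * 2 ^ (48 * Q) := by positivity
    omega
  rw [sep_eq, e29, sep0_eq, eI, sep1_eq, ex2, sep2_eq, ey, xSep_c, ← hbb, sep3_eq, eO,
    Nat.shiftLeft_eq, Nat.shiftLeft_eq, Nat.shiftLeft_eq] at hx
  obtain ⟨h1, h2⟩ := xSep_arith (2 ^ (48 * Q)) (u + I * 2 ^ 29) y b (I * 2 ^ 29) hxl hyl hbl
    (by omega) (2 ^ 336) (by norm_num)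
  refine ⟨?_, ?_⟩
  · rw [hx]
    refine h1.trans_eq ?_
    rw [show 96 * Q + 338 = 48 * Q + 48 * Q + (336 + 2) by ring, pow_add, pow_add, pow_add,
      show (2 : ℕ) ^ 2 = 4 from rfl]
  · have ez : ∑ a ∈ S, ∑ i ∈ range 6,
        ev Q (gz (V a i) (V a (6 + i)) (2 ^ 28)) * 2 ^ (48 * (p a + i)) =
        ((u : ℤ) - b) + ((y : ℤ) - b) * 2 ^ (48 * Q) := by
      rw [hu, hy, hbb, hI, sum_mul]
      unfold pk ev gz
      push_cast
      rw [← sum_sub_distrib, ← sum_sub_distrib, sum_mul, ← sum_add_distrib]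
      refine sum_congr rfl fun a _ => ?_
      rw [sum_mul, sum_mul, mul_sum, ← sum_sub_distrib, ← sum_sub_distrib, sum_mul,
        ← sum_add_distrib]
      refine sum_congr rfl fun i _ => ?_
      rw [mul_add 48, pow_add]
      ring
    rw [ez, hx, Nat.cast_sub h2]
    refine (Int.modEq_iff_dvd.2 ⟨-2 ^ 336, ?_⟩)
    unfold MM
    rw [show 96 * Q = 48 * Q + 48 * Q by ring, pow_add]
    simp only [Nat.cast_add, Nat.cast_mul, Nat.cast_pow, Nat.cast_ofNat, Nat.cast_one]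
    generalize (2 : ℤ) ^ 336 = T
    generalize (2 : ℤ) ^ (48 * Q) = W
    ring

end Pool.Agent.MP_88bd62_nt.B
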