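import Pool.Agent.MP_88bd62_nt.B.Defs

/-! The pieces of the quintic spline and their evaluation by the kernel program. -/

namespace Pool.Agent.MP_88bd62_nt.B

open Finset Real Pool.Agent.MP_90395b_gt.Bn Pool.Agent.MP_88bd62_nt.U

theorem stSplA : StSplA := by
  intro τ h0 h1
  obtain ⟨σ, hσ⟩ : ∃ σ, σ = 1 - τ := ⟨_, rfl⟩
  have h2 : 0 ≤ σ := by linarith
  have b0 : 0 ≤ σ ^ 5 := by positivity
  have b1 : 0 ≤ τ * σ ^ 4 := by positivity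
  have b2 : 0 ≤ τ ^ 2 * σ ^ 3 := by positivity
  have b3 : 0 ≤ τ ^ 3 * σ ^ 2 := by positivity
  have b4 : 0 ≤ τ ^ 4 * σ := by positivity
  have b5 : 0 ≤ τ ^ 5 := by positivity
  subst hσ
  refine ⟨fun i hi => ?_, ?_, ?_, ?_⟩
  · interval_cases i <;> simp only [spl] <;> constructor <;> nlinarith
  · simp only [sum_range_succ, range_zero, sum_empty, spl]; ring
  · simp only [spl]; nlinarith
  · simp only [spl]; nlinarith

/-- The scaled pieces as integers. -/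
def xSplA_Z (i : ℕ) (t : ℤ) : ℤ :=
  match i with
  | 0 => 2 ^ 60 - 5 * 2 ^ 48 * t + 10 * 2 ^ 36 * t ^ 2 - 10 * 2 ^ 24 * t ^ 3 + 5 * 2 ^ 12 * t ^ 4
    - t ^ 5
  | 1 => 26 * 2 ^ 60 - 50 * 2 ^ 48 * t + 20 * 2 ^ 36 * t ^ 2 + 20 * 2 ^ 24 * t ^ 3
    - 20 * 2 ^ 12 * t ^ 4 + 5 * t ^ 5
  | 2 => 66 * 2 ^ 60 - 60 * 2 ^ 36 * t ^ 2 + 30 * 2 ^ 12 * t ^ 4 - 10 * t ^ 5
  | 3 => 26 * 2 ^ 60 + 50 * 2 ^ 48 * t + 20 * 2 ^ 36 * t ^ 2 - 20 * 2 ^ 24 * t ^ 3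
    - 20 * 2 ^ 12 * t ^ 4 + 10 * t ^ 5
  | 4 => 2 ^ 60 + 5 * 2 ^ 48 * t + 10 * 2 ^ 36 * t ^ 2 + 10 * 2 ^ 24 * t ^ 3 + 5 * 2 ^ 12 * t ^ 4
    - 5 * t ^ 5
  | 5 => t ^ 5
  | _ => 0

theorem xSplA_cast (t : ℕ) {i : ℕ} (hi : i < 6) :
    (xSplA_Z i t : ℝ) = 120 * 2 ^ 60 * spl i (t / 4096) := by
  interval_cases i <;> simp only [spl, xSplA_Z] <;> push_cast <;> ring

set_option exponentiation.threshold 1000 in
theorem xSplA_hor (t : ℕ) : (hor t : ℤ) = ∑ i ∈ range 6, xSplA_Z i t * 2 ^ (104 * i)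
    + (1 + t + t ^ 2 + t ^ 3 + t ^ 4 + t ^ 5) * 2 ^ (104 * 6) := by
  rw [hor_eq]
  simp only [sum_range_succ, range_zero, sum_empty, xSplA_Z]
  push_cast
  ring

theorem xSplA_bt {f : ℕ → ℕ} (hf : Bd 6 (2 ^ 104) f) (J : ℕ) {i : ℕ} (hi : i < 6) :
    bt (pk 104 6 f + J * 2 ^ (104 * 6)) (71 + 104 * i) = f i / 2 ^ 71 := by
  obtain ⟨c, hc⟩ := Nat.exists_eq_add_of_lt hi
  have e : 2 ^ (104 * 6) = 2 ^ (104 * c) * 2 ^ 104 * 2 ^ (104 * i) := by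
    rw [← pow_add, ← pow_add]; congr 1; omega
  rw [bt_eq, Nat.and_two_pow_sub_one_eq_mod, Nat.shiftRight_eq_div_pow, add_comm 71, pow_add,
    ← Nat.div_div_eq_div_mul, ← Nat.mod_mul_right_div_self, ← pow_add, e, ← mul_assoc,
    Nat.add_mul_div_right _ _ (by positivity), ← mul_assoc, Nat.add_mul_mod_self_right]
  exact congrArg (· / 2 ^ 71) (dig_pk' hf hi)

theorem stHor (hA : StSplA) : StHor := by
  intro t W ht hW i hi
  have ht' : (t : ℝ) ≤ 4096 := by exact_mod_cast ht.le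
  obtain ⟨hb, -⟩ := hA (t / 4096) (by positivity) (by rw [div_le_one (by norm_num)]; exact ht')
  have hz : ∀ j < 6, 0 ≤ xSplA_Z j t := fun j hj => by
    have := (hb j hj).1
    have h : (0 : ℝ) ≤ xSplA_Z j t := by rw [xSplA_cast t hj]; positivity
    exact_mod_cast h
  have hP : ∀ j < 6, (((xSplA_Z j t).toNat : ℕ) : ℝ) = 120 * 2 ^ 60 * spl j (t / 4096) :=
    fun j hj => by
      rw [← xSplA_cast t hj, ← Int.cast_natCast, Int.toNat_of_nonneg (hz j hj)]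
  have hW' : 120 * (W : ℝ) ≤ 2 ^ 41 := by exact_mod_cast hW
  have hf : Bd 6 (2 ^ 104) fun j => (xSplA_Z j t).toNat * W := fun j hj => by
    have h1 := hb j hj
    have h2 : (((xSplA_Z j t).toNat * W : ℕ) : ℝ) < ((2 ^ 104 : ℕ) : ℝ) := by
      push_cast
      rw [hP j hj]
      have := mul_le_mul hW' h1.2 h1.1 (by positivity)
      nlinarith
    exact_mod_cast h2
  have he : hor t * W = pk 104 6 (fun j => (xSplA_Z j t).toNat * W) +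
      (1 + t + t ^ 2 + t ^ 3 + t ^ 4 + t ^ 5) * W * 2 ^ (104 * 6) := by
    rw [← pk_mul', mul_right_comm, ← add_mul]
    refine congrArg (· * W) ?_
    refine Int.natCast_inj.1 ?_
    rw [xSplA_hor, MP_90395b_gt.Bn.pk]
    generalize 104 * 6 = N
    simp only [Nat.cast_add, Nat.cast_sum, Nat.cast_mul, Nat.cast_pow, Nat.cast_ofNat,
      Nat.cast_one]
    refine congrArg₂ (· + ·) ?_ rfl
    exact sum_congr rfl fun j hj => by rw [Int.toNat_of_nonneg (hz j (mem_range.1 hj))]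
  rw [he, xSplA_bt hf _ hi]
  have e : 120 * W * spl i (t / 4096) / 2 ^ 11 =
      (((xSplA_Z i t).toNat * W : ℕ) : ℝ) / ((2 ^ 71 : ℕ) : ℝ) := by
    push_cast
    rw [hP i hi]; ring
  rw [e]
  refine ⟨Nat.cast_div_le, ?_⟩
  rw [← Nat.floor_div_eq_div (K := ℝ)]
  exact (Nat.sub_one_lt_floor _).le

end Pool.Agent.MP_88bd62_nt.B
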