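import Pool.Agent.MP_88bd62_nt.B.Defs

/-! The aliasing error of the quintic spline, by its Fourier series. -/

namespace Pool.Agent.MP_88bd62_nt.B

open Finset Real Pool.Agent.MP_88bd62_nt.U

noncomputable section

lemma xSplB_int (w q0 q1 q2 q3 q4 q5 : ℂ) :
    ∫ t in (0 : ℝ)..1, Complex.exp (w * t) * ((w * q0 + q1) + (w * q1 + 2 * q2) * t
      + (w * q2 + 3 * q3) * t ^ 2 + (w * q3 + 4 * q4) * t ^ 3 + (w * q4 + 5 * q5) * t ^ 4
      + w * q5 * t ^ 5) = Complex.exp w * (q0 + q1 + q2 + q3 + q4 + q5) - q0 := by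
  have h : ∀ t : ℝ, HasDerivAt (fun s : ℝ => Complex.exp (w * s) *
      (q0 + q1 * s + q2 * s ^ 2 + q3 * s ^ 3 + q4 * s ^ 4 + q5 * s ^ 5))
      (Complex.exp (w * t) * ((w * q0 + q1) + (w * q1 + 2 * q2) * t
      + (w * q2 + 3 * q3) * t ^ 2 + (w * q3 + 4 * q4) * t ^ 3 + (w * q4 + 5 * q5) * t ^ 4
      + w * q5 * t ^ 5)) t := by
    intro t
    have h1 : HasDerivAt (fun s : ℂ => Complex.exp (w * s) *
        (q0 + q1 * s + q2 * s ^ 2 + q3 * s ^ 3 + q4 * s ^ 4 + q5 * s ^ 5))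
        (Complex.exp (w * t) * ((w * q0 + q1) + (w * q1 + 2 * q2) * t
        + (w * q2 + 3 * q3) * t ^ 2 + (w * q3 + 4 * q4) * t ^ 3 + (w * q4 + 5 * q5) * t ^ 4
        + w * q5 * t ^ 5)) (t : ℂ) := by
      have a := ((hasDerivAt_id (t : ℂ)).const_mul w).cexp
      have b := ((((((hasDerivAt_id (t : ℂ)).const_mul q1).const_add q0).add
        ((hasDerivAt_pow 2 (t : ℂ)).const_mul q2)).add
        ((hasDerivAt_pow 3 (t : ℂ)).const_mul q3)).add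
        ((hasDerivAt_pow 4 (t : ℂ)).const_mul q4)).add ((hasDerivAt_pow 5 (t : ℂ)).const_mul q5)
      refine (a.mul b).congr_deriv ?_
      simp only [id, Pi.add_apply]
      push_cast
      ring
    exact h1.comp_ofReal
  rw [intervalIntegral.integral_eq_sub_of_hasDerivAt (fun t _ => h t)
    (Continuous.intervalIntegrable (by fun_prop) _ _)]
  simp

/-- The function whose Fourier series is taken. -/
def xSplB_G (ρ τ : ℝ) : ℂ := ∑ i ∈ range 6, (spl i τ : ℂ) * ex (-(ρ * (i + 1 - τ)))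

def xSplB_P (z t : ℂ) : ℂ :=
  ((1 - 5 * t + 10 * t ^ 2 - 10 * t ^ 3 + 5 * t ^ 4 - t ^ 5)
    + (26 - 50 * t + 20 * t ^ 2 + 20 * t ^ 3 - 20 * t ^ 4 + 5 * t ^ 5) * z
    + (66 - 60 * t ^ 2 + 30 * t ^ 4 - 10 * t ^ 5) * z ^ 2
    + (26 + 50 * t + 20 * t ^ 2 - 20 * t ^ 3 - 20 * t ^ 4 + 10 * t ^ 5) * z ^ 3
    + (1 + 5 * t + 10 * t ^ 2 + 10 * t ^ 3 + 5 * t ^ 4 - 5 * t ^ 5) * z ^ 4 + t ^ 5 * z ^ 5) / 120

lemma xSplB_ex (ρ τ : ℝ) (i : ℕ) : ex (-(ρ * (i + 1 - τ))) =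
    Complex.exp (2 * π * Complex.I * ρ * τ) * ex (-ρ) ^ (i + 1) := by
  unfold ex
  rw [← Complex.exp_nat_mul, ← Complex.exp_add]
  congr 1
  push_cast
  ring

lemma xSplB_G_eq (ρ τ : ℝ) : xSplB_G ρ τ =
    Complex.exp (2 * π * Complex.I * ρ * τ) * (ex (-ρ) * xSplB_P (ex (-ρ)) τ) := by
  simp only [xSplB_G, xSplB_ex, sum_range_succ, sum_range_zero, spl, xSplB_P]
  push_cast
  ring

lemma xSplB_Ez (ρ : ℝ) : Complex.exp (2 * π * Complex.I * ρ) * ex (-ρ) = 1 := by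
  unfold ex
  rw [← Complex.exp_add, ← Complex.exp_zero]
  congr 1
  push_cast
  ring

lemma xSplB_per (ρ : ℝ) : xSplB_G ρ 0 = xSplB_G ρ 1 := by
  rw [xSplB_G_eq, xSplB_G_eq, Complex.ofReal_one, mul_one, ← mul_assoc _ (ex _),
    ← mul_assoc _ (ex _), xSplB_Ez]
  simp only [xSplB_P, Complex.ofReal_zero, mul_zero, Complex.exp_zero]
  ring

lemma xSplB_cont (ρ : ℝ) : Continuous (xSplB_G ρ) := by
  have : xSplB_G ρ = fun τ : ℝ =>
      Complex.exp (2 * π * Complex.I * ρ * τ) * (ex (-ρ) * xSplB_P (ex (-ρ)) τ) :=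
    funext (xSplB_G_eq ρ)
  rw [this]
  unfold xSplB_P
  fun_prop

lemma xSplB_intP (w z : ℂ) (hw : w ≠ 0) (hz : Complex.exp w * z = 1) :
    ∫ t in (0 : ℝ)..1, Complex.exp (w * t) * (z * xSplB_P z t) = ((1 - z) / w) ^ 6 := by
  obtain ⟨v, hv⟩ : ∃ v, w * v = 1 := ⟨w⁻¹, mul_inv_cancel₀ hw⟩
  have hv' : (1 - z) / w = (1 - z) * v := by
    rw [div_eq_iff hw]; linear_combination (z - 1) * hv
  set q5 := v * ((-1 + 5 * z - 10 * z ^ 2 + 10 * z ^ 3 - 5 * z ^ 4 + z ^ 5) / 120) with h5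
  set q4 := v * ((5 - 20 * z + 30 * z ^ 2 - 20 * z ^ 3 + 5 * z ^ 4) / 120 - 5 * q5) with h4
  set q3 := v * ((-10 + 20 * z - 20 * z ^ 3 + 10 * z ^ 4) / 120 - 4 * q4) with h3
  set q2 := v * ((10 + 20 * z - 60 * z ^ 2 + 20 * z ^ 3 + 10 * z ^ 4) / 120 - 3 * q3) with h2
  set q1 := v * ((-5 - 50 * z + 50 * z ^ 3 + 5 * z ^ 4) / 120 - 2 * q2) with h1
  set q0 := v * ((1 + 26 * z + 66 * z ^ 2 + 26 * z ^ 3 + z ^ 4) / 120 - q1) with h0
  have e : ∀ x : ℂ, w * (v * x) = x := fun x => by rw [← mul_assoc, hv, one_mul]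
  have key : ∀ t : ℝ, Complex.exp (w * t) * (z * xSplB_P z t) = z * (Complex.exp (w * t) *
      ((w * q0 + q1) + (w * q1 + 2 * q2) * t + (w * q2 + 3 * q3) * t ^ 2
      + (w * q3 + 4 * q4) * t ^ 3 + (w * q4 + 5 * q5) * t ^ 4 + w * q5 * t ^ 5)) := by
    intro t
    have e0 : w * q0 = _ := e _
    have e1 : w * q1 = _ := e _
    have e2 : w * q2 = _ := e _
    have e3 : w * q3 = _ := e _
    have e4 : w * q4 = _ := e _
    have e5 : w * q5 = _ := e _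
    rw [e0, e1, e2, e3, e4, e5, xSplB_P]
    ring
  simp only [key]
  rw [intervalIntegral.integral_const_mul, xSplB_int, hv', mul_sub, ← mul_assoc, mul_comm z, hz,
    h0, h1, h2, h3, h4, h5]
  ring

/-- The Fourier coefficients. -/
def xSplB_c (ρ : ℝ) (n : ℤ) : ℂ := ((1 - ex (-ρ)) / (2 * π * Complex.I * (ρ - n))) ^ 6

lemma xSplB_ne {ρ : ℝ} (h0 : ρ ≠ 0) (h : |ρ| ≤ 0.35) (n : ℤ) : ρ - n ≠ 0 := by
  intro e
  have e' : ρ = n := by linarith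
  rw [e', ← Int.cast_abs] at h
  have h1 : |n| < 1 := by
    have : ((|n| : ℤ) : ℝ) < 1 := by linarith
    exact_mod_cast this
  rw [Int.abs_lt_one_iff] at h1
  exact h0 (by rw [e', h1, Int.cast_zero])

lemma xSplB_coeff {ρ : ℝ} (h0 : ρ ≠ 0) (h : |ρ| ≤ 0.35) (n : ℤ) :
    fourierCoeff (AddCircle.liftIco 1 0 (xSplB_G ρ)) n = xSplB_c ρ n := by
  have hw : (2 * π * Complex.I * (ρ - n) : ℂ) ≠ 0 := by
    have : ((ρ : ℂ) - n) ≠ 0 := by exact_mod_cast xSplB_ne h0 h n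
    simp [this, Real.pi_ne_zero]
  have hz : Complex.exp (2 * π * Complex.I * (ρ - n)) * ex (-ρ) = 1 := by
    rw [mul_sub, Complex.exp_sub, mul_comm (2 * π * Complex.I : ℂ) (n : ℂ),
      Complex.exp_int_mul_two_pi_mul_I, div_one, xSplB_Ez]
  rw [fourierCoeff_liftIco_eq, fourierCoeffOn_eq_integral, xSplB_c, ← xSplB_intP _ _ hw hz]
  simp only [fourier_coe_apply, zero_add, sub_zero, div_one, one_smul, smul_eq_mul, xSplB_G_eq,
    Complex.ofReal_one]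
  refine intervalIntegral.integral_congr fun t _ => ?_
  rw [← mul_assoc, ← Complex.exp_add]
  congr 2
  push_cast
  ring

lemma xSplB_one (ρ : ℝ) : 1 - ex (-ρ) = 2 * Complex.I * (sin (π * ρ) : ℝ) * ex (-(ρ / 2)) := by
  have a : ex (-ρ) = ex (-(ρ / 2)) * Complex.exp (-(π * ρ : ℝ) * Complex.I) := by
    unfold ex
    rw [← Complex.exp_add]
    congr 1
    push_cast
    ring
  have b : ex (-(ρ / 2)) * Complex.exp ((π * ρ : ℝ) * Complex.I) = 1 := by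
    unfold ex
    rw [← Complex.exp_add, ← Complex.exp_zero]
    congr 1
    push_cast
    ring
  rw [a, Complex.ofReal_sin, Complex.sin]
  linear_combination -b - ex (-(ρ / 2)) * (Complex.exp (-(π * ρ : ℝ) * Complex.I)
    - Complex.exp ((π * ρ : ℝ) * Complex.I)) * Complex.I_mul_I

lemma xSplB_c_eq {ρ : ℝ} (h0 : ρ ≠ 0) (h : |ρ| ≤ 0.35) (n : ℤ) :
    xSplB_c ρ n = ((KK ρ * ρ ^ 6 * (1 / (ρ - n) ^ 6) : ℝ) : ℂ) * ex (-(3 * ρ)) := by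
  have a : ex (-(3 * ρ)) = ex (-(ρ / 2)) ^ 6 := by
    unfold ex
    rw [← Complex.exp_nat_mul]
    congr 1
    push_cast
    ring
  have h1 : ((ρ : ℂ) - n) ≠ 0 := by exact_mod_cast xSplB_ne h0 h n
  have h2 : (ρ : ℂ) ≠ 0 := by exact_mod_cast h0
  have h3 : (π : ℂ) ≠ 0 := by exact_mod_cast Real.pi_ne_zero
  rw [xSplB_c, xSplB_one, a, KK, sinc_of_ne_zero (mul_ne_zero Real.pi_ne_zero h0)]
  generalize sin (π * ρ) = s
  push_cast
  field_simp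

lemma xSplB_norm_ex (x : ℝ) : ‖ex x‖ = 1 := Complex.norm_exp_ofReal_mul_I _

lemma xSplB_KK (ρ : ℝ) : 0 ≤ KK ρ := by unfold KK; positivity

lemma xSplB_norm {ρ : ℝ} (h0 : ρ ≠ 0) (h : |ρ| ≤ 0.35) (n : ℤ) :
    ‖xSplB_c ρ n‖ = KK ρ * ρ ^ 6 * (1 / (ρ - n) ^ 6) := by
  have := xSplB_KK ρ
  rw [xSplB_c_eq h0 h, norm_mul, xSplB_norm_ex, mul_one, Complex.norm_real, Real.norm_eq_abs,
    abs_of_nonneg (by positivity)]

lemma xSplB_tail {s : ℝ} (h : -0.35 ≤ s) (n : ℕ) :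
    ∑ i ∈ range (n + 2), 1 / ((i : ℝ) + 1 + s) ^ 6 ≤
      1 / (1 + s) ^ 6 + 1 / (2 + s) ^ 6 + (0.0105 - 0.021 / (n + 2)) := by
  induction n with
  | zero =>
    simp only [sum_range_succ, sum_range_zero]
    norm_num
  | succ n ih =>
    rw [show n + 1 + 2 = n + 2 + 1 from rfl, sum_range_succ]
    have hn : (0 : ℝ) ≤ n := Nat.cast_nonneg n
    have a : 1 / (((n + 2 : ℕ) : ℝ) + 1 + s) ^ 6 ≤ 0.021 / (n + 2) - 0.021 / ((n + 1 : ℕ) + 2) := by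
      push_cast
      have b : (0.021 : ℝ) / (n + 2) - 0.021 / (n + 1 + 2) = 0.021 / ((n + 2) * (n + 3)) := by
        field_simp
        ring
      have c : (n : ℝ) + 2.65 ≤ n + 2 + 1 + s := by linarith
      have d : ((n : ℝ) + 2.65) ^ 6 ≤ (n + 2 + 1 + s) ^ 6 := by gcongr
      have e : (2.65 : ℝ) ^ 4 ≤ (n + 2.65) ^ 4 := by gcongr; linarith
      have f : ((n : ℝ) + 2) * (n + 3) ≤ (n + 2.65) ^ 2 := by nlinarith
      rw [b, div_le_div_iff₀ (pow_pos (by linarith) _) (by positivity)]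
      have g : (2.65 : ℝ) ^ 4 * ((n + 2) * (n + 3)) ≤ (n + 2.65) ^ 4 * (n + 2.65) ^ 2 := by gcongr
      have k : (0 : ℝ) ≤ (n + 2) * (n + 3) := by positivity
      nlinarith
    linarith

lemma xSplB_part {s : ℝ} (h : -0.35 ≤ s) (n : ℕ) :
    ∑ i ∈ range n, 1 / ((i : ℝ) + 1 + s) ^ 6 ≤ 1 / (1 + s) ^ 6 + 1 / (2 + s) ^ 6 + 0.0105 := by
  have a := xSplB_tail h n
  have b : ∑ i ∈ range n, 1 / ((i : ℝ) + 1 + s) ^ 6 ≤
      ∑ i ∈ range (n + 2), 1 / ((i : ℝ) + 1 + s) ^ 6 :=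
    sum_le_sum_of_subset_of_nonneg (range_subset_range.2 (by omega)) fun i _ _ => by positivity
  have c : (0 : ℝ) ≤ 0.021 / (n + 2) := by positivity
  linarith

lemma xSplB_num {r : ℝ} (h0 : 0 ≤ r) (h : r ≤ 0.35) :
    1 / (1 + r) ^ 6 + 1 / (2 + r) ^ 6 + 0.0105 + (1 / (1 + -r) ^ 6 + 1 / (2 + -r) ^ 6 + 0.0105) ≤
      1 / (1 - r) ^ 6 + 1.12 := by
  have a : 1 / (1 + r) ^ 6 ≤ 1 / 1 ^ 6 := by gcongr; linarith
  have b : 1 / (2 + r) ^ 6 ≤ 1 / 2 ^ 6 := by gcongr; linarith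
  have c : 1 / (2 + -r) ^ 6 ≤ 1 / 1.65 ^ 6 := by gcongr; linarith
  rw [← sub_eq_add_neg 1 r]
  norm_num at a b c ⊢
  linarith

lemma xSplB_num' {ρ : ℝ} (h : |ρ| ≤ 0.35) :
    ρ ^ 6 * (1 / (1 + ρ) ^ 6 + 1 / (2 + ρ) ^ 6 + 0.0105
      + (1 / (1 + -ρ) ^ 6 + 1 / (2 + -ρ) ^ 6 + 0.0105)) ≤ al ρ := by
  have e : al ρ = ρ ^ 6 * (1 / (1 - |ρ|) ^ 6 + 1.12) := by
    rw [al, div_pow, Even.pow_abs (by decide)]
    ring
  rw [e]
  refine mul_le_mul_of_nonneg_left ?_ (by positivity)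
  have a := xSplB_num (abs_nonneg ρ) h
  rcases abs_choice ρ with b | b
  · rw [b] at a ⊢
    exact a
  · rw [b] at a ⊢
    rw [neg_neg] at a
    linarith

lemma xSplB_pos {ρ : ℝ} (h0 : ρ ≠ 0) (h : |ρ| ≤ 0.35) (i : ℕ) :
    ‖xSplB_c ρ ((i + 1 : ℕ) : ℤ)‖ = KK ρ * ρ ^ 6 * (1 / ((i : ℝ) + 1 + -ρ) ^ 6) := by
  rw [xSplB_norm h0 h]
  push_cast
  ring

lemma xSplB_neg {ρ : ℝ} (h0 : ρ ≠ 0) (h : |ρ| ≤ 0.35) (i : ℕ) :
    ‖xSplB_c ρ (-((i + 1 : ℕ) : ℤ))‖ = KK ρ * ρ ^ 6 * (1 / ((i : ℝ) + 1 + ρ) ^ 6) := by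
  rw [xSplB_norm h0 h]
  push_cast
  ring

lemma xSplB_summable {ρ : ℝ} (h0 : ρ ≠ 0) (h : |ρ| ≤ 0.35) : Summable (xSplB_c ρ) := by
  have hk : 0 ≤ KK ρ * ρ ^ 6 := mul_nonneg (xSplB_KK ρ) (by positivity)
  have ha := abs_le.1 h
  refine Summable.of_nat_of_neg_add_one ((summable_nat_add_iff 1).1 ?_) ?_
  · refine Summable.of_norm (summable_of_sum_range_le (fun _ => norm_nonneg _)
      (c := KK ρ * ρ ^ 6 * (1 / (1 + -ρ) ^ 6 + 1 / (2 + -ρ) ^ 6 + 0.0105)) fun n => ?_)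
    simp only [xSplB_pos h0 h, ← mul_sum]
    exact mul_le_mul_of_nonneg_left (xSplB_part (by linarith) n) hk
  · refine Summable.of_norm (summable_of_sum_range_le (fun _ => norm_nonneg _)
      (c := KK ρ * ρ ^ 6 * (1 / (1 + ρ) ^ 6 + 1 / (2 + ρ) ^ 6 + 0.0105)) fun n => ?_)
    have : ∀ i : ℕ, (-((i : ℤ) + 1)) = -((i + 1 : ℕ) : ℤ) := fun i => by push_cast; rfl
    simp only [this, xSplB_neg h0 h, ← mul_sum]
    exact mul_le_mul_of_nonneg_left (xSplB_part (by linarith) n) hk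

lemma xSplB_hasSum {τ ρ : ℝ} (t0 : 0 ≤ τ) (t1 : τ ≤ 1) (h0 : ρ ≠ 0) (h : |ρ| ≤ 0.35) :
    HasSum (fun n : ℤ => xSplB_c ρ n * fourier n (τ : AddCircle (1 : ℝ))) (xSplB_G ρ τ) := by
  let f : C(AddCircle (1 : ℝ), ℂ) := ⟨AddCircle.liftIco 1 0 (xSplB_G ρ),
    AddCircle.liftIco_zero_continuous (xSplB_per ρ) (xSplB_cont ρ).continuousOn⟩
  have hc : fourierCoeff f = xSplB_c ρ := funext (xSplB_coeff h0 h)
  have hs := has_pointwise_sum_fourier_series_of_summable (f := f)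
    (by rw [hc]; exact xSplB_summable h0 h) (τ : AddCircle (1 : ℝ))
  rw [hc] at hs
  have hv : f (τ : AddCircle (1 : ℝ)) = xSplB_G ρ τ := by
    rcases t1.lt_or_eq with a | a
    · exact AddCircle.liftIco_zero_coe_apply (f := xSplB_G ρ) ⟨t0, a⟩
    · rw [a, ← xSplB_per, AddCircle.coe_period, ← AddCircle.coe_zero]
      exact AddCircle.liftIco_zero_coe_apply (f := xSplB_G ρ) ⟨le_rfl, one_pos⟩
  rw [hv] at hs
  exact hs

theorem stSplB : StSplB := by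
  intro τ ρ t0 t1 h
  change ‖xSplB_G ρ τ - _‖ ≤ _
  by_cases h0 : ρ = 0
  · subst h0
    have : xSplB_G 0 τ = 1 := by
      simp only [xSplB_G_eq, ex, xSplB_P]
      simp
      ring
    simp [this, KK, al, ex]
  have hk : 0 ≤ KK ρ * ρ ^ 6 := mul_nonneg (xSplB_KK ρ) (by positivity)
  have ha := abs_le.1 h
  have hs := (hasSum_nat_add_iff' 1).2 (xSplB_hasSum t0 t1 h0 h).nat_add_neg
  have e0 : xSplB_c ρ 0 = KK ρ * ex (-(3 * ρ)) := by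
    rw [xSplB_c_eq h0 h]
    congr 2
    simp only [Int.cast_zero, sub_zero]
    field_simp
  have e1 : xSplB_G ρ τ + xSplB_c ρ 0 * fourier 0 (τ : AddCircle (1 : ℝ)) - ∑ i ∈ range 1,
      (xSplB_c ρ (i : ℕ) * fourier (i : ℕ) (τ : AddCircle (1 : ℝ)) +
        xSplB_c ρ (-(i : ℕ)) * fourier (-(i : ℕ)) (τ : AddCircle (1 : ℝ))) =
      xSplB_G ρ τ - KK ρ * ex (-(3 * ρ)) := by
    simp only [sum_range_one, Nat.cast_zero, neg_zero, fourier_zero, e0]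
    ring
  rw [e1] at hs
  refine le_of_tendsto' hs.tendsto_sum_nat.norm fun n => ?_
  have hf : ∀ m : ℤ, ‖xSplB_c ρ m * fourier m (τ : AddCircle (1 : ℝ))‖ = ‖xSplB_c ρ m‖ := by
    intro m
    rw [norm_mul, fourier_apply, Circle.norm_coe, mul_one]
  calc _ ≤ ∑ i ∈ range n, (KK ρ * ρ ^ 6 * (1 / ((i : ℝ) + 1 + ρ) ^ 6)
        + KK ρ * ρ ^ 6 * (1 / ((i : ℝ) + 1 + -ρ) ^ 6)) := by
        refine (norm_sum_le _ _).trans (sum_le_sum fun i _ => (norm_add_le _ _).trans ?_)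
        rw [hf, hf, xSplB_pos h0 h, xSplB_neg h0 h, add_comm]
    _ ≤ KK ρ * ρ ^ 6 * (1 / (1 + ρ) ^ 6 + 1 / (2 + ρ) ^ 6 + 0.0105
        + (1 / (1 + -ρ) ^ 6 + 1 / (2 + -ρ) ^ 6 + 0.0105)) := by
        rw [sum_add_distrib, ← mul_sum, ← mul_sum, ← mul_add]
        exact mul_le_mul_of_nonneg_left
          (add_le_add (xSplB_part (by linarith) n) (xSplB_part (by linarith) n)) hk
    _ ≤ KK ρ * al ρ := by
        rw [mul_assoc]
        exact mul_le_mul_of_nonneg_left (xSplB_num' h) (xSplB_KK ρ)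

end

end Pool.Agent.MP_88bd62_nt.B
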