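import Pool.Agent.MP_88bd62_nt.B.Defs

/-! The Dirichlet polynomial over the odd numbers is close to the zeta function. -/

namespace Pool.Agent.MP_88bd62_nt.B

open Finset Real Pool.Agent.MP_88bd62_nt.U

theorem xTailB_odd (f : ℕ → ℂ) (B : ℕ) :
    ∑ n ∈ (range (2 * B)).filter Odd, f n = ∑ j ∈ range B, f (2 * j + 1) := by
  rw [sum_filter]
  induction B with
  | zero => simp
  | succ B ih =>
    rw [show 2 * (B + 1) = 2 * B + 1 + 1 by ring, sum_range_succ, sum_range_succ, ih,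
      sum_range_succ, if_neg (Nat.not_odd_iff_even.2 (even_two_mul B)),
      if_pos (odd_two_mul_add_one B), add_zero]

theorem xTailB_pow (k : ℤ) {n : ℕ} (hn : 0 < n) :
    ((1 / n : ℝ) : ℂ) * ee k (-th n) = (n : ℂ) ^ (-(1 + (tk k : ℝ) * Complex.I)) := by
  have hx : (0 : ℝ) < n := Nat.cast_pos.2 hn
  have h : (n : ℂ) ≠ 0 := Nat.cast_ne_zero.2 hn.ne'
  have h2 : log 2 ≠ 0 := (log_pos one_lt_two).ne'
  rw [neg_add, Complex.cpow_add _ _ h, Complex.cpow_neg_one, Complex.cpow_def_of_ne_zero h, ee,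
    ← Complex.natCast_log, show π * k * -th n = log n * -tk k by
      rw [th, tk, logb]
      field_simp]
  push_cast
  congr 1
  · rw [one_div]
  · ring_nf

theorem xTailB_ZN (k : ℤ) : ZN OS k =
    ∑ j ∈ range 65536, ((2 * j + 1 : ℕ) : ℂ) ^ (-(1 + (tk k : ℝ) * Complex.I)) := by
  have h : OS = (range (2 * 65536)).filter Odd := by
    rw [OS, show 2 * 65536 = 131072 by norm_num]
  rw [ZN, h, xTailB_odd]
  exact sum_congr rfl fun j _ => xTailB_pow k (by omega)

theorem xTailB_two1 {k : ℤ} (hk : Odd k) : (2 : ℂ) ^ (-((tk k : ℝ) * Complex.I)) = -1 := by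
  obtain ⟨m, rfl⟩ := hk
  have h2 : log 2 ≠ 0 := (log_pos one_lt_two).ne'
  have h3 : Complex.log 2 = (log 2 : ℝ) := by
    rw [Complex.ofReal_log zero_le_two, Complex.ofReal_ofNat]
  have h4 : log 2 * tk (2 * m + 1) = π * (2 * m + 1) := by
    rw [tk]
    push_cast
    field_simp
  rw [Complex.cpow_def_of_ne_zero two_ne_zero, h3, mul_neg, ← mul_assoc, ← Complex.ofReal_mul, h4,
    show -(((π * (2 * m + 1) : ℝ) : ℂ) * Complex.I) =
      π * Complex.I + ((-m - 1 : ℤ) : ℂ) * (2 * π * Complex.I) by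
        push_cast
        ring,
    Complex.exp_add, Complex.exp_pi_mul_I, Complex.exp_int_mul_two_pi_mul_I, mul_one]

theorem xTailB_two {k : ℤ} (hk : Odd k) :
    (2 : ℂ) ^ (-(1 + (tk k : ℝ) * Complex.I)) = -(1 / 2) := by
  rw [neg_add, Complex.cpow_add _ _ two_ne_zero, xTailB_two1 hk, Complex.cpow_neg_one]
  ring

theorem xTailB_split (s : ℂ) {B : ℕ} (hB : 1 ≤ B) : ∑ n ∈ Ico 1 (2 * B), (n : ℂ) ^ s =
    ∑ j ∈ range B, ((2 * j + 1 : ℕ) : ℂ) ^ s + 2 ^ s * ∑ n ∈ Ico 1 B, (n : ℂ) ^ s := by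
  induction B, hB using Nat.le_induction with
  | base => simp
  | succ B hB ih =>
    have h := Complex.natCast_mul_natCast_cpow 2 B s
    rw [← Nat.cast_mul, Nat.cast_ofNat] at h
    rw [show 2 * (B + 1) = 2 * B + 1 + 1 by ring, sum_Ico_succ_top (by omega),
      sum_Ico_succ_top (by omega), sum_Ico_succ_top hB, sum_range_succ, ih, h]
    ring

theorem xTailB_H (V : ℕ) : ∑ ν ∈ Icc 1 V, (1 / ν : ℝ) ≤ 1.07 * √V := by
  have h2 : (1.41 : ℝ) ≤ √2 := le_sqrt_of_sq_le (by norm_num)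
  have h3 : (1.73 : ℝ) ≤ √3 := le_sqrt_of_sq_le (by norm_num)
  rcases lt_or_ge V 3 with h | h
  · interval_cases V
    · simp
    · simp
      norm_num
    · rw [sum_Icc_succ_top (by omega)]
      simp
      linarith
  induction V, h using Nat.le_induction with
  | base =>
    rw [sum_Icc_succ_top (by omega), sum_Icc_succ_top (by omega)]
    simp
    linarith
  | succ V hV ih =>
    rw [sum_Icc_succ_top (by omega)]
    push_cast
    have h4 : (3 : ℝ) ≤ V := by exact_mod_cast hV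
    have ha := sq_sqrt (show (0 : ℝ) ≤ V by linarith)
    have hb := sq_sqrt (show (0 : ℝ) ≤ V + 1 by linarith)
    have hab : √(V : ℝ) ≤ √(V + 1) := sqrt_le_sqrt (by linarith)
    have hb2 : (2 : ℝ) ≤ √(V + 1) := le_sqrt_of_sq_le (by linarith)
    have ha0 := sqrt_nonneg (V : ℝ)
    generalize √(V : ℝ) = a at *
    generalize √((V : ℝ) + 1) = b at *
    have h5 : 1 / ((V : ℝ) + 1) ≤ b - a := by
      rw [div_le_iff₀ (by linarith), ← hb]
      have h6 : (b - a) * (a + b) = 1 := by linarith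
      have h7 : a + b ≤ b ^ 2 := by nlinarith
      nlinarith
    linarith

theorem xTailB_sum (V : ℕ) : ∑ ν ∈ Icc 1 V, ((ν : ℝ) + 1) = V * (V + 3) / 2 := by
  induction V with
  | zero => simp
  | succ V ih =>
    rw [sum_Icc_succ_top (by omega), ih]
    push_cast
    ring

theorem xTailB_tail {τ : ℝ} (hτ : 400 ≤ τ) :
    tailB τ (65536 : ℕ) ≤ 0.000036 * √τ + 0.000000000126 * τ + 0.0095 := by
  have hτ0 : 0 < τ := by linarith
  have hp1 := pi_gt_d4
  have hp2 := pi_lt_d4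
  rw [tailB]
  push_cast
  have hV := Nat.floor_le (show 0 ≤ 1.04 * τ / 65536 by positivity)
  generalize ⌊1.04 * τ / 65536⌋₊ = V at *
  have hq0 := sqrt_nonneg (τ / π)
  have hq2 : π * √(τ / π) ^ 2 = τ := by
    rw [sq_sqrt (by positivity)]
    field_simp
  have hV0 : (0 : ℝ) ≤ V := V.cast_nonneg
  have h1 : ∑ ν ∈ Icc 1 V, blk τ ν / max 65536 (τ / (ν + 1) - 1) ≤
      ∑ ν ∈ Icc 1 V, 65537 / 65536 / τ * (√(τ / π) * (4.01 + 3.01 * (1 / ν)) + (ν + 1)) := by
    refine sum_le_sum fun ν hν => ?_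
    have hν0 : (0 : ℝ) < ν := Nat.cast_pos.2 (mem_Icc.1 hν).1
    have h2 : 65536 / 65537 * (τ / (ν + 1)) ≤ max 65536 (τ / (ν + 1) - 1) := by
      rcases le_total (τ / (ν + 1)) 65537 with h | h
      · exact le_max_of_le_left (by linarith)
      · exact le_max_of_le_right (by linarith)
    refine (div_le_div_of_nonneg_left (by rw [blk]; positivity) (by positivity) h2).trans_eq ?_
    rw [blk]
    field_simp
    ring
  rw [← mul_sum, sum_add_distrib, ← mul_sum, sum_add_distrib, ← mul_sum, xTailB_sum, sum_const,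
    Nat.card_Icc, Nat.add_sub_cancel, nsmul_eq_mul] at h1
  have h2 := xTailB_H V
  have h3 : √(τ / π) * √V ≤ 0.002248 * τ := by
    rw [← sqrt_mul (by positivity)]
    refine sqrt_le_iff.2 ⟨by positivity, ?_⟩
    have h4 : τ / π ≤ τ / 3.1415 := div_le_div_of_nonneg_left hτ0.le (by norm_num) hp1.le
    calc τ / π * V ≤ τ / 3.1415 * (1.04 * τ / 65536) := by gcongr
      _ = 1.04 / 65536 / 3.1415 * τ ^ 2 := by ring
      _ ≤ 0.002248 ^ 2 * τ ^ 2 := mul_le_mul_of_nonneg_right (by norm_num) (sq_nonneg τ)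
      _ = (0.002248 * τ) ^ 2 := by ring
  have h4 : √(τ / π) ≤ 0.5643 * √τ := by
    refine sqrt_le_iff.2 ⟨by positivity, ?_⟩
    rw [mul_pow, sq_sqrt hτ0.le, div_le_iff₀ pi_pos]
    nlinarith
  have h5 : (√(τ / π) + 1.01) / max (65536 - 1) (τ - 2) ≤ 0.00223 := by
    rw [div_le_iff₀ (lt_max_of_lt_left (by norm_num))]
    have h6 := le_max_left (65536 - 1 : ℝ) (τ - 2)
    have h7 := le_max_right (65536 - 1 : ℝ) (τ - 2)
    generalize max (65536 - 1 : ℝ) (τ - 2) = m at h6 h7 ⊢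
    generalize √(τ / π) = q at hq2 ⊢
    rcases le_total q 144.5 with h | h
    · linarith only [h6, h]
    · have h8 : 3.1415 * q ^ 2 ≤ τ := by nlinarith only [sq_nonneg q, hq2, hp1]
      nlinarith only [h7, h, h8]
  have hr0 := sqrt_nonneg τ
  have h6 : √(τ / π) * V ≤ 0.5643 * √τ * (1.04 * τ / 65536) := by gcongr
  have h7 : (V : ℝ) * V ≤ 1.04 * τ / 65536 * (1.04 * τ / 65536) := by gcongr
  have h8 := mul_le_mul_of_nonneg_left h2 hq0
  have h9 : 65537 / 65536 / τ * (√(τ / π) * (V * 4.01 + 3.01 * ∑ ν ∈ Icc 1 V, (1 / ν : ℝ)) +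
      V * (V + 3) / 2) ≤ 0.000036 * √τ + 0.000000000126 * τ + 0.00727 := by
    rw [div_mul_eq_mul_div, div_le_iff₀ hτ0]
    have h10 : 0 ≤ √τ * τ := by positivity
    have h11 : 0 ≤ τ * τ := by positivity
    nlinarith
  linarith

theorem stTailB (hT : StTail) (hE : StEM1) : StTailB := by
  intro k hk
  have hl1 := log_two_gt_d9
  have hl2 := log_two_lt_d9
  have hl0 : 0 < log 2 := by linarith
  have hp1 := pi_gt_d4
  have hp2 := pi_lt_d4
  have hk1 : (1 : ℝ) ≤ |(k : ℝ)| := by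
    have : 1 ≤ |k| := Int.one_le_abs (by
      rintro rfl
      exact absurd hk (by decide))
    exact_mod_cast this
  have ht : |tk k| = π * |(k : ℝ)| / log 2 := by
    rw [tk, abs_div, abs_mul, abs_of_pos pi_pos, abs_of_pos hl0]
  rw [xTailB_ZN, sk]
  constructor
  · intro h1 h2
    have h1' : (555 : ℝ) ≤ |(k : ℝ)| := by exact_mod_cast h1
    have h2' : |(k : ℝ)| ≤ 2 ^ 27 := by exact_mod_cast h2
    generalize |(k : ℝ)| = x at *
    have hτ : |tk k| / (2 * π) = x / (2 * log 2) := by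
      rw [ht]
      field_simp
    have h3 : 400 ≤ x / (2 * log 2) := by
      rw [le_div_iff₀ (by linarith)]
      linarith
    have h4 : x / (2 * log 2) ≤ 0.72135 * x := by
      rw [div_le_iff₀ (by linarith)]
      nlinarith
    have h5 : √(x / (2 * log 2)) ≤ 0.8494 * √x := by
      refine sqrt_le_iff.2 ⟨by positivity, ?_⟩
      rw [mul_pow, sq_sqrt (by linarith)]
      linarith
    have h6 : √(x / (2 * log 2)) ≤ 32768 := sqrt_le_iff.2 ⟨by positivity, by linarith⟩
    have h7 := (hT (tk k) 65536 (hτ ▸ h3) (by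
      rw [hτ]
      push_cast
      linarith)).2
    rw [xTailB_two hk, hτ, show (1 : ℂ) - -(1 / 2) = 3 / 2 by ring] at h7
    have h8 := xTailB_tail h3
    have h9 : 2.6 / |tk k| ≤ 0.001034 := by
      rw [ht, div_div_eq_mul_div, div_le_iff₀ (by positivity)]
      nlinarith
    have h10 := sqrt_nonneg x
    rw [tl]
    linarith
  · intro h1
    have h1' : |(k : ℝ)| ≤ 555 := by exact_mod_cast h1
    generalize |(k : ℝ)| = x at *
    have ht0 : 0 < |tk k| := by
      rw [ht]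
      positivity
    have ht1 : |tk k| ≤ 2516 := by
      rw [ht, div_le_iff₀ hl0]
      nlinarith
    have h2 := hE (tk k) (2 * 65536) (abs_pos.1 ht0) (by norm_num)
    have h3 := hE (tk k) 65536 (abs_pos.1 ht0) (by norm_num)
    have h4 := Complex.natCast_mul_natCast_cpow 2 65536 (-(1 + (tk k : ℝ) * Complex.I))
    have h5 := Complex.natCast_mul_natCast_cpow 2 65536 (-((tk k : ℝ) * Complex.I))
    rw [← Nat.cast_mul, Nat.cast_ofNat (n := 2)] at h4 h5
    rw [xTailB_split _ (by norm_num), h4, h5, xTailB_two hk, xTailB_two1 hk] at h2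
    have h6 : ‖((65536 : ℕ) : ℂ) ^ (-((tk k : ℝ) * Complex.I)) / ((tk k : ℝ) * Complex.I)‖ =
        1 / |tk k| := by
      rw [norm_div, Complex.norm_natCast_cpow_of_pos (by norm_num)]
      simp
    have h7 : (|tk k| + 6) ^ 2 ≤ 2522 ^ 2 := by gcongr; linarith
    have h8 : 1 / |tk k| ≤ 0.2208 / x := by
      rw [ht, one_div_div, div_le_div_iff₀ (by positivity) (by positivity)]
      nlinarith
    have h9 : (|tk k| + 6) ^ 2 / (47 * ((2 * 65536 : ℕ) : ℝ) ^ 2) ≤ 0.000008 := by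
      rw [div_le_iff₀ (by positivity)]
      push_cast
      linarith
    have h10 : (|tk k| + 6) ^ 2 / (47 * ((65536 : ℕ) : ℝ) ^ 2) ≤ 0.000032 := by
      rw [div_le_iff₀ (by positivity)]
      push_cast
      linarith
    generalize ((65536 : ℕ) : ℂ) ^ (-((tk k : ℝ) * Complex.I)) = u at *
    generalize ((65536 : ℕ) : ℂ) ^ (-(1 + (tk k : ℝ) * Complex.I)) = v at *
    generalize ∑ j ∈ range 65536, ((2 * j + 1 : ℕ) : ℂ) ^ (-(1 + (tk k : ℝ) * Complex.I)) = S at *
    generalize ∑ n ∈ Ico (1 : ℕ) 65536, (n : ℂ) ^ (-(1 + (tk k : ℝ) * Complex.I)) = R at *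
    generalize riemannZeta (1 + (tk k : ℝ) * Complex.I) = z at *
    generalize ((tk k : ℝ) : ℂ) * Complex.I = w at *
    have h11 : 3 / 2 * z - S = (z - (S + -(1 / 2) * R) - -(1 / 2) * v / 2 - -1 * u / w) +
        1 / 2 * (z - R - v / 2 - u / w) - 1 / 2 * (u / w) := by ring
    rw [h11]
    refine (norm_sub_le _ _).trans ((add_le_add (norm_add_le _ _) le_rfl).trans ?_)
    rw [norm_mul, norm_mul, h6, show ‖(1 / 2 : ℂ)‖ = 1 / 2 by simp]
    have h12 : 0.1104 / x = 1 / 2 * (0.2208 / x) := by ring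
    linarith

end Pool.Agent.MP_88bd62_nt.B
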