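import Pool.Agent.MP_88bd62_nt.B.Defs

/-! The thresholds. -/

namespace Pool.Agent.MP_88bd62_nt.B

open Real

theorem xThr_step {f g : ℝ → ℝ} (h : ∀ x, HasDerivAt f (g x) x) (h0 : f 0 = 0)
    (hg : ∀ x, 0 ≤ x → 0 ≤ g x) (x : ℝ) (hx : 0 ≤ x) : 0 ≤ f x :=
  h0 ▸ monotoneOn_of_deriv_nonneg (convex_Ici 0) (fun x _ => (h x).continuousAt.continuousWithinAt)
    (fun x _ => (h x).differentiableAt.differentiableWithinAt)
    (fun x hx => (h x).deriv ▸ hg x (interior_subset hx)) Set.self_mem_Ici hx hx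

theorem xThr_sin (y : ℝ) (hy : 0 ≤ y) : sin y ≤ y - y ^ 3 / 6 + y ^ 5 / 120 ∧
    y - y ^ 3 / 6 + y ^ 5 / 120 - y ^ 7 / 5040 ≤ sin y := by
  have p := fun (n : ℕ) (c x : ℝ) => (hasDerivAt_pow n x).div_const c
  have c4 := xThr_step (f := fun x => 1 - x ^ 2 / 2 + x ^ 4 / 24 - cos x)
    (g := fun x => sin x - (x - x ^ 3 / 6))
    (fun x => ((((p 2 2 x).const_sub 1).add (p 4 24 x)).sub (hasDerivAt_cos x)).congr_deriv
      (by push_cast; ring)) (by simp) fun x hx => sub_nonneg.2 (sin_ge_sub_cube hx)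
  have s5 := xThr_step (f := fun x => x - x ^ 3 / 6 + x ^ 5 / 120 - sin x)
    (fun x => ((((hasDerivAt_id x).sub (p 3 6 x)).add (p 5 120 x)).sub
      (hasDerivAt_sin x)).congr_deriv (by push_cast; ring)) (by simp) c4
  have c6 := xThr_step (f := fun x => cos x - (1 - x ^ 2 / 2 + x ^ 4 / 24 - x ^ 6 / 720))
    (fun x => ((hasDerivAt_cos x).sub ((((p 2 2 x).const_sub 1).add (p 4 24 x)).sub
      (p 6 720 x))).congr_deriv (by push_cast; ring)) (by simp) s5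
  have s7 := xThr_step (f := fun x => sin x - (x - x ^ 3 / 6 + x ^ 5 / 120 - x ^ 7 / 5040))
    (fun x => ((hasDerivAt_sin x).sub ((((hasDerivAt_id x).sub (p 3 6 x)).add (p 5 120 x)).sub
      (p 7 5040 x))).congr_deriv (by push_cast; ring)) (by simp) c6
  exact ⟨sub_nonneg.1 (s5 y hy), sub_nonneg.1 (s7 y hy)⟩

theorem xThr_sinc (y : ℝ) : sinc y ≤ 1 - y ^ 2 / 6 + (y ^ 2) ^ 2 / 120 ∧
    1 - y ^ 2 / 6 + (y ^ 2) ^ 2 / 120 - (y ^ 2) ^ 3 / 5040 ≤ sinc y := by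
  wlog hy : 0 ≤ y generalizing y
  · simpa only [sinc_neg, neg_sq] using this (-y) (by linarith)
  rcases hy.eq_or_lt with rfl | h
  · simp
  · obtain ⟨h1, h2⟩ := xThr_sin y hy
    rw [sinc_of_ne_zero h.ne', div_le_iff₀ h, le_div_iff₀ h]
    constructor <;> linarith

theorem xThr_pi : 42389628127 ≤ π ^ 2 * 2 ^ 32 ∧ π ^ 2 * 2 ^ 32 ≤ 42389628128 := by
  have h1 := pow_le_pow_left₀ (by norm_num) pi_gt_d20.le 2
  have h2 := pow_le_pow_left₀ pi_pos.le pi_lt_d20.le 2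
  constructor <;> linarith

theorem xThr_div (a b : ℕ) (hb : 0 < b) :
    ((a / b : ℕ) : ℝ) ≤ a / b ∧ (a : ℝ) / b ≤ (a / b : ℕ) + 1 := by
  refine ⟨Nat.cast_div_le, ?_⟩
  rw [div_le_iff₀ (Nat.cast_pos.2 hb)]
  exact_mod_cast (Nat.lt_div_mul_add hb).le.trans_eq (by ring)

theorem xThr_U (Y : ℕ) {u : ℝ} (h1 : (Y : ℝ) ≤ u * 2 ^ 32) (h2 : u ≤ 2) :
    1 - u / 6 + u ^ 2 / 120 ≤ snU2 Y / 2 ^ 32 ∧ snU2 Y ≤ 2 ^ 32 + 1 := by
  have h3 : Y * Y / 2 ^ 32 ≤ 20 * Y := Nat.div_le_of_le_mul (by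
    have : Y ≤ 2 ^ 33 := by exact_mod_cast (by linarith : (Y : ℝ) ≤ 2 ^ 33)
    nlinarith)
  rw [snU2_eq, Nat.shiftRight_eq_div_pow]
  refine ⟨?_, by omega⟩
  have h4 := (xThr_div (Y * Y) (2 ^ 32 * 120) (by norm_num)).2
  have h5 := (xThr_div Y 6 (by norm_num)).1
  have h8 : Y ≤ 2 ^ 33 := by exact_mod_cast (by linarith : (Y : ℝ) ≤ 2 ^ 33)
  rw [Nat.div_div_eq_div_mul, Nat.cast_sub (by omega), le_div_iff₀ (by norm_num)]
  obtain ⟨w, hw⟩ : ∃ w : ℝ, (Y : ℝ) = w * 2 ^ 32 := ⟨Y / 2 ^ 32, by field_simp⟩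
  have h6 : w ≤ u := by linarith
  have h7 : 0 ≤ (u - w) * (20 - u - w) := mul_nonneg (by linarith) (by linarith)
  push_cast at h4 h5 ⊢
  rw [hw] at h4 h5
  linarith

theorem xThr_L (Y : ℕ) {u s : ℝ} (h0 : 0 ≤ u) (h1 : u * 2 ^ 32 ≤ Y) (h2 : (Y : ℝ) ≤ 2 ^ 33)
    (hs : 0 ≤ s) (h : 1 - u / 6 + u ^ 2 / 120 - u ^ 3 / 5040 ≤ s) : snL2 Y / 2 ^ 32 ≤ s := by
  rw [snL2_eq, Nat.shiftRight_eq_div_pow, Nat.shiftRight_eq_div_pow, Nat.div_div_eq_div_mul,
    Nat.div_div_eq_div_mul, div_le_iff₀ (by norm_num)]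
  have h3 := (xThr_div (Y * Y) (2 ^ 32 * 120) (by norm_num)).1
  have h4 := (xThr_div Y 6 (by norm_num)).2
  have h5 := (xThr_div (Y ^ 3) (2 ^ 64 * 5040) (by norm_num)).2
  generalize Y * Y / (2 ^ 32 * 120) = a at *
  generalize Y ^ 3 / (2 ^ 64 * 5040) = b at *
  generalize Y / 6 = c at *
  rcases le_total (c + b) (4294967294 + a) with h6 | h6
  · obtain ⟨w, hw⟩ : ∃ w : ℝ, (Y : ℝ) = w * 2 ^ 32 := ⟨Y / 2 ^ 32, by field_simp⟩
    have h7 : u ≤ w := by linarith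
    have h8 : 0 ≤ (w - u) * (20 - u - w) := mul_nonneg (by linarith) (by linarith)
    have h9 := pow_le_pow_left₀ h0 h7 3
    rw [Nat.cast_sub h6]
    push_cast at h3 h4 h5 ⊢
    rw [hw] at h3 h4 h5
    linarith
  · rw [Nat.sub_eq_zero_of_le h6, Nat.cast_zero]
    positivity

theorem xThr_ali {x : ℕ} {ρ : ℝ} (h1 : |ρ| ≤ (x : ℝ) / 1961400) (h2 : x ≤ 686490) (γ : ℕ) :
    γ * al ρ ≤ ali γ x ∧ ali γ x ≤ γ / 32 + 3 := by
  rw [ali_eq, show 0x42edf3a05b92a2b8fb922cc71e0240000 = 25 * 1961400 ^ 6 by norm_num]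
  constructor
  · have h3 := (xThr_div (γ * x ^ 6) ((1961400 - x) ^ 6) (pow_pos (by omega) _)).2
    have h4 := (xThr_div (γ * 28 * x ^ 6) (25 * 1961400 ^ 6) (by norm_num)).2
    have h5 : (x : ℝ) ≤ 686490 := by exact_mod_cast h2
    have h0 := abs_nonneg ρ
    have h6 : (|ρ| / (1 - |ρ|)) ^ 6 ≤ (x / (1961400 - x)) ^ 6 := by
      refine pow_le_pow_left₀ (div_nonneg h0 (by linarith)) ?_ 6
      rw [div_le_div_iff₀ (by linarith) (by linarith)]
      linarith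
    have h7 : ρ ^ 6 ≤ (x / 1961400) ^ 6 := by
      rw [← Even.pow_abs (by decide)]
      exact pow_le_pow_left₀ h0 h1 6
    rw [div_pow] at h7
    rw [div_pow (x : ℝ)] at h6
    have h8 := mul_le_mul_of_nonneg_left h6 γ.cast_nonneg
    have h9 := mul_le_mul_of_nonneg_left h7 γ.cast_nonneg
    rw [Nat.cast_pow _ 6, Nat.cast_sub (by omega)] at h3
    generalize γ * x ^ 6 / (1961400 - x) ^ 6 = a at *
    generalize γ * 28 * x ^ 6 / (25 * 1961400 ^ 6) = b at *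
    rw [← mul_div_assoc] at h8
    push_cast at h3 h4 ⊢
    unfold al
    linarith
  · have h3 := Nat.pow_le_pow_left (show 13 * x ≤ 7 * (1961400 - x) by omega) 6
    have h4 := Nat.pow_le_pow_left h2 6
    have h5 := Nat.div_mul_le_self (γ * x ^ 6) ((1961400 - x) ^ 6)
    have h6 := Nat.div_mul_le_self (γ * 28 * x ^ 6) (25 * 1961400 ^ 6)
    have h7 : 0 < (1961400 - x) ^ 6 := pow_pos (by omega) _
    rw [mul_pow, mul_pow] at h3
    generalize γ * x ^ 6 / (1961400 - x) ^ 6 = a at *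
    generalize γ * 28 * x ^ 6 / (25 * 1961400 ^ 6) = b at *
    generalize (1961400 - x) ^ 6 = D at *
    generalize x ^ 6 = X at *
    have h8 : 40 * a ≤ γ := Nat.le_of_mul_le_mul_right (by
      have := Nat.mul_le_mul_left γ (show 40 * X ≤ D by omega)
      linarith) h7
    have h9 : 400 * b ≤ γ := by
      have := Nat.mul_le_mul_left γ h4
      linarith
    omega

theorem stThr : StThr := by
  intro x ρ hρ
  obtain ⟨s1, s2⟩ := xThr_sinc (π * ρ)
  obtain ⟨p1, p2⟩ := xThr_pi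
  have h0 := abs_nonneg ρ
  have u0 := sq_nonneg (π * ρ)
  have e : (π * ρ) ^ 2 = π ^ 2 * |ρ| ^ 2 := by rw [mul_pow, sq_abs]
  have u1 : (π * ρ) ^ 2 ≤ 1.21 := by
    have := pow_le_pow_left₀ h0 hρ 2
    nlinarith
  have h8 : 0.8 ≤ sinc (π * ρ) := by
    generalize (π * ρ) ^ 2 = u at *
    have := pow_le_pow_left₀ u0 u1 3
    nlinarith
  refine ⟨h8, fun h => ?_, fun h hx => ⟨?_, xThr_ali h hx⟩⟩
  · have h1 := (xThr_div (42389628127 * (x * x)) 3847089960000 (by norm_num)).1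
    have h2 := pow_le_pow_left₀ (by positivity) h 2
    have h3 := xThr_U (42389628127 * (x * x) / 3847089960000) (u := (π * ρ) ^ 2) (h1.trans (by
      push_cast
      nlinarith)) (by linarith)
    exact ⟨s1.trans h3.1, h3.2⟩
  · obtain ⟨h1, h2⟩ := xThr_div (42389628128 * (x * x)) 3847089960000 (by norm_num)
    have h3 := pow_le_pow_left₀ h0 h 2
    have h4 : (x : ℝ) * x ≤ 686490 * 686490 := by exact_mod_cast Nat.mul_le_mul hx hx
    rw [snL_eq]
    generalize 42389628128 * (x * x) / 3847089960000 = a at *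
    push_cast at h1 h2
    refine xThr_L _ u0 ?_ ?_ (by linarith) s2 <;> push_cast
    · nlinarith
    · linarith

theorem stXlo : StXlo := by
  intro bw l h1 h2 h3
  have h4 := Nat.div_mul_le_self l bw
  have h5 := Nat.lt_div_mul_add (a := l) h1
  have h6 : l / bw < 256 := Nat.div_lt_of_lt_mul (by linarith)
  have e : |rho (666880 - 128 * bw + l)| = |(l : ℝ) - 128 * bw| / 1961400 := by
    rw [rho, abs_div, Nat.cast_add, Nat.cast_sub (by omega), abs_of_pos (a := 1961400) (by norm_num)]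
    congr 2
    push_cast
    ring
  rw [e, xlo_eq, div_le_div_iff_of_pos_right (by norm_num),
    div_le_div_iff_of_pos_right (by norm_num)]
  generalize l / bw = b at *
  have h7 : (b : ℝ) * bw ≤ l := by exact_mod_cast h4
  have h8 : (l : ℝ) ≤ b * bw + bw := by exact_mod_cast h5.le
  rcases le_or_gt 128 b with h | h
  · obtain ⟨c, rfl⟩ := Nat.exists_eq_add_of_le h
    rw [show 128 + c - 2 ^ 7 + (127 - (128 + c)) = c by omega]
    push_cast at h7 h8 ⊢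
    have : (0 : ℝ) ≤ c * bw := by positivity
    rw [abs_of_nonneg (by linarith)]
    exact ⟨by linarith, by linarith, by nlinarith⟩
  · obtain ⟨c, hc⟩ := Nat.exists_eq_add_of_le (Nat.le_of_lt_succ h)
    rw [show b - 2 ^ 7 + (127 - b) = c by omega]
    have h9 : (b : ℝ) = 127 - c := by rw [eq_sub_iff_add_eq]; exact_mod_cast hc.symm
    rw [h9] at h7 h8
    push_cast
    have : (0 : ℝ) ≤ c * bw := by positivity
    rw [abs_of_nonpos (by linarith)]
    exact ⟨by linarith, by linarith, by nlinarith⟩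

end Pool.Agent.MP_88bd62_nt.B
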