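import Pool.Agent.MP_88bd62_nt.B.Defs

/-! The tree of records is gridded correctly. -/

namespace Pool.Agent.MP_88bd62_nt.B

open Finset Pool.Agent.MP_90395b_gt.Bn

theorem xTree_jn (x y A B : ℕ) (h : pos A ≤ pos B) :
    jn x y (A % 2 ^ 63) (B % 2 ^ 63) * 2 ^ (48 * pos A) =
      x * 2 ^ (48 * pos A) + y * 2 ^ (48 * pos B) := by
  rw [jn_eq, Nat.shiftLeft_eq, Nat.shiftRight_eq_div_pow, Nat.shiftRight_eq_div_pow]
  change (x + y * 2 ^ (48 * (pos B - pos A))) * _ = _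
  rw [add_mul, mul_assoc, ← pow_add, ← mul_add, Nat.sub_add_cancel h]

theorem xTree_low {w n : ℕ} (hw : 63 ≤ w) (hn : 0 < n) (d : ℕ → ℕ) :
    pk w n d &&& (2 ^ 63 - 1) = d 0 % 2 ^ 63 := by
  obtain ⟨k, rfl⟩ := Nat.exists_eq_add_one_of_ne_zero hn.ne'
  obtain ⟨c, rfl⟩ := Nat.exists_eq_add_of_le hw
  rw [Nat.and_two_pow_sub_one_eq_mod, pk_succ, pow_add, mul_assoc, Nat.add_mul_mod_self_left]

/-- `g` grids blocks of `n` records. -/
def xTree_Lev (w : ℕ) (f : ℕ → ℕ → ℕ) (n : ℕ) (g : ℕ → ℕ → ℕ) : Prop :=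
  ∀ d : ℕ → ℕ, Bd n (2 ^ w) d → (∀ a b, a ≤ b → b < n → pos (d a) ≤ pos (d b)) →
    g (pk w n d) (d 0 % 2 ^ 63) * 2 ^ (48 * pos (d 0)) =
      ∑ i ∈ range n, f (d i) (d i % 2 ^ 63) * 2 ^ (48 * pos (d i))

theorem xTree_one (w : ℕ) (f : ℕ → ℕ → ℕ) : xTree_Lev w f 1 f := fun d _ _ => by
  rw [sum_range_one, pk, sum_range_one, mul_zero, pow_zero, mul_one]

theorem xTree_step {w n N s : ℕ} {f g : ℕ → ℕ → ℕ} (h : xTree_Lev w f n g) (hw : 63 ≤ w)
    (hn : 0 < n) (hN : N = n + n) (hs : s = w * n) : xTree_Lev w f N (nw g s (ones s)) := by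
  subst hN hs
  intro d hd hm
  have h1 : Bd n (2 ^ w) d := fun i hi => hd i (by omega)
  have h2 : Bd n (2 ^ w) fun i => d (n + i) := fun i hi => hd _ (by omega)
  have h3 := pk_lt h1
  have e1 : pk w (n + n) d &&& ones (w * n) = pk w n d := by
    rw [ones_eq', Nat.and_two_pow_sub_one_eq_mod, pk_append, Nat.add_mul_mod_self_right,
      Nat.mod_eq_of_lt h3]
  have e2 : pk w (n + n) d >>> (w * n) = pk w n fun i => d (n + i) := by
    rw [Nat.shiftRight_eq_div_pow, pk_append, Nat.add_mul_div_right _ _ (by positivity),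
      Nat.div_eq_of_lt h3, zero_add]
  rw [nw_eq, e1, e2, nwa_eq, nwb_eq, xTree_low hw hn,
    xTree_jn _ _ _ _ (hm 0 (n + 0) (by omega) (by omega)),
    h d h1 fun a b h4 h5 => hm a b h4 (by omega),
    h (fun i => d (n + i)) h2 fun a b h4 h5 => hm _ _ (by omega) (by omega), sum_range_add]

theorem xTree_blk (f : ℕ → ℕ → ℕ) (d : ℕ → ℕ) (hd : Bd 64 (2 ^ 640) d)
    (hm : ∀ a b, a ≤ b → b < 64 → pos (d a) ≤ pos (d b)) :
    blkW f (pk 640 64 d) * 2 ^ (48 * pos (d 0)) =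
      ∑ i ∈ range 64, f (d i) (d i % 2 ^ 63) * 2 ^ (48 * pos (d i)) := by
  have h1 := xTree_step (N := 2) (s := 640) (xTree_one 640 f) (by omega) (by omega) rfl rfl
  have h2 := xTree_step (N := 4) (s := 1280) h1 (by omega) (by omega) rfl rfl
  have h3 := xTree_step (N := 8) (s := 2560) h2 (by omega) (by omega) rfl rfl
  have h4 := xTree_step (N := 16) (s := 5120) h3 (by omega) (by omega) rfl rfl
  have h5 := xTree_step (N := 32) (s := 10240) h4 (by omega) (by omega) rfl rfl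
  have h6 := xTree_step (N := 64) (s := 20480) h5 (by omega) (by omega) rfl rfl
  rw [blkW_eq, xTree_low (by omega) (by omega)]
  exact h6 d hd hm

theorem xTree_main (hB : StBlk) (hP : StPos) (t : Tr) : ∀ m s : ℕ, chkT t m s = true → 64 ∣ m →
    65536 ≤ m → m + s ≤ 131072 → 64 ∣ s ∧ 0 < s ∧ ∃ d : ℕ → ℕ,
      (∀ x ∈ Ico m (m + s), Rec x (d x)) ∧ fstY t = d m % 2 ^ 63 ∧ ∀ f : ℕ → ℕ → ℕ,
        grid f t * 2 ^ (48 * pos (d m)) =
          ∑ x ∈ Ico m (m + s), f (d x) (d x % 2 ^ 63) * 2 ^ (48 * pos (d x)) := by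
  induction t with
  | lf D =>
    intro m s h h1 h2 h3
    rw [chkT_lf, both_iff] at h
    obtain rfl : s = 64 := Nat.eq_of_beq_eq_true h.1
    have hD : D = blkD m := Nat.eq_of_beq_eq_true h.2
    obtain ⟨d, e, hd⟩ := hB m h1 h2 h3
    rw [e] at hD
    refine ⟨dvd_rfl, by omega, fun x => d (x - m), fun x hx => ?_, ?_, fun f => ?_⟩
    · have h4 := mem_Ico.1 hx
      have h5 := hd (x - m) (by omega)
      rwa [Nat.add_sub_cancel' h4.1] at h5
    · rw [fstY_lf, hD, xTree_low (by omega) (by omega)]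
      simp only [Nat.sub_self]
    · rw [grid_lf, hD, sum_Ico_eq_sum_range, Nat.add_sub_cancel_left]
      simp only [Nat.sub_self, Nat.add_sub_cancel_left]
      refine xTree_blk f d (fun i hi => (hP _ _ (by omega) (by omega) (hd i hi)).1)
        fun a b h4 h5 => ?_
      rcases h4.eq_or_lt with rfl | h4
      · exact le_rfl
      · have h6 := (hP _ _ (by omega) (by omega) (hd a (by omega))).2.2.2 (m + b) (d b)
          (by omega) (hd b h5) (by omega)
        omega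
  | nd l r ihl ihr =>
    intro m s h h1 h2 h3
    rw [chkT_nd, both_iff, both_iff] at h
    have h0 : s % 2 = 0 := Nat.eq_of_beq_eq_true h.1
    obtain ⟨k, rfl⟩ : ∃ k, s = k + k := ⟨s / 2, by omega⟩
    have hk : (k + k) / 2 = k := by omega
    rw [hk] at h
    obtain ⟨a1, a2, d, a3, a4, a5⟩ := ihl m k h.2.1 h1 h2 (by omega)
    obtain ⟨-, -, e, b3, b4, b5⟩ := ihr (m + k) k h.2.2 (dvd_add h1 a1) (by omega) (by omega)
    have hm : m < m + k := by omega
    refine ⟨dvd_add a1 a1, by omega, fun x => if x < m + k then d x else e x, fun x hx => ?_, ?_,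
      fun f => ?_⟩
    · have h4 := mem_Ico.1 hx
      by_cases h5 : x < m + k
      · simp only [if_pos h5]
        exact a3 x (mem_Ico.2 ⟨h4.1, h5⟩)
      · simp only [if_neg h5]
        exact b3 x (mem_Ico.2 ⟨by omega, by omega⟩)
    · simp only [if_pos hm]
      rw [fstY_nd, a4]
    · have h6 := (hP _ _ h2 (by omega) (a3 m (mem_Ico.2 ⟨le_rfl, hm⟩))).2.2.2 (m + k) (e (m + k))
        hm (b3 _ (mem_Ico.2 ⟨le_rfl, by omega⟩)) (by omega)
      simp only [if_pos hm]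
      rw [grid_nd, a4, b4, xTree_jn _ _ _ _ (by omega), a5, b5, ← add_assoc m k k,
        ← sum_Ico_consecutive _ hm.le (Nat.le_add_right (m + k) k)]
      refine congrArg₂ (· + ·) (sum_congr rfl fun x hx => ?_) (sum_congr rfl fun x hx => ?_)
      · rw [if_pos (mem_Ico.1 hx).2]
      · rw [if_neg (not_lt.2 (mem_Ico.1 hx).1)]

theorem stTree (hB : StBlk) (hP : StPos) : StTree := by
  intro t ht
  obtain ⟨-, -, d, h1, -, h2⟩ := xTree_main hB hP t 65536 65536 ht (by omega) le_rfl (by omega)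
  have e : 65536 + 65536 = 131072 := rfl
  rw [e] at h1 h2
  refine ⟨d, h1, fun f => ?_⟩
  have h3 := (hP _ _ le_rfl (by omega) (h1 65536 (mem_Ico.2 ⟨le_rfl, by omega⟩))).2.2.1 rfl
  have h4 := h2 f
  rwa [h3, mul_zero, pow_zero, mul_one] at h4

end Pool.Agent.MP_88bd62_nt.B
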