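import Pool.Agent.MP_88bd62_nt.B.Defs

/-! The first window: fourth moments of the inverse of the zeta function. -/

namespace Pool.Agent.MP_88bd62_nt.B

open Finset Real Pool.Agent.MP_90395b_gt.Bn
open Pool.Agent.MP_88bd62_nt.U (sk tk yz NumW Kset)

set_option exponentiation.threshold 1000

/-- The extra margins of the first two lanes. -/
def xW_E (l : ℕ) : ℕ := if l = 0 then 361959227864 else if l = 1 then 38263004647 else 0

theorem xW_E_le (l : ℕ) : xW_E l ≤ 361959227864 := by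
  unfold xW_E; split_ifs <;> omega

theorem xW_e (m : ℕ) : pk 48 (m + 1 + 1) xW_E = 10770078341894409261646296 := by
  rw [pk_succ, pk_succ]
  have : pk 48 m (fun i => xW_E (i + 1 + 1)) = 0 := by
    unfold pk
    refine sum_eq_zero fun i _ => ?_
    have h : xW_E (i + 1 + 1) = 0 := by
      unfold xW_E; rw [if_neg (by omega), if_neg (by omega)]
    beta_reduce
    rw [h, zero_mul]
  rw [this]
  norm_num [xW_E]

/-- The table of fourth powers is consistent. -/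
def xW_OK : List (ℕ × ℕ) → ℝ → Prop
  | [], _ => True
  | p :: L, v => 0 < (p.1 : ℝ) / 2 ^ 22 - 0.02997 ∧
      1024 / (((p.1 : ℝ) / 2 ^ 22 - 0.02997) / 1.5) ^ 4 ≤ v - p.2 ∧
      (∀ q ∈ L, p.1 ≤ q.1) ∧ xW_OK L (v - p.2)

theorem xW_chain (A K μ : ℕ) (x : ℝ)
    (h : ∀ a : ℕ, A + K * a ≤ μ → (a : ℝ) / 2 ^ 22 - 0.02997 ≤ 1.5 * x) :
    ∀ (L : List (ℕ × ℕ)) (v : ℝ), 1024 / x ^ 4 ≤ v → xW_OK L v →
      ((((L.filter fun p => A + K * p.1 ≤ μ).map Prod.snd).sum : ℕ) : ℝ) + 1024 / x ^ 4 ≤ v := by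
  intro L
  induction L with
  | nil => intro v hv _; simpa using hv
  | cons p L ih =>
    intro v hv ⟨h0, h1, h2, h3⟩
    by_cases hp : A + K * p.1 ≤ μ
    · rw [List.filter_cons_of_pos (by simpa using hp), List.map_cons, List.sum_cons, Nat.cast_add]
      have hx : ((p.1 : ℝ) / 2 ^ 22 - 0.02997) / 1.5 ≤ x := by
        rw [div_le_iff₀ (by norm_num)]; linarith [h _ hp]
      have hz : 0 < ((p.1 : ℝ) / 2 ^ 22 - 0.02997) / 1.5 := div_pos h0 (by norm_num)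
      have h4 : 1024 / x ^ 4 ≤ 1024 / (((p.1 : ℝ) / 2 ^ 22 - 0.02997) / 1.5) ^ 4 :=
        div_le_div_of_nonneg_left (by norm_num) (pow_pos hz 4) (pow_le_pow_left₀ hz.le hx 4)
      linarith [ih (v - p.2) (h4.trans h1) h3]
    · have : ((p :: L).filter fun p => A + K * p.1 ≤ μ) = [] := by
        rw [List.filter_eq_nil_iff]
        intro q hq
        have hq1 : p.1 ≤ q.1 := by
          rcases List.mem_cons.1 hq with rfl | hq
          · exact le_rfl
          · exact h2 q hq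
        have := Nat.mul_le_mul_left K hq1
        simp only [decide_eq_true_eq]
        omega
      rw [this]
      simpa using hv

theorem xW_LW : xW_OK LW 640000 := by
  simp only [LW, xW_OK, List.mem_cons, List.not_mem_nil, forall_eq_or_imp, or_false, forall_eq]
  norm_num

theorem xW_sum (P : ℕ × ℕ → Bool) (L : List (ℕ × ℕ)) :
    ((L.filter P).map Prod.snd).sum ≤ (L.map Prod.snd).sum := by
  induction L with
  | nil => simp
  | cons p L ih =>
    rw [List.filter_cons]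
    split_ifs
    · simp only [List.map_cons, List.sum_cons]; omega
    · simp only [List.map_cons, List.sum_cons]; omega

/-- The digits of the program. -/
theorem xW_dig (hM : StMd) (hK : StCls) (hF : StFinW) {n o Q s N α β γ : ℕ}
    {y : ℕ → GaussianInt} (hn : n = 256 * 2 ^ 12) (hs : s = 48 * n) (ho : 6844416 = 48 * o)
    (hq : 100991616 = 48 * (o + Q)) (hO : Out Q N y) (hα : α ≤ 2 ^ 24)
    (hA : Bd n (2 ^ 45) fun l => thB (2 ^ 12) 0 β γ (l / 2 ^ 12) + xW_E l)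
    (hKw : Bd n (2 ^ 21) fun l => kW (l / 2 ^ 12))
    (h : winW2 α β γ 10770078341894409261646296 LW (ones s) (ones s / (2 ^ 48 - 1)) N = true) :
    ∃ μ u : ℕ → ℕ, (∀ l < n, (μ l : ℝ) ≤ ‖(y (o + l) : ℂ)‖) ∧
      (∀ l < n, thB (2 ^ 12) 0 β γ (l / 2 ^ 12) + xW_E l + kW (l / 2 ^ 12) * α ≤ μ l) ∧
      (∀ l, u l = ((LW.filter fun p => thB (2 ^ 12) 0 β γ (l / 2 ^ 12) + xW_E l
        + kW (l / 2 ^ 12) * p.1 ≤ μ l).map Prod.snd).sum) ∧
      ∑ m ∈ range (2 ^ 20), (640000 - u m : ℝ) / (2 * m + 1) ≤ 215040 ∧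
      ∀ i < 16, ∑ m ∈ Ico (2 ^ 16 * i) (2 ^ 16 * (i + 1)), (640000 - u m : ℝ) ≤ 1409286144 := by
  have hQ : o + n ≤ Q := by omega
  obtain ⟨μ, hμ, hμ2⟩ := hM Q o n N y hQ hO
  have he : 10770078341894409261646296 = pk 48 n xW_E := by
    obtain ⟨m, hm⟩ : ∃ m, n = m + 1 + 1 := ⟨n - 2, by omega⟩
    rw [hm, xW_e]
  rw [winW2_eq, winW3_eq, both_iff, Nat.beq_eq, hs, ones_div (by norm_num), ho, hq, hμ, band_pk,
    band_pk, ← hn, he, pk_add'] at h
  have hB : Bd n (2 ^ 46) μ := by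
    intro l hl
    have h1 := (hμ2 l hl).trans (hO.2 (o + l) (by omega))
    have h2 : (μ l : ℝ) < (2 ^ 46 : ℕ) := lt_of_le_of_lt h1 (by norm_num)
    exact_mod_cast h2
  obtain ⟨c1, c2⟩ := hK n α LW μ _ _ hB hA hKw hα (by decide) _ _ rfl rfl
  rw [c2] at h
  refine ⟨μ, _, hμ2, c1 h.1, fun l => rfl, hF n _ (by omega) (fun l _ => ?_) h.2⟩
  exact (xW_sum _ _).trans (by decide)

/-- The facts on one lane. -/
theorem xW_rho (hT : StThr) (hX : StXlo) {l : ℕ} (hl : l < 256 * 2 ^ 12) (γ : ℕ) :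
    |rho (142592 + l)| ≤ 0.35 ∧ 0.8 ≤ sinc (π * rho (142592 + l)) ∧
      sinc (π * rho (142592 + l)) ≤ snU (xlo (2 ^ 12) (l / 2 ^ 12)) / 2 ^ 32 ∧
      snU (xlo (2 ^ 12) (l / 2 ^ 12)) ≤ 2 ^ 32 + 1 ∧
      γ * al (rho (142592 + l)) ≤ ali γ (xlo (2 ^ 12) (l / 2 ^ 12) + 2 ^ 12) ∧
      ali γ (xlo (2 ^ 12) (l / 2 ^ 12) + 2 ^ 12) ≤ γ / 32 + 3 := by
  obtain ⟨h1, h2, h3⟩ := hX (2 ^ 12) l (by norm_num) (by norm_num) hl
  rw [show 666880 - 128 * 2 ^ 12 + l = 142592 + l by norm_num] at h1 h2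
  generalize xlo (2 ^ 12) (l / 2 ^ 12) = x at *
  generalize rho (142592 + l) = ρ at *
  have h4 : |ρ| ≤ 0.35 := by
    refine h2.trans ?_
    have : ((x + 2 ^ 12 : ℕ) : ℝ) ≤ (666880 : ℕ) := by exact_mod_cast h3
    rw [div_le_iff₀ (by norm_num)]
    refine this.trans (by norm_num)
  obtain ⟨a1, a2, -⟩ := hT x ρ h4
  obtain ⟨-, -, a3⟩ := hT (x + 2 ^ 12) ρ h4
  obtain ⟨a4, a5⟩ := a2 h1
  obtain ⟨a6, a7⟩ := (a3 h2 (by omega)).2 γ
  exact ⟨h4, a1, a4, a5, a6, a7⟩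

theorem xW_bdA (hT : StThr) (hX : StXlo) : Bd (256 * 2 ^ 12) (2 ^ 45)
    fun l => thB (2 ^ 12) 0 13545983256 28807204647732 (l / 2 ^ 12) + xW_E l := by
  intro l hl
  obtain ⟨-, -, -, h4, -, h6⟩ := xW_rho hT hX hl 28807204647732
  have hE := xW_E_le l
  beta_reduce
  rw [thB_eq, zero_add, Nat.shiftRight_eq_div_pow]
  generalize snU (xlo (2 ^ 12) (l / 2 ^ 12)) = s at *
  generalize ali 28807204647732 (xlo (2 ^ 12) (l / 2 ^ 12) + 2 ^ 12) = a at *
  have h7 : s ^ 6 ≤ 2 * 2 ^ 192 := (Nat.pow_le_pow_left h4 6).trans (by norm_num)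
  have h8 : a * s ^ 6 / 2 ^ 192 ≤ a * 2 := by
    refine Nat.div_le_of_le_mul ?_
    calc a * s ^ 6 ≤ a * (2 * 2 ^ 192) := Nat.mul_le_mul_left _ h7
      _ = 2 ^ 192 * (a * 2) := by ring
  generalize a * s ^ 6 / 2 ^ 192 = c at *
  omega

theorem xW_bdK (hT : StThr) (hX : StXlo) : Bd (256 * 2 ^ 12) (2 ^ 21)
    fun l => kW (l / 2 ^ 12) := by
  intro l hl
  obtain ⟨-, -, -, h4, -, -⟩ := xW_rho hT hX hl 0
  beta_reduce
  rw [kW_eq, Nat.shiftRight_eq_div_pow]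
  generalize snU (xlo (2 ^ 12) (l / 2 ^ 12)) = s at *
  have h7 : s ^ 6 / 2 ^ 172 ≤ (2 ^ 32 + 1) ^ 6 / 2 ^ 172 :=
    Nat.div_le_div_right (Nat.pow_le_pow_left h4 6)
  have h8 : (2 ^ 32 + 1) ^ 6 / 2 ^ 172 = 2 ^ 20 := by norm_num
  generalize s ^ 6 / 2 ^ 172 = c at *
  omega

theorem xW_div (a c : ℕ) (hc : 0 < c) : (a : ℝ) / c - 1 ≤ (a / c : ℕ) := by
  have h := Nat.lt_div_mul_add (a := a) hc
  have h2 : (a : ℝ) < (a / c : ℕ) * c + c := by exact_mod_cast h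
  have hc' : (0 : ℝ) < c := by exact_mod_cast hc
  rw [sub_le_iff_le_add, div_le_iff₀ hc']
  linarith

/-- The modulus of the polynomial in a lane that passes a threshold. -/
theorem xW_lane (hT : StThr) (hX : StXlo) {l : ℕ} (hl : l < 256 * 2 ^ 12) {a μ : ℕ} {w Z : ℝ}
    (hw : (μ : ℝ) ≤ w)
    (hc : |w / 2 ^ 42 - KK (rho (142592 + l)) * Z| ≤
      KK (rho (142592 + l)) * 6.55 * (al (rho (142592 + l)) + 0.00027) + (0.00021 * 6.55 + 0.0017))
    (h : thB (2 ^ 12) 0 13545983256 28807204647732 (l / 2 ^ 12) + xW_E l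
      + kW (l / 2 ^ 12) * a ≤ μ) :
    (a : ℝ) / 2 ^ 22 - 0.00177 + xW_E l / 2 ^ 42 ≤ Z := by
  obtain ⟨h1, h2, h3, -, h5, -⟩ := xW_rho hT hX hl 28807204647732
  rw [thB_eq, kW_eq, zero_add, Nat.shiftRight_eq_div_pow, Nat.shiftRight_eq_div_pow] at h
  have hal : 0 ≤ al (rho (142592 + l)) := by
    unfold al
    have := abs_nonneg (rho (142592 + l))
    have h9 : 0 ≤ 1 - |rho (142592 + l)| := by linarith
    positivity
  have hK1 : KK (rho (142592 + l)) ≤ 1 :=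
    pow_le_one₀ (by linarith) (sinc_le_one _)
  have hK0 : 0 < KK (rho (142592 + l)) := pow_pos (by linarith) 6
  have hKs : KK (rho (142592 + l)) ≤
      ((snU (xlo (2 ^ 12) (l / 2 ^ 12)) ^ 6 : ℕ) : ℝ) / 2 ^ 192 := by
    refine (pow_le_pow_left₀ (by linarith) h3 6).trans (le_of_eq ?_)
    rw [div_pow, Nat.cast_pow, ← pow_mul]
  generalize snU (xlo (2 ^ 12) (l / 2 ^ 12)) ^ 6 = s at *
  generalize ali 28807204647732 (xlo (2 ^ 12) (l / 2 ^ 12) + 2 ^ 12) = b at *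
  generalize KK (rho (142592 + l)) = κ at *
  generalize al (rho (142592 + l)) = A at *
  generalize xW_E l = E at *
  have d1 := xW_div (b * s) (2 ^ 192) (by positivity)
  have d2 := xW_div s (2 ^ 172) (by positivity)
  generalize b * s / 2 ^ 192 = c1 at h d1
  generalize s / 2 ^ 172 = c2 at h d2
  have h' : (c1 : ℝ) + 13545983256 + E + (c2 + 1) * a ≤ μ := by exact_mod_cast h
  push_cast at d1 d2 h5
  have hb : (0 : ℝ) ≤ b := Nat.cast_nonneg _
  have ha : (0 : ℝ) ≤ a := Nat.cast_nonneg _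
  have hE : (0 : ℝ) ≤ E := Nat.cast_nonneg _
  have e1 : 28807204647732 * A * κ - 1 ≤ c1 := by
    have : 28807204647732 * A * κ ≤ b * (s / 2 ^ 192) :=
      mul_le_mul h5 hKs hK0.le hb
    rw [← mul_div_assoc] at this
    norm_num at this d1 ⊢
    linarith
  have e2 : 2 ^ 20 * κ * a ≤ (c2 + 1) * a := by
    refine mul_le_mul_of_nonneg_right ?_ ha
    norm_num at hKs d2 ⊢
    linarith
  have e3 : κ * E ≤ E := mul_le_of_le_one_left hE hK1
  have e4 : 0 ≤ A * κ := mul_nonneg hal hK0.le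
  have e5 := (abs_le.1 hc).2
  refine le_of_mul_le_mul_left ?_ hK0
  nlinarith

theorem xW_tail (hZ : StTailB) {l : ℕ} (hl : l < 256 * 2 ^ 12) :
    ‖ZN OS (2 * l + 1)‖ - 0.0282 - xW_E l / 2 ^ 42 ≤ 1.5 * ‖riemannZeta (sk (2 * l + 1))‖ := by
  obtain ⟨h1, h2⟩ := hZ (2 * l + 1) ⟨l, rfl⟩
  have hl0 : (0 : ℝ) ≤ l := Nat.cast_nonneg _
  have hab : |((2 * (l : ℤ) + 1 : ℤ) : ℝ)| = 2 * l + 1 := by
    push_cast; exact abs_of_nonneg (by linarith)
  have habz : |2 * (l : ℤ) + 1| = 2 * l + 1 := abs_of_nonneg (by omega)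
  rw [hab, habz] at h1 h2
  have h3 : ‖3 / 2 * riemannZeta (sk (2 * l + 1)) - ZN OS (2 * l + 1)‖
      ≤ 0.0282 + xW_E l / 2 ^ 42 := by
    have hE : (0 : ℝ) ≤ xW_E l / 2 ^ 42 := by positivity
    rcases le_total 555 (2 * (l : ℤ) + 1) with h | h
    · refine (h1 h (by omega)).trans ?_
      unfold tl
      have h4 : (l : ℝ) + 1 ≤ 1048576 := by exact_mod_cast hl
      have h5 : √(2 * (l : ℝ) + 1) ≤ 1449 := by
        rw [sqrt_le_iff]; constructor <;> linarith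
      linarith
    · refine (h2 h).trans ?_
      rcases l with _ | _ | l
      · norm_num [xW_E]
      · norm_num [xW_E]
      · have h4 : (0.1104 : ℝ) / (2 * ((l + 1 + 1 : ℕ) : ℝ) + 1) ≤ 0.1104 / 5 := by
          refine div_le_div_of_nonneg_left (by norm_num) (by norm_num) ?_
          push_cast
          linarith [Nat.cast_nonneg (α := ℝ) l]
        linarith
  have h6 := norm_sub_norm_le (ZN OS (2 * l + 1)) (3 / 2 * riemannZeta (sk (2 * l + 1)))
  rw [norm_sub_rev, norm_mul] at h6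
  have h7 : ‖(3 / 2 : ℂ)‖ = 1.5 := by norm_num
  rw [h7] at h6
  linarith

theorem xW_neg (k : ℤ) : ‖riemannZeta (sk (-k))‖ = ‖riemannZeta (sk k)‖ := by
  have : sk (-k) = (starRingEnd ℂ) (sk k) := by
    have h : tk (-k) = -tk k := by unfold tk; push_cast; ring
    unfold sk
    rw [h, map_add, map_one, map_mul, Complex.conj_ofReal, Complex.conj_I]
    push_cast; ring
  rw [this, riemannZeta_conj, Complex.norm_conj]

theorem stW (hC : StCore) (hG : StGam) (hT : StThr) (hX : StXlo) (hM : StMd) (hK : StCls)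
    (hF : StFinW) (hZ : StTailB) : StW := by
  intro t d hD h
  have hfil : (Ico 65536 131072).filter (fun m => nn m ∈ OS) = Ico 65536 131072 :=
    filter_true_of_mem hG.2.2.2
  obtain ⟨y, hO, hCa⟩ := hC OS 6.55 1048577 d Subset.rfl hG.1 le_rfl (by decide) (by norm_num)
    hD.1 (grid (leafB 1048577) t) (by rw [hfil]; exact hD.2 _)
  rw [winW_eq] at h
  generalize cnv0 94147200 1400 (grid (leafB 1048577) t) = N at h hO
  obtain ⟨μ, u, h1, h2, h3, h4, h5⟩ := xW_dig hM hK hF (n := 256 * 2 ^ 12) (o := 142592) rfl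
    (by norm_num) (by norm_num) (by norm_num) hO (by norm_num) (xW_bdA hT hX) (xW_bdK hT hX) h
  have key : ∀ l < 256 * 2 ^ 12, ∀ a : ℕ,
      thB (2 ^ 12) 0 13545983256 28807204647732 (l / 2 ^ 12) + xW_E l
        + kW (l / 2 ^ 12) * a ≤ μ l →
      (a : ℝ) / 2 ^ 22 - 0.02997 ≤ 1.5 * ‖riemannZeta (sk (2 * l + 1))‖ := by
    intro l hl a ha
    have c := hCa (142592 + l) (by omega) (xW_rho hT hX hl 0).1
    rw [show ((1048577 : ℕ) : ℤ) + 2 * (((142592 + l : ℕ) : ℤ) - 666880) = 2 * l + 1 by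
      push_cast; ring] at c
    linarith [xW_lane hT hX hl (h1 l hl) c ha, xW_tail hZ hl]
  have low : ∀ l : ℕ, l < 256 * 2 ^ 12 → 1 / 5 ≤ ‖riemannZeta (sk (2 * l + 1))‖ := by
    intro l hl
    have := key l hl _ (h2 l hl)
    norm_num at this ⊢
    linarith
  have four : ∀ l : ℕ, l < 256 * 2 ^ 12 → 1024 * yz (2 * l + 1) ^ 4 ≤ 640000 - u l := by
    intro l hl
    have h6 := low l hl
    have h7 : 1024 / ‖riemannZeta (sk (2 * l + 1))‖ ^ 4 ≤ 640000 := by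
      refine (div_le_div_of_nonneg_left (by norm_num) (by norm_num)
        (pow_le_pow_left₀ (by norm_num) h6 4)).trans (by norm_num)
    have h8 := xW_chain _ _ _ _ (key l hl) LW 640000 h7 xW_LW
    rw [← h3 l] at h8
    rw [yz, div_pow, one_pow, mul_one_div]
    linarith
  refine ⟨fun k hk => ?_, ?_, fun i hi => ?_⟩
  · rw [Kset, mem_filter, mem_Ioo] at hk
    obtain ⟨⟨k1, k2⟩, j, hj⟩ := hk
    have hN : ((2 ^ 20 : ℕ) : ℤ) = 1048576 := by norm_num
    rw [hN] at k1 k2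
    rcases le_total 0 k with k0 | k0
    · have := low j.toNat (by omega)
      rwa [show 2 * ((j.toNat : ℕ) : ℤ) + 1 = k by omega] at this
    · have := low (-j - 1).toNat (by omega)
      rwa [show 2 * (((-j - 1).toNat : ℕ) : ℤ) + 1 = -k by omega, xW_neg] at this
  · have : 1024 * ∑ m ∈ range (2 ^ 20), yz (2 * m + 1) ^ 4 / (2 * m + 1) ≤ 215040 := by
      refine le_trans ?_ h4
      rw [mul_sum]
      refine sum_le_sum fun m hm => ?_
      rw [← mul_div_assoc]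
      exact div_le_div_of_nonneg_right (four m (by have := mem_range.1 hm; omega)) (by positivity)
    linarith
  · have : 1024 * ∑ m ∈ Ico (2 ^ 16 * i) (2 ^ 16 * (i + 1)), yz (2 * (m : ℕ) + 1) ^ 4
        ≤ 1409286144 := by
      refine le_trans ?_ (h5 i hi)
      rw [mul_sum]
      exact sum_le_sum fun m hm => four m (by have := (mem_Ico.1 hm).2; omega)
    linarith

end Pool.Agent.MP_88bd62_nt.B
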