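import Pool.Agent.MP_88bd62_nt.B.Defs

/-! The two tests on a window. -/

namespace Pool.Agent.MP_88bd62_nt.B

open Finset Real Pool.Agent.MP_90395b_gt.Bn Pool.Agent.MP_88bd62_nt.U

set_option exponentiation.threshold 1000

theorem xWinB_win (hD : StDirs) (th : ℕ → ℕ) (bw X : ℕ) (y : ℕ → GaussianInt) (h2 : bw ≤ 5210)
    (hO : Out 1961400 (cnv0 94147200 1400 X) y)
    (hB : Bd (256 * bw) (2 ^ 36) fun l => th (l / bw)) (c : ℕ)
    (hc : c = win2 th bw X (ones (12288 * bw)) (ones (12288 * bw) / (2 ^ 48 - 1))) :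
    (c = (ones (12288 * bw) / (2 ^ 48 - 1)) <<< 47 → ∀ l < 256 * bw,
      164 * (th (l / bw) : ℝ) ≤ ‖(y (666880 - 128 * bw + l) : ℂ)‖) ∧
    (c = 0 → ∀ l < 256 * bw,
      0 < th (l / bw) ∧ ‖(y (666880 - 128 * bw + l) : ℂ)‖ ≤ 168.6 * th (l / bw)) := by
  rw [win2_eq, band_pk] at hc
  generalize cnv0 94147200 1400 X = N at hO hc
  have e1 : 12288 * bw = 48 * (256 * bw) := by ring
  have e2 : (2 : ℕ) ^ 7 = 128 := by norm_num
  have e3 : 94147200 = 48 * 1961400 := by norm_num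
  rw [e1, ones_div (by norm_num), e2, e3] at hc
  rw [e1, ones_div (by norm_num)]
  exact hD 1961400 (666880 - 128 * bw) (256 * bw) N y _ (by omega) hO hB c hc

theorem xWinB_al (ρ : ℝ) : 0 ≤ al ρ := by
  unfold al
  positivity

theorem xWinB_arg (k bw l : ℕ) (h2 : bw ≤ 5210) :
    (k : ℤ) + 2 * (((666880 - 128 * bw + l : ℕ) : ℤ) - 666880) = k + 2 * ((l : ℤ) - 128 * bw) := by
  omega

/-- The facts on a lane of the band. -/
theorem xWinB_lane (hT : StThr) (hX : StXlo) {bw l : ℕ} (h1 : 1 ≤ bw) (h2 : bw ≤ 5210)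
    (hl : l < 256 * bw) (γ : ℕ) (ρ : ℝ) (hρ : ρ = rho (666880 - 128 * bw + l)) :
    |ρ| ≤ 0.35 ∧ 0 < KK ρ ∧ KK ρ * 2 ^ 192 ≤ (snU (xlo bw (l / bw)) ^ 6 : ℕ) ∧
      snU (xlo bw (l / bw)) ≤ 2 ^ 32 + 1 ∧
      ((snL (xlo bw (l / bw) + bw) ^ 6 : ℕ) : ℝ) ≤ KK ρ * 2 ^ 192 ∧
      snL (xlo bw (l / bw) + bw) ≤ 2 ^ 32 ∧
      γ * al ρ ≤ ali γ (xlo bw (l / bw) + bw) ∧ ali γ (xlo bw (l / bw) + bw) ≤ γ / 32 + 3 := by
  obtain ⟨a1, a2, a3⟩ := hX bw l h1 h2 hl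
  rw [← hρ] at a1 a2
  generalize xlo bw (l / bw) = x at a1 a2 a3
  have a4 : |ρ| ≤ 0.35 := by
    have : ((x + bw : ℕ) : ℝ) ≤ 666880 := by exact_mod_cast a3
    refine a2.trans ?_
    rw [div_le_iff₀ (by norm_num)]
    linarith
  obtain ⟨b1, b2, -⟩ := hT x ρ a4
  obtain ⟨-, -, b3⟩ := hT (x + bw) ρ a4
  obtain ⟨b4, b5⟩ := b2 a1
  obtain ⟨b6, b7⟩ := b3 a2 (by omega)
  have b8 := sinc_le_one (π * ρ)
  unfold KK
  generalize sinc (π * ρ) = s at b1 b4 b6 b8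
  have s0 : 0 < s := by linarith
  rw [le_div_iff₀ (by norm_num)] at b4
  rw [div_le_iff₀ (by norm_num)] at b6
  have e : s ^ 6 * 2 ^ 192 = (s * 2 ^ 32) ^ 6 := by
    rw [mul_pow, ← pow_mul]
  refine ⟨a4, by positivity, ?_, b5, ?_, ?_, b7 γ⟩
  · rw [e, Nat.cast_pow]
    exact pow_le_pow_left₀ (by positivity) b4 6
  · rw [e, Nat.cast_pow]
    exact pow_le_pow_left₀ (by positivity) b6 6
  · have : (snL (x + bw) : ℝ) ≤ (2 ^ 32 : ℕ) := by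
      push_cast
      linarith
    exact_mod_cast this

theorem xWinB_lo (a : ℕ) : (a : ℝ) < ((a >>> 192 : ℕ) + 1) * 2 ^ 192 := by
  rw [Nat.shiftRight_eq_div_pow]
  have h := Nat.lt_mul_div_succ a (show 0 < 2 ^ 192 by positivity)
  rw [mul_comm] at h
  exact_mod_cast h

theorem xWinB_hi (a : ℕ) : ((a >>> 192 : ℕ) : ℝ) * 2 ^ 192 ≤ a := by
  rw [Nat.shiftRight_eq_div_pow]
  exact_mod_cast Nat.div_mul_le_self a (2 ^ 192)

theorem xWinB_B {K a Z Y z α β γ A T : ℝ} (hK : 0 < K) (ha : 0 ≤ a)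
    (h1 : (z + 0.00177) * 2 ^ 42 ≤ 164 * α) (h2 : 6.55 * 2 ^ 42 ≤ 164 * γ)
    (h3 : 0.00308 * 2 ^ 42 ≤ 164 * β) (h4 : γ * a ≤ A) (h5 : (α + A) * K - 1 + β ≤ T)
    (h6 : 164 * T ≤ Y)
    (h7 : |Y / 2 ^ 42 - K * Z| ≤ K * 6.55 * (a + 0.00027) + (0.00021 * 6.55 + 0.0017)) :
    z ≤ Z := by
  have b1 := mul_le_mul_of_nonneg_right h2 ha
  have b2 : 6.55 * 2 ^ 42 * a ≤ 164 * A := by linarith
  have b3 := mul_le_mul_of_nonneg_right b2 hK.le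
  have b4 := mul_le_mul_of_nonneg_right h1 hK.le
  have b5 := (abs_le.1 h7).2
  refine le_of_mul_le_mul_left ?_ hK
  linarith

theorem xWinB_C {K a Z Y V α β γ A T : ℝ} (hK : 0 < K) (ha : 0 ≤ a)
    (h1 : 168.6 * α ≤ (V - 0.00059) * 2 ^ 42) (h2 : 2.17 * 2 ^ 42 ≤ 168.6 * γ)
    (h3 : 0.00216 * 2 ^ 42 ≤ 168.6 * β) (h4 : γ * a ≤ A) (h5 : T ≤ (α - A) * K - β)
    (h6 : Y ≤ 168.6 * T)
    (h7 : |Y / 2 ^ 42 - K * Z| ≤ K * 2.17 * (a + 0.00027) + (0.00021 * 2.17 + 0.0017)) :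
    Z ≤ V := by
  have b1 := mul_le_mul_of_nonneg_right h2 ha
  have b2 : 2.17 * 2 ^ 42 * a ≤ 168.6 * A := by linarith
  have b3 := mul_le_mul_of_nonneg_right b2 hK.le
  have b4 := mul_le_mul_of_nonneg_right h1 hK.le
  have b5 := (abs_le.1 h7).1
  refine le_of_mul_le_mul_left ?_ hK
  linarith

theorem stWinB (hC : StCore) (hG : StGam) (hT : StThr) (hX : StXlo) (hD : StDirs) : StWinB := by
  intro t d bw k α β γ z hd h1 h2 hk hk' hα hβ hγ c1 c2 c3 hw l hl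
  obtain ⟨g1, -, -, g4⟩ := hG
  obtain ⟨y, hO, hy⟩ := hC OS 6.55 k d Subset.rfl g1 le_rfl hk hk' hd.1 (grid (leafB k) t)
    (by rw [filter_true_of_mem g4]; exact hd.2 _)
  rw [winB_eq, winB1_eq, winB2_eq] at hw
  have hB : Bd (256 * bw) (2 ^ 36) fun l => thB bw α β γ (l / bw) := by
    intro i hi
    obtain ⟨-, -, -, a4, -, -, -, a8⟩ := xWinB_lane hT hX h1 h2 hi γ _ rfl
    beta_reduce
    rw [thB_eq, Nat.shiftRight_eq_div_pow]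
    have b1 : (α + ali γ (xlo bw (i / bw) + bw)) * snU (xlo bw (i / bw)) ^ 6 ≤
        (2 ^ 34 + 2 ^ 33 + 3) * (2 ^ 32 + 1) ^ 6 :=
      Nat.mul_le_mul (by omega) (Nat.pow_le_pow_left a4 6)
    have b2 := (Nat.div_lt_iff_lt_mul (show 0 < 2 ^ 192 by positivity)).2
      (b1.trans_lt (show _ < 2 ^ 35 * 2 ^ 192 by norm_num))
    omega
  have h3 := (xWinB_win hD _ bw _ y h2 hO hB _ rfl).1 (Nat.eq_of_beq_eq_true hw) l hl
  obtain ⟨a1, a2, a3, -, -, -, a7, -⟩ := xWinB_lane hT hX h1 h2 hl γ _ rfl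
  have h4 := hy _ (by omega) a1
  rw [xWinB_arg k bw l h2] at h4
  refine xWinB_B a2 (xWinB_al _) c1 c2 c3 a7 ?_ h3 h4
  rw [thB_eq, Nat.cast_add]
  have b1 := xWinB_lo ((α + ali γ (xlo bw (l / bw) + bw)) * snU (xlo bw (l / bw)) ^ 6)
  rw [Nat.cast_mul, Nat.cast_add] at b1
  have b2 := (mul_le_mul_of_nonneg_left a3
    (show (0 : ℝ) ≤ α + ali γ (xlo bw (l / bw) + bw) by positivity)).trans_lt b1
  rw [← mul_assoc] at b2
  have b3 := lt_of_mul_lt_mul_right b2 (by positivity)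
  linarith

theorem stWinC (hC : StCore) (hG : StGam) (hT : StThr) (hX : StXlo) (hD : StDirs)
    (hP : StPoint) : StWinC := by
  intro t d bw k α β γ V hd h1 h2 hk hk' hα c1 c2 c3 hw l hl
  obtain ⟨-, g2, g3, -⟩ := hG
  obtain ⟨y, hO, hy⟩ := hC (Pr 16) 2.17 k d g3 g2 (by norm_num) hk hk' hd.1 (grid (leafC k) t) (by
    rw [hd.2, sum_filter]
    refine sum_congr rfl fun m hm => ?_
    rw [(hP k m (d m) hk' (mem_Ico.1 hm).1 (mem_Ico.1 hm).2 (hd.1 m hm)).1, ite_mul, zero_mul])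
  rw [winC_eq, winC1_eq] at hw
  have hB : Bd (256 * bw) (2 ^ 36) fun l => thC bw α β γ (l / bw) := by
    intro i hi
    obtain ⟨-, -, -, -, -, a6, -, -⟩ := xWinB_lane hT hX h1 h2 hi γ _ rfl
    beta_reduce
    rw [thC_eq, Nat.shiftRight_eq_div_pow]
    have b1 : (α - ali γ (xlo bw (i / bw) + bw)) * snL (xlo bw (i / bw) + bw) ^ 6 ≤
        2 ^ 35 * (2 ^ 32) ^ 6 :=
      Nat.mul_le_mul (by omega) (Nat.pow_le_pow_left a6 6)
    have b2 := (Nat.div_lt_iff_lt_mul (show 0 < 2 ^ 192 by positivity)).2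
      (b1.trans_lt (show _ < 2 ^ 36 * 2 ^ 192 by norm_num))
    omega
  obtain ⟨h3, h3'⟩ := (xWinB_win hD _ bw _ y h2 hO hB _ rfl).2 (Nat.eq_of_beq_eq_true hw) l hl
  obtain ⟨a1, a2, -, -, a5, -, a7, -⟩ := xWinB_lane hT hX h1 h2 hl γ _ rfl
  have h4 := hy _ (by omega) a1
  rw [xWinB_arg k bw l h2] at h4
  refine xWinB_C a2 (xWinB_al _) c1 c2 c3 a7 ?_ h3' h4
  rw [thC_eq] at h3 ⊢
  have b0 : ali γ (xlo bw (l / bw) + bw) ≤ α := by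
    by_contra h
    rw [Nat.sub_eq_zero_of_le (not_le.1 h).le, zero_mul, Nat.zero_shiftRight, Nat.zero_sub] at h3
    exact lt_irrefl _ h3
  rw [Nat.cast_sub (Nat.lt_of_sub_pos h3).le]
  have b1 := xWinB_hi ((α - ali γ (xlo bw (l / bw) + bw)) * snL (xlo bw (l / bw) + bw) ^ 6)
  rw [Nat.cast_mul, Nat.cast_sub b0] at b1
  have b2 := b1.trans (mul_le_mul_of_nonneg_left a5
    (show (0 : ℝ) ≤ α - ali γ (xlo bw (l / bw) + bw) from sub_nonneg.2 (by exact_mod_cast b0)))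
  rw [← mul_assoc] at b2
  have b3 := le_of_mul_le_mul_right b2 (by positivity)
  linarith

end Pool.Agent.MP_88bd62_nt.B
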