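import Pool.Agent.MP_88bd62_nt.B.Tab
import Pool.Agent.MP_88bd62_nt.B.Sc
import Pool.Agent.MP_88bd62_nt.B.Lf1
import Pool.Agent.MP_88bd62_nt.B.SplA
import Pool.Agent.MP_88bd62_nt.B.Item
import Pool.Agent.MP_88bd62_nt.B.Flg
import Pool.Agent.MP_88bd62_nt.B.Log
import Pool.Agent.MP_88bd62_nt.B.Blk
import Pool.Agent.MP_88bd62_nt.B.Tree
import Pool.Agent.MP_88bd62_nt.B.Rot
import Pool.Agent.MP_88bd62_nt.B.Point
import Pool.Agent.MP_88bd62_nt.B.Sep
import Pool.Agent.MP_88bd62_nt.B.Conv
import Pool.Agent.MP_88bd62_nt.B.Comb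
import Pool.Agent.MP_88bd62_nt.B.Kern
import Pool.Agent.MP_88bd62_nt.B.Cnv
import Pool.Agent.MP_88bd62_nt.B.SplB
import Pool.Agent.MP_88bd62_nt.B.Fold
import Pool.Agent.MP_88bd62_nt.B.Core
import Pool.Agent.MP_88bd62_nt.B.Thr
import Pool.Agent.MP_88bd62_nt.B.Dirs
import Pool.Agent.MP_88bd62_nt.B.WinB
import Pool.Agent.MP_88bd62_nt.B.Md
import Pool.Agent.MP_88bd62_nt.B.FinW
import Pool.Agent.MP_88bd62_nt.B.TailB
import Pool.Agent.MP_88bd62_nt.B.W
import Pool.Agent.MP_88bd62_nt.B.Cov
import Pool.Agent.MP_88bd62_nt.B.E0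
import Pool.Agent.MP_88bd62_nt.B.E1
import Pool.Agent.MP_88bd62_nt.B.E2
import Pool.Agent.MP_88bd62_nt.B.E3
import Pool.Agent.MP_88bd62_nt.B.E4
import Pool.Agent.MP_88bd62_nt.B.E5
import Pool.Agent.MP_88bd62_nt.B.E6
import Pool.Agent.MP_88bd62_nt.B.E7
import Pool.Agent.MP_88bd62_nt.B.V.B0
import Pool.Agent.MP_88bd62_nt.B.V.B1
import Pool.Agent.MP_88bd62_nt.B.V.B2
import Pool.Agent.MP_88bd62_nt.B.V.B3
import Pool.Agent.MP_88bd62_nt.B.V.B4
import Pool.Agent.MP_88bd62_nt.B.V.B5
import Pool.Agent.MP_88bd62_nt.B.V.B6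
import Pool.Agent.MP_88bd62_nt.B.V.B7
import Pool.Agent.MP_88bd62_nt.B.V.B8
import Pool.Agent.MP_88bd62_nt.B.V.B9
import Pool.Agent.MP_88bd62_nt.B.V.B10
import Pool.Agent.MP_88bd62_nt.B.V.B11
import Pool.Agent.MP_88bd62_nt.B.V.B12
import Pool.Agent.MP_88bd62_nt.B.V.B13
import Pool.Agent.MP_88bd62_nt.B.V.B14
import Pool.Agent.MP_88bd62_nt.B.V.B15
import Pool.Agent.MP_88bd62_nt.B.V.B16
import Pool.Agent.MP_88bd62_nt.B.V.B17
import Pool.Agent.MP_88bd62_nt.B.V.B18
import Pool.Agent.MP_88bd62_nt.B.V.B19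
import Pool.Agent.MP_88bd62_nt.B.V.B20
import Pool.Agent.MP_88bd62_nt.B.V.B21
import Pool.Agent.MP_88bd62_nt.B.V.B22
import Pool.Agent.MP_88bd62_nt.B.V.B23
import Pool.Agent.MP_88bd62_nt.B.V.B24
import Pool.Agent.MP_88bd62_nt.B.V.B25
import Pool.Agent.MP_88bd62_nt.B.V.C0
import Pool.Agent.MP_88bd62_nt.B.V.C1
import Pool.Agent.MP_88bd62_nt.B.V.C2
import Pool.Agent.MP_88bd62_nt.B.V.C3
import Pool.Agent.MP_88bd62_nt.B.V.C4
import Pool.Agent.MP_88bd62_nt.B.V.C5
import Pool.Agent.MP_88bd62_nt.B.V.C6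
import Pool.Agent.MP_88bd62_nt.B.V.W

/-! The numerical bounds for the zeta function and for the sum over the primes. -/

namespace Pool.Agent.MP_88bd62_nt.B

open Pool.Agent.MP_88bd62_nt.U

theorem tr_ok : chkT tr 65536 65536 = true :=
  chk_nd (chk_nd (chk_nd ok0 ok1 rfl rfl) (chk_nd ok2 ok3 rfl rfl) (s := 16384) rfl rfl)
    (chk_nd (chk_nd ok4 ok5 rfl rfl) (chk_nd ok6 ok7 rfl rfl) (s := 16384) rfl rfl)
    (s := 32768) rfl rfl

theorem sc' : StSc := stSc stTab

theorem point' : StPoint := stPoint (stRot sc') stSplA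

theorem core' : StCore :=
  stCore point' stPos (stCnv stSep stConv stRed (stKern (stComb sc') stConv stRed)) stSplB stFold
    stSplA

theorem data' : ∃ d, Data tr d :=
  stTree (stBlk (stItem (stLf1 sc') (stHor stSplA) stSplA) stFlg stLog) stPos tr tr_ok

theorem winB' : StWinB := stWinB core' stGam stThr stXlo stDirs

theorem winC' : StWinC := stWinC core' stGam stThr stXlo stDirs point'

theorem numW (hT : StTail) (hE : StEM1) : NumW := by
  obtain ⟨d, hd⟩ := data'
  exact stW core' stGam stThr stXlo stMd stCls stFinW (stTailB hT hE) tr d hd wW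

theorem numB (hT : StTail) (hE : StEM1) : NumB (2 ^ 23) (1 / 6) ∧ NumB (2 ^ 25) (1 / 10) := by
  obtain ⟨d, hd⟩ := data'
  have hZ := stTailB hT hE
  have g0 := (covW (numW hT hE)).mono (show (1 / 6 : ℝ) ≤ 1 / 5 by norm_num)
  have g1 := g0.trans (covB winB' hZ hd wB0 (1 / 6) 2152 2097153 4628993
    (by norm_num) (by norm_num))
  have g2 := g1.trans (covB winB' hZ hd wB1 (1 / 6) 2651 4628993 7027713
    (by norm_num) (by norm_num))
  have g3 := g2.trans (covB winB' hZ hd wB2 (1 / 6) 3087 7027713 9528833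
    (by norm_num) (by norm_num))
  have g4 := g3.trans (covB winB' hZ hd wB3 (1 / 6) 3465 9528833 12004353
    (by norm_num) (by norm_num))
  have g5 := g4.trans (covB winB' hZ hd wB4 (1 / 6) 3794 12004353 14392833
    (by norm_num) (by norm_num))
  have g6 := g5.trans (covB winB' hZ hd wB5 (1 / 6) 4103 14392833 16829953
    (by norm_num) (by norm_num))
  have g' := g6.mono (show (1 / 10 : ℝ) ≤ 1 / 6 by norm_num)
  have g7 := g'.trans (covB winB' hZ hd wB6 (1 / 10) 4415 16829953 19487233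
    (by norm_num) (by norm_num))
  have g8 := g7.trans (covB winB' hZ hd wB7 (1 / 10) 4703 19487233 22111233
    (by norm_num) (by norm_num))
  have g9 := g8.trans (covB winB' hZ hd wB8 (1 / 10) 4975 22111233 24748033
    (by norm_num) (by norm_num))
  have g10 := g9.trans (covB winB' hZ hd wB9 (1 / 10) 5235 24748033 27402753
    (by norm_num) (by norm_num))
  have g11 := g10.trans (covB winB' hZ hd wB10 (1 / 10) 5483 27402753 30054913
    (by norm_num) (by norm_num))
  have g12 := g11.trans (covB winB' hZ hd wB11 (1 / 10) 5715 30054913 32660993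
    (by norm_num) (by norm_num))
  have g13 := g12.trans (covB winB' hZ hd wB12 (1 / 10) 5937 32660993 35244033
    (by norm_num) (by norm_num))
  have g14 := g13.trans (covB winB' hZ hd wB13 (1 / 10) 6154 35244033 37865473
    (by norm_num) (by norm_num))
  have g15 := g14.trans (covB winB' hZ hd wB14 (1 / 10) 6360 37865473 40448513
    (by norm_num) (by norm_num))
  have g16 := g15.trans (covB winB' hZ hd wB15 (1 / 10) 6562 40448513 43052033
    (by norm_num) (by norm_num))
  have g17 := g16.trans (covB winB' hZ hd wB16 (1 / 10) 6754 43052033 45612033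
    (by norm_num) (by norm_num))
  have g18 := g17.trans (covB winB' hZ hd wB17 (1 / 10) 6933 45612033 48061953
    (by norm_num) (by norm_num))
  have g19 := g18.trans (covB winB' hZ hd wB18 (1 / 10) 7116 48061953 50632193
    (by norm_num) (by norm_num))
  have g20 := g19.trans (covB winB' hZ hd wB19 (1 / 10) 7296 50632193 53230593
    (by norm_num) (by norm_num))
  have g21 := g20.trans (covB winB' hZ hd wB20 (1 / 10) 7469 53230593 55782913
    (by norm_num) (by norm_num))
  have g22 := g21.trans (covB winB' hZ hd wB21 (1 / 10) 7638 55782913 58332673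
    (by norm_num) (by norm_num))
  have g23 := g22.trans (covB winB' hZ hd wB22 (1 / 10) 7792 58332673 60705793
    (by norm_num) (by norm_num))
  have g24 := g23.trans (covB winB' hZ hd wB23 (1 / 10) 7957 60705793 63301633
    (by norm_num) (by norm_num))
  have g25 := g24.trans (covB winB' hZ hd wB24 (1 / 10) 8106 63301633 65692673
    (by norm_num) (by norm_num))
  have g26 := g25.trans (covB winB' hZ hd wB25 (1 / 10) 8193 65692673 67109377
    (by norm_num) (by norm_num))
  exact ⟨g6.num (by norm_num), g26.num (by norm_num)⟩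

theorem numC : NumC 16 (2 ^ 23) 1.23 := by
  obtain ⟨d, hd⟩ := data'
  have g0 := covC winC' hd wC0 1 2667521 (by norm_num)
  have g1 := g0.trans (covC winC' hd wC1 2667521 5335041 (by norm_num))
  have g2 := g1.trans (covC winC' hd wC2 5335041 8002561 (by norm_num))
  have g3 := g2.trans (covC winC' hd wC3 8002561 10547201 (by norm_num))
  have g4 := g3.trans (covC winC' hd wC4 10547201 13214721 (by norm_num))
  have g5 := g4.trans (covC winC' hd wC5 13214721 15882241 (by norm_num))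
  have g6 := g5.trans (covC winC' hd wC6 15882241 16777729 (by norm_num))
  exact g6.num (by norm_num)

end Pool.Agent.MP_88bd62_nt.B
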