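import Pool.Agent.MP_90395b_gt.BnDig
import Pool.Agent.MP_88bd62_nt.B.Eqs

/-! More facts on packed sequences. -/

namespace Pool.Agent.MP_88bd62_nt.B

open Finset Pool.Agent.MP_90395b_gt.Bn

theorem pk_lt {w n : ℕ} {f : ℕ → ℕ} (hf : Bd n (2 ^ w) f) : pk w n f < 2 ^ (w * n) :=
  (dig_pk w n f hf).2

theorem dig_pk' {w n : ℕ} {f : ℕ → ℕ} (hf : Bd n (2 ^ w) f) {i : ℕ} (hi : i < n) :
    dig w (pk w n f) i = f i := by rw [(dig_pk w n f hf).1, if_pos hi]

theorem pk_inj {w n : ℕ} {f g : ℕ → ℕ} (hf : Bd n (2 ^ w) f) (hg : Bd n (2 ^ w) g)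
    (h : pk w n f = pk w n g) {i : ℕ} (hi : i < n) : f i = g i := by
  rw [← dig_pk' hf hi, h, dig_pk' hg hi]

theorem pk_mono {w n : ℕ} {f g : ℕ → ℕ} (h : ∀ i < n, f i ≤ g i) : pk w n f ≤ pk w n g :=
  sum_le_sum fun i hi => Nat.mul_le_mul_right _ (h i (mem_range.1 hi))

theorem pk_sub {w n : ℕ} {f g : ℕ → ℕ} (h : ∀ i < n, g i ≤ f i) :
    pk w n f - pk w n g = pk w n (fun i => f i - g i) := by
  have : pk w n f = pk w n (fun i => f i - g i) + pk w n g := by
    rw [← pk_add]; exact pk_congr fun i hi => by have := h i hi; omega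
  omega

theorem pk_add' (w n : ℕ) (f g : ℕ → ℕ) : pk w n f + pk w n g = pk w n (fun i => f i + g i) :=
  (pk_add w n f g).symm

theorem pk_mul' (w n k : ℕ) (f : ℕ → ℕ) : pk w n f * k = pk w n (fun i => f i * k) := by
  rw [mul_comm, ← pk_mul]; exact pk_congr fun i _ => mul_comm _ _

theorem pk_shl (w n k : ℕ) (f : ℕ → ℕ) : pk w n f <<< k = pk w n (fun i => f i * 2 ^ k) := by
  rw [Nat.shiftLeft_eq, pk_mul']

theorem dig_lor (w A C i : ℕ) : dig w (A ||| C) i = dig w A i ||| dig w C i := by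
  unfold dig
  rw [Nat.or_div_two_pow, Nat.or_mod_two_pow]

theorem pk_land {w n : ℕ} {f g : ℕ → ℕ} (hf : Bd n (2 ^ w) f) (hg : Bd n (2 ^ w) g) :
    pk w n f &&& pk w n g = pk w n (fun i => f i &&& g i) := by
  rw [land_pk _ hg]; exact pk_congr fun i hi => by rw [dig_pk' hf hi]

theorem pk_lor {w n : ℕ} {f g : ℕ → ℕ} (hf : Bd n (2 ^ w) f) (hg : Bd n (2 ^ w) g) :
    pk w n f ||| pk w n g = pk w n (fun i => f i ||| g i) := by
  rw [pk_dig w n _ (Nat.or_lt_two_pow (pk_lt hf) (pk_lt hg))]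
  exact pk_congr fun i hi => by rw [dig_lor, dig_pk' hf hi, dig_pk' hg hi]

/-- entrywise shift and truncation -/
theorem pk_flo {w n : ℕ} (hw0 : 0 < w) {f : ℕ → ℕ} (hf : Bd n (2 ^ w) f) {e t : ℕ}
    (hw : e + t ≤ w) :
    (pk w n f >>> e) &&& pk w n (fun _ => 2 ^ t - 1) = pk w n (fun i => f i / 2 ^ e % 2 ^ t) := by
  rw [← const_pk hw0, flo_pk hw0 hf hw]

theorem ones_eq' (s : ℕ) : ones s = 2 ^ s - 1 := by rw [ones_eq, Nat.one_shiftLeft]

theorem ones_div {w : ℕ} (hw : 0 < w) (n : ℕ) : ones (w * n) / (2 ^ w - 1) = pk w n (fun _ => 1) := by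
  rw [ones_eq', ← geo_eq hw, geo_def]

theorem ones_pk {w : ℕ} (hw : 0 < w) (n : ℕ) : ones (w * n) = pk w n (fun _ => 2 ^ w - 1) := by
  rw [← const_pk hw, geo_def, ones_eq', Nat.mul_div_cancel']
  rw [pow_mul]
  exact Nat.sub_one_dvd_pow_sub_one _ _

theorem pk_append (w a b : ℕ) (f : ℕ → ℕ) :
    pk w (a + b) f = pk w a f + pk w b (fun i => f (a + i)) * 2 ^ (w * a) := by
  unfold pk
  rw [sum_range_add, sum_mul]
  refine congrArg _ (sum_congr rfl fun i _ => ?_)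
  rw [mul_add, pow_add]; ring

/-- a segment -/
theorem pk_seg {w n o L : ℕ} {f : ℕ → ℕ} (hf : Bd n (2 ^ w) f) (h : o + L ≤ n) :
    (pk w n f >>> (w * o)) &&& ones (w * L) = pk w L (fun i => f (o + i)) := by
  rw [ones_eq', Nat.and_two_pow_sub_one_eq_mod, pk_dig w L _ (Nat.mod_lt _ (by positivity))]
  refine pk_congr fun i hi => ?_
  obtain ⟨c, rfl⟩ := Nat.exists_eq_add_of_lt hi
  rw [← dig_pk' hf (show o + i < n by omega), add_comm o i, ← dig_shift,
    Nat.shiftRight_eq_div_pow]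
  unfold dig
  rw [show w * (i + c + 1) = w * i + (w + w * c) by ring, pow_add, Nat.mod_mul_right_div_self,
    Nat.mod_mod_of_dvd _ (pow_dvd_pow 2 (by omega))]

theorem pk_mod {w n : ℕ} (f : ℕ → ℕ) (h : ∑ i ∈ range n, f i < 2 ^ w - 1) :
    pk w n f % (2 ^ w - 1) = ∑ i ∈ range n, f i := by
  rw [← Nat.mod_eq_of_lt h]
  have h1 : 2 ^ w ≡ 1 [MOD 2 ^ w - 1] :=
    ((Nat.modEq_iff_dvd' Nat.one_le_two_pow).2 dvd_rfl).symm
  refine Nat.ModEq.sum fun i _ => ?_
  have := (h1.pow i).mul_left (f i)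
  rwa [one_pow, mul_one, ← pow_mul] at this

theorem cat_pk (f : ℕ → ℕ) (s n : ℕ) : ∀ lo, cat f s n lo = pk s (2 ^ n) (fun i => f (lo + i)) := by
  induction n with
  | zero => intro lo; simp [cat_zero, pk]
  | succ k ih =>
    intro lo
    rw [cat_succ, ih, ih, pow_succ, mul_two, pk_append, Nat.one_shiftLeft, Nat.shiftLeft_eq,
      Nat.shiftLeft_eq]
    simp only [add_assoc]

/-- a product of a vector with wide slots and a short vector -/
theorem pk_mul_pk (w a n : ℕ) (g v : ℕ → ℕ) :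
    pk (w * a) n g * pk w a v = pk w (n * a) (fun i => g (i / a) * v (i % a)) := by
  unfold pk
  rw [sum_range_mul', sum_mul]
  refine sum_congr rfl fun i _ => ?_
  rw [mul_sum]
  refine sum_congr rfl fun j hj => ?_
  have hj := mem_range.1 hj
  have ha : 0 < a := by omega
  beta_reduce
  rw [show (i * a + j) / a = i by
      rw [add_comm, Nat.add_mul_div_right _ _ ha, Nat.div_eq_of_lt hj, zero_add],
    show (i * a + j) % a = j by rw [add_comm, Nat.add_mul_mod_self_right, Nat.mod_eq_of_lt hj],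
    show w * (i * a + j) = w * a * i + w * j by ring, pow_add]
  ring

theorem band_pk (th : ℕ → ℕ) (bw : ℕ) : band th bw = pk 48 (256 * bw) (fun l => th (l / bw)) := by
  rw [band_eq, cat_pk, ones_div (by norm_num), pk_mul_pk]
  exact pk_congr fun i _ => by simp

end Pool.Agent.MP_88bd62_nt.B
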