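import Pool.Agent.MP_88bd62_nt.B.Defs

/-! The table of roots of unity. -/

namespace Pool.Agent.MP_88bd62_nt.B

open Finset Real Pool.Agent.MP_88bd62_nt.U

noncomputable section

/-- The approximation of the rotation by one step. -/
def xTab_W : ℂ := (1152899801185339772 - 7074193361797233 * Complex.I) / 2 ^ 60

def xTab_f (a b : ℤ) : ℤ := (a * 1152899801185339772 + b * 7074193361797233) / 2 ^ 60

def xTab_g (a b : ℤ) : ℤ := (b * 1152899801185339772 - a * 7074193361797233) / 2 ^ 60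

def xTab_Z (a b : ℤ) : ℂ := (a + b * Complex.I) / 2 ^ 60

def xTab_ok (k : ℕ) (a b : ℤ) : Bool :=
  decide (2 ^ 20 ≤ tre k ∧ tre k ≤ 3 * 2 ^ 20 ∧ 2 ^ 20 ≤ tim k ∧ tim k ≤ 3 * 2 ^ 20 ∧
    100 * ((((tre k : ℤ) - 2 ^ 21) * 2 ^ 40 - a) ^ 2 + (((tim k : ℤ) - 2 ^ 21) * 2 ^ 40 - b) ^ 2) ≤
      49 * 2 ^ 80)

def xTab_chk : ℕ → ℕ → ℤ → ℤ → Bool
  | 0, _, _, _ => true
  | n + 1, k, a, b => xTab_ok k a b && xTab_chk n (k + 1) (xTab_f a b) (xTab_g a b)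

theorem xTab_run : xTab_chk 1026 0 (2 ^ 60) 0 = true := by decide +kernel

theorem xTab_norm (x : ℝ) : ‖ex x‖ = 1 := Complex.norm_exp_ofReal_mul_I _

theorem xTab_W_le : ‖xTab_W - ex (-1 / 1024)‖ ≤ 1 / 10 ^ 14 := by
  obtain ⟨q, hq⟩ : ∃ q : ℝ, q = 3.14159265358979323846 / 512 := ⟨_, rfl⟩
  have h1 : ‖Complex.exp (Complex.I * (-q : ℝ)) - ex (-1 / 1024)‖ ≤ 1 / 10 ^ 20 := by
    have e : Complex.exp (Complex.I * (-q : ℝ)) - ex (-1 / 1024) =
        ex (-1 / 1024) * (Complex.exp (Complex.I * (π / 512 - q : ℝ)) - 1) := by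
      rw [mul_sub, mul_one, ex, ← Complex.exp_add]
      congr 2
      push_cast
      ring
    rw [e, norm_mul, xTab_norm, one_mul]
    refine Real.norm_exp_I_mul_ofReal_sub_one_le.trans ?_
    rw [Real.norm_eq_abs, abs_le, hq]
    constructor <;> linarith [Real.pi_gt_d20, Real.pi_lt_d20]
  have h2 : ‖Complex.I * (-q : ℝ)‖ = q := by
    rw [norm_mul, Complex.norm_I, one_mul, Complex.norm_real, norm_neg, Real.norm_of_nonneg]
    rw [hq]; norm_num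
  have h3 := Complex.exp_bound (x := Complex.I * (-q : ℝ)) (by rw [h2, hq]; norm_num) (n := 6)
    (by norm_num)
  have h4 : ∑ m ∈ range 6, (Complex.I * (-q : ℝ)) ^ m / (m.factorial : ℂ) =
      (1 - q ^ 2 / 2 + q ^ 4 / 24 : ℝ) + (-q + q ^ 3 / 6 - q ^ 5 / 120 : ℝ) * Complex.I := by
    simp only [sum_range_succ, range_zero, sum_empty, Nat.factorial]
    push_cast
    linear_combination (q ^ 2 / 2 - Complex.I * q ^ 3 / 6 + (Complex.I ^ 2 - 1) * q ^ 4 / 24 -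
      Complex.I * (Complex.I ^ 2 - 1) * q ^ 5 / 120) * Complex.I_sq
  rw [h2, h4, norm_sub_rev] at h3
  have h5 : ‖xTab_W - ((1 - q ^ 2 / 2 + q ^ 4 / 24 : ℝ) +
      (-q + q ^ 3 / 6 - q ^ 5 / 120 : ℝ) * Complex.I)‖ ≤ 1 / 10 ^ 18 := by
    have e : xTab_W - ((1 - q ^ 2 / 2 + q ^ 4 / 24 : ℝ) +
        (-q + q ^ 3 / 6 - q ^ 5 / 120 : ℝ) * Complex.I) =
        (1152899801185339772 / 2 ^ 60 - (1 - q ^ 2 / 2 + q ^ 4 / 24) : ℝ) +
        (-7074193361797233 / 2 ^ 60 - (-q + q ^ 3 / 6 - q ^ 5 / 120) : ℝ) * Complex.I := by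
      rw [xTab_W]; push_cast; ring
    rw [e]
    refine (norm_add_le _ _).trans ?_
    rw [norm_mul, Complex.norm_I, mul_one, Complex.norm_real, Complex.norm_real, hq]
    norm_num [abs_of_nonneg, abs_of_nonpos]
  have h6 : q ^ 6 * (((6 : ℕ).succ : ℝ) * (((6 : ℕ).factorial : ℝ) * (6 : ℕ))⁻¹) ≤ 1 / 10 ^ 15 := by
    rw [hq]; norm_num [Nat.factorial]
  refine (norm_sub_le_norm_sub_add_norm_sub _ _ _).trans ((add_le_add
    ((norm_sub_le_norm_sub_add_norm_sub _ _ _).trans (add_le_add h5 (h3.trans h6))) h1).trans ?_)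
  norm_num

theorem xTab_div (x : ℤ) : |((x / 2 ^ 60 : ℤ) : ℝ) - x / 2 ^ 60| ≤ 1 := by
  have h1 : ((2 ^ 60 * (x / 2 ^ 60) + x % 2 ^ 60 : ℤ) : ℝ) = x := by
    rw [Int.mul_ediv_add_emod]
  have h2 : ((0 : ℤ) : ℝ) ≤ (x % 2 ^ 60 : ℤ) := Int.cast_le.2 (Int.emod_nonneg _ (by norm_num))
  have h3 : ((x % 2 ^ 60 : ℤ) : ℝ) ≤ (2 ^ 60 : ℤ) :=
    Int.cast_le.2 (Int.emod_lt_of_pos _ (by norm_num)).le
  rw [Int.cast_add, Int.cast_mul] at h1
  generalize ((x / 2 ^ 60 : ℤ) : ℝ) = y at *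
  generalize ((x % 2 ^ 60 : ℤ) : ℝ) = z at *
  rw [abs_le]
  norm_num at *
  constructor <;> linarith

theorem xTab_step (a b : ℤ) :
    ‖xTab_Z (xTab_f a b) (xTab_g a b) - xTab_Z a b * xTab_W‖ ≤ 1 / 10 ^ 14 := by
  have h1 := xTab_div (a * 1152899801185339772 + b * 7074193361797233)
  have h2 := xTab_div (b * 1152899801185339772 - a * 7074193361797233)
  rw [← xTab_f] at h1
  rw [← xTab_g] at h2
  have e : xTab_Z (xTab_f a b) (xTab_g a b) - xTab_Z a b * xTab_W =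
      (((xTab_f a b : ℝ) - (a * 1152899801185339772 + b * 7074193361797233 : ℤ) / 2 ^ 60 : ℝ) +
      ((xTab_g a b : ℝ) - (b * 1152899801185339772 - a * 7074193361797233 : ℤ) / 2 ^ 60 : ℝ) *
        Complex.I) / 2 ^ 60 := by
    rw [xTab_Z, xTab_Z, xTab_W]
    push_cast
    linear_combination ((b : ℂ) * 7074193361797233 / 2 ^ 120) * Complex.I_sq
  rw [e, norm_div, div_le_iff₀ (by norm_num)]
  refine (norm_add_le _ _).trans ?_
  rw [norm_mul, Complex.norm_I, mul_one, Complex.norm_real, Complex.norm_real]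
  refine (add_le_add h1 h2).trans ?_
  norm_num

theorem xTab_ind : ∀ (n k : ℕ) (a b : ℤ), k + n ≤ 1026 →
    ‖xTab_Z a b - ex (-(k : ℝ) / 1024)‖ ≤ k * (3 / 10 ^ 14) → xTab_chk n k a b = true →
    ∀ j, k ≤ j → j < k + n → ∃ a b : ℤ, xTab_ok j a b = true ∧
      ‖xTab_Z a b - ex (-(j : ℝ) / 1024)‖ ≤ 1 / 10 ^ 10
  | 0, k, _, _, _, _, _, j, h, h' => by omega
  | n + 1, k, a, b, hk, he, hc, j, h, h' => by
    rw [xTab_chk, Bool.and_eq_true] at hc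
    have hk' : (k : ℝ) ≤ 1026 := by exact_mod_cast (by omega : k ≤ 1026)
    rcases h.eq_or_lt with rfl | h
    · exact ⟨a, b, hc.1, by linarith⟩
    refine xTab_ind n (k + 1) _ _ (by omega) ?_ hc.2 j h (by omega)
    have e : ex (-((k + 1 : ℕ) : ℝ) / 1024) = ex (-(k : ℝ) / 1024) * ex (-1 / 1024) := by
      rw [ex, ex, ex, ← Complex.exp_add]
      congr 1
      push_cast
      ring
    have h1 : ‖xTab_Z a b‖ ≤ 2 := by
      have h2 := norm_sub_norm_le (xTab_Z a b) (ex (-(k : ℝ) / 1024))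
      rw [xTab_norm] at h2
      linarith
    have e2 : xTab_Z a b * xTab_W - ex (-(k : ℝ) / 1024) * ex (-1 / 1024) =
        xTab_Z a b * (xTab_W - ex (-1 / 1024)) +
          (xTab_Z a b - ex (-(k : ℝ) / 1024)) * ex (-1 / 1024) := by ring
    have h3 : ‖xTab_Z a b * xTab_W - ex (-(k : ℝ) / 1024) * ex (-1 / 1024)‖ ≤
        2 * (1 / 10 ^ 14) + k * (3 / 10 ^ 14) := by
      rw [e2]
      refine (norm_add_le _ _).trans ?_
      rw [norm_mul, norm_mul, xTab_norm, mul_one]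
      exact add_le_add (mul_le_mul h1 xTab_W_le (norm_nonneg _) zero_le_two) he
    rw [e]
    refine (norm_sub_le_norm_sub_add_norm_sub _ _ _).trans ((add_le_add (xTab_step a b) h3).trans
      (le_of_eq ?_))
    push_cast
    ring

theorem stTab : StTab := by
  intro k hk
  obtain ⟨a, b, h1, h2⟩ := xTab_ind 1026 0 (2 ^ 60) 0 le_rfl (by simp [xTab_Z, ex]; norm_num)
    xTab_run k (Nat.zero_le k) (by omega)
  obtain ⟨h3, h4, h5, h6, h7⟩ := of_decide_eq_true h1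
  refine ⟨h3, h4, h5, h6, ?_⟩
  generalize tre k = s at h7
  generalize tim k = t at h7
  have h8 : (100 : ℝ) * ((((s : ℝ) - 2 ^ 21) * 2 ^ 40 - a) ^ 2 + (((t : ℝ) - 2 ^ 21) * 2 ^ 40 - b) ^ 2) ≤
      49 * 2 ^ 80 := by exact_mod_cast h7
  have e : cz s t (2 ^ 21) / 2 ^ 20 - xTab_Z a b =
      ((((s : ℝ) - 2 ^ 21) * 2 ^ 40 - a : ℝ) + (((t : ℝ) - 2 ^ 21) * 2 ^ 40 - b : ℝ) * Complex.I) /
        2 ^ 60 := by
    rw [cz, xTab_Z]; push_cast; ring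
  have h9 : ‖cz s t (2 ^ 21) / 2 ^ 20 - xTab_Z a b‖ ≤ 0.7 / 2 ^ 20 := by
    rw [e, norm_div, Complex.norm_add_mul_I, div_le_iff₀ (by norm_num)]
    refine Real.sqrt_le_iff.2 ⟨by positivity, ?_⟩
    generalize ((s : ℝ) - 2 ^ 21) * 2 ^ 40 - a = x at h8 ⊢
    generalize ((t : ℝ) - 2 ^ 21) * 2 ^ 40 - b = y at h8 ⊢
    norm_num at h8 ⊢
    linarith
  refine (norm_sub_le_norm_sub_add_norm_sub _ _ _).trans ((add_le_add h9 h2).trans ?_)
  norm_num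

end

end Pool.Agent.MP_88bd62_nt.B
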